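import Mathlib

set_option autoImplicit false

namespace Pool.Agent.H14Count

open Finset

variable {V : Type} [Fintype V] [DecidableEq V]

def top (f : V → ℕ) (p : V × V) : V := if f p.1 < f p.2 then p.2 else p.1

def rk (E : Finset (V × V)) (f : V → ℕ) (v : V) : ℕ := (E.filter fun p => top f p = v).card

def dg (E : Finset (V × V)) (v : V) : ℕ := (E.filter fun p => p.1 = v ∨ p.2 = v).card

omit [Fintype V] [DecidableEq V] in
theorem top_mem (f : V → ℕ) (p : V × V) : p.1 = top f p ∨ p.2 = top f p := by
  unfold top; split_ifs <;> simp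

omit [Fintype V] [DecidableEq V] in
theorem le_top (f : V → ℕ) (p : V × V) (v : V) (h : p.1 = v ∨ p.2 = v) : f v ≤ f (top f p) := by
  unfold top; rcases h with rfl | rfl <;> split_ifs <;> omega

omit [Fintype V] in
theorem rk_le (E : Finset (V × V)) (f : V → ℕ) (v : V) : rk E f v ≤ dg E v := by
  apply card_le_card
  intro p hp
  simp only [mem_filter] at hp ⊢
  refine ⟨hp.1, ?_⟩
  rw [← hp.2]; exact top_mem f p

omit [Fintype V] in
theorem top_eq (E : Finset (V × V)) (f g : V → ℕ) (hf : Function.Injective f)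
    (h : ∀ v, rk E f v = rk E g v) : ∀ p ∈ E, top f p = top g p := by
  by_contra hne
  push Not at hne
  have hD : (E.filter fun p => top f p ≠ top g p).Nonempty := by
    obtain ⟨p, hp, hp'⟩ := hne
    exact ⟨p, mem_filter.2 ⟨hp, hp'⟩⟩
  obtain ⟨p0, hp0, hmax⟩ := exists_max_image _ (fun p => f (top f p)) hD
  have hp0' := mem_filter.1 hp0
  have hlt : rk E g (top f p0) < rk E f (top f p0) := by
    apply card_lt_card
    refine ⟨?_, ?_⟩
    · intro p hp
      simp only [mem_filter] at hp ⊢
      refine ⟨hp.1, ?_⟩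
      by_contra hc
      have h1 := hmax p (mem_filter.2 ⟨hp.1, by rw [hp.2]; exact hc⟩)
      have h2 := le_top f p (top f p0) (by rw [← hp.2]; exact top_mem g p)
      exact hc (hf (le_antisymm h1 h2))
    · intro hsub
      have := hsub (mem_filter.2 ⟨hp0'.1, rfl⟩)
      exact hp0'.2 (mem_filter.1 this).2.symm
  rw [h] at hlt
  exact lt_irrefl _ hlt

omit [Fintype V] [DecidableEq V] in
theorem lt_iff_of_top (f g : V → ℕ) (p : V × V) (h : top f p = top g p) :
    f p.1 < f p.2 ↔ g p.1 < g p.2 := by
  unfold top at h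
  by_cases h1 : f p.1 < f p.2 <;> by_cases h2 : g p.1 < g p.2 <;> simp [h1, h2] at h ⊢
  · rw [h] at h1; exact lt_irrefl _ h1
  · rw [h] at h2; exact lt_irrefl _ h2

theorem sum_dg (E : Finset (V × V)) : ∑ v, dg E v ≤ 2 * E.card := by
  have h1 : ∀ v, dg E v ≤ (E.filter fun p => p.1 = v).card + (E.filter fun p => p.2 = v).card := by
    intro v; unfold dg; rw [filter_or]; exact card_union_le _ _
  have h2 : ∑ v, (E.filter fun p => p.1 = v).card = E.card :=
    (card_eq_sum_card_fiberwise (f := fun p : V × V => p.1) (t := univ) (fun _ _ => mem_univ _)).symm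
  have h3 : ∑ v, (E.filter fun p => p.2 = v).card = E.card :=
    (card_eq_sum_card_fiberwise (f := fun p : V × V => p.2) (t := univ) (fun _ _ => mem_univ _)).symm
  calc ∑ v, dg E v ≤ ∑ v, ((E.filter fun p => p.1 = v).card + (E.filter fun p => p.2 = v).card) :=
        sum_le_sum fun v _ => h1 v
    _ = 2 * E.card := by rw [sum_add_distrib, h2, h3]; ring

theorem pow_le (M x : ℕ) : (x + 1) ^ M ≤ 2 ^ (M.factorial + M) * 2 ^ x := by
  calc (x + 1) ^ M ≤ (x + 1).ascFactorial M := Nat.pow_succ_le_ascFactorial _ _
    _ = M.factorial * (x + M).choose M := Nat.ascFactorial_eq_factorial_mul_choose _ _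
    _ ≤ 2 ^ M.factorial * 2 ^ (x + M) :=
        Nat.mul_le_mul (Nat.lt_two_pow_self).le (Nat.choose_le_two_pow _ _)
    _ = _ := by ring

/-- If every subset of E is cut out by d injective rankings, then E is sparse. -/
theorem count (d : ℕ) (E : Finset (V × V))
    (h : ∀ S ⊆ E, ∃ f : Fin d → V → ℕ, (∀ i, Function.Injective (f i)) ∧
      ∀ p ∈ E, (p ∈ S ↔ ∀ i, f i p.1 < f i p.2)) :
    E.card ≤ ((4 * d).factorial + 4 * d) * Fintype.card V := by
  classical
  choose! F hF using h
  have hinj : Set.InjOn (fun S : Finset (V × V) => fun i v => rk E (F S i) v) (E.powerset : Set _) := by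
    intro S hS T hT hST
    have hS' : S ⊆ E := by simpa using hS
    have hT' : T ⊆ E := by simpa using hT
    have key : ∀ p ∈ E, (p ∈ S ↔ p ∈ T) := by
      intro p hp
      rw [(hF S hS').2 p hp, (hF T hT').2 p hp]
      refine forall_congr' fun i => lt_iff_of_top _ _ _ ?_
      exact top_eq E _ _ ((hF S hS').1 i) (fun v => congrFun (congrFun hST i) v) p hp
    ext p
    exact ⟨fun hp => (key p (hS' hp)).1 hp, fun hp => (key p (hT' hp)).2 hp⟩
  have hle := card_le_card_of_injOn _ (t := Fintype.piFinset fun _ : Fin d =>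
      Fintype.piFinset fun v : V => range (dg E v + 1)) (by
        intro S _
        simp only [mem_coe, Fintype.mem_piFinset, mem_range]
        intro i v
        exact Nat.lt_succ_of_le (rk_le _ _ _)) hinj
  simp only [card_powerset, Fintype.card_piFinset, card_range, prod_const, card_univ,
    Fintype.card_fin] at hle
  have h4 : 2 ^ (4 * E.card) ≤ 2 ^ (((4 * d).factorial + 4 * d) * Fintype.card V + 2 * E.card) := by
    calc 2 ^ (4 * E.card) = (2 ^ E.card) ^ 4 := by ring
      _ ≤ ((∏ v, (dg E v + 1)) ^ d) ^ 4 := Nat.pow_le_pow_left hle 4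
      _ = ∏ v, (dg E v + 1) ^ (4 * d) := by rw [prod_pow, ← pow_mul, mul_comm]
      _ ≤ ∏ v, (2 ^ ((4 * d).factorial + 4 * d) * 2 ^ dg E v) :=
          prod_le_prod' fun v _ => pow_le _ _
      _ = 2 ^ (((4 * d).factorial + 4 * d) * Fintype.card V + ∑ v, dg E v) := by
          rw [prod_mul_distrib, prod_const, prod_pow_eq_pow_sum, card_univ, ← pow_mul, pow_add]
      _ ≤ _ := Nat.pow_le_pow_right (by norm_num) (Nat.add_le_add_left (sum_dg E) _)
  have h5 := (Nat.pow_le_pow_iff_right (by norm_num : 1 < 2)).1 h4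
  omega

/-- A large directed cut. -/
theorem cut (D : Finset (V × V)) (hD : ∀ p ∈ D, p.1 ≠ p.2) :
    ∃ c : V → Bool, D.card ≤ 4 * (D.filter fun p => c p.1 = false ∧ c p.2 = true).card := by
  classical
  by_contra hn
  push Not at hn
  have h1 : ∀ p ∈ D, Fintype.card (V → Bool) ≤
      4 * (univ.filter fun c : V → Bool => c p.1 = false ∧ c p.2 = true).card := by
    intro p hp
    have := card_le_card_of_injOn (s := (univ : Finset (V → Bool)))
      (t := (univ.filter fun c : V → Bool => c p.1 = false ∧ c p.2 = true) ×ˢ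
        (univ : Finset (Bool × Bool)))
      (fun c => (Function.update (Function.update c p.1 false) p.2 true, (c p.1, c p.2)))
      (by
        intro c _
        have := hD p hp
        simp [this])
      (by
        intro c _ c' _ hcc
        simp only [Prod.mk.injEq] at hcc
        funext v
        by_cases h2 : v = p.2
        · rw [h2]; exact hcc.2.2
        by_cases h1 : v = p.1
        · rw [h1]; exact hcc.2.1
        have := congrFun hcc.1 v
        simpa [Function.update_apply, h1, h2] using this)
    rw [card_product, card_univ, card_univ] at this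
    simp only [Fintype.card_prod, Fintype.card_bool] at this
    omega
  have h2 : ∑ p ∈ D, (univ.filter fun c : V → Bool => c p.1 = false ∧ c p.2 = true).card =
      ∑ c : V → Bool, (D.filter fun p => c p.1 = false ∧ c p.2 = true).card := by
    simp only [card_filter]
    exact sum_comm
  have h3 : ∑ c : V → Bool, 4 * (D.filter fun p => c p.1 = false ∧ c p.2 = true).card <
      ∑ _c : V → Bool, D.card := sum_lt_sum_of_nonempty univ_nonempty fun c _ => hn c
  have h4 : ∑ _p ∈ D, Fintype.card (V → Bool) ≤
      ∑ p ∈ D, 4 * (univ.filter fun c : V → Bool => c p.1 = false ∧ c p.2 = true).card :=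
    sum_le_sum h1
  rw [← mul_sum] at h3 h4
  rw [h2] at h4
  simp only [sum_const, card_univ, smul_eq_mul] at h3 h4
  rw [mul_comm] at h4
  omega

end Pool.Agent.H14Count
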