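import Mathlib

set_option autoImplicit false

/-! Lax's change of variables identity for maps that are the identity outside a ball. -/

namespace Pool.Agent.H14Deg

open MeasureTheory Filter Topology Set Metric Polynomial

variable {E : Type} [NormedAddCommGroup E] [NormedSpace ℝ E] [FiniteDimensional ℝ E]

theorem det_poly (A : E →L[ℝ] E) : ∃ q : ℝ[X], q.natDegree ≤ Module.finrank ℝ E ∧
    ∀ t : ℝ, (ContinuousLinearMap.id ℝ E + t • A).det = q.eval t := by
  classical
  let b := Module.finBasis ℝ E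
  let M := LinearMap.toMatrix b b (A : E →ₗ[ℝ] E)
  refine ⟨Matrix.det ((X : ℝ[X]) • M.map C + (1 : Matrix _ _ ℝ).map C), ?_, fun t => ?_⟩
  · simpa using Polynomial.natDegree_det_X_add_C_le M 1
  · rw [ContinuousLinearMap.det, ← LinearMap.det_toMatrix b, ← Polynomial.coe_evalRingHom,
      RingHom.map_det]
    congr 1
    ext i j
    simp [M, Matrix.one_apply, add_comm]
    split_ifs <;> simp [mul_comm]

/-- Continuous functions that are polynomial of bounded degree along lines. -/
def Pol (E : Type) [NormedAddCommGroup E] [NormedSpace ℝ E] : Subalgebra ℝ C(E, ℝ) where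
  carrier := {p | ∃ d : ℕ, ∀ a b : E, ∃ q : ℝ[X], q.natDegree ≤ d ∧ ∀ t : ℝ, p (a + t • b) = q.eval t}
  mul_mem' := by
    rintro p p' ⟨d, h⟩ ⟨d', h'⟩
    refine ⟨d + d', fun a b => ?_⟩
    obtain ⟨q, h1, h2⟩ := h a b
    obtain ⟨q', h1', h2'⟩ := h' a b
    exact ⟨q * q', natDegree_mul_le.trans (add_le_add h1 h1'), fun t => by simp [h2, h2']⟩
  add_mem' := by
    rintro p p' ⟨d, h⟩ ⟨d', h'⟩
    refine ⟨max d d', fun a b => ?_⟩
    obtain ⟨q, h1, h2⟩ := h a b
    obtain ⟨q', h1', h2'⟩ := h' a b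
    exact ⟨q + q', (natDegree_add_le _ _).trans (max_le_max h1 h1'), fun t => by simp [h2, h2']⟩
  algebraMap_mem' := fun r => ⟨0, fun a b => ⟨C r, by simp, fun t => by simp⟩⟩

omit [FiniteDimensional ℝ E] in
theorem Pol_sep : (Pol E).SeparatesPoints := by
  intro x y hxy
  obtain ⟨f, hf⟩ := SeparatingDual.exists_separating_of_ne (R := ℝ) hxy
  refine ⟨f, ⟨⟨f, f.continuous⟩, ⟨1, fun a b => ⟨C (f a) + C (f b) * X, ?_, fun t => ?_⟩⟩, rfl⟩, hf⟩
  · refine (natDegree_add_le _ _).trans (max_le (by simp) ?_)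
    exact (natDegree_C_mul_le _ _).trans natDegree_X_le
  · show f (a + t • b) = _
    rw [map_add, map_smul, eval_add, eval_mul, eval_C, eval_C, eval_X, smul_eq_mul, mul_comm]

theorem interp (D : ℕ) {ε : ℝ} (hε : 0 < ε) : ∃ (v w : ℕ → ℝ), (∀ i, 0 < v i ∧ v i ≤ ε) ∧
    ∀ q : ℝ[X], q.natDegree ≤ D → q.eval 1 = ∑ i ∈ Finset.range (D + 1), w i * q.eval (v i) := by
  classical
  let v : ℕ → ℝ := fun i => ε / (i + 1)
  have hv : Set.InjOn v (Finset.range (D + 1)) := by
    intro i _ j _ h
    simp only [v] at h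
    rw [div_eq_div_iff (by positivity) (by positivity)] at h
    have := mul_left_cancel₀ hε.ne' h
    have : (j : ℝ) = i := by linarith
    exact_mod_cast this.symm
  refine ⟨v, fun i => (Lagrange.basis (Finset.range (D + 1)) v i).eval 1, fun i => ⟨by positivity,
    div_le_self hε.le (by simp)⟩, fun q hq => ?_⟩
  have h := Lagrange.eq_interpolate (f := q) hv (by
    rw [Finset.card_range]
    exact lt_of_le_of_lt degree_le_natDegree (by exact_mod_cast Nat.lt_succ_of_le hq))
  conv_lhs => rw [h]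
  rw [Lagrange.interpolate_apply, eval_finsetSum]
  exact Finset.sum_congr rfl fun i _ => by simp [mul_comm]

variable [MeasurableSpace E] [BorelSpace E] (μ : Measure E) [μ.IsAddHaarMeasure]

theorem small_t {u : E → E} (hu : ContDiff ℝ 1 u) {R : ℝ} (hR : ∀ x, R < ‖x‖ → u x = 0) :
    ∃ ε > 0, ∀ t : ℝ, 0 < t → t ≤ ε → ∀ φ : E → ℝ,
      ∫ x in closedBall 0 R, (ContinuousLinearMap.id ℝ E + t • fderiv ℝ u x).det * φ (x + t • u x) ∂μ
        = ∫ x in closedBall 0 R, φ x ∂μ := by
  have hcs : HasCompactSupport u :=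
    HasCompactSupport.intro (isCompact_closedBall 0 R) fun x hx => hR x (by simpa using hx)
  obtain ⟨L, hL⟩ := hu.lipschitzWith_of_hasCompactSupport hcs one_ne_zero
  have hD : ∀ x, ‖fderiv ℝ u x‖ ≤ L := fun x => norm_fderiv_le_of_lipschitz ℝ hL
  obtain ⟨δ, hδ, hδ'⟩ : ∃ δ > 0, ∀ A : E →L[ℝ] E, ‖A‖ < δ →
      0 < (ContinuousLinearMap.id ℝ E + A).det := by
    have hc : Continuous fun A : E →L[ℝ] E => (ContinuousLinearMap.id ℝ E + A).det :=
      ContinuousLinearMap.continuous_det.comp (continuous_const.add continuous_id)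
    have := (isOpen_lt (continuous_const (y := (0 : ℝ))) hc).mem_nhds (x := 0) (by
      simp [ContinuousLinearMap.det])
    obtain ⟨δ, h1, h2⟩ := Metric.mem_nhds_iff.1 this
    exact ⟨δ, h1, fun A hA => h2 (by simpa using hA)⟩
  refine ⟨min δ 1 / (L + 1), by positivity, fun t ht htε φ => ?_⟩
  have htL : t * L < min δ 1 := by
    have h1 : t * (L + 1) ≤ min δ 1 := (le_div_iff₀ (by positivity)).1 htε
    nlinarith
  have happ : ApproximatesLinearOn (fun x => x + t • u x)
      ((ContinuousLinearEquiv.refl ℝ E : E ≃L[ℝ] E) : E →L[ℝ] E) univ (t.toNNReal * L) := by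
    intro x _ y _
    have : x + t • u x - (y + t • u y) -
        ((ContinuousLinearEquiv.refl ℝ E : E ≃L[ℝ] E) : E →L[ℝ] E) (x - y) = t • (u x - u y) := by
      simp [smul_sub]; abel
    rw [this, norm_smul, Real.norm_of_nonneg ht.le, NNReal.coe_mul, Real.coe_toNNReal _ ht.le,
      mul_assoc]
    have := hL.dist_le_mul x y
    rw [dist_eq_norm, dist_eq_norm] at this
    exact mul_le_mul_of_nonneg_left this ht.le
  have hc : Subsingleton E ∨ t.toNNReal * L <
      ‖((ContinuousLinearEquiv.refl ℝ E : E ≃L[ℝ] E).symm : E →L[ℝ] E)‖₊⁻¹ := by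
    rcases subsingleton_or_nontrivial E with h | h
    · exact Or.inl h
    · right
      have : ‖((ContinuousLinearEquiv.refl ℝ E : E ≃L[ℝ] E).symm : E →L[ℝ] E)‖₊ = 1 := by
        simp
      rw [this, inv_one, ← NNReal.coe_lt_coe, NNReal.coe_mul, Real.coe_toNNReal _ ht.le]
      exact htL.trans_le (min_le_right _ _)
  have hinj := happ.injective hc
  have hinj' : Function.Injective fun x => x + t • u x := fun a b h =>
    congrArg Subtype.val (hinj (a₁ := ⟨a, mem_univ _⟩) (a₂ := ⟨b, mem_univ _⟩) h)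
  have hsurj := happ.surjective hc
  have himg : (fun x => x + t • u x) '' closedBall 0 R = closedBall 0 R := by
    ext y
    constructor
    · rintro ⟨x, hx, rfl⟩
      by_contra hy
      have h0 := hR (x + t • u x) (by simpa using hy)
      have : x + t • u x = x := hinj' (by simp only [h0, smul_zero, add_zero])
      exact hy (by simpa only [this] using hx)
    · intro hy
      obtain ⟨x, rfl⟩ := hsurj y
      refine ⟨x, ?_, rfl⟩
      by_contra hx
      have h0 := hR x (by simpa using hx)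
      simp only [h0, smul_zero, add_zero] at hy
      exact hx hy
  have hder : ∀ x, HasFDerivAt (fun x => x + t • u x)
      (ContinuousLinearMap.id ℝ E + t • fderiv ℝ u x) x := fun x =>
    (hasFDerivAt_id x).add ((hu.differentiable one_ne_zero x).hasFDerivAt.const_smul t)
  conv_rhs => rw [← himg]
  rw [integral_image_eq_integral_abs_det_fderiv_smul μ measurableSet_closedBall
    (fun x _ => (hder x).hasFDerivWithinAt) hinj'.injOn]
  refine integral_congr_ae (Eventually.of_forall fun x => ?_)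
  have : 0 < (ContinuousLinearMap.id ℝ E + t • fderiv ℝ u x).det := by
    apply hδ'
    rw [norm_smul, Real.norm_of_nonneg ht.le]
    exact ((mul_le_mul_of_nonneg_left (hD x) ht.le).trans_lt htL).trans_le (min_le_left _ _)
  simp only [abs_of_pos this, smul_eq_mul]

omit [MeasurableSpace E] [BorelSpace E] [FiniteDimensional ℝ E] in
theorem cont_J {u : E → E} (hu : ContDiff ℝ 1 u) (t : ℝ) :
    Continuous fun x => (ContinuousLinearMap.id ℝ E + t • fderiv ℝ u x).det :=
  ContinuousLinearMap.continuous_det.comp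
    (continuous_const.add ((hu.continuous_fderiv one_ne_zero).const_smul t))

theorem lax_pol {u : E → E} (hu : ContDiff ℝ 1 u) {R : ℝ} (hR : ∀ x, R < ‖x‖ → u x = 0)
    (p : C(E, ℝ)) (hp : p ∈ Pol E) :
    ∫ x in closedBall 0 R, (ContinuousLinearMap.id ℝ E + fderiv ℝ u x).det * p (x + u x) ∂μ
      = ∫ x in closedBall 0 R, p x ∂μ := by
  obtain ⟨ε, hε, h⟩ := small_t μ hu hR
  obtain ⟨d, hd⟩ := hp
  obtain ⟨v, w, hv, hw⟩ := interp (Module.finrank ℝ E + d) hε
  have h1 : ∀ x, (ContinuousLinearMap.id ℝ E + fderiv ℝ u x).det * p (x + u x) =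
      ∑ i ∈ Finset.range (Module.finrank ℝ E + d + 1), w i *
        ((ContinuousLinearMap.id ℝ E + v i • fderiv ℝ u x).det * p (x + v i • u x)) := by
    intro x
    obtain ⟨q, hq, hq'⟩ := det_poly (fderiv ℝ u x)
    obtain ⟨r, hr, hr'⟩ := hd x (u x)
    have := hw (q * r) (natDegree_mul_le.trans (add_le_add hq hr))
    simp only [eval_mul, ← hq', ← hr', one_smul] at this
    exact this
  have h2 := hw 1 (by simp)
  simp only [eval_one, mul_one] at h2
  simp only [h1]
  rw [integral_finsetSum]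
  · simp only [integral_const_mul]
    rw [Finset.sum_congr rfl fun i _ => by rw [h (v i) (hv i).1 (hv i).2 p], ← Finset.sum_mul, ← h2,
      one_mul]
  · intro i _
    refine ContinuousOn.integrableOn_compact (isCompact_closedBall 0 R)
      (Continuous.continuousOn ?_)
    have := cont_J hu (v i)
    have := hu.continuous
    fun_prop

theorem lax {u : E → E} (hu : ContDiff ℝ 1 u) {R : ℝ} (hR : ∀ x, R < ‖x‖ → u x = 0)
    (φ : E → ℝ) (hφ : Continuous φ) :
    ∫ x in closedBall 0 R, (ContinuousLinearMap.id ℝ E + fderiv ℝ u x).det * φ (x + u x) ∂μ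
      = ∫ x in closedBall 0 R, φ x ∂μ := by
  have huc := hu.continuous
  have hJ : Continuous fun x => (ContinuousLinearMap.id ℝ E + fderiv ℝ u x).det := by
    simpa using cont_J hu 1
  have hB := isCompact_closedBall (0 : E) R
  have hK : IsCompact (closedBall (0 : E) R ∪ (fun x => x + u x) '' closedBall 0 R) :=
    hB.union (hB.image (by fun_prop))
  set c : ℝ := ∫ x in closedBall 0 R, |(ContinuousLinearMap.id ℝ E + fderiv ℝ u x).det| ∂μ
    + ∫ _ in closedBall (0 : E) R, (1 : ℝ) ∂μ with hc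
  have hc0 : 0 ≤ c := add_nonneg (integral_nonneg fun _ => abs_nonneg _)
    (integral_nonneg fun _ => zero_le_one)
  have hi : ∀ f : E → ℝ, Continuous f → Integrable f (μ.restrict (closedBall 0 R)) := fun f hf =>
    hf.continuousOn.integrableOn_compact hB
  refine eq_of_forall_dist_le fun ε hε => ?_
  obtain ⟨p, hp, hpe⟩ :=
    ContinuousMap.exists_mem_subalgebra_near_continuous_of_isCompact_of_separatesPoints
      (Pol_sep (E := E)) ⟨φ, hφ⟩ hK (ε := ε / (c + 1)) (by positivity)
  have h := lax_pol μ hu hR p hp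
  have hpc := p.continuous
  have e1 : |∫ x in closedBall 0 R,
      (ContinuousLinearMap.id ℝ E + fderiv ℝ u x).det * φ (x + u x) ∂μ - ∫ x in closedBall 0 R,
      (ContinuousLinearMap.id ℝ E + fderiv ℝ u x).det * p (x + u x) ∂μ| ≤
      (∫ x in closedBall 0 R, |(ContinuousLinearMap.id ℝ E + fderiv ℝ u x).det| ∂μ) *
        (ε / (c + 1)) := by
    rw [← integral_sub (hi _ (by fun_prop)) (hi _ (by fun_prop)), ← integral_mul_const]
    refine (abs_integral_le_integral_abs).trans (setIntegral_mono_on (hi _ (by fun_prop))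
      (hi _ (by fun_prop)) measurableSet_closedBall fun x hx => ?_)
    rw [← mul_sub, abs_mul]
    refine mul_le_mul_of_nonneg_left ?_ (abs_nonneg _)
    have := hpe (x + u x) (Or.inr ⟨x, hx, rfl⟩)
    rw [abs_sub_comm]
    exact this.le
  have e2 : |∫ x in closedBall 0 R, p x ∂μ - ∫ x in closedBall 0 R, φ x ∂μ| ≤
      (∫ _ in closedBall (0 : E) R, (1 : ℝ) ∂μ) * (ε / (c + 1)) := by
    rw [← integral_sub (hi _ (by fun_prop)) (hi _ (by fun_prop)), ← integral_mul_const]
    refine (abs_integral_le_integral_abs).trans (setIntegral_mono_on (hi _ (by fun_prop))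
      (hi _ (by fun_prop)) measurableSet_closedBall fun x hx => ?_)
    rw [one_mul]
    exact (hpe x (Or.inl hx)).le
  rw [h] at e1
  rw [Real.dist_eq]
  refine (abs_sub_le _ (∫ x in closedBall 0 R, p x ∂μ) _).trans ((add_le_add e1 e2).trans ?_)
  rw [← add_mul, ← hc, mul_div_assoc', div_le_iff₀ (by positivity)]
  nlinarith

end Pool.Agent.H14Deg
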