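import Pool.Agent.Lib.helper14.Deg1

set_option autoImplicit false

/-! Area formula with multiplicities, parity of the degree, no-retraction. -/

namespace Pool.Agent.H14Deg

open MeasureTheory Filter Topology Set Metric

variable {E : Type} [NormedAddCommGroup E] [NormedSpace ℝ E] [FiniteDimensional ℝ E]

section
variable [MeasurableSpace E] [BorelSpace E] (μ : Measure E) [μ.IsAddHaarMeasure]

theorem mult {F : E → E} (hF : ContDiff ℝ 1 F) {D K : Set E} (hD : MeasurableSet D)
    (hK : IsCompact K) (hDK : D ⊆ K) (hJ : ∀ x ∈ D, (fderiv ℝ F x).det ≠ 0) :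
    ∃ N : E → ℝ, Integrable N μ ∧ (∀ y, ∃ k : ℕ, N y = k) ∧ ∀ φ : E → ℝ, Continuous φ →
      ∫ x in D, |(fderiv ℝ F x).det| * φ (F x) ∂μ = ∫ y, N y * φ y ∂μ := by
  have hder : ∀ x, HasFDerivAt F (fderiv ℝ F x) x := fun x =>
    (hF.differentiable one_ne_zero x).hasFDerivAt
  have h1 : ∀ x : E, ∃ O : Set E, IsOpen O ∧ InjOn F O ∧ (x ∈ D → x ∈ O) := by
    intro x
    by_cases hx : x ∈ D
    · have hd : HasFDerivAt F (((fderiv ℝ F x).toContinuousLinearEquivOfDetNeZero (hJ x hx) :
          E ≃L[ℝ] E) : E →L[ℝ] E) x := by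
        rw [ContinuousLinearMap.coe_toContinuousLinearEquivOfDetNeZero]; exact hder x
      exact ⟨(hF.contDiffAt.toOpenPartialHomeomorph F hd one_ne_zero).source,
        OpenPartialHomeomorph.open_source _,
        (hF.contDiffAt.toOpenPartialHomeomorph F hd one_ne_zero).injOn,
        fun _ => hF.contDiffAt.mem_toOpenPartialHomeomorph_source hd one_ne_zero⟩
    · exact ⟨∅, isOpen_empty, injOn_empty _, fun h => absurd h hx⟩
  choose O hOo hOi hOm using h1
  obtain ⟨t, -, htc, htD⟩ := TopologicalSpace.countable_cover_nhdsWithin (f := O) (s := D)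
    fun x hx => mem_nhdsWithin_of_mem_nhds ((hOo x).mem_nhds (hOm x hx))
  obtain ⟨e, he⟩ := (htc.insert 0).exists_eq_range (insert_nonempty _ _)
  set A : ℕ → Set E := fun i => D ∩ disjointed (fun j => O (e j)) i with hA
  have hAm : ∀ i, MeasurableSet (A i) := fun i =>
    hD.inter (MeasurableSet.disjointed (fun j => (hOo _).measurableSet) i)
  have hAd : Pairwise (Function.onFun Disjoint A) := fun i j hij =>
    (disjoint_disjointed (fun j => O (e j)) hij).mono inter_subset_right inter_subset_right
  have hAU : ⋃ i, A i = D := by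
    rw [hA, ← inter_iUnion, iUnion_disjointed, inter_eq_left]
    intro x hx
    obtain ⟨z, hz, hxz⟩ := mem_iUnion₂.1 (htD hx)
    obtain ⟨j, rfl⟩ : z ∈ range e := he ▸ mem_insert_of_mem _ hz
    exact mem_iUnion.2 ⟨j, hxz⟩
  have hAi : ∀ i, InjOn F (A i) := fun i =>
    (hOi (e i)).mono (inter_subset_right.trans (disjointed_subset _ i))
  have hIm : ∀ i, MeasurableSet (F '' A i) := fun i =>
    measurable_image_of_fderivWithin (hAm i) (fun x _ => (hder x).hasFDerivWithinAt) (hAi i)
  set Nn : E → ENNReal := ∑' i, (F '' A i).indicator 1 with hNn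
  have hfm : ∀ i, Measurable ((F '' A i).indicator (1 : E → ENNReal)) := fun i =>
    measurable_one.indicator (hIm i)
  have hNa : ∀ y, Nn y = ∑' i, (F '' A i).indicator 1 y := fun y =>
    tsum_apply (Pi.summable.2 fun _ => ENNReal.summable)
  have hNm : Measurable Nn := by
    rw [show Nn = fun y => ∑' i, (F '' A i).indicator 1 y from funext hNa]
    exact Measurable.tsum hfm
  have hJc : Continuous fun x => |(fderiv ℝ F x).det| :=
    (ContinuousLinearMap.continuous_det.comp (hF.continuous_fderiv one_ne_zero)).abs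
  have hρ : Measurable fun x => ENNReal.ofReal |(fderiv ℝ F x).det| :=
    hJc.measurable.ennreal_ofReal
  have key : Measure.map F ((μ.restrict D).withDensity fun x =>
      ENNReal.ofReal |(fderiv ℝ F x).det|) = μ.withDensity Nn := by
    rw [hNn, withDensity_tsum hfm, ← hAU, Measure.restrict_iUnion hAd hAm, withDensity_sum,
      Measure.map_sum hF.continuous.measurable.aemeasurable]
    congr 1
    ext1 i
    rw [map_withDensity_abs_det_fderiv_eq_addHaar μ (hAm i).nullMeasurableSet
      (fun x _ => (hder x).hasFDerivWithinAt) (hAi i), withDensity_indicator_one (hIm i)]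
  have hfin : ∫⁻ y, Nn y ∂μ ≠ ⊤ := by
    have := congrArg (fun m : Measure E => m univ) key
    simp only [Measure.map_apply hF.continuous.measurable MeasurableSet.univ, preimage_univ,
      withDensity_apply _ MeasurableSet.univ, Measure.restrict_univ] at this
    rw [← this]
    have hi : IntegrableOn (fun x => |(fderiv ℝ F x).det|) D μ :=
      (hJc.continuousOn.integrableOn_compact hK).mono_set hDK
    exact hi.lintegral_lt_top.ne
  refine ⟨fun y => (Nn y).toReal, integrable_toReal_of_lintegral_ne_top hNm.aemeasurable hfin,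
    fun y => ?_, fun φ hφ => ?_⟩
  · have : Nn y = ({i | y ∈ F '' A i}.encard : ENNReal) := by
      rw [hNa, ← Measure.count_apply MeasurableSet.of_discrete,
        ← lintegral_indicator_one MeasurableSet.of_discrete, lintegral_count]
      rfl
    simp only [this]
    induction {i | y ∈ F '' A i}.encard using ENat.recTopCoe with
    | top => exact ⟨0, by simp⟩
    | coe k => exact ⟨k, by simp⟩
  · have h1 := integral_withDensity_eq_integral_toReal_smul (μ := μ) hNm
      (ae_lt_top hNm hfin) φ
    rw [← key, integral_map hF.continuous.measurable.aemeasurable hφ.aestronglyMeasurable,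
      integral_withDensity_eq_integral_toReal_smul hρ (Eventually.of_forall fun _ =>
        ENNReal.ofReal_lt_top)] at h1
    simpa only [ENNReal.toReal_ofReal (abs_nonneg _), smul_eq_mul] using h1

theorem mult' {F : E → E} (hF : ContDiff ℝ 1 F) {D K : Set E} (hD : MeasurableSet D)
    (hK : IsCompact K) (hDK : D ⊆ K) :
    ∃ N : E → ℝ, Integrable N μ ∧ (∀ y, ∃ k : ℤ, N y = k) ∧ ∀ φ : E → ℝ, Continuous φ →
      HasCompactSupport φ →
      ∫ x in D, (fderiv ℝ F x).det * φ (F x) ∂μ = ∫ y, N y * φ y ∂μ := by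
  have hJc : Continuous fun x => (fderiv ℝ F x).det :=
    ContinuousLinearMap.continuous_det.comp (hF.continuous_fderiv one_ne_zero)
  have m1 : MeasurableSet {x | 0 < (fderiv ℝ F x).det} :=
    (isOpen_lt continuous_const hJc).measurableSet
  have m2 : MeasurableSet {x | (fderiv ℝ F x).det < 0} :=
    (isOpen_lt hJc continuous_const).measurableSet
  obtain ⟨N1, i1, k1, e1⟩ := mult μ hF (hD.inter m1) hK (inter_subset_left.trans hDK)
    fun x hx => (ne_of_gt hx.2)
  obtain ⟨N2, i2, k2, e2⟩ := mult μ hF (hD.inter m2) hK (inter_subset_left.trans hDK)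
    fun x hx => (ne_of_lt hx.2)
  refine ⟨fun y => N1 y - N2 y, i1.sub i2, fun y => ?_, fun φ hφ hcs => ?_⟩
  · obtain ⟨a, ha⟩ := k1 y
    obtain ⟨b, hb⟩ := k2 y
    exact ⟨a - b, by simp [ha, hb]⟩
  · obtain ⟨C, hC⟩ := hφ.bounded_above_of_compact_support hcs
    have j : ∀ N : E → ℝ, Integrable N μ → Integrable (fun y => N y * φ y) μ := fun N hN =>
      hN.mul_bdd hφ.aestronglyMeasurable (Eventually.of_forall hC)
    have hFc := hF.continuous
    have hi : IntegrableOn (fun x => |(fderiv ℝ F x).det| * φ (F x)) D μ :=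
      (Continuous.continuousOn (by fun_prop)).integrableOn_compact hK |>.mono_set hDK
    simp only [sub_mul]
    rw [integral_sub (j _ i1) (j _ i2), ← e1 φ hφ, ← e2 φ hφ, inter_comm D, inter_comm D,
      ← Measure.restrict_restrict m1, ← Measure.restrict_restrict m2, ← integral_indicator m1,
      ← integral_indicator m2, ← integral_sub (hi.indicator m1) (hi.indicator m2)]
    refine integral_congr_ae (Eventually.of_forall fun x => ?_)
    simp only [indicator, mem_ofPred_eq]
    rcases lt_trichotomy (fderiv ℝ F x).det 0 with h | h | h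
    · simp [h, not_lt.2 h.le, abs_of_neg h]
    · simp [h]
    · simp [h, not_lt.2 h.le, abs_of_pos h]

include μ in
theorem no_sym_smooth (σ : E ≃ₗᵢ[ℝ] E) (hσ : (σ.toContinuousLinearEquiv : E →L[ℝ] E).det = 1)
    (ℓ : E →L[ℝ] ℝ) (hℓ : ℓ ≠ 0) (hℓσ : ∀ x, ℓ (σ x) = -ℓ x)
    {u : E → E} (hu : ContDiff ℝ 1 u) {R : ℝ} (hR : ∀ x, R < ‖x‖ → u x = 0) {ρ c : ℝ}
    (hρ : ρ ≤ R) (hc : 0 < c) (hcR : c ≤ R)
    (hs : ∀ x, ‖x‖ < ρ → σ x + u (σ x) = x + u x) (hl : ∀ x, ρ ≤ ‖x‖ → c ≤ ‖x + u x‖) : False := by
  set F : E → E := fun x => x + u x with hFd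
  have hF : ContDiff ℝ 1 F := contDiff_id.add hu
  have hFc := hF.continuous
  have hdF : ∀ x, fderiv ℝ F x = ContinuousLinearMap.id ℝ E + fderiv ℝ u x := fun x =>
    ((hasFDerivAt_id x).add (hu.differentiable one_ne_zero x).hasFDerivAt).fderiv
  have hJc : Continuous fun x => (fderiv ℝ F x).det :=
    ContinuousLinearMap.continuous_det.comp (hF.continuous_fderiv one_ne_zero)
  have hJs : ∀ x, ‖x‖ < ρ → (fderiv ℝ F (σ x)).det = (fderiv ℝ F x).det := by
    intro x hx
    have h1 : HasFDerivAt (F ∘ σ) ((fderiv ℝ F (σ x)).comp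
        (σ.toContinuousLinearEquiv : E →L[ℝ] E)) x :=
      (hF.differentiable one_ne_zero _).hasFDerivAt.comp x
        (σ.toContinuousLinearEquiv : E →L[ℝ] E).hasFDerivAt
    have h2 : F =ᶠ[𝓝 x] F ∘ σ := by
      filter_upwards [(isOpen_lt continuous_norm continuous_const).mem_nhds hx] with y hy
      exact (hs y hy).symm
    rw [(h1.congr_of_eventuallyEq h2).fderiv]
    simp only [ContinuousLinearMap.det] at hσ ⊢
    rw [show ∀ A B : E →L[ℝ] E, ((A.comp B : E →L[ℝ] E) : E →ₗ[ℝ] E) =
      (A : E →ₗ[ℝ] E).comp (B : E →ₗ[ℝ] E) from fun _ _ => rfl, LinearMap.det_comp, hσ, mul_one]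
  set D : Set E := ball 0 ρ ∩ {x | 0 < ℓ x} with hD
  have hDm : MeasurableSet D :=
    measurableSet_ball.inter (isOpen_lt continuous_const ℓ.continuous).measurableSet
  have hB := isCompact_closedBall (0 : E) R
  have hDB : ball (0 : E) ρ ⊆ closedBall 0 R := ball_subset_closedBall.trans
    (closedBall_subset_closedBall hρ)
  obtain ⟨N, hN, hk, hI⟩ := mult' μ hF hDm hB (inter_subset_left.trans hDB)
  have main : ∀ φ : E → ℝ, Continuous φ → HasCompactSupport φ → tsupport φ ⊆ ball 0 c →
      ∫ y, φ y ∂μ = 2 * ∫ y, N y * φ y ∂μ := by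
    intro φ hφ hcs hsupp
    have hz : ∀ y, c ≤ ‖y‖ → φ y = 0 := fun y hy => by
      by_contra h
      have := hsupp (subset_tsupport _ h)
      simp at this
      linarith
    have a1 := lax μ hu hR φ hφ
    simp only [← hdF] at a1
    have a2 : ∫ x in closedBall 0 R, φ x ∂μ = ∫ y, φ y ∂μ :=
      setIntegral_eq_integral_of_forall_compl_eq_zero fun x hx => hz x (by
        simp at hx; linarith)
    set g : E → ℝ := fun x => (fderiv ℝ F x).det * φ (F x) with hg
    have hgc : Continuous g := by fun_prop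
    have hgi : IntegrableOn g (closedBall 0 R) μ := hgc.continuousOn.integrableOn_compact hB
    have a3 : ∫ x in closedBall 0 R, g x ∂μ = ∫ x in ball 0 ρ, g x ∂μ := by
      refine setIntegral_eq_of_subset_of_forall_sdiff_eq_zero measurableSet_closedBall hDB ?_
      intro x hx
      simp only [hg]
      rw [hz _ (hl x (by simpa using hx.2)), mul_zero]
    have hnull : μ {x | ℓ x = 0} = 0 :=
      Measure.addHaar_submodule μ (LinearMap.ker (ℓ : E →ₗ[ℝ] ℝ)) (by
        rw [Ne, LinearMap.ker_eq_top]
        intro h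
        exact hℓ (ContinuousLinearMap.coe_injective h))
    have a4 : (ball (0 : E) ρ : Set E) =ᵐ[μ] (D ∪ σ '' D : Set E) := by
      have : ∀ᵐ x ∂μ, ℓ x ≠ 0 := by
        rw [ae_iff]; simpa using hnull
      filter_upwards [this] with x hx
      apply propext
      constructor
      · intro h
        rcases lt_or_gt_of_ne hx with h' | h'
        · have h0 : x ∈ ball (0 : E) ρ := h
          refine Or.inr ⟨σ.symm x, ⟨by simpa using h0, ?_⟩, by simp⟩
          have := hℓσ (σ.symm x)
          rw [LinearIsometryEquiv.apply_symm_apply] at this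
          show 0 < ℓ (σ.symm x)
          linarith
        · exact Or.inl ⟨h, h'⟩
      · rintro (h | ⟨z, hz, rfl⟩)
        · exact h.1
        · have := hz.1
          show σ z ∈ ball (0 : E) ρ
          simpa using this
    have hDm' : MeasurableSet (σ '' D) := σ.toHomeomorph.measurableEmbedding.measurableSet_image.2 hDm
    have hsub : σ '' D ⊆ ball 0 ρ := by
      rintro _ ⟨z, hz, rfl⟩
      simpa using hz.1
    have a5 : ∫ x in σ '' D, g x ∂μ = ∫ x in D, g x ∂μ := by
      rw [integral_image_eq_integral_abs_det_fderiv_smul μ hDm (f := σ)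
        (f' := fun _ => (σ.toContinuousLinearEquiv : E →L[ℝ] E))
        (fun x _ => (σ.toContinuousLinearEquiv : E →L[ℝ] E).hasFDerivAt.hasFDerivWithinAt)
        σ.injective.injOn]
      refine setIntegral_congr_fun hDm fun x hx => ?_
      have hx' : ‖x‖ < ρ := by simpa using hx.1
      simp only [hσ, abs_one, one_smul, hg, hJs x hx']
      rw [show F (σ x) = F x from hs x hx']
    have a6 : ∫ x in ball 0 ρ, g x ∂μ = 2 * ∫ x in D, g x ∂μ := by
      rw [setIntegral_congr_set a4, setIntegral_union _ hDm'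
        (hgi.mono_set (inter_subset_left.trans hDB)) (hgi.mono_set (hsub.trans hDB)), a5, two_mul]
      rw [disjoint_left]
      rintro x hx ⟨z, hz, rfl⟩
      have h1 : 0 < ℓ (σ z) := hx.2
      have h2 : 0 < ℓ z := hz.2
      rw [hℓσ] at h1
      linarith
    rw [← a2, ← a1, ← hI φ hφ hcs, ← a6, ← a3]
  have hae := isOpen_ball.ae_eq_zero_of_integral_contDiff_smul_eq_zero (μ := μ) (U := ball 0 c)
    (f := fun y => 1 - 2 * N y)
    (((locallyIntegrable_const (1 : ℝ)).sub
      (hN.const_mul 2).locallyIntegrable).locallyIntegrableOn _) (by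
      intro φ hφ hcs hsupp
      have hφc := hφ.continuous
      obtain ⟨C, hC⟩ := hφc.bounded_above_of_compact_support hcs
      have j : Integrable (fun y => N y * φ y) μ :=
        hN.mul_bdd hφc.aestronglyMeasurable (Eventually.of_forall hC)
      have e : ∀ y, φ y • (1 - 2 * N y) = φ y - 2 * (N y * φ y) := fun y => by
        simp only [smul_eq_mul]; ring
      simp only [e]
      rw [integral_sub (hφc.integrable_of_hasCompactSupport hcs) (j.const_mul 2),
        integral_const_mul, main φ hφc hcs hsupp, sub_self])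
  obtain ⟨y, hy, hy'⟩ := Measure.exists_mem_of_measure_ne_zero_of_ae
    (measure_ball_pos μ (0 : E) hc).ne' (ae_restrict_of_ae hae)
  obtain ⟨k, hk'⟩ := hk y
  have := hy' hy
  rw [hk'] at this
  have : (1 : ℤ) - 2 * k = 0 := by exact_mod_cast this
  omega

end

end Pool.Agent.H14Deg
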