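import Pool.Agent.Lib.helper14.Deg2

set_option autoImplicit false

/-! Continuous versions: no symmetric map of degree one, Newman type lemma, Brouwer. -/

namespace Pool.Agent.H14Deg

open MeasureTheory Filter Topology Set Metric

variable {E : Type} [NormedAddCommGroup E] [NormedSpace ℝ E] [FiniteDimensional ℝ E]

theorem exists_lower {F0 : E → E} (hF : Continuous F0) {R r : ℝ} (hR : 0 < R)
    (h1 : ∀ x, R ≤ ‖x‖ → F0 x = x) (h0 : ∀ x, r ≤ ‖x‖ → F0 x ≠ 0) :
    ∃ c, 0 < c ∧ c ≤ R ∧ ∀ x, r ≤ ‖x‖ → c ≤ ‖F0 x‖ := by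
  have hK : IsCompact (closedBall (0 : E) R ∩ {x | r ≤ ‖x‖}) :=
    (isCompact_closedBall _ _).inter_right (isClosed_le continuous_const continuous_norm)
  obtain ⟨c, hc, h⟩ := hK.exists_forall_le' (f := fun x => ‖F0 x‖) (a := 0)
    hF.norm.continuousOn fun x hx => norm_pos_iff.2 (h0 x hx.2)
  refine ⟨min c R, lt_min hc hR, min_le_right _ _, fun x hx => ?_⟩
  by_cases h' : R ≤ ‖x‖
  · rw [h1 x h']; exact (min_le_right _ _).trans h'
  · exact (min_le_left _ _).trans (h x ⟨by simpa using (not_le.1 h').le, hx⟩)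

theorem no_sym (σ : E ≃ₗᵢ[ℝ] E) (hσ : (σ.toContinuousLinearEquiv : E →L[ℝ] E).det = 1)
    (hσσ : ∀ x, σ (σ x) = x)
    (ℓ : E →L[ℝ] ℝ) (hℓ : ℓ ≠ 0) (hℓσ : ∀ x, ℓ (σ x) = -ℓ x)
    {F0 : E → E} (hF : Continuous F0) (h1 : ∀ x, 3 ≤ ‖x‖ → F0 x = x)
    (hs : ∀ x, ‖x‖ ≤ 1 → F0 (σ x) = F0 x) (h0 : ∀ x, 1 / 2 ≤ ‖x‖ → F0 x ≠ 0) : False := by
  borelize E
  obtain ⟨c, hc, hc3, hcl⟩ := exists_lower hF (by norm_num) h1 h0
  obtain ⟨w, hw, hwa, hws⟩ := (hF.sub continuous_id).exists_contDiff_approx 1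
    (ε := fun _ => c / 2) continuous_const fun _ => half_pos hc
  have hw0 : ∀ x, 3 ≤ ‖x‖ → w x = 0 := fun x hx => by
    by_contra h
    exact hws h (by simp [h1 x hx])
  have hP : ∀ x, ‖x + w x - F0 x‖ ≤ c / 2 := fun x => by
    have := (hwa x).le
    rw [dist_eq_norm] at this
    refine le_of_eq_of_le ?_ this
    congr 1
    simp only [Pi.sub_apply, id]
    abel
  set α : ContDiffBump (0 : E) := ⟨1 / 2, 1, by norm_num, by norm_num⟩ with hα
  have hσc : ContDiff ℝ 1 σ := σ.contDiff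
  have hαc : ContDiff ℝ 1 α := α.contDiff
  set u : E → E := fun x => w x + (α x / 2) • (σ x + w (σ x) - (x + w x)) with hu
  have huc : ContDiff ℝ 1 u :=
    hw.add ((hαc.div_const 2).smul ((hσc.add (hw.comp hσc)).sub (contDiff_id.add hw)))
  have hα0 : ∀ x, 1 ≤ ‖x‖ → α x = 0 := fun x hx => α.zero_of_le_dist (by simpa [hα] using hx)
  have hα1 : ∀ x, ‖x‖ < 1 / 2 → α x = 1 := fun x hx =>
    α.one_of_mem_closedBall (by simpa [hα] using hx.le)
  refine no_sym_smooth Measure.addHaar σ hσ ℓ hℓ hℓσ huc (R := 3) (ρ := 1 / 2) (c := c / 2)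
    (fun x hx => ?_) (by norm_num) (half_pos hc) (by linarith) (fun x hx => ?_) fun x hx => ?_
  · simp only [hu, hw0 x hx.le, hα0 x (by linarith)]
    simp
  · simp only [hu, hα1 x hx, hα1 (σ x) (by simpa using hx), hσσ]
    module
  · have key : ‖x + u x - F0 x‖ ≤ c / 2 := by
      by_cases h : 1 ≤ ‖x‖
      · simpa [hu, hα0 x h] using hP x
      · have e : x + u x - F0 x = (1 - α x / 2) • (x + w x - F0 x) +
            (α x / 2) • (σ x + w (σ x) - F0 (σ x)) := by
          rw [hs x (not_le.1 h).le]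
          simp only [hu]
          module
        have a0 : 0 ≤ α x := α.nonneg
        have a1 : α x ≤ 1 := α.le_one
        rw [e]
        refine (norm_add_le _ _).trans ?_
        rw [norm_smul, norm_smul, Real.norm_of_nonneg (by linarith),
          Real.norm_of_nonneg (by linarith)]
        have b1 := hP x
        have b2 := hP (σ x)
        nlinarith
    have := hcl x hx
    have h3 := norm_sub_norm_le (F0 x) (x + u x)
    rw [norm_sub_rev] at h3
    linarith

omit [FiniteDimensional ℝ E] in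
/-- Radial extension of a homotopy on the unit sphere. -/
theorem radial [Nontrivial E] (K : ℝ × sphere (0 : E) 1 → E) (hK : Continuous K) {C : ℝ}
    (hC : ∀ p, ‖K p‖ ≤ C) :
    ∃ F0 : E → E, Continuous F0 ∧ F0 0 = 0 ∧ ∀ (t : ℝ) (x : sphere (0 : E) 1), 0 < t →
      F0 (t • (x : E)) = t • K (t, x) := by
  classical
  obtain ⟨s0, hs0⟩ := (NormedSpace.sphere_nonempty (x := (0 : E)) (r := 1)).2 zero_le_one
  set nrm : E → sphere (0 : E) 1 := fun x => if h : x = 0 then ⟨s0, hs0⟩ else
    ⟨‖x‖⁻¹ • x, by simp [norm_smul, h]⟩ with hn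
  have hnv : ∀ x, x ≠ 0 → (nrm x : E) = ‖x‖⁻¹ • x := fun x hx => by simp [hn, hx]
  refine ⟨fun x => ‖x‖ • K (‖x‖, nrm x), continuous_iff_continuousAt.2 fun x => ?_, by simp,
    fun t x ht => ?_⟩
  · by_cases hx : x = 0
    · subst hx
      rw [ContinuousAt, norm_zero, zero_smul]
      refine squeeze_zero_norm (a := fun x => ‖x‖ * C) (fun x => ?_) ?_
      · rw [norm_smul, norm_norm]
        exact mul_le_mul_of_nonneg_left (hC _) (norm_nonneg _)
      · have : Continuous fun x : E => ‖x‖ * C := by fun_prop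
        simpa using this.tendsto 0
    · have h1 : ContinuousAt nrm x := by
        rw [Topology.IsInducing.subtypeVal.continuousAt_iff]
        have h2 : ContinuousAt (fun y : E => ‖y‖⁻¹ • y) x :=
          (continuousAt_id.norm.inv₀ (norm_ne_zero_iff.2 hx)).smul continuousAt_id
        refine h2.congr ?_
        filter_upwards [isOpen_ne.mem_nhds hx] with y hy
        exact (hnv y hy).symm
      exact continuousAt_id.norm.smul (hK.continuousAt.comp (continuousAt_id.norm.prodMk h1))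
  · have hx : ‖(x : E)‖ = 1 := by simp
    have h1 : ‖t • (x : E)‖ = t := by rw [norm_smul, hx, Real.norm_of_nonneg ht.le, mul_one]
    have h2 : nrm (t • (x : E)) = x := by
      apply Subtype.ext
      rw [hnv _ (by intro h; rw [h, norm_zero] at h1; exact ht.ne h1), h1, smul_smul,
        inv_mul_cancel₀ ht.ne', one_smul]
    simp only [h1, h2]

omit [FiniteDimensional ℝ E] in
theorem polar (x : E) (hx : x ≠ 0) : ∃ y : sphere (0 : E) 1, x = ‖x‖ • (y : E) :=
  ⟨⟨‖x‖⁻¹ • x, by simp [norm_smul, hx]⟩, by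
    simp [smul_smul, mul_inv_cancel₀ (norm_ne_zero_iff.2 hx)]⟩

/-- A map of the sphere homotopic to the identity sends some pair `x, σ x` to antipodal points. -/
theorem newman (σ : E ≃ₗᵢ[ℝ] E) (hσ : (σ.toContinuousLinearEquiv : E →L[ℝ] E).det = 1)
    (hσσ : ∀ x, σ (σ x) = x)
    (ℓ : E →L[ℝ] ℝ) (hℓ : ℓ ≠ 0) (hℓσ : ∀ x, ℓ (σ x) = -ℓ x)
    (H : unitInterval × sphere (0 : E) 1 → E) (hH : Continuous H) (hn : ∀ p, ‖H p‖ = 1)
    (h1 : ∀ x, H (1, x) = x) :
    ∃ x y : sphere (0 : E) 1, (y : E) = σ x ∧ H (0, y) = -H (0, x) := by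
  by_contra hcon
  push Not at hcon
  have : Nontrivial E := by
    by_contra h
    rw [not_nontrivial_iff_subsingleton] at h
    exact hℓ (ContinuousLinearMap.ext fun x => by rw [Subsingleton.elim x 0]; simp)
  set s : sphere (0 : E) 1 → sphere (0 : E) 1 := fun x => ⟨σ x, by simp⟩ with hs
  have hsc : Continuous s := Continuous.subtype_mk (σ.continuous.comp continuous_subtype_val) _
  set pr : ℝ → unitInterval := projIcc (0 : ℝ) 1 zero_le_one with hpr
  have hprc : Continuous pr := continuous_projIcc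
  have p0 : ∀ t, t ≤ 0 → pr t = 0 := fun t ht => projIcc_of_le_left _ ht
  have p1 : ∀ t, 1 ≤ t → pr t = 1 := fun t ht => projIcc_of_right_le _ ht
  set K : ℝ × sphere (0 : E) 1 → E := fun p =>
    H (pr (p.1 - 2), p.2) + (1 - (pr (p.1 - 1) : ℝ)) • H (0, s p.2) with hK
  have hKc : Continuous K := by
    simp only [hK]
    fun_prop
  have hKb : ∀ p, ‖K p‖ ≤ 2 := fun p => by
    refine (norm_add_le _ _).trans ?_
    have := (pr (p.1 - 1)).2
    rw [norm_smul, hn, hn, Real.norm_of_nonneg (by linarith [this.2])]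
    linarith [this.1]
  have hK0 : ∀ p, K p ≠ 0 := fun p h => by
    rcases le_total p.1 2 with h2 | h2
    · simp only [hK, p0 _ (sub_nonpos.2 h2)] at h
      have h3 := congrArg norm (eq_neg_of_add_eq_zero_left h)
      have := (pr (p.1 - 1)).2
      rw [norm_neg, norm_smul, hn, hn, Real.norm_of_nonneg (by linarith [this.2]), mul_one] at h3
      rw [← h3, one_smul] at h
      exact hcon p.2 (s p.2) rfl (eq_neg_of_add_eq_zero_right h)
    · simp only [hK, p1 (p.1 - 1) (by linarith)] at h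
      have := hn (pr (p.1 - 2), p.2)
      simp at h
      simp [h] at this
  obtain ⟨F0, hF, hF0, hFr⟩ := radial K hKc hKb
  refine no_sym σ hσ hσσ ℓ hℓ hℓσ hF (fun x hx => ?_) (fun x hx => ?_) fun x hx => ?_
  · obtain ⟨y, hy⟩ := polar x (by rintro rfl; simp at hx; linarith)
    rw [hy, hFr _ _ (by linarith)]
    simp only [hK, p1 (‖x‖ - 2) (by linarith), p1 (‖x‖ - 1) (by linarith), h1]
    simp
  · by_cases h : x = 0
    · simp [h]
    obtain ⟨y, hy⟩ := polar x h
    have hp := norm_pos_iff.2 h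
    have e : σ x = ‖x‖ • (s y : E) := by
      conv_lhs => rw [hy, map_smul]
    rw [e, hFr _ _ hp]
    conv_rhs => rw [hy, hFr _ _ hp]
    have : s (s y) = y := Subtype.ext (hσσ y)
    simp only [hK, p0 (‖x‖ - 2) (by linarith), p0 (‖x‖ - 1) (by linarith), this]
    simp [add_comm]
  · have hp : 0 < ‖x‖ := by linarith
    obtain ⟨y, hy⟩ := polar x (norm_pos_iff.1 hp)
    rw [hy, hFr _ _ hp]
    exact smul_ne_zero hp.ne' (hK0 _)

/-- A continuous map equal to the identity outside a ball has a zero. -/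
theorem exists_zero {F0 : E → E} (hF : Continuous F0) {R : ℝ} (hR : 0 < R)
    (h1 : ∀ x, R ≤ ‖x‖ → F0 x = x) : ∃ x, F0 x = 0 := by
  borelize E
  by_contra hcon
  push Not at hcon
  obtain ⟨c, hc, hcR, hcl⟩ := exists_lower hF (r := 0) hR h1 fun x _ => hcon x
  obtain ⟨w, hw, hwa, hws⟩ := (hF.sub continuous_id).exists_contDiff_approx 1
    (ε := fun _ => c / 2) continuous_const fun _ => half_pos hc
  have hw0 : ∀ x, R < ‖x‖ → w x = 0 := fun x hx => by
    by_contra h
    exact hws h (by simp [h1 x hx.le])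
  have hP : ∀ x, c / 2 ≤ ‖x + w x‖ := fun x => by
    have h2 := (hwa x).le
    rw [dist_eq_norm] at h2
    have h3 := norm_sub_norm_le (F0 x) (x + w x)
    rw [norm_sub_rev, show x + w x - F0 x = w x - (F0 x - x) by abel] at h3
    simp only [Pi.sub_apply, id] at h2
    have := hcl x (norm_nonneg _)
    linarith
  set φ : ContDiffBump (0 : E) := ⟨c / 4, c / 2, by linarith, by linarith⟩ with hφ
  have hz : ∀ x, c / 2 ≤ ‖x‖ → φ x = 0 := fun x hx => φ.zero_of_le_dist (by simpa [hφ] using hx)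
  have a1 := lax Measure.addHaar hw hw0 φ φ.continuous
  simp only [hz _ (hP _), mul_zero, integral_zero] at a1
  rw [setIntegral_eq_integral_of_forall_compl_eq_zero fun x hx => hz x (by
    simp at hx; linarith)] at a1
  exact φ.integral_pos.ne a1

/-- Brouwer's fixed point theorem for the closed unit ball. -/
theorem brouwer {f : E → E} (hf : ContinuousOn f (closedBall 0 1))
    (hm : MapsTo f (closedBall 0 1) (closedBall 0 1)) : ∃ x ∈ closedBall (0 : E) 1, f x = x := by
  set r : E → E := fun x => (max 1 ‖x‖)⁻¹ • x with hr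
  have hpos : ∀ x : E, 0 < max 1 ‖x‖ := fun x => lt_max_of_lt_left one_pos
  have hrc : Continuous r := (Continuous.inv₀ (by fun_prop) fun x => (hpos x).ne').smul continuous_id
  have hrm : ∀ x, r x ∈ closedBall (0 : E) 1 := fun x => by
    rw [mem_closedBall_zero_iff, hr, norm_smul, Real.norm_of_nonneg (inv_pos.2 (hpos x)).le,
      inv_mul_le_iff₀ (hpos x), mul_one]
    exact le_max_right _ _
  have hg : Continuous fun x => f (r x) := hf.comp_continuous hrc hrm
  obtain ⟨x, hx⟩ := exists_zero (F0 := fun x => x - min 1 (max 0 (2 - ‖x‖)) • f (r x))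
    (continuous_id.sub (Continuous.smul (by fun_prop) hg)) (R := 2) two_pos fun x hx => by
      rw [max_eq_left (by linarith), min_eq_right zero_le_one, zero_smul, sub_zero]
  have e := sub_eq_zero.1 hx
  have hn : ‖x‖ ≤ 1 := by
    have := mem_closedBall_zero_iff.1 (hm (hrm x))
    rw [e, norm_smul, Real.norm_of_nonneg (le_min zero_le_one (le_max_left _ _))]
    exact mul_le_one₀ (min_le_left _ _) (norm_nonneg _) this
  have e2 : r x = x := by simp [hr, max_eq_left hn]
  rw [min_eq_left (le_max_of_le_right (by linarith)), one_smul, e2] at e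
  exact ⟨x, mem_closedBall_zero_iff.2 hn, e.symm⟩

end Pool.Agent.H14Deg
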