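import Mathlib

namespace Pool.Agent.Lib.helper14.Delt

open MvPolynomial Topology

/-- the deltoid -/
noncomputable def f : MvPolynomial (Fin 2) ℂ :=
  X 0 ^ 3 - C (1 / 4) * X 1 ^ 2 * X 0 ^ 2 - C (9 / 2) * X 1 * X 0 + (X 1 ^ 3 + C (27 / 4))

lemma eval_f (z : Fin 2 → ℂ) : eval z f =
    z 0 ^ 3 - 1 / 4 * z 1 ^ 2 * z 0 ^ 2 - 9 / 2 * z 1 * z 0 + (z 1 ^ 3 + 27 / 4) := by
  simp [f]

lemma no_root (r : Polynomial ℂ) : r ^ 3 - Polynomial.C (1 / 4) * Polynomial.X ^ 2 * r ^ 2 -
    Polynomial.C (9 / 2) * Polynomial.X * r + (Polynomial.X ^ 3 + Polynomial.C (27 / 4)) ≠ 0 := by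
  intro h
  have hd : r ∣ Polynomial.X ^ 3 + Polynomial.C (27 / 4) :=
    ⟨-(r ^ 2 - Polynomial.C (1 / 4) * Polynomial.X ^ 2 * r - Polynomial.C (9 / 2) * Polynomial.X),
      by linear_combination h⟩
  have hn : r.natDegree < 4 := by
    have := Polynomial.natDegree_le_of_dvd hd (Polynomial.X_pow_add_C_ne_zero (by norm_num) _)
    rw [Polynomial.natDegree_X_pow_add_C] at this
    omega
  have hr := Polynomial.as_sum_range_C_mul_X_pow' r hn
  simp only [Finset.sum_range_succ, Finset.sum_range_zero] at hr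
  generalize r.coeff 0 = d at hr
  generalize r.coeff 1 = c at hr
  generalize r.coeff 2 = b at hr
  generalize r.coeff 3 = a at hr
  have h4 : (Polynomial.C (1 / 4) : Polynomial ℂ) * 4 = 1 := by
    rw [← map_ofNat Polynomial.C 4, ← map_mul]; norm_num
  have h5 : (Polynomial.C (9 / 2) : Polynomial ℂ) * 4 = 18 := by
    rw [← map_ofNat Polynomial.C 4, ← map_mul, ← map_ofNat Polynomial.C 18]; norm_num
  have h6 : (Polynomial.C (27 / 4) : Polynomial ℂ) * 4 = 27 := by
    rw [← map_ofNat Polynomial.C 4, ← map_mul, ← map_ofNat Polynomial.C 27]; norm_num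
  have h7 : 4 * r ^ 3 - Polynomial.X ^ 2 * r ^ 2 - 18 * Polynomial.X * r +
      (4 * Polynomial.X ^ 3 + 27) = 0 := by
    linear_combination 4 * h + Polynomial.X ^ 2 * r ^ 2 * h4 + Polynomial.X * r * h5 - h6
  have E : Polynomial.C (4 * a ^ 3) * Polynomial.X ^ 9 +
      Polynomial.C (12 * a ^ 2 * b - a ^ 2) * Polynomial.X ^ 8 +
      Polynomial.C (12 * a ^ 2 * c + 12 * a * b ^ 2 - 2 * a * b) * Polynomial.X ^ 7 +
      Polynomial.C (12 * a ^ 2 * d + 24 * a * b * c + 4 * b ^ 3 - 2 * a * c - b ^ 2) *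
        Polynomial.X ^ 6 +
      Polynomial.C (24 * a * b * d + 12 * a * c ^ 2 + 12 * b ^ 2 * c - 2 * a * d - 2 * b * c) *
        Polynomial.X ^ 5 +
      Polynomial.C (24 * a * c * d + 12 * b ^ 2 * d + 12 * b * c ^ 2 - 2 * b * d - c ^ 2 - 18 * a) *
        Polynomial.X ^ 4 +
      Polynomial.C (12 * a * d ^ 2 + 24 * b * c * d + 4 * c ^ 3 - 2 * c * d - 18 * b + 4) *
        Polynomial.X ^ 3 +
      Polynomial.C (12 * b * d ^ 2 + 12 * c ^ 2 * d - d ^ 2 - 18 * c) * Polynomial.X ^ 2 +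
      Polynomial.C (12 * c * d ^ 2 - 18 * d) * Polynomial.X ^ 1 +
      Polynomial.C (4 * d ^ 3 + 27) * Polynomial.X ^ 0 = (0 : Polynomial ℂ) := by
    rw [← h7, hr]
    simp only [map_add, map_sub, map_mul, map_pow, map_ofNat]
    ring
  have c9 := congrArg (fun p => Polynomial.coeff p 9) E
  have c6 := congrArg (fun p => Polynomial.coeff p 6) E
  have c5 := congrArg (fun p => Polynomial.coeff p 5) E
  have c4 := congrArg (fun p => Polynomial.coeff p 4) E
  have c3 := congrArg (fun p => Polynomial.coeff p 3) E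
  simp only [Polynomial.coeff_add, Polynomial.coeff_C_mul_X_pow, Polynomial.coeff_zero] at c9 c6 c5 c4 c3
  norm_num at c9 c6 c5 c4 c3
  subst c9
  have hb : b ^ 2 * (4 * b - 1) = 0 := by linear_combination c6
  rcases mul_eq_zero.1 hb with hb | hb
  · have hb0 : b = 0 := by simpa using hb
    subst hb0
    have hc : c = 0 := by
      have : c ^ 2 = 0 := by linear_combination -c4
      simpa using this
    subst hc
    norm_num at c3
  · have hb0 : b = 1 / 4 := by linear_combination (1 / 4 : ℂ) * hb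
    subst hb0
    have hc : c = 0 := by linear_combination 4 * c5
    subst hc
    have hd0 : d = 0 := by linear_combination 4 * c4
    subst hd0
    norm_num at c3

lemma f_irred : Irreducible f := by
  have h1 : Irreducible (finSuccEquiv ℂ 1 f) := by
    have e : finSuccEquiv ℂ 1 f = Polynomial.X ^ 3 -
        Polynomial.C (C (1 / 4) * X 0 ^ 2) * Polynomial.X ^ 2 -
        Polynomial.C (C (9 / 2) * X 0) * Polynomial.X + Polynomial.C (X 0 ^ 3 + C (27 / 4)) := by
      have a0 := finSuccEquiv_X_zero (R := ℂ) (n := 1)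
      have a1 : finSuccEquiv ℂ 1 (X 1) = Polynomial.C (X 0) := finSuccEquiv_X_succ (j := 0)
      have a2 : ∀ c : ℂ, finSuccEquiv ℂ 1 (C c) = Polynomial.C (C c) := fun c =>
        (finSuccEquiv ℂ 1).commutes c
      simp only [f, map_sub, map_add, map_mul, map_pow, a0, a1, a2]
    rw [e]
    have hm : (Polynomial.X ^ 3 -
        Polynomial.C (C (1 / 4) * X 0 ^ 2) * Polynomial.X ^ 2 -
        Polynomial.C (C (9 / 2) * X 0) * Polynomial.X + Polynomial.C (X 0 ^ 3 + C (27 / 4)) :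
          Polynomial (MvPolynomial (Fin 1) ℂ)).Monic := by monicity!
    have hn : (Polynomial.X ^ 3 -
        Polynomial.C (C (1 / 4) * X 0 ^ 2) * Polynomial.X ^ 2 -
        Polynomial.C (C (9 / 2) * X 0) * Polynomial.X + Polynomial.C (X 0 ^ 3 + C (27 / 4)) :
          Polynomial (MvPolynomial (Fin 1) ℂ)).natDegree = 3 := by compute_degree!
    rw [hm.irreducible_iff_roots_eq_zero_of_degree_le_three (by omega) (by omega)]
    apply Multiset.eq_zero_of_forall_notMem
    intro r hr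
    have h2 := (Polynomial.mem_roots hm.ne_zero).1 hr
    simp only [Polynomial.IsRoot, Polynomial.eval_add, Polynomial.eval_sub, Polynomial.eval_mul,
      Polynomial.eval_pow, Polynomial.eval_X, Polynomial.eval_C] at h2
    have h3 := congrArg (aeval (fun _ : Fin 1 => (Polynomial.X : Polynomial ℂ))) h2
    simp only [map_add, map_sub, map_mul, map_pow, aeval_X, aeval_C, map_zero,
      Polynomial.algebraMap_eq] at h3
    exact no_root _ h3
  exact (MulEquiv.irreducible_iff (finSuccEquiv ℂ 1)).1 h1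

noncomputable def phi (s : ℂ) : Fin 2 → ℂ := ![2 * s + s⁻¹ ^ 2, s ^ 2 + 2 * s⁻¹]

lemma phi0 (s : ℂ) : phi s 0 = 2 * s + s⁻¹ ^ 2 := rfl
lemma phi1 (s : ℂ) : phi s 1 = s ^ 2 + 2 * s⁻¹ := rfl

lemma phi_mem {s : ℂ} (hs : s ≠ 0) : eval (phi s) f = 0 := by
  rw [eval_f, phi0, phi1]; field_simp; ring

lemma phi_inj {s t : ℂ} (hs : s ≠ 0) (ht : t ≠ 0) (h : phi s = phi t) : s = t := by
  have h0 := congrFun h 0
  have h1 := congrFun h 1
  rw [phi0, phi0] at h0
  rw [phi1, phi1] at h1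
  have a := mul_inv_cancel₀ hs
  have b := mul_inv_cancel₀ ht
  generalize s⁻¹ = u at *
  generalize t⁻¹ = v at *
  have e1 : (s - t) ^ 2 * (s - v ^ 2) = 0 := by
    linear_combination s ^ 2 * h0 - s * h1 + (2 - (s * u + 1)) * a + (2 * s * v - (t * v + 1)) * b
  have e2 : 2 * (s - t) * (s - v ^ 2) + (s - t) ^ 2 = 0 := by
    linear_combination 2 * s * h0 - h1 - 2 * u * a + 2 * v * b
  by_contra hne
  have h2 : s - t ≠ 0 := sub_ne_zero.2 hne
  have h3 : s - v ^ 2 = 0 := (mul_eq_zero.1 e1).resolve_left (pow_ne_zero _ h2)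
  rw [h3] at e2
  exact pow_ne_zero 2 h2 (by linear_combination e2)

lemma phi_of {s c : ℂ} {z : Fin 2 → ℂ} (h : s * s * c = 1) (h0 : z 0 = s + s + c)
    (h1 : z 1 = s * s + s * c + s * c) : ∃ s : ℂ, s ≠ 0 ∧ phi s = z := by
  have hs : s ≠ 0 := by rintro rfl; simp at h
  have hi : s⁻¹ = s * c := by field_simp; linear_combination -h
  refine ⟨s, hs, ?_⟩
  ext i
  fin_cases i
  · show phi s 0 = z 0
    rw [phi0, h0, hi]; linear_combination c * h
  · show phi s 1 = z 1
    rw [phi1, h1, hi]; ring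

lemma phi_surj {z : Fin 2 → ℂ} (hz : eval z f = 0) : ∃ s : ℂ, s ≠ 0 ∧ phi s = z := by
  obtain ⟨a, ha⟩ := IsAlgClosed.exists_root (Polynomial.X ^ 3 - Polynomial.C (z 0) *
    Polynomial.X ^ 2 + Polynomial.C (z 1) * Polynomial.X - 1 : Polynomial ℂ) (by
      have : (Polynomial.X ^ 3 - Polynomial.C (z 0) * Polynomial.X ^ 2 +
        Polynomial.C (z 1) * Polynomial.X - 1 : Polynomial ℂ).degree = 3 := by compute_degree!
      rw [this]; norm_num)
  simp only [Polynomial.IsRoot, Polynomial.eval_add, Polynomial.eval_sub, Polynomial.eval_mul,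
      Polynomial.eval_pow, Polynomial.eval_X, Polynomial.eval_C, Polynomial.eval_one] at ha
  have ha0 : a ≠ 0 := by rintro rfl; simp at ha
  obtain ⟨w, hw⟩ := IsAlgClosed.exists_pow_nat_eq ((z 0 - a) ^ 2 - 4 * a⁻¹) (by norm_num : 0 < 2)
  have hai := mul_inv_cancel₀ ha0
  obtain ⟨b, hb⟩ : ∃ b, b = (z 0 - a + w) / 2 := ⟨_, rfl⟩
  obtain ⟨c, hc⟩ : ∃ c, c = (z 0 - a - w) / 2 := ⟨_, rfl⟩
  have hbc : b * c = a⁻¹ := by rw [hb, hc]; linear_combination (-1 / 4 : ℂ) * hw
  have e0 : z 0 = a + b + c := by rw [hb, hc]; ring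
  have e3 : a * b * c = 1 := by rw [mul_assoc, hbc, hai]
  have e1 : z 1 = a * b + a * c + b * c := by
    apply mul_left_cancel₀ ha0
    rw [e0] at ha
    linear_combination ha - e3
  have hd : ((a - b) * (a - c) * (b - c)) ^ 2 = 0 := by
    rw [eval_f, e0, e1] at hz
    linear_combination (-4) * hz + (-4 * (a + b + c) ^ 3 + 18 * (a + b + c) * (a * b + a * c + b * c)
      - 27 * (a * b * c + 1)) * e3
  have hd' := pow_eq_zero_iff (two_ne_zero) |>.1 hd
  rcases mul_eq_zero.1 hd' with h | h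
  · rcases mul_eq_zero.1 h with h | h
    · have : a = b := sub_eq_zero.1 h
      subst this
      exact phi_of e3 e0 e1
    · have : a = c := sub_eq_zero.1 h
      subst this
      exact phi_of (s := a) (c := b) (by linear_combination e3) (by linear_combination e0)
        (by linear_combination e1)
  · have : b = c := sub_eq_zero.1 h
    subst this
    exact phi_of (s := b) (c := a) (by linear_combination e3) (by linear_combination e0)
      (by linear_combination e1)

lemma phi_cont : Continuous (fun s : {s : ℂ // s ≠ 0} => phi s.1) := by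
  have h1 : Continuous (fun s : {s : ℂ // s ≠ 0} => s.1⁻¹) :=
    continuous_subtype_val.inv₀ (fun s => s.2)
  refine continuous_pi (fun i => ?_)
  fin_cases i
  · exact (continuous_const.mul continuous_subtype_val).add (h1.pow 2)
  · exact (continuous_subtype_val.pow 2).add (continuous_const.mul h1)

lemma phi_proper : IsProperMap (fun s : {s : ℂ // s ≠ 0} => phi s.1) := by
  rw [isProperMap_iff_isCompact_preimage]
  refine ⟨phi_cont, fun K hK => ?_⟩
  obtain ⟨R, hR0, hR⟩ := hK.isBounded.exists_pos_norm_le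
  have hA : IsCompact {s : ℂ | (R + 3)⁻¹ ≤ ‖s‖ ∧ ‖s‖ ≤ R + 3} := by
    refine (isCompact_closedBall (0 : ℂ) (R + 3)).of_isClosed_subset
      ((isClosed_le continuous_const continuous_norm).inter
        (isClosed_le continuous_norm continuous_const)) (fun s hs => ?_)
    simpa using hs.2
  have hB : IsCompact ((Subtype.val : {s : ℂ // s ≠ 0} → ℂ) ⁻¹'
      {s : ℂ | (R + 3)⁻¹ ≤ ‖s‖ ∧ ‖s‖ ≤ R + 3}) := by
    rw [Subtype.isCompact_iff, Set.image_preimage_eq_of_subset]
    · exact hA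
    · intro s hs
      refine ⟨⟨s, ?_⟩, rfl⟩
      rintro rfl
      have : (0 : ℝ) < (R + 3)⁻¹ := by positivity
      have h2 := hs.1
      simp only [norm_zero] at h2
      linarith
  refine hB.of_isClosed_subset (hK.isClosed.preimage phi_cont) (fun s hs => ?_)
  have h0 : ‖phi s.1 0‖ ≤ R := (norm_le_pi_norm _ 0).trans (hR _ hs)
  have h1 : ‖phi s.1 1‖ ≤ R := (norm_le_pi_norm _ 1).trans (hR _ hs)
  rw [phi0] at h0
  rw [phi1] at h1
  have k0 : ‖s.1⁻¹‖ ^ 2 ≤ R + 2 * ‖s.1‖ := by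
    have := norm_sub_le (2 * s.1 + s.1⁻¹ ^ 2) (2 * s.1)
    rw [add_sub_cancel_left, norm_pow, norm_mul, Complex.norm_ofNat] at this
    linarith
  have k1 : ‖s.1‖ ^ 2 ≤ R + 2 * ‖s.1⁻¹‖ := by
    have := norm_sub_le (s.1 ^ 2 + 2 * s.1⁻¹) (2 * s.1⁻¹)
    rw [add_sub_cancel_right, norm_pow, norm_mul, Complex.norm_ofNat] at this
    linarith
  have hp : 0 < ‖s.1‖ := norm_pos_iff.2 s.2
  have m0 : ‖s.1‖ ≤ R + 3 ∧ ‖s.1⁻¹‖ ≤ R + 3 := by
    have := norm_nonneg s.1⁻¹
    rcases le_total ‖s.1‖ ‖s.1⁻¹‖ with h | h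
    · have : ‖s.1⁻¹‖ ≤ R + 3 := by nlinarith
      exact ⟨by linarith, this⟩
    · have : ‖s.1‖ ≤ R + 3 := by nlinarith
      exact ⟨this, by linarith⟩
  refine ⟨?_, m0.1⟩
  have := m0.2
  rw [norm_inv] at this
  exact inv_le_of_inv_le₀ hp this

noncomputable def g (s : {s : ℂ // s ≠ 0}) : ↥{z : Fin 2 → ℂ | eval z f = 0} :=
  ⟨phi s.1, phi_mem s.2⟩

lemma g_homeo : IsHomeomorph g := by
  rw [isHomeomorph_iff_continuous_isClosedMap_bijective]
  refine ⟨phi_cont.subtype_mk _, fun S hS => ?_, fun s t h => ?_, fun z => ?_⟩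
  · have h1 := (phi_proper.isClosedMap S hS).preimage
      (continuous_subtype_val (p := fun z => z ∈ {z : Fin 2 → ℂ | eval z f = 0}))
    convert h1 using 1
    ext z
    constructor
    · rintro ⟨s, hs, rfl⟩; exact ⟨s, hs, rfl⟩
    · rintro ⟨s, hs, h⟩; exact ⟨s, hs, Subtype.ext h⟩
  · exact Subtype.ext (phi_inj s.2 t.2 (congrArg Subtype.val h))
  · obtain ⟨s, hs, h⟩ := phi_surj z.2
    exact ⟨⟨s, hs⟩, Subtype.ext h⟩

lemma rank_le (x₀ : ↥{z : Fin 2 → ℂ | eval z f = 0}) : Module.finrank ℤ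
    (Additive (Abelianization (FundamentalGroup ↥{z : Fin 2 → ℂ | eval z f = 0} x₀))) ≤ 1 := by
  have hq := Complex.isAddQuotientCoveringMap_exp.homeomorph_comp g_homeo.homeomorph
  obtain ⟨e, he⟩ := hq.toIsQuotientMap.surjective x₀
  let E := hq.fundamentalGroupEquiv (x := x₀) ⟨e, he⟩
  let γ := E.symm (MulOpposite.op (Multiplicative.ofAdd
    ⟨2 * Real.pi * Complex.I, AddSubgroup.mem_zmultiples _⟩))
  refine finrank_le_one (Additive.ofMul (Abelianization.of γ)) (fun w => ?_)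
  obtain ⟨y, hy⟩ : ∃ y, Abelianization.of y = Additive.toMul w :=
    QuotientGroup.mk_surjective (Additive.toMul w)
  obtain ⟨n, hn⟩ := AddSubgroup.mem_zmultiples_iff.1 (Multiplicative.toAdd (E y).unop).2
  refine ⟨n, ?_⟩
  have h1 : γ ^ n = y := by
    apply E.injective
    rw [map_zpow, MulEquiv.apply_symm_apply, ← MulOpposite.op_zpow, ← ofAdd_zsmul]
    apply MulOpposite.unop_injective
    apply Multiplicative.toAdd.injective
    exact Subtype.ext hn
  rw [← ofMul_zpow, ← map_zpow, h1, hy]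
  rfl

end Pool.Agent.Lib.helper14.Delt
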