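import Mathlib
import Pool.Agent.Lib.helper14.Delt1

namespace Pool.Agent.Lib.helper14.Delt

open MvPolynomial Topology

noncomputable def rho (u : ℂ) : ℝ :=
  (‖u - 1‖ ^ 2 * ‖2 * u + 1‖ / ‖u‖ ^ 2) ^ 2 + (‖u - 1‖ ^ 2 * ‖u + 2‖ / ‖u‖) ^ 2

lemma near {u : ℂ} (hu : u ≠ 0) (h : rho u < (1 / 1000) ^ 2) : ‖u - 1‖ < 1 / 10 := by
  by_contra hc
  push Not at hc
  have hn : 0 < ‖u‖ := norm_pos_iff.2 hu
  have h1 : ‖u‖ ≤ ‖u + 2‖ + 2 := by
    have := norm_sub_le (u + 2) 2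
    rwa [add_sub_cancel_right, Complex.norm_ofNat] at this
  have h2 : 2 ≤ ‖u + 2‖ + ‖u‖ := by
    have := norm_sub_le (u + 2) u
    rwa [add_sub_cancel_left, Complex.norm_ofNat] at this
  have h3 : 2 * ‖u‖ ≤ ‖2 * u + 1‖ + 1 := by
    have := norm_sub_le (2 * u + 1) 1
    rwa [add_sub_cancel_right, norm_mul, Complex.norm_ofNat, norm_one] at this
  unfold rho at h
  generalize ‖u‖ = n at *
  generalize ‖u + 2‖ = b at *
  generalize ‖2 * u + 1‖ = a at *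
  generalize ‖u - 1‖ = m at *
  have hm : 1 / 100 ≤ m ^ 2 := by nlinarith
  rcases le_or_gt (n / 2) b with hb | hb
  · have : 1 / 1000 ≤ m ^ 2 * b / n := by
      rw [le_div_iff₀ hn]; nlinarith
    nlinarith [sq_nonneg (m ^ 2 * a / n ^ 2)]
  · have h4 : n < 4 := by linarith
    have h5 : 5 / 3 ≤ a := by linarith
    have : 1 / 1000 ≤ m ^ 2 * a / n ^ 2 := by
      rw [le_div_iff₀ (by positivity)]; nlinarith
    nlinarith [sq_nonneg (m ^ 2 * b / n)]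

lemma aux_norm (a b : ℂ) (τ : ℝ) (hτ : 0 ≤ τ) (h : ‖b‖ ≤ ‖a‖ / 3) :
    ‖a + τ * b‖ ≤ (1 + τ / 3) * ‖a‖ := by
  have h1 := norm_add_le a (τ * b)
  rw [norm_mul, Complex.norm_real, Real.norm_of_nonneg hτ] at h1
  nlinarith

lemma mono {h : ℂ} (hh : ‖h‖ < 1 / 10) {t : ℝ} (ht0 : 0 ≤ t) (ht1 : t ≤ 1) :
    rho (1 + t * h) ≤ rho (1 + h) := by
  have hth : ‖(t : ℂ) * h‖ = t * ‖h‖ := by
    rw [norm_mul, Complex.norm_real, Real.norm_of_nonneg ht0]
  have hh0 := norm_nonneg h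
  have l1 : 9 / 10 ≤ ‖1 + (t : ℂ) * h‖ := by
    have := norm_sub_le (1 + (t : ℂ) * h) (t * h)
    rw [add_sub_cancel_right, norm_one, hth] at this
    nlinarith
  have l0 : 9 / 10 ≤ ‖1 + h‖ := by
    have := norm_sub_le (1 + h) h
    rw [add_sub_cancel_right, norm_one] at this
    linarith
  have l2 : 1 ≤ ‖2 * (1 + h) + 1‖ := by
    have := norm_sub_le (2 * (1 + h)) (2 * (1 + h) + 1)
    have h2 := norm_sub_le (2 * (1 + h) + 1) (2 * h)
    rw [show 2 * (1 + h) + 1 - 2 * h = 3 by ring, norm_mul, Complex.norm_ofNat,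
      Complex.norm_ofNat] at h2
    linarith
  have l3 : 1 ≤ ‖(1 + h) + 2‖ := by
    have h2 := norm_sub_le ((1 + h) + 2) h
    rw [show (1 + h) + 2 - h = 3 by ring, Complex.norm_ofNat] at h2
    linarith
  have k1 := aux_norm (1 + t * h) h (1 - t) (by linarith) (by linarith)
  have k2 := aux_norm (2 * (1 + h) + 1) (-(2 * h)) (1 - t) (by linarith)
    (by rw [norm_neg, norm_mul, Complex.norm_ofNat]; linarith)
  have k3 := aux_norm ((1 + h) + 2) (-h) (1 - t) (by linarith) (by rw [norm_neg]; linarith)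
  rw [show 1 + (t : ℂ) * h + ((1 - t : ℝ) : ℂ) * h = 1 + h by push_cast; ring] at k1
  rw [show 2 * (1 + h) + 1 + ((1 - t : ℝ) : ℂ) * (-(2 * h)) = 2 * (1 + t * h) + 1 by
    push_cast; ring] at k2
  rw [show (1 + h) + 2 + ((1 - t : ℝ) : ℂ) * (-h) = (1 + t * h) + 2 by push_cast; ring] at k3
  unfold rho
  rw [add_sub_cancel_left, add_sub_cancel_left, hth]
  have p2 := norm_nonneg (2 * (1 + (t : ℂ) * h) + 1)
  have p3 := norm_nonneg ((1 + (t : ℂ) * h) + 2)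
  generalize ‖2 * (1 + (t : ℂ) * h) + 1‖ = a' at *
  generalize ‖(1 + (t : ℂ) * h) + 2‖ = b' at *
  generalize ‖1 + (t : ℂ) * h‖ = n' at *
  generalize ‖2 * (1 + h) + 1‖ = a at *
  generalize ‖(1 + h) + 2‖ = b at *
  generalize ‖1 + h‖ = n at *
  generalize ‖h‖ = m at *
  obtain ⟨k, hk⟩ : ∃ k, k = 1 + (1 - t) / 3 := ⟨_, rfl⟩
  rw [← hk] at k1 k2 k3
  have hk1 : 1 ≤ k := by linarith
  have q1 : t * k ≤ 1 := by rw [hk]; nlinarith
  have q2 : t * k ^ 2 ≤ 1 := by rw [hk]; nlinarith [mul_nonneg ht0 (sub_nonneg.2 ht1)]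
  have q3 : t ^ 2 * k ^ 3 ≤ 1 := by
    calc t ^ 2 * k ^ 3 = (t * k) * (t * k ^ 2) := by ring
      _ ≤ 1 * 1 := mul_le_mul q1 q2 (by positivity) (by norm_num)
      _ = 1 := by ring
  have q4 : t ^ 2 * k ^ 2 ≤ 1 := by
    calc t ^ 2 * k ^ 2 = (t * k) * (t * k) := by ring
      _ ≤ 1 * 1 := mul_le_mul q1 q1 (by positivity) (by norm_num)
      _ = 1 := by ring
  have hn : 0 < n := by linarith
  have hn' : 0 < n' := by linarith
  have r1 : (t * m) ^ 2 * a' / n' ^ 2 ≤ m ^ 2 * a / n ^ 2 := by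
    rw [div_le_div_iff₀ (by positivity) (by positivity)]
    calc (t * m) ^ 2 * a' * n ^ 2 ≤ (t * m) ^ 2 * (k * a) * (k * n') ^ 2 := by gcongr
      _ = (t ^ 2 * k ^ 3) * (m ^ 2 * a * n' ^ 2) := by ring
      _ ≤ 1 * (m ^ 2 * a * n' ^ 2) := by gcongr
      _ = _ := by ring
  have r2 : (t * m) ^ 2 * b' / n' ≤ m ^ 2 * b / n := by
    rw [div_le_div_iff₀ (by positivity) (by positivity)]
    calc (t * m) ^ 2 * b' * n ≤ (t * m) ^ 2 * (k * b) * (k * n') := by gcongr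
      _ = (t ^ 2 * k ^ 2) * (m ^ 2 * b * n') := by ring
      _ ≤ 1 * (m ^ 2 * b * n') := by gcongr
      _ = _ := by ring
  gcongr

lemma preconn {δ : ℝ} (hδ : 0 < δ) :
    IsPreconnected {w : ℂ | ‖Complex.exp w‖ < 1 / 10 ∧ rho (1 + Complex.exp w) < δ ^ 2} := by
  have hc : ContinuousAt rho 1 := by
    unfold rho
    fun_prop (disch := simp)
  have h0 : rho 1 < δ ^ 2 := by simp [rho]; positivity
  obtain ⟨η, hη, hb⟩ := Metric.eventually_nhds_iff.1 (hc.eventually (gt_mem_nhds h0))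
  have hm : 0 < min η (1 / 10) := lt_min hη (by norm_num)
  obtain ⟨L, hL⟩ : ∃ L, L = Real.log (min η (1 / 10)) := ⟨_, rfl⟩
  have hH : {w : ℂ | w.re < L} ⊆
      {w : ℂ | ‖Complex.exp w‖ < 1 / 10 ∧ rho (1 + Complex.exp w) < δ ^ 2} := by
    intro w hw
    have h1 : ‖Complex.exp w‖ < min η (1 / 10) := by
      rw [Complex.norm_exp, ← Real.lt_log_iff_exp_lt hm, ← hL]; exact hw
    refine ⟨h1.trans_le (min_le_right _ _), hb ?_⟩
    rw [dist_eq_norm, add_sub_cancel_left]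
    exact h1.trans_le (min_le_left _ _)
  refine isPreconnected_of_forall ((L - 1 : ℝ) : ℂ) (fun w hw => ?_)
  refine ⟨{w : ℂ | w.re < L} ∪ (fun r : ℝ => w - r) '' Set.Ici 0, ?_, Or.inl (by simp),
    Or.inr ⟨0, Set.self_mem_Ici, by simp⟩, ?_⟩
  · refine Set.union_subset hH ?_
    rintro _ ⟨r, hr, rfl⟩
    have e : Complex.exp (w - r) = (Real.exp (-r) : ℂ) * Complex.exp w := by
      rw [Complex.ofReal_exp, ← Complex.exp_add]; congr 1; push_cast; ring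
    have h1 : Real.exp (-r) ≤ 1 := Real.exp_le_one_iff.2 (by have : 0 ≤ r := hr; linarith)
    have h2 := (Real.exp_pos (-r)).le
    refine ⟨?_, ?_⟩
    · rw [e, norm_mul, Complex.norm_real, Real.norm_of_nonneg h2]
      have := hw.1
      nlinarith [norm_nonneg (Complex.exp w)]
    · rw [e]; exact (mono hw.1 h2 h1).trans_lt hw.2
  · refine IsPreconnected.union (w - (|w.re - L| + 1 : ℝ)) ?_ ⟨_, ?_, rfl⟩
      (convex_halfSpace_re_lt L).isPreconnected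
      (isPreconnected_Ici.image _ (by fun_prop))
    · show (w - (|w.re - L| + 1 : ℝ)).re < L
      rw [Complex.sub_re, Complex.ofReal_re]
      have := le_abs_self (w.re - L)
      linarith
    · show (0 : ℝ) ≤ |w.re - L| + 1
      positivity

lemma dist_phi {ω u : ℂ} (hω : ω ^ 3 = 1) (hu : u ≠ 0) :
    ‖phi (ω * u) 0 - phi ω 0‖ ^ 2 + ‖phi (ω * u) 1 - phi ω 1‖ ^ 2 = rho u := by
  have hω0 : ω ≠ 0 := by rintro rfl; simp at hω
  have hn : ‖ω‖ = 1 := Complex.norm_eq_one_of_pow_eq_one hω (by norm_num)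
  have hi : ω⁻¹ = ω ^ 2 := by field_simp; exact hω.symm
  have e0 : phi (ω * u) 0 - phi ω 0 = ω * ((u - 1) ^ 2 * (2 * u + 1) / u ^ 2) := by
    rw [phi0, phi0, mul_inv, hi]
    field_simp
    linear_combination (1 - u ^ 2) * hω
  have e1 : phi (ω * u) 1 - phi ω 1 = ω ^ 2 * ((u - 1) ^ 2 * (u + 2) / u) := by
    rw [phi1, phi1, mul_inv, hi]
    field_simp
    ring
  rw [e0, e1]
  simp only [rho, norm_mul, norm_div, norm_pow, hn, one_pow, one_mul]

lemma branch {ω : ℂ} (hω : ω ^ 3 = 1) {δ : ℝ} (hδ : 0 < δ) (hδ' : δ < 1 / 1000) :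
    IsPreconnected {q : Fin 2 → ℂ | eval q f = 0 ∧ q ≠ phi ω ∧
      ‖q 0 - phi ω 0‖ ^ 2 + ‖q 1 - phi ω 1‖ ^ 2 < δ ^ 2} := by
  have hω0 : ω ≠ 0 := by rintro rfl; simp at hω
  have hne : ∀ w : ℂ, ‖Complex.exp w‖ < 1 / 10 → 1 + Complex.exp w ≠ 0 := by
    intro w hw h
    rw [show Complex.exp w = -1 by linear_combination h] at hw
    norm_num at hw
  have h1 := (preconn hδ).image (fun w => phi (ω * (1 + Complex.exp w))) (by
    rw [continuousOn_iff_continuous_restrict]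
    exact phi_cont.comp (Continuous.subtype_mk (f := fun w : {w : ℂ | ‖Complex.exp w‖ < 1 / 10 ∧
      rho (1 + Complex.exp w) < δ ^ 2} => ω * (1 + Complex.exp w.1)) (by fun_prop)
      (fun w => mul_ne_zero hω0 (hne _ w.2.1))))
  convert h1 using 1
  ext q
  constructor
  · rintro ⟨hq, hq1, hq2⟩
    obtain ⟨s, hs, rfl⟩ := phi_surj hq
    obtain ⟨u, rfl⟩ : ∃ u, s = ω * u := ⟨ω⁻¹ * s, by field_simp⟩
    have hu : u ≠ 0 := right_ne_zero_of_mul hs
    rw [dist_phi hω hu] at hq2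
    have hu1 : u - 1 ≠ 0 := by
      intro h
      apply hq1
      rw [sub_eq_zero.1 h, mul_one]
    have hn := near hu (hq2.trans (by gcongr))
    refine ⟨Complex.log (u - 1), ?_, ?_⟩
    · simp only [Set.mem_setOf_eq, Complex.exp_log hu1, add_sub_cancel]
      exact ⟨hn, hq2⟩
    · simp only [Complex.exp_log hu1, add_sub_cancel]
  · rintro ⟨w, hw, rfl⟩
    have h2 := hne w hw.1
    refine ⟨phi_mem (mul_ne_zero hω0 h2), fun h => ?_, ?_⟩
    · have h3 := phi_inj (mul_ne_zero hω0 h2) hω0 h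
      have h4 : ω * Complex.exp w = 0 := by linear_combination h3
      exact mul_ne_zero hω0 (Complex.exp_ne_zero w) h4
    · rw [dist_phi hω h2]; exact hw.2

lemma d0 (z : Fin 2 → ℂ) : eval z (pderiv 0 f) =
    3 * z 0 ^ 2 - 1 / 2 * z 1 ^ 2 * z 0 - 9 / 2 * z 1 := by
  simp [f, pderiv_X]; ring

lemma d1 (z : Fin 2 → ℂ) : eval z (pderiv 1 f) =
    3 * z 1 ^ 2 - 1 / 2 * z 0 ^ 2 * z 1 - 9 / 2 * z 0 := by
  simp [f, pderiv_X]; ring

lemma d0_phi {s : ℂ} (hs : s ≠ 0) : eval (phi s) (pderiv 0 f) = -(s ^ 3 - 1) ^ 3 / s ^ 4 := by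
  rw [d0, phi0, phi1]; field_simp; ring

lemma d1_phi {s : ℂ} (hs : s ≠ 0) : eval (phi s) (pderiv 1 f) = (s ^ 3 - 1) ^ 3 / s ^ 5 := by
  rw [d1, phi0, phi1]; field_simp; ring

lemma card_eq : Set.ncard {p : Fin 2 → ℂ | eval p f = 0 ∧
    (∀ i : Fin 2, eval p (pderiv i f) = 0) ∧
    ∃ ε : ℝ, 0 < ε ∧ ∀ δ : ℝ, 0 < δ → δ < ε →
      IsPreconnected {q : Fin 2 → ℂ | eval q f = 0 ∧ q ≠ p ∧
        ‖q 0 - p 0‖ ^ 2 + ‖q 1 - p 1‖ ^ 2 < δ ^ 2}} = 3 := by
  have h3 : (phi '' (Polynomial.nthRootsFinset 3 (1 : ℂ) : Set ℂ)).ncard = 3 := by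
    rw [Set.InjOn.ncard_image, Set.ncard_coe_finset,
      (Complex.isPrimitiveRoot_exp 3 (by norm_num)).card_nthRootsFinset]
    intro s hs t ht h
    rw [Finset.mem_coe, Polynomial.mem_nthRootsFinset (by norm_num)] at hs ht
    exact phi_inj (by rintro rfl; simp at hs) (by rintro rfl; simp at ht) h
  rw [← h3]
  congr 1
  ext p
  constructor
  · rintro ⟨hp, hd, -⟩
    obtain ⟨s, hs, rfl⟩ := phi_surj hp
    refine ⟨s, ?_, rfl⟩
    rw [Finset.mem_coe, Polynomial.mem_nthRootsFinset (by norm_num)]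
    have h1 := hd 1
    rw [d1_phi hs, div_eq_zero_iff] at h1
    have h2 := h1.resolve_right (pow_ne_zero _ hs)
    exact sub_eq_zero.1 (pow_eq_zero_iff (by norm_num) |>.1 h2)
  · rintro ⟨s, hs, rfl⟩
    rw [Finset.mem_coe, Polynomial.mem_nthRootsFinset (by norm_num)] at hs
    have hs0 : s ≠ 0 := by rintro rfl; simp at hs
    refine ⟨phi_mem hs0, fun i => ?_, 1 / 1000, by norm_num, fun δ h1 h2 => branch hs h1 h2⟩
    fin_cases i
    · exact (d0_phi hs0).trans (by simp [hs])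
    · exact (d1_phi hs0).trans (by simp [hs])

end Pool.Agent.Lib.helper14.Delt
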