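import Mathlib

set_option autoImplicit false

namespace Pool.Agent.FI

open MvPolynomial

abbrev S := MvPolynomial (Fin 5) ℂ

noncomputable def lf (a : Fin 5 → ℂ) : S := ∑ i, C (a i) * X i

noncomputable def dv (v : Fin 5 → ℂ) : Module.End ℂ S :=
  ∑ i, v i • (pderiv i : Derivation ℂ S S).toLinearMap

theorem dv_apply (v : Fin 5 → ℂ) (f : S) : dv v f = ∑ i, C (v i) * pderiv i f := by
  simp [dv, LinearMap.sum_apply, smul_eq_C_mul]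

theorem dv_mul (v : Fin 5 → ℂ) (f g : S) : dv v (f * g) = dv v f * g + f * dv v g := by
  simp only [dv_apply, pderiv_mul, Finset.sum_mul, Finset.mul_sum, ← Finset.sum_add_distrib]
  apply Finset.sum_congr rfl
  intro i _
  ring

theorem dv_C (v : Fin 5 → ℂ) (c : ℂ) : dv v (C c) = 0 := by
  simp [dv_apply]

theorem dv_X (v : Fin 5 → ℂ) (i : Fin 5) : dv v (X i) = C (v i) := by
  rw [dv_apply, Finset.sum_eq_single i]
  · simp
  · intro j _ hj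
    rw [pderiv_X_of_ne hj.symm, mul_zero]
  · simp

theorem dv_lf (v a : Fin 5 → ℂ) : dv v (lf a) = C (a ⬝ᵥ v) := by
  simp only [lf, map_sum, dv_mul, dv_C, dv_X, dotProduct, map_mul, zero_mul, zero_add]

theorem dv_pow (v : Fin 5 → ℂ) (f : S) (n : ℕ) :
    dv v (f ^ (n + 1)) = ((n : S) + 1) * f ^ n * dv v f := by
  induction n with
  | zero => simp
  | succ n ih =>
    rw [pow_succ, dv_mul, ih]
    push_cast
    ring

theorem dv_pow_zero (v : Fin 5 → ℂ) (f : S) (h : dv v f = 0) (n : ℕ) : dv v (f ^ n) = 0 := by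
  cases n with
  | zero =>
    rw [pow_zero, ← C_1]
    exact dv_C v 1
  | succ n => rw [dv_pow, h, mul_zero]

theorem dv_hom (v : Fin 5 → ℂ) {b : S} {n : ℕ} (h : b.IsHomogeneous (n + 1)) :
    (dv v b).IsHomogeneous n := by
  rw [dv_apply]
  apply IsHomogeneous.sum
  intro i _
  have := (h.pderiv (i := i)).C_mul (v i)
  simpa using this

theorem hom0 {b : S} (h : b.IsHomogeneous 0) : ∃ c : ℂ, b = C c := by
  refine ⟨coeff 0 b, ?_⟩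
  by_cases hb : b = 0
  · simp [hb]
  · exact totalDegree_eq_zero_iff_eq_C.mp (h.totalDegree hb)

theorem dv_hom0 (v : Fin 5 → ℂ) {b : S} (h : b.IsHomogeneous 0) : dv v b = 0 := by
  obtain ⟨c, rfl⟩ := hom0 h
  exact dv_C v c

theorem lf_hom (a : Fin 5 → ℂ) : (lf a).IsHomogeneous 1 := by
  apply IsHomogeneous.sum
  intro i _
  exact (isHomogeneous_X ℂ i).C_mul (a i)

theorem eval_lf (a v : Fin 5 → ℂ) : eval v (lf a) = a ⬝ᵥ v := by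
  simp [lf, dotProduct]

theorem kill (v a : Fin 5 → ℂ) (h : a ⬝ᵥ v = 0) (E : ℕ) (δ : ℕ) :
    ∀ b : S, b.IsHomogeneous δ → (dv v ^ (δ + 1)) (b * lf a ^ E) = 0 := by
  have h0 : dv v (lf a ^ E) = 0 := dv_pow_zero v _ (by rw [dv_lf, h, map_zero]) E
  induction δ with
  | zero =>
    intro b hb
    rw [zero_add, pow_one, dv_mul, h0, dv_hom0 v hb]
    simp
  | succ δ ih =>
    intro b hb
    rw [pow_succ, Module.End.mul_apply, dv_mul, h0, mul_zero, add_zero]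
    exact ih _ (dv_hom v hb)

theorem pull (v a : Fin 5 → ℂ) (h : a ⬝ᵥ v = 0) (k : ℕ) :
    ∀ g : S, (dv v ^ k) (lf a * g) = lf a * (dv v ^ k) g := by
  induction k with
  | zero =>
    intro g
    simp
  | succ k ih =>
    intro g
    rw [pow_succ, Module.End.mul_apply, Module.End.mul_apply, dv_mul, dv_lf, h, map_zero, zero_mul,
      zero_add, ih]

theorem survive (v a : Fin 5 → ℂ) (h : a ⬝ᵥ v ≠ 0) (E : ℕ) (b : S) (hb : b ≠ 0) :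
    dv v (b * lf a ^ (E + 1)) ≠ 0 := by
  have hnu : ¬ IsUnit (lf a) := by
    intro hu
    have := hu.map (eval (0 : Fin 5 → ℂ))
    rw [eval_lf] at this
    simp at this
  have hne : lf a ≠ 0 := by
    intro h0
    apply h
    rw [← eval_lf, h0, map_zero]
  obtain ⟨n, g, hg, rfl⟩ := WfDvdMonoid.max_power_factor' hb hnu
  intro h0
  have e : lf a ^ n * g * lf a ^ (E + 1) = g * lf a ^ (n + E + 1) := by ring
  rw [e, dv_mul, dv_pow, dv_lf] at h0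
  have h1 : lf a ^ (n + E) * (dv v g * lf a + g * (((n + E : ℕ) : S) + 1) * C (a ⬝ᵥ v)) = 0 := by
    rw [← h0]
    ring
  have h2 := (mul_eq_zero.mp h1).resolve_left (pow_ne_zero _ hne)
  apply hg
  have hc : (((n + E : ℕ) : ℂ) + 1) * (a ⬝ᵥ v) ≠ 0 :=
    mul_ne_zero (Nat.cast_add_one_ne_zero _) h
  refine ⟨- dv v g * C ((((n + E : ℕ) : ℂ) + 1) * (a ⬝ᵥ v))⁻¹, ?_⟩
  have h3 : (C ((((n + E : ℕ) : ℂ) + 1) * (a ⬝ᵥ v)) : S)
      * C ((((n + E : ℕ) : ℂ) + 1) * (a ⬝ᵥ v))⁻¹ = 1 := by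
    rw [← map_mul, mul_inv_cancel₀ hc, map_one]
  have h4 : (C ((((n + E : ℕ) : ℂ) + 1) * (a ⬝ᵥ v)) : S) = (((n + E : ℕ) : S) + 1) * C (a ⬝ᵥ v) := by
    rw [map_mul, map_add, map_natCast, map_one]
  rw [h4] at h3
  linear_combination (C ((((n + E : ℕ) : ℂ) + 1) * (a ⬝ᵥ v))⁻¹ : S) * h2 - g * h3

theorem move1 (v a : Fin 5 → ℂ) (E δ : ℕ) (b : S) (hb : b.IsHomogeneous δ) :
    ∃ b' : S, b'.IsHomogeneous δ ∧ dv v (b * lf a ^ (E + 1)) = b' * lf a ^ E ∧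
      (a ⬝ᵥ v ≠ 0 → b ≠ 0 → b' ≠ 0) := by
  have e : dv v (b * lf a ^ (E + 1))
      = (dv v b * lf a + C (((E : ℂ) + 1) * (a ⬝ᵥ v)) * b) * lf a ^ E := by
    rw [dv_mul, dv_pow, dv_lf, map_mul, map_add, map_natCast, map_one]
    ring
  refine ⟨_, ?_, e, ?_⟩
  · refine IsHomogeneous.add ?_ (hb.C_mul _)
    cases δ with
    | zero =>
      rw [dv_hom0 v hb, zero_mul]
      exact isHomogeneous_zero _ _ _
    | succ δ => exact (dv_hom v hb).mul (lf_hom a)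
  · intro h hb0 h0
    apply survive v a h E b hb0
    rw [e, h0, zero_mul]

theorem move0 (v a : Fin 5 → ℂ) (E δ k : ℕ) :
    ∀ b : S, b.IsHomogeneous δ → ∃ b' : S, b'.IsHomogeneous δ ∧
      (dv v ^ k) (b * lf a ^ (E + k)) = b' * lf a ^ E ∧ (a ⬝ᵥ v ≠ 0 → b ≠ 0 → b' ≠ 0) := by
  induction k with
  | zero =>
    intro b hb
    exact ⟨b, hb, by simp, fun _ h => h⟩
  | succ k ih =>
    intro b hb
    obtain ⟨b1, h1, e1, n1⟩ := move1 v a (E + k) δ b hb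
    obtain ⟨b2, h2, e2, n2⟩ := ih b1 h1
    refine ⟨b2, h2, ?_, fun h hb0 => n2 h (n1 h hb0)⟩
    rw [pow_succ, Module.End.mul_apply, ← add_assoc, e1, e2]

theorem move (v a : Fin 5 → ℂ) (N E δ : ℕ) (hN : N = E + 5) (b : S) (hb : b.IsHomogeneous δ) :
    ∃ b' : S, b'.IsHomogeneous δ ∧
      (dv v ^ 5) (b * lf a ^ N) = b' * lf a ^ E ∧ (a ⬝ᵥ v ≠ 0 → b ≠ 0 → b' ≠ 0) := by
  rw [hN]
  exact move0 v a E δ 5 b hb

theorem kill5 (v a : Fin 5 → ℂ) (h : a ⬝ᵥ v = 0) (E : ℕ) (b : S) (hb : b.IsHomogeneous 4) :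
    (dv v ^ 5) (b * lf a ^ E) = 0 := kill v a h E 4 b hb

theorem kill2 (v w a : Fin 5 → ℂ) (h : a ⬝ᵥ v = 0 ∨ a ⬝ᵥ w = 0) (N E : ℕ) (hN : N = E + 5) (b : S)
    (hb : b.IsHomogeneous 4) : (dv w ^ 5) ((dv v ^ 5) (b * lf a ^ N)) = 0 := by
  rcases h with h | h
  · rw [kill5 v a h _ b hb, map_zero]
  · obtain ⟨b1, h1, e1, -⟩ := move v a N E 4 hN b hb
    rw [e1, kill5 w a h _ b1 h1]

theorem kill3 (u v w a : Fin 5 → ℂ) (h : a ⬝ᵥ u = 0 ∨ a ⬝ᵥ v = 0 ∨ a ⬝ᵥ w = 0) (b : S)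
    (hb : b.IsHomogeneous 4) : (dv w ^ 5) ((dv v ^ 5) ((dv u ^ 5) (b * lf a ^ 17))) = 0 := by
  rcases h with h | h
  · rw [kill5 u a h _ b hb, map_zero, map_zero]
  · obtain ⟨b1, h1, e1, -⟩ := move u a 17 12 4 (by norm_num) b hb
    rw [e1]
    exact kill2 v w a h 12 7 (by norm_num) b1 h1

def Gen (a : Fin 9 → Fin 5 → ℂ) : Prop :=
  ∀ T : Finset (Fin 9), T.card ≤ 4 → ∀ l, l ∉ T → ∃ v, a l ⬝ᵥ v ≠ 0 ∧ ∀ k ∈ T, a k ⬝ᵥ v = 0

theorem indep (a : Fin 9 → Fin 5 → ℂ) (H : Gen a) (B : Fin 9 → S)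
    (hB : ∀ l, (B l).IsHomogeneous 4) (h : ∑ l, B l * lf (a l) ^ 17 = 0) (l : Fin 9) : B l = 0 := by
  have hc : (Finset.univ.erase l).card = 8 := by
    rw [Finset.card_erase_of_mem (Finset.mem_univ l)]
    simp
  obtain ⟨T, hT, hT4⟩ := Finset.exists_subset_card_eq (s := Finset.univ.erase l) (n := 4) (by omega)
  have hT' : (Finset.univ.erase l \ T).card = 4 := by
    rw [Finset.card_sdiff_of_subset hT]
    omega
  obtain ⟨v, hv, hv'⟩ := H T hT4.le l (fun hl => by simpa using hT hl)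
  obtain ⟨w, hw, hw'⟩ := H _ hT'.le l (by simp)
  have h1 := congrArg (fun f => (dv w ^ 5) ((dv v ^ 5) f)) h
  simp only [map_sum, map_zero] at h1
  rw [Finset.sum_eq_single l] at h1
  · by_contra hne
    obtain ⟨b1, h1', e1, n1⟩ := move v (a l) 17 12 4 (by norm_num) (B l) (hB l)
    obtain ⟨b2, -, e2, n2⟩ := move w (a l) 12 7 4 (by norm_num) b1 h1'
    rw [e1, e2] at h1
    have hl : lf (a l) ≠ 0 := by
      intro h0
      apply hv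
      rw [← eval_lf, h0, map_zero]
    exact mul_ne_zero (n2 hw (n1 hv hne)) (pow_ne_zero 7 hl) h1
  · intro k _ hk
    refine kill2 v w (a k) ?_ 17 12 (by norm_num) (B k) (hB k)
    by_cases hkT : k ∈ T
    · exact Or.inl (hv' k hkT)
    · exact Or.inr (hw' k (by simp [hk, hkT]))
  · simp

theorem move3 (u v w q : Fin 5 → ℂ) (qu : q ⬝ᵥ u ≠ 0) (qv : q ⬝ᵥ v ≠ 0) (qw : q ⬝ᵥ w ≠ 0)
    (N E : ℕ) (hN : N = E + 5 + 5 + 5) (b : S) (hb : b.IsHomogeneous 0) (hb0 : b ≠ 0) :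
    ∃ c : ℂ, c ≠ 0 ∧ (dv w ^ 5) ((dv v ^ 5) ((dv u ^ 5) (b * lf q ^ N))) = C c * lf q ^ E := by
  obtain ⟨b1, h1', e1, n1⟩ := move u q N (E + 5 + 5) 0 hN b hb
  obtain ⟨b2, h2', e2, n2⟩ := move v q (E + 5 + 5) (E + 5) 0 rfl b1 h1'
  obtain ⟨b3, h3', e3, n3⟩ := move w q (E + 5) E 0 rfl b2 h2'
  have hne := n3 qw (n2 qv (n1 qu hb0))
  obtain ⟨c, rfl⟩ := hom0 h3'
  refine ⟨c, ?_, ?_⟩
  · intro h
    apply hne
    rw [h, map_zero]
  · rw [e1, e2, e3]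

theorem top_zero (a : Fin 9 → Fin 5 → ℂ) (q u v w : Fin 5 → ℂ)
    (hu : a 0 ⬝ᵥ u = 0) (hv : a 0 ⬝ᵥ v = 0) (hw : a 0 ⬝ᵥ w = 0)
    (qu : q ⬝ᵥ u ≠ 0) (qv : q ⬝ᵥ v ≠ 0) (qw : q ⬝ᵥ w ≠ 0)
    (hl : ∀ l, a l ⬝ᵥ u = 0 ∨ a l ⬝ᵥ v = 0 ∨ a l ⬝ᵥ w = 0)
    (B : Fin 9 → S) (hB : ∀ l, (B l).IsHomogeneous 4) (N : ℕ) (hN : N = 6 + 5 + 5 + 5)
    (b : S) (hb : b.IsHomogeneous 0) (g : S)
    (h : ∑ l, B l * lf (a l) ^ 17 + (b * lf q ^ N + lf (a 0) * g) = 0) : b = 0 := by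
  have h1 := congrArg (fun f => (dv w ^ 5) ((dv v ^ 5) ((dv u ^ 5) f))) h
  simp only [map_add, map_sum, map_zero] at h1
  rw [Finset.sum_eq_zero (fun l _ => kill3 u v w (a l) (hl l) (B l) (hB l)), zero_add,
    pull u _ hu, pull v _ hv, pull w _ hw] at h1
  by_contra hκ
  obtain ⟨c, hc, e⟩ := move3 u v w q qu qv qw N 6 hN b hb hκ
  rw [e] at h1
  have h2 := congrArg (eval u) h1
  simp only [map_add, map_mul, map_pow, eval_lf, eval_C, hu, zero_mul, add_zero, map_zero] at h2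
  exact mul_ne_zero hc (pow_ne_zero 6 qu) h2

end Pool.Agent.FI
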