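import Mathlib

set_option autoImplicit false

namespace Pool.Agent.FI

open Polynomial

theorem binom {R : Type} [CommRing R] (r y : R) :
    ∃ g1 g2 : R, (r + y) ^ 38
      = y ^ 17 * (y * g1 + (Nat.choose 38 21 : R) * r ^ 21) + r ^ 22 * g2 := by
  have h1 : y ^ 18 ∣ ∑ e ∈ Finset.range 21, r ^ e * y ^ (38 - e) * (Nat.choose 38 e : R) := by
    apply Finset.dvd_sum
    intro e he
    rw [Finset.mem_range] at he
    exact Dvd.dvd.mul_right (Dvd.dvd.mul_left (pow_dvd_pow y (by omega)) _) _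
  have h2 : r ^ 22 ∣ ∑ e ∈ Finset.range 17,
      r ^ (22 + e) * y ^ (38 - (22 + e)) * (Nat.choose 38 (22 + e) : R) := by
    apply Finset.dvd_sum
    intro e _
    exact Dvd.dvd.mul_right (Dvd.dvd.mul_right (pow_dvd_pow r (by omega)) _) _
  obtain ⟨g1, e1⟩ := h1
  obtain ⟨g2, e2⟩ := h2
  refine ⟨g1, g2, ?_⟩
  have e3 := Finset.sum_range_add
    (fun e => r ^ e * y ^ (38 - e) * (Nat.choose 38 e : R)) 22 17
  rw [add_pow, show 38 + 1 = 22 + 17 from rfl, e3, e2, show (22 : ℕ) = 21 + 1 from rfl,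
    Finset.sum_range_succ, e1]
  generalize (Nat.choose 38 21 : R) = K
  ring

variable {A : Type} [CommRing A] [Algebra ℂ A] [Nontrivial A]

noncomputable def fac (t : Fin 7 → ℂ) (k : Fin 7) : A[X] := X - C (algebraMap ℂ A (t k))

theorem fac_monic (t : Fin 7 → ℂ) (k : Fin 7) : (fac t k : A[X]).Monic := monic_X_sub_C _

theorem fac_deg (t : Fin 7 → ℂ) (k : Fin 7) : (fac t k : A[X]).natDegree = 1 := natDegree_X_sub_C _

noncomputable def wi (t : Fin 7 → ℂ) (i : Fin 7) : A[X] := ∏ k ∈ Finset.univ.erase i, fac t k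

theorem wi_monic (t : Fin 7 → ℂ) (i : Fin 7) : (wi t i : A[X]).Monic :=
  monic_prod_of_monic _ _ (fun k _ => fac_monic t k)

theorem wi_deg (t : Fin 7 → ℂ) (i : Fin 7) : (wi t i : A[X]).natDegree = 6 := by
  rw [wi, natDegree_prod_of_monic _ _ (fun k _ => fac_monic t k)]
  simp only [fac_deg, Finset.sum_const, smul_eq_mul, mul_one]
  rw [Finset.card_erase_of_mem (Finset.mem_univ i)]
  simp

noncomputable def ww (t : Fin 7 → ℂ) : A[X] := ∏ k, fac t k

theorem ww_eq (t : Fin 7 → ℂ) (i : Fin 7) : (ww t : A[X]) = fac t i * wi t i :=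
  (Finset.mul_prod_erase _ _ (Finset.mem_univ i)).symm

theorem ww_monic (t : Fin 7 → ℂ) : (ww t : A[X]).Monic :=
  monic_prod_of_monic _ _ (fun k _ => fac_monic t k)

theorem ww_deg (t : Fin 7 → ℂ) : (ww t : A[X]).natDegree = 7 := by
  rw [ww, natDegree_prod_of_monic _ _ (fun k _ => fac_monic t k)]
  simp [fac_deg]

noncomputable def ell (t : Fin 7 → ℂ) (z : Fin 7 → A) : A[X] := ∑ i, C (z i) * wi t i

theorem ell_deg (t : Fin 7 → ℂ) (z : Fin 7 → A) (h0 : ∑ i, z i = 0)
    (h1 : ∑ i, algebraMap ℂ A (t i) * z i = 0) : (ell t z).natDegree ≤ 4 := by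
  have e : X ^ 2 * ell t z = ∑ i, C (z i * algebraMap ℂ A (t i) ^ 2) * wi t i := by
    have e1 : ∀ i, X ^ 2 * (C (z i) * wi t i) = C (z i * algebraMap ℂ A (t i) ^ 2) * wi t i
        + ww t * (X * C (z i) + C (algebraMap ℂ A (t i) * z i)) := by
      intro i
      rw [ww_eq t i, fac]
      simp only [map_mul, map_pow]
      ring
    rw [ell, Finset.mul_sum]
    simp only [e1]
    rw [Finset.sum_add_distrib, ← Finset.mul_sum, Finset.sum_add_distrib, ← Finset.mul_sum,
      ← map_sum, ← map_sum, h0, h1]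
    simp
  have d : (X ^ 2 * ell t z).natDegree ≤ 6 := by
    rw [e]
    apply natDegree_sum_le_of_forall_le
    intro i _
    exact (natDegree_C_mul_le _ _).trans (wi_deg t i).le
  by_cases hz : ell t z = 0
  · rw [hz]
    simp
  · rw [natDegree_X_pow_mul 2 hz] at d
    omega

noncomputable def lam (t : Fin 7 → ℂ) : A[X] →ₗ[A] A :=
  (lcoeff A 153).comp (modByMonicHom (ww t ^ 22))

theorem lam_apply (t : Fin 7 → ℂ) (p : A[X]) : lam t p = (p %ₘ (ww t ^ 22)).coeff 153 := rfl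

theorem W_deg (t : Fin 7 → ℂ) : (ww t ^ 22 : A[X]).natDegree = 154 := by
  rw [(ww_monic t).natDegree_pow, ww_deg]

theorem lam_small (t : Fin 7 → ℂ) (p : A[X]) (hp : p.natDegree ≤ 153) : lam t p = p.coeff 153 := by
  rw [lam_apply, (modByMonic_eq_self_iff ((ww_monic t).pow 22)).mpr]
  apply degree_lt_degree
  rw [W_deg]
  omega

theorem lam_dvd (t : Fin 7 → ℂ) (p : A[X]) : lam t (ww t ^ 22 * p) = 0 := by
  rw [lam_apply, (modByMonic_eq_zero_iff_dvd ((ww_monic t).pow 22)).mpr (dvd_mul_right _ _)]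
  simp

theorem lam_C (t : Fin 7 → ℂ) (c : A) (p : A[X]) : lam t (C c * p) = c * lam t p := by
  rw [← smul_eq_C_mul, map_smul, smul_eq_mul]

theorem lam_top (t : Fin 7 → ℂ) (i : Fin 7) (p : A[X]) :
    lam t (wi t i ^ 22 * fac t i ^ 21 * p) = p.eval (algebraMap ℂ A (t i)) := by
  have hp : p = C (p.eval (algebraMap ℂ A (t i))) + fac t i * (p /ₘ fac t i) := by
    rw [fac, ← modByMonic_X_sub_C_eq_C_eval, modByMonic_add_div]
  have hm : (wi t i ^ 22 * fac t i ^ 21 : A[X]).Monic :=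
    ((wi_monic t i).pow 22).mul ((fac_monic t i).pow 21)
  have hd : (wi t i ^ 22 * fac t i ^ 21 : A[X]).natDegree = 153 := by
    rw [((wi_monic t i).pow 22).natDegree_mul ((fac_monic t i).pow 21),
      (wi_monic t i).natDegree_pow, (fac_monic t i).natDegree_pow, wi_deg, fac_deg]
  have e : wi t i ^ 22 * fac t i ^ 21 * p
      = C (p.eval (algebraMap ℂ A (t i))) * (wi t i ^ 22 * fac t i ^ 21)
        + ww t ^ 22 * (p /ₘ fac t i) := by
    rw [ww_eq t i]
    generalize (p /ₘ fac t i) = g at hp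
    generalize C (p.eval (algebraMap ℂ A (t i))) = c at hp
    rw [hp]
    ring
  rw [e, map_add, lam_dvd, add_zero, lam_C, lam_small t _ hd.le, ← hd, hm.coeff_natDegree, mul_one]

theorem unity (t : Fin 7 → ℂ) (ht : Function.Injective t) :
    ∃ μ : Fin 7 → ℂ[X], (∀ i, (μ i).eval (t i) ≠ 0) ∧
      ∑ i, (μ i).map (algebraMap ℂ A) * (wi t i : A[X]) ^ 22 = 1 := by
  have h1 : Pairwise (Function.onFun IsCoprime fun k : Fin 7 => (X - C (t k) : ℂ[X]) ^ 22) := by
    intro i j hij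
    exact (pairwise_coprime_X_sub_C ht hij).pow
  obtain ⟨μ, hμ⟩ := exists_sum_eq_one_iff_pairwise_coprime'.mpr h1
  have hc : ∀ i : Fin 7, ({i}ᶜ : Finset (Fin 7)) = Finset.univ.erase i := by
    intro i
    ext k
    simp
  simp only [hc] at hμ
  refine ⟨μ, ?_, ?_⟩
  · intro i h0
    have := congrArg (eval (t i)) hμ
    rw [eval_finsetSum, Finset.sum_eq_zero] at this
    · simp at this
    · intro k _
      by_cases hk : k = i
      · rw [eval_mul, hk, h0, zero_mul]
      · rw [eval_mul, eval_prod, Finset.prod_eq_zero (i := i) (by simp [Ne.symm hk]) (by simp),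
          mul_zero]
  · have := congrArg (Polynomial.map (algebraMap ℂ A)) hμ
    rw [Polynomial.map_sum, Polynomial.map_one] at this
    rw [← this]
    apply Finset.sum_congr rfl
    intro i _
    rw [Polynomial.map_mul, Polynomial.map_prod, wi, ← Finset.prod_pow]
    congr 1
    apply Finset.prod_congr rfl
    intro k _
    simp [fac]

noncomputable def cc (t : Fin 7 → ℂ) (i : Fin 7) : ℂ := ∏ k ∈ Finset.univ.erase i, (t i - t k)

theorem cc_ne (t : Fin 7 → ℂ) (ht : Function.Injective t) (i : Fin 7) : cc t i ≠ 0 := by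
  rw [cc, Finset.prod_ne_zero_iff]
  intro k hk
  exact sub_ne_zero.mpr (fun h => (Finset.ne_of_mem_erase hk) (ht h).symm)

noncomputable def dd (t : Fin 7 → ℂ) (i k : Fin 7) : ℂ :=
  ∏ l ∈ (Finset.univ.erase k).erase i, (t i - t l)

theorem ell_split (t : Fin 7 → ℂ) (z : Fin 7 → A) (i : Fin 7) :
    ∃ (q : A[X]) (e : A), ell t z = fac t i * q + C (algebraMap ℂ A (cc t i) * z i) ∧
      q.eval (algebraMap ℂ A (t i))
        = ∑ k ∈ Finset.univ.erase i, algebraMap ℂ A (dd t i k) * z k + z i * e := by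
  have hw : (wi t i : A[X]) = C (algebraMap ℂ A (cc t i)) + fac t i * (wi t i /ₘ fac t i) := by
    have : (wi t i : A[X]).eval (algebraMap ℂ A (t i)) = algebraMap ℂ A (cc t i) := by
      simp [wi, cc, eval_prod, fac]
    rw [← this, fac, ← modByMonic_X_sub_C_eq_C_eval, modByMonic_add_div]
  refine ⟨C (z i) * (wi t i /ₘ fac t i)
      + ∑ k ∈ Finset.univ.erase i, C (z k) * ∏ l ∈ (Finset.univ.erase k).erase i, fac t l,
    (wi t i /ₘ fac t i).eval (algebraMap ℂ A (t i)), ?_, ?_⟩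
  · rw [ell, ← Finset.add_sum_erase _ _ (Finset.mem_univ i), mul_add, Finset.mul_sum]
    have e2 : ∑ k ∈ Finset.univ.erase i, C (z k) * wi t k = ∑ k ∈ Finset.univ.erase i,
        fac t i * (C (z k) * ∏ l ∈ (Finset.univ.erase k).erase i, fac t l) := by
      apply Finset.sum_congr rfl
      intro k hk
      have hik : i ∈ Finset.univ.erase k := by
        simp [Ne.symm (Finset.ne_of_mem_erase hk)]
      rw [wi, ← Finset.mul_prod_erase _ _ hik]
      ring
    rw [e2]
    generalize (wi t i /ₘ fac t i : A[X]) = g at hw ⊢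
    rw [hw, map_mul]
    ring
  · rw [eval_add, eval_mul, eval_C, eval_finsetSum, add_comm]
    congr 1
    apply Finset.sum_congr rfl
    intro k _
    simp [dd, eval_prod, fac, mul_comm]

theorem syz (t : Fin 7 → ℂ) (ht : Function.Injective t) (z : Fin 7 → A) (h0 : ∑ i, z i = 0)
    (h1 : ∑ i, algebraMap ℂ A (t i) * z i = 0) :
    ∃ s : Fin 7 → A, ∑ i, s i * z i ^ 17 = 0 ∧ ∃ κ : ℂ, κ ≠ 0 ∧ ∃ g : A,
      s 0 = algebraMap ℂ A κ * (∑ k ∈ Finset.univ.erase 0, algebraMap ℂ A (dd t 0 k) * z k) ^ 21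
        + z 0 * g := by
  obtain ⟨μ, hμ, hu⟩ := unity (A := A) t ht
  have key : ∀ i, ∃ s : A, lam t ((μ i).map (algebraMap ℂ A) * wi t i ^ 22 * ell t z ^ 38)
      = s * z i ^ 17 ∧ ∃ κ : ℂ, κ ≠ 0 ∧ ∃ g : A,
      s = algebraMap ℂ A κ * (∑ k ∈ Finset.univ.erase i, algebraMap ℂ A (dd t i k) * z k) ^ 21
        + z i * g := by
    intro i
    obtain ⟨q, e, hq, he⟩ := ell_split t z i
    obtain ⟨g1, g2, hb⟩ := binom (fac t i * q) (C (algebraMap ℂ A (cc t i) * z i))
    generalize (∑ k ∈ Finset.univ.erase i, algebraMap ℂ A (dd t i k) * z k) = Q at he ⊢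
    obtain ⟨e', he'⟩ : ∃ e', (Q + z i * e) ^ 21 = Q ^ 21 + z i * e' := by
      obtain ⟨c, hc⟩ := sub_dvd_pow_sub_pow (Q + z i * e) Q 21
      exact ⟨e * c, by linear_combination hc⟩
    have hK : ((Nat.choose 38 21 : ℕ) : ℂ) ≠ 0 := by
      have : 0 < Nat.choose 38 21 := Nat.choose_pos (by norm_num)
      exact_mod_cast this.ne'
    generalize Nat.choose 38 21 = K at hb hK
    set M := (μ i).map (algebraMap ℂ A) with hM
    have e1 : M * wi t i ^ 22 * ell t z ^ 38
        = C ((algebraMap ℂ A (cc t i) * z i) ^ 18) * (M * wi t i ^ 22 * g1)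
          + C ((algebraMap ℂ A (cc t i) * z i) ^ 17 * K)
            * (wi t i ^ 22 * fac t i ^ 21 * (M * q ^ 21))
          + ww t ^ 22 * (M * q ^ 22 * g2) := by
      rw [hq, hb, ww_eq t i, map_mul C (_ ^ 17), map_pow, map_pow, map_natCast]
      generalize C (algebraMap ℂ A (cc t i) * z i) = y
      ring
    have e2 : M.eval (algebraMap ℂ A (t i)) = algebraMap ℂ A ((μ i).eval (t i)) := by
      rw [hM, eval_map, eval₂_hom]
    refine ⟨algebraMap ℂ A (cc t i) ^ 17 * (algebraMap ℂ A (cc t i) * z i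
        * lam t (M * wi t i ^ 22 * g1)
        + K * (algebraMap ℂ A ((μ i).eval (t i)) * (Q ^ 21 + z i * e'))), ?_,
      cc t i ^ 17 * K * (μ i).eval (t i),
      mul_ne_zero (mul_ne_zero (pow_ne_zero _ (cc_ne t ht i)) hK) (hμ i),
      algebraMap ℂ A (cc t i) ^ 17 * (algebraMap ℂ A (cc t i) * lam t (M * wi t i ^ 22 * g1)
        + K * (algebraMap ℂ A ((μ i).eval (t i)) * e')), ?_⟩
    · rw [e1, map_add, map_add, lam_dvd, lam_C, lam_C, lam_top, eval_mul, eval_pow, e2, he, he']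
      ring
    · rw [map_mul (algebraMap ℂ A), map_mul (algebraMap ℂ A), map_pow (algebraMap ℂ A),
        map_natCast (algebraMap ℂ A)]
      ring
  choose s hs hs' using key
  refine ⟨s, ?_, hs' 0⟩
  have hd : (ell t z ^ 38).natDegree ≤ 152 := by
    refine natDegree_pow_le.trans ?_
    have := ell_deg t z h0 h1
    omega
  have e : ∑ i, s i * z i ^ 17 = lam t (ell t z ^ 38) := by
    simp only [← hs]
    rw [← map_sum, ← Finset.sum_mul, hu, one_mul]
  rw [e, lam_small t _ (by omega), coeff_eq_zero_of_natDegree_lt (by omega)]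

end Pool.Agent.FI
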