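import Pool.Agent.Lib.helper14.FI1
import Pool.Agent.Lib.helper14.FI2

set_option autoImplicit false

namespace Pool.Agent.FI

open MvPolynomial

theorem hc_mul (g f : S) (n D N : ℕ) (hN : N = n + D) (hf : f.IsHomogeneous D) :
    homogeneousComponent N (g * f) = homogeneousComponent n g * f := by
  have key : ∀ k, homogeneousComponent N (homogeneousComponent k g * f)
      = homogeneousComponent n (homogeneousComponent k g) * f := by
    intro k
    rw [homogeneousComponent_of_mem ((homogeneousComponent_isHomogeneous k g).mul hf),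
      homogeneousComponent_of_mem (homogeneousComponent_mem k g)]
    by_cases hk : n = k
    · rw [if_pos (by omega), if_pos hk]
    · rw [if_neg (by omega), if_neg hk, zero_mul]
  have e := sum_homogeneousComponent g
  calc homogeneousComponent N (g * f)
      = homogeneousComponent N ((∑ i ∈ Finset.range (g.totalDegree + 1),
          homogeneousComponent i g) * f) := by rw [e]
    _ = (homogeneousComponent n (∑ i ∈ Finset.range (g.totalDegree + 1),
          homogeneousComponent i g)) * f := by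
        rw [Finset.sum_mul, map_sum, map_sum, Finset.sum_mul]
        exact Finset.sum_congr rfl (fun k _ => key k)
    _ = homogeneousComponent n g * f := by rw [e]

abbrev HH (n : ℕ) : Submodule ℂ S := homogeneousSubmodule (Fin 5) ℂ n

theorem finrank_HH (n : ℕ) : Module.finrank ℂ (HH n) = (n + 4).choose 4 := by
  classical
  have h1 : homogeneousSubmodule (Fin 5) ℂ n = restrictSupport ℂ {d | d.degree = n} :=
    homogeneousSubmodule_eq_finsupp_supported _ _ n
  have h2 : {d : Fin 5 →₀ ℕ | d.degree = n}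
      = ((Finset.univ : Finset (Fin 5)).finsuppAntidiag n : Set (Fin 5 →₀ ℕ)) := by
    ext d
    simp [Finsupp.degree_eq_sum]
  rw [HH, h1, Module.finrank_eq_nat_card_basis (basisRestrictSupport ℂ _), h2]
  simp only [SetLike.coe_sort_coe, Nat.card_eq_fintype_card, Fintype.card_coe]
  rw [Finset.card_finsuppAntidiag_nat_eq_choose]
  simp only [Finset.card_univ, Fintype.card_fin]
  rw [show 5 + n - 1 = n + 4 by omega, Nat.choose_symm_add]

instance finHH (n : ℕ) : Module.Finite ℂ (HH n) :=
  Module.Finite.iff_fg.2 (homogeneousSubmodule_fg _ _ n)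

abbrev Pr := {p : Fin 9 × Fin 9 // p.1 < p.2}

theorem card_Pr : Fintype.card Pr = 36 := by decide +kernel

abbrev Dom := (Pr → HH 4) × ℂ

noncomputable def Bm (k l : Fin 9) : Dom →ₗ[ℂ] S :=
  if h : k < l then (HH 4).subtype ∘ₗ LinearMap.proj (⟨(k, l), h⟩ : Pr) ∘ₗ LinearMap.fst ℂ _ _
  else if h : l < k then
    -((HH 4).subtype ∘ₗ LinearMap.proj (⟨(l, k), h⟩ : Pr) ∘ₗ LinearMap.fst ℂ _ _)
  else 0

theorem Bm_lt (k l : Fin 9) (h : k < l) (x : Dom) : Bm k l x = x.1 ⟨(k, l), h⟩ := by
  rw [Bm, dif_pos h]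
  rfl

theorem Bm_gt (k l : Fin 9) (h : l < k) (x : Dom) : Bm k l x = -(x.1 ⟨(l, k), h⟩ : S) := by
  rw [Bm, dif_neg (not_lt.mpr h.le), dif_pos h]
  rfl

theorem Bm_eq (k : Fin 9) (x : Dom) : Bm k k x = 0 := by
  rw [Bm, dif_neg (lt_irrefl k), dif_neg (lt_irrefl k)]
  rfl

theorem Bm_hom (k l : Fin 9) (x : Dom) : (Bm k l x).IsHomogeneous 4 := by
  rcases lt_trichotomy k l with h | h | h
  · rw [Bm_lt k l h]
    exact (x.1 _).2
  · rw [h, Bm_eq]
    exact isHomogeneous_zero _ _ _
  · rw [Bm_gt k l h]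
    exact IsHomogeneous.neg (x.1 _).2

theorem Bm_anti (k l : Fin 9) (x : Dom) : Bm k l x = - Bm l k x := by
  rcases lt_trichotomy k l with h | h | h
  · rw [Bm_lt k l h, Bm_gt l k h, neg_neg]
  · rw [h, Bm_eq, neg_zero]
  · rw [Bm_gt k l h, Bm_lt l k h]

noncomputable def psik (L s : Fin 9 → S) (k : Fin 9) : Dom →ₗ[ℂ] S :=
  ∑ l, LinearMap.mulRight ℂ (L l) ∘ₗ Bm k l + (LinearMap.snd ℂ _ _).smulRight (s k)

theorem psik_apply (L s : Fin 9 → S) (k : Fin 9) (x : Dom) :
    psik L s k x = ∑ l, Bm k l x * L l + C x.2 * s k := by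
  simp [psik, LinearMap.sum_apply, smul_eq_C_mul]

noncomputable def phi (L : Fin 9 → S) : (Fin 9 → HH 21) →ₗ[ℂ] S :=
  ∑ k, LinearMap.mulRight ℂ (L k) ∘ₗ (HH 21).subtype ∘ₗ LinearMap.proj k

theorem phi_apply (L : Fin 9 → S) (y : Fin 9 → HH 21) : phi L y = ∑ k, (y k : S) * L k := by
  simp [phi, LinearMap.sum_apply]

theorem count (L s : Fin 9 → S) (hL : ∀ k, (L k).IsHomogeneous 17)
    (hs : ∀ k, (s k).IsHomogeneous 21) (hsyz : ∑ k, s k * L k = 0)
    (hind : ∀ B : Fin 9 → S, (∀ l, (B l).IsHomogeneous 4) → ∑ l, B l * L l = 0 → ∀ l, B l = 0)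
    (htop : ∀ (B : Fin 9 → S) (c : ℂ), (∀ l, (B l).IsHomogeneous 4) →
      ∑ l, B l * L l + C c * s 0 = 0 → c = 0) :
    Module.finrank ℂ ↥(Submodule.restrictScalars ℂ (Ideal.span (Set.range L)) ⊓ HH 38)
      ≤ 111329 := by
  have hmem : ∀ k x, psik L s k x ∈ HH 21 := by
    intro k x
    rw [psik_apply]
    refine Submodule.add_mem _ (Submodule.sum_mem _ (fun l _ => ?_)) ((hs k).C_mul _)
    exact (Bm_hom k l x).mul (hL l)
  let ψ : Dom →ₗ[ℂ] (Fin 9 → HH 21) :=
    LinearMap.pi (fun k => LinearMap.codRestrict (HH 21) (psik L s k) (hmem k))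
  have hψ : ∀ x k, (ψ x k : S) = psik L s k x := fun x k => rfl
  have hinj : Function.Injective ψ := by
    rw [← LinearMap.ker_eq_bot, LinearMap.ker_eq_bot']
    intro x hx
    have h0 : ∀ k, psik L s k x = 0 := by
      intro k
      rw [← hψ, hx]
      rfl
    have hc : x.2 = 0 := htop (fun l => Bm 0 l x) x.2 (fun l => Bm_hom 0 l x)
      (by rw [← psik_apply]; exact h0 0)
    have hB : ∀ k l, Bm k l x = 0 := by
      intro k
      apply hind (fun l => Bm k l x) (fun l => Bm_hom k l x)
      have := h0 k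
      rw [psik_apply, hc, map_zero, zero_mul, add_zero] at this
      exact this
    refine Prod.ext ?_ hc
    funext p
    apply Subtype.ext
    have := hB p.1.1 p.1.2
    rw [Bm_lt _ _ p.2] at this
    exact this
  have hker : LinearMap.range ψ ≤ LinearMap.ker (phi L) := by
    rintro _ ⟨x, rfl⟩
    rw [LinearMap.mem_ker, phi_apply]
    simp only [hψ, psik_apply, add_mul, Finset.sum_add_distrib, Finset.sum_mul, mul_assoc]
    rw [← Finset.mul_sum, hsyz, mul_zero, add_zero, ← add_self_eq_zero]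
    nth_rewrite 2 [Finset.sum_comm]
    rw [← Finset.sum_add_distrib]
    apply Finset.sum_eq_zero
    intro k _
    rw [← Finset.sum_add_distrib]
    apply Finset.sum_eq_zero
    intro l _
    rw [Bm_anti k l x]
    ring
  have hle : Submodule.restrictScalars ℂ (Ideal.span (Set.range L)) ⊓ HH 38
      ≤ LinearMap.range (phi L) := by
    rintro f ⟨hf1, hf2⟩
    obtain ⟨g, rfl⟩ := Ideal.mem_span_range_iff_exists_fun.mp hf1
    refine ⟨fun k => ⟨homogeneousComponent 21 (g k), homogeneousComponent_mem _ _⟩, ?_⟩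
    rw [phi_apply, ← homogeneousComponent_eq_self hf2, map_sum]
    apply Finset.sum_congr rfl
    intro k _
    exact (hc_mul (g k) (L k) 21 17 38 (by norm_num) (hL k)).symm
  have d1 := Submodule.finrank_mono hle
  have d2 := Submodule.finrank_mono hker
  have d3 := LinearMap.finrank_range_add_finrank_ker (phi L)
  rw [LinearMap.finrank_range_of_inj hinj, Module.finrank_prod, Module.finrank_pi_fintype,
    Module.finrank_self] at d2
  rw [Module.finrank_pi_fintype] at d3
  simp only [finrank_HH, Finset.sum_const, Finset.card_univ, card_Pr, Fintype.card_fin,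
    smul_eq_mul] at d2 d3
  have c1 : (4 + 4).choose 4 = 70 := by decide
  have c2 : (21 + 4).choose 4 = 12650 := by decide +kernel
  rw [c1] at d2
  rw [c2] at d3
  omega

end Pool.Agent.FI
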