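import Pool.Agent.Lib.helper14.FI3

set_option autoImplicit false

namespace Pool.Agent.FI

open MvPolynomial

def ee (i : Fin 7) : Fin 9 := Fin.castLE (by omega) i

theorem ee_inj : Function.Injective ee := Fin.castLE_injective (by omega)

theorem supp (a : Fin 9 → Fin 5 → ℂ) (H : Gen a) (x : Fin 7 → ℂ)
    (hx : ∑ i, x i • a (ee i) = 0) (j k : Fin 7) (hjk : j ≠ k) (hj : x j = 0) (hk : x k = 0) :
    x = 0 := by
  funext l
  by_cases hlj : l = j
  · rw [hlj, hj]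
    rfl
  by_cases hlk : l = k
  · rw [hlk, hk]
    rfl
  have hc : ((((Finset.univ.erase j).erase k).erase l).image ee).card ≤ 4 := by
    refine Finset.card_image_le.trans ?_
    rw [Finset.card_erase_of_mem (by simp [hlj, hlk]), Finset.card_erase_of_mem (by simp [hjk.symm]),
      Finset.card_erase_of_mem (Finset.mem_univ _)]
    simp
  obtain ⟨v, hv, hv'⟩ := H _ hc (ee l) (by
    intro h
    obtain ⟨i, hi, he⟩ := Finset.mem_image.mp h
    rw [ee_inj he] at hi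
    simp at hi)
  have h1 := congrArg (fun w => w ⬝ᵥ v) hx
  simp only [sum_dotProduct, smul_dotProduct, zero_dotProduct, smul_eq_mul] at h1
  rw [Finset.sum_eq_single l] at h1
  · exact (mul_eq_zero.mp h1).resolve_right hv
  · intro i _ hi
    by_cases hij : i = j
    · rw [hij, hj, zero_mul]
    by_cases hik : i = k
    · rw [hik, hk, zero_mul]
    rw [hv' (ee i) (Finset.mem_image_of_mem _ (by simp [hi, hij, hik])), mul_zero]
  · simp

theorem rel (a : Fin 9 → Fin 5 → ℂ) (j : Fin 7) :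
    ∃ x : Fin 7 → ℂ, x ≠ 0 ∧ x j = 0 ∧ ∑ i, x i • a (ee i) = 0 := by
  let F : (Fin 7 → ℂ) →ₗ[ℂ] (Fin 5 → ℂ) × ℂ :=
    LinearMap.prod (Fintype.linearCombination ℂ (fun i => a (ee i))) (LinearMap.proj j)
  have h : LinearMap.ker F ≠ ⊥ := by
    apply LinearMap.ker_ne_bot_of_finrank_lt
    simp [Module.finrank_prod]
  obtain ⟨x, hx, hx0⟩ := Submodule.exists_mem_ne_zero_of_ne_bot h
  rw [LinearMap.mem_ker] at hx
  refine ⟨x, hx0, congrArg Prod.snd hx, ?_⟩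
  have := congrArg Prod.fst hx
  simpa [F, Fintype.linearCombination_apply] using this

theorem setup (a : Fin 9 → Fin 5 → ℂ) (H : Gen a) :
    ∃ α t : Fin 7 → ℂ, (∀ i, α i ≠ 0) ∧ Function.Injective t ∧ ∑ i, α i • a (ee i) = 0 ∧
      ∑ i, (t i * α i) • a (ee i) = 0 := by
  obtain ⟨x, hx0, hx6, hx⟩ := rel a 6
  obtain ⟨y, hy0, hy, hyy⟩ := rel a 0
  have hx' : x 0 ≠ 0 := fun h => hx0 (supp a H x hx 0 6 (by decide) h hx6)
  have hy' : ∀ i, i ≠ 0 → y i ≠ 0 := fun i hi h => hy0 (supp a H y hyy i 0 hi h hy)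
  obtain ⟨lam, hl⟩ := Infinite.exists_notMem_finset
    (Finset.univ.image (fun i : Fin 7 => - x i / y i))
  have hα : ∀ i, x i + lam * y i ≠ 0 := by
    intro i h
    by_cases hi : i = 0
    · rw [hi, hy, mul_zero, add_zero] at h
      exact hx' h
    · apply hl
      refine Finset.mem_image.mpr ⟨i, Finset.mem_univ _, ?_⟩
      rw [div_eq_iff (hy' i hi)]
      linear_combination -h
  have hrel : ∑ i, (x i + lam * y i) • a (ee i) = 0 := by
    simp only [add_smul, mul_smul, Finset.sum_add_distrib, ← Finset.smul_sum, hx, hyy, smul_zero,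
      add_zero]
  refine ⟨fun i => x i + lam * y i, fun i => y i / (x i + lam * y i), hα, ?_, hrel, ?_⟩
  · intro i k hik
    by_contra hne
    simp only at hik
    have h1 : ∑ l, (y l - y i / (x i + lam * y i) * (x l + lam * y l)) • a (ee l) = 0 := by
      simp only [sub_smul, Finset.sum_sub_distrib, hyy]
      simp only [mul_smul (y i / (x i + lam * y i)), ← Finset.smul_sum, hrel, smul_zero, sub_zero]
    have h2 := supp a H _ h1 i k hne (by
      simp only [div_mul_cancel₀ _ (hα i), sub_self]) (by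
      simp only [hik, div_mul_cancel₀ _ (hα k), sub_self])
    have h3 := congrFun h2 0
    simp only [hy, Pi.zero_apply, mul_zero, add_zero, zero_sub, neg_eq_zero] at h3
    have h4 := (mul_eq_zero.mp h3).resolve_right hx'
    apply hy0
    funext l
    have h5 := congrFun h2 l
    simp only [h4, zero_mul, sub_zero] at h5
    exact h5
  · simp only [div_mul_cancel₀ _ (hα _)]
    exact hyy

noncomputable def qv (a : Fin 9 → Fin 5 → ℂ) (α t : Fin 7 → ℂ) : Fin 5 → ℂ :=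
  ∑ k ∈ Finset.univ.erase 0, (dd t 0 k * α k) • a (ee k)

theorem dd_mul (t : Fin 7 → ℂ) (k : Fin 7) (hk : k ≠ 0) : dd t 0 k * (t 0 - t k) = cc t 0 := by
  rw [dd, cc, Finset.erase_right_comm, Finset.prod_erase_mul _ _ (by simp [hk])]

theorem three (s1 s2 s3 d1 d2 d3 c z1 z2 z3 : ℂ) (h1 : d1 * s1 = c) (h2 : d2 * s2 = c)
    (h3 : d3 * s3 = c) (e0 : z1 + z2 + z3 = 0) (e1 : s1 * z1 + s2 * z2 + s3 * z3 = 0)
    (e2 : d1 * z1 + d2 * z2 + d3 * z3 = 0) (hc : c ≠ 0) (h12 : s1 ≠ s2) (h13 : s1 ≠ s3) :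
    z1 = 0 := by
  have hd : d1 ≠ 0 := by
    intro h
    apply hc
    rw [← h1, h, zero_mul]
  have : d1 * (s1 - s2) * (s1 - s3) * z1 = 0 := by
    linear_combination c * e1 - (s2 + s3) * c * e0 + s2 * s3 * e2
      + z1 * (s1 - s2 - s3) * h1 - z2 * s3 * h2 - z3 * s2 * h3
  exact (mul_eq_zero.mp this).resolve_left
    (mul_ne_zero (mul_ne_zero hd (sub_ne_zero.mpr h12)) (sub_ne_zero.mpr h13))

theorem q_dot (a : Fin 9 → Fin 5 → ℂ) (α t : Fin 7 → ℂ) (v : Fin 5 → ℂ) :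
    qv a α t ⬝ᵥ v = dd t 0 1 * (α 1 * (a 1 ⬝ᵥ v)) + dd t 0 2 * (α 2 * (a 2 ⬝ᵥ v))
      + dd t 0 3 * (α 3 * (a 3 ⬝ᵥ v)) + dd t 0 4 * (α 4 * (a 4 ⬝ᵥ v))
      + dd t 0 5 * (α 5 * (a 5 ⬝ᵥ v)) + dd t 0 6 * (α 6 * (a 6 ⬝ᵥ v)) := by
  have h : (Finset.univ.erase 0 : Finset (Fin 7)) = {1, 2, 3, 4, 5, 6} := by decide
  rw [qv, sum_dotProduct, h]
  simp only [smul_dotProduct, smul_eq_mul]
  rw [Finset.sum_insert (by decide), Finset.sum_insert (by decide), Finset.sum_insert (by decide),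
    Finset.sum_insert (by decide), Finset.sum_insert (by decide), Finset.sum_singleton]
  show dd t 0 1 * α 1 * (a 1 ⬝ᵥ v) + (dd t 0 2 * α 2 * (a 2 ⬝ᵥ v) + (dd t 0 3 * α 3 * (a 3 ⬝ᵥ v)
    + (dd t 0 4 * α 4 * (a 4 ⬝ᵥ v) + (dd t 0 5 * α 5 * (a 5 ⬝ᵥ v)
    + dd t 0 6 * α 6 * (a 6 ⬝ᵥ v))))) = _
  ring

theorem rel_dot (a : Fin 9 → Fin 5 → ℂ) (x : Fin 7 → ℂ) (hx : ∑ i, x i • a (ee i) = 0)
    (v : Fin 5 → ℂ) :
    x 0 * (a 0 ⬝ᵥ v) + x 1 * (a 1 ⬝ᵥ v) + x 2 * (a 2 ⬝ᵥ v) + x 3 * (a 3 ⬝ᵥ v)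
      + x 4 * (a 4 ⬝ᵥ v) + x 5 * (a 5 ⬝ᵥ v) + x 6 * (a 6 ⬝ᵥ v) = 0 := by
  have h1 := congrArg (fun w => w ⬝ᵥ v) hx
  simp only [sum_dotProduct, smul_dotProduct, zero_dotProduct, smul_eq_mul] at h1
  rw [Fin.sum_univ_seven] at h1
  exact h1

theorem vec1 (a : Fin 9 → Fin 5 → ℂ) (H : Gen a) (α t : Fin 7 → ℂ) (hα : ∀ i, α i ≠ 0)
    (ht : Function.Injective t) (r0 : ∑ i, α i • a (ee i) = 0)
    (r1 : ∑ i, (t i * α i) • a (ee i) = 0) :
    ∃ v, a 0 ⬝ᵥ v = 0 ∧ a 1 ⬝ᵥ v = 0 ∧ a 2 ⬝ᵥ v = 0 ∧ a 3 ⬝ᵥ v = 0 ∧ qv a α t ⬝ᵥ v ≠ 0 := by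
  obtain ⟨v, hv, hv'⟩ := H {0, 1, 2, 3} (by decide) 4 (by decide)
  have z0 := hv' 0 (by decide)
  have z1 := hv' 1 (by decide)
  have z2 := hv' 2 (by decide)
  have z3 := hv' 3 (by decide)
  refine ⟨v, z0, z1, z2, z3, fun hq => ?_⟩
  have e0 := rel_dot a α r0 v
  have e1 := rel_dot a _ r1 v
  rw [q_dot] at hq
  simp only [z0, z1, z2, z3, mul_zero, zero_add, add_zero] at e0 e1 hq
  have := three (t 0 - t 4) (t 0 - t 5) (t 0 - t 6) _ _ _ _ _ _ _ (dd_mul t 4 (by decide))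
    (dd_mul t 5 (by decide)) (dd_mul t 6 (by decide)) e0 (by linear_combination t 0 * e0 - e1) hq
    (cc_ne t ht 0) (fun h => absurd (ht (sub_right_injective h)) (by decide))
    (fun h => absurd (ht (sub_right_injective h)) (by decide))
  exact mul_ne_zero (hα 4) hv this

theorem vec2 (a : Fin 9 → Fin 5 → ℂ) (H : Gen a) (α t : Fin 7 → ℂ) (hα : ∀ i, α i ≠ 0)
    (ht : Function.Injective t) (r0 : ∑ i, α i • a (ee i) = 0)
    (r1 : ∑ i, (t i * α i) • a (ee i) = 0) :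
    ∃ v, a 0 ⬝ᵥ v = 0 ∧ a 4 ⬝ᵥ v = 0 ∧ a 5 ⬝ᵥ v = 0 ∧ a 6 ⬝ᵥ v = 0 ∧ qv a α t ⬝ᵥ v ≠ 0 := by
  obtain ⟨v, hv, hv'⟩ := H {0, 4, 5, 6} (by decide) 1 (by decide)
  have z0 := hv' 0 (by decide)
  have z1 := hv' 4 (by decide)
  have z2 := hv' 5 (by decide)
  have z3 := hv' 6 (by decide)
  refine ⟨v, z0, z1, z2, z3, fun hq => ?_⟩
  have e0 := rel_dot a α r0 v
  have e1 := rel_dot a _ r1 v
  rw [q_dot] at hq
  simp only [z0, z1, z2, z3, mul_zero, zero_add, add_zero] at e0 e1 hq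
  have := three (t 0 - t 1) (t 0 - t 2) (t 0 - t 3) _ _ _ _ _ _ _ (dd_mul t 1 (by decide))
    (dd_mul t 2 (by decide)) (dd_mul t 3 (by decide)) e0 (by linear_combination t 0 * e0 - e1) hq
    (cc_ne t ht 0) (fun h => absurd (ht (sub_right_injective h)) (by decide))
    (fun h => absurd (ht (sub_right_injective h)) (by decide))
  exact mul_ne_zero (hα 1) hv this

theorem lf_sum {ι : Type} (T : Finset ι) (c : ι → ℂ) (b : ι → Fin 5 → ℂ) :
    lf (∑ k ∈ T, c k • b k) = ∑ k ∈ T, C (c k) * lf (b k) := by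
  simp only [lf, Finset.sum_apply, Pi.smul_apply, smul_eq_mul, map_sum, map_mul, Finset.sum_mul,
    Finset.mul_sum, mul_assoc]
  exact Finset.sum_comm

theorem lf_zero : lf 0 = 0 := by simp [lf]

theorem aux1 (s l : S) (c : ℂ) (n : ℕ) : C (c ^ n) * s * l ^ n = s * (C c * l) ^ n := by
  rw [mul_pow, map_pow]
  ring

theorem aux2 (s Q l g : S) (c κ : ℂ) (n : ℕ) (h : s = C κ * Q + C c * l * g) :
    C (c ^ n) * s = C (c ^ n * κ) * Q + (C (c ^ (n + 1)) * g) * l := by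
  rw [h, map_mul, pow_succ, map_mul]
  ring

theorem aux3 (s Q l g : S) (c κ : ℂ) (h : s = C κ * Q + l * g) :
    C c * s = C (c * κ) * Q + l * (C c * g) := by
  rw [h, map_mul]
  ring

theorem main (a : Fin 9 → Fin 5 → ℂ) (H : Gen a) (α t : Fin 7 → ℂ) (hα : ∀ i, α i ≠ 0)
    (ht : Function.Injective t) (r0 : ∑ i, α i • a (ee i) = 0)
    (r1 : ∑ i, (t i * α i) • a (ee i) = 0) (w : Fin 5 → ℂ) (w0 : a 0 ⬝ᵥ w = 0)
    (w7 : a 7 ⬝ᵥ w = 0) (w8 : a 8 ⬝ᵥ w = 0) (wq : qv a α t ⬝ᵥ w ≠ 0) :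
    Module.finrank ℂ ↥(Submodule.restrictScalars ℂ
      (Ideal.span (Set.range (fun k => lf (a k) ^ 17))) ⊓ HH 38) ≤ 111329 := by
  have hL : ∀ k, (lf (a k) ^ 17).IsHomogeneous 17 := fun k => by
    simpa using (lf_hom (a k)).pow 17
  obtain ⟨s, hs, κ, hκ, g, hg⟩ := syz (A := S) t ht (fun i => C (α i) * lf (a (ee i)))
    (by rw [← lf_sum, r0, lf_zero])
    (by
      simp only [algebraMap_eq, ← mul_assoc, ← map_mul]
      rw [← lf_sum, r1, lf_zero])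
  have hq : ∑ k ∈ Finset.univ.erase 0, algebraMap ℂ S (dd t 0 k) * (C (α k) * lf (a (ee k)))
      = lf (qv a α t) := by
    simp only [algebraMap_eq, ← mul_assoc, ← map_mul]
    rw [qv, lf_sum]
  rw [hq, algebraMap_eq] at hg
  let s1 : Fin 7 → S := fun i => homogeneousComponent 21 (C (α i ^ 17) * s i)
  have hs1 : ∑ i, s1 i * lf (a (ee i)) ^ 17 = 0 := by
    have h1 := congrArg (homogeneousComponent 38) hs
    rw [map_sum, map_zero] at h1
    rw [← h1]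
    apply Finset.sum_congr rfl
    intro i _
    have e := aux1 (s i) (lf (a (ee i))) (α i) 17
    exact (hc_mul (C (α i ^ 17) * s i) (lf (a (ee i)) ^ 17) 21 17 38 (by norm_num)
      (hL (ee i))).symm.trans (congrArg (homogeneousComponent 38) e)
  have hq21 : (lf (qv a α t) ^ 21).IsHomogeneous 21 := by
    simpa using (lf_hom (qv a α t)).pow 21
  have hs0 : s1 0 = C (α 0 ^ 17 * κ) * lf (qv a α t) ^ 21
      + lf (a 0) * homogeneousComponent 20 (C (α 0 ^ (17 + 1)) * g) := by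
    have e : C (α 0 ^ 17) * s 0 = C (α 0 ^ 17 * κ) * lf (qv a α t) ^ 21
        + (C (α 0 ^ (17 + 1)) * g) * lf (a 0) := by
      exact aux2 _ _ _ _ _ _ 17 hg
    show homogeneousComponent 21 (C (α 0 ^ 17) * s 0) = _
    rw [e, map_add, hc_mul _ _ 20 1 21 (by norm_num) (lf_hom (a 0)),
      homogeneousComponent_eq_self (hq21.C_mul _), mul_comm (lf (a 0))]
  let s2 : Fin 9 → S := fun k => ∑ i, if ee i = k then s1 i else 0
  have hs20 : s2 0 = s1 0 := by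
    show ∑ i, (if ee i = 0 then s1 i else 0) = s1 0
    rw [Finset.sum_eq_single 0]
    · exact if_pos rfl
    · intro i _ hi
      exact if_neg (fun h => hi (ee_inj h))
    · simp
  obtain ⟨u, u0, u1, u2, u3, uq⟩ := vec1 a H α t hα ht r0 r1
  obtain ⟨v, v0, v4, v5, v6, vq⟩ := vec2 a H α t hα ht r0 r1
  refine count _ s2 hL ?_ ?_ (indep a H) ?_
  · intro k
    apply IsHomogeneous.sum
    intro i _
    split_ifs
    · exact homogeneousComponent_isHomogeneous _ _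
    · exact isHomogeneous_zero _ _ _
  · simp only [s2, Finset.sum_mul, ite_mul, zero_mul]
    rw [Finset.sum_comm]
    simp only [Finset.sum_ite_eq, Finset.mem_univ, if_true]
    exact hs1
  · intro B c hB h
    have hl : ∀ l, a l ⬝ᵥ u = 0 ∨ a l ⬝ᵥ v = 0 ∨ a l ⬝ᵥ w = 0 := by
      intro l
      fin_cases l
      · exact Or.inl u0
      · exact Or.inl u1
      · exact Or.inl u2
      · exact Or.inl u3
      · exact Or.inr (Or.inl v4)
      · exact Or.inr (Or.inl v5)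
      · exact Or.inr (Or.inl v6)
      · exact Or.inr (Or.inr w7)
      · exact Or.inr (Or.inr w8)
    have e : C c * s2 0 = C (c * (α 0 ^ 17 * κ)) * lf (qv a α t) ^ 21
        + lf (a 0) * (C c * homogeneousComponent 20 (C (α 0 ^ (17 + 1)) * g)) := by
      exact aux3 _ _ _ _ _ _ (hs20.trans hs0)
    rw [e] at h
    have := top_zero a _ u v w u0 v0 w0 uq vq wq hl B hB 21 (by norm_num) _
      (isHomogeneous_C (Fin 5) _) _ h
    rw [C_eq_zero] at this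
    exact (mul_eq_zero.mp this).resolve_right (mul_ne_zero (pow_ne_zero _ (hα 0)) hκ)

end Pool.Agent.FI
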