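import Pool.Agent.Lib.helper14.FI4

set_option autoImplicit false

namespace Pool.Agent.FI

open MvPolynomial

abbrev PP := MvPolynomial (Fin 9 × Fin 5) ℂ

theorem solve (M : Matrix (Fin 5) (Fin 5) ℂ) (h : M.det ≠ 0) (i : Fin 5) :
    ∃ v, M i ⬝ᵥ v = 1 ∧ ∀ k, k ≠ i → M k ⬝ᵥ v = 0 := by
  have hu : IsUnit M := (Matrix.isUnit_iff_isUnit_det M).mpr (Ne.isUnit h)
  obtain ⟨v, hv⟩ := Matrix.mulVec_surjective_iff_isUnit.mpr hu (Pi.single i 1)
  refine ⟨v, ?_, fun k hk => ?_⟩
  · have := congrFun hv i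
    rw [Pi.single_eq_same] at this
    exact this
  · have := congrFun hv k
    rw [Pi.single_eq_of_ne hk] at this
    exact this

theorem gen_of (a : Fin 9 → Fin 5 → ℂ)
    (h : ∀ f : Fin 5 → Fin 9, Function.Injective f → (Matrix.of fun i j => a (f i) j).det ≠ 0) :
    Gen a := by
  intro T hT l hl
  have hc : (insert l T).card ≤ 5 := (Finset.card_insert_le _ _).trans (by omega)
  obtain ⟨U, hU, hU5⟩ := Finset.exists_superset_card_eq hc (by simp)
  have hr : ∀ k ∈ U, ∃ i, U.orderEmbOfFin hU5 i = k := by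
    intro k hk
    have : k ∈ Set.range (U.orderEmbOfFin hU5) := by
      rw [Finset.range_orderEmbOfFin]
      exact hk
    exact this
  obtain ⟨i, hi⟩ := hr l (hU (Finset.mem_insert_self _ _))
  obtain ⟨v, hv, hv'⟩ := solve _ (h _ (U.orderEmbOfFin hU5).injective) i
  refine ⟨v, ?_, fun k hk => ?_⟩
  · rw [← hi]
    intro h0
    exact one_ne_zero (hv.symm.trans h0)
  · obtain ⟨j, hj⟩ := hr k (hU (Finset.mem_insert_of_mem hk))
    have hji : j ≠ i := by
      intro e
      rw [e, hi] at hj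
      exact hl (hj ▸ hk)
    rw [← hj]
    exact hv' j hji

noncomputable def mf (f : Fin 5 → Fin 9) : PP := (Matrix.of fun i j => (X (f i, j) : PP)).det

theorem eval_mf (f : Fin 5 → Fin 9) (x : Fin 9 × Fin 5 → ℂ) :
    eval x (mf f) = (Matrix.of fun i j => x (f i, j)).det := by
  rw [mf, RingHom.map_det]
  congr 1
  ext i j
  simp

open Classical in
noncomputable def GG : PP := ∏ f ∈ Finset.univ.filter (fun f : Fin 5 → Fin 9 => Function.Injective f), mf f

theorem GG_ne : GG ≠ 0 := by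
  rw [GG, Finset.prod_ne_zero_iff]
  intro f hf h
  have hf' : Function.Injective f := (Finset.mem_filter.mp hf).2
  have := eval_mf f (fun p => ((p.1 : ℕ) : ℂ) ^ (p.2 : ℕ))
  rw [h, map_zero] at this
  have h2 : (Matrix.vandermonde (fun i => (((f i : Fin 9) : ℕ) : ℂ))).det ≠ 0 := by
    rw [Matrix.det_vandermonde_ne_zero_iff]
    intro i j hij
    apply hf'
    apply Fin.ext
    exact Nat.cast_injective (R := ℂ) hij
  exact h2 this.symm

theorem gen_GG (x : Fin 9 × Fin 5 → ℂ) (h : eval x GG ≠ 0) : Gen (fun k j => x (k, j)) := by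
  apply gen_of
  intro f hf
  rw [GG, map_prod, Finset.prod_ne_zero_iff] at h
  have := h f (Finset.mem_filter.mpr ⟨Finset.mem_univ _, hf⟩)
  rw [eval_mf] at this
  exact this

theorem exists_pt (Q : PP) (h : Q ≠ 0) : ∃ x, eval x Q ≠ 0 := by
  by_contra hc
  push Not at hc
  exact h (MvPolynomial.funext (fun q => by rw [hc q, map_zero]))

def glue (x y : Fin 9 × Fin 5 → ℂ) : Fin 9 × Fin 5 → ℂ := fun p => if p.1.val < 7 then x p else y p

noncomputable def fz (x : Fin 9 × Fin 5 → ℂ) (Q : PP) : PP :=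
  aeval (fun p : Fin 9 × Fin 5 => if p.1.val < 7 then (C (x p) : PP) else X p) Q

theorem eval_fz (x y : Fin 9 × Fin 5 → ℂ) (Q : PP) : eval y (fz x Q) = eval (glue x y) Q := by
  have : (eval y).comp (aeval (fun p : Fin 9 × Fin 5 =>
      if p.1.val < 7 then (C (x p) : PP) else X p) : PP →ₐ[ℂ] PP).toRingHom = eval (glue x y) := by
    apply ringHom_ext
    · intro r
      simp
    · intro p
      by_cases hp : p.1.val < 7 <;> simp [glue, hp]
  exact RingHom.congr_fun this Q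

theorem glue_self (x : Fin 9 × Fin 5 → ℂ) : glue x x = x := by
  funext p
  simp [glue]

noncomputable def q2 (b0 q b1 : Fin 5 → ℂ) : PP :=
  (Matrix.of ![fun j => C (b0 j), fun j => C (q j), fun j => (X (7, j) : PP), fun j => X (8, j),
    fun j => C (b1 j)]).det

theorem eval_q2 (b0 q b1 : Fin 5 → ℂ) (y : Fin 9 × Fin 5 → ℂ) :
    eval y (q2 b0 q b1)
      = (Matrix.of ![b0, q, fun j => y (7, j), fun j => y (8, j), b1]).det := by
  rw [q2, RingHom.map_det]
  congr 1
  ext i j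
  fin_cases i <;> simp

theorem q2_ne (a : Fin 9 → Fin 5 → ℂ) (H : Gen a) (q u : Fin 5 → ℂ) (u0 : a 0 ⬝ᵥ u = 0)
    (u1 : a 1 ⬝ᵥ u = 0) (u2 : a 2 ⬝ᵥ u = 0) (u3 : a 3 ⬝ᵥ u = 0) (uq : q ⬝ᵥ u ≠ 0) :
    q2 (a 0) q (a 1) ≠ 0 := by
  intro h
  have h1 := eval_q2 (a 0) q (a 1) (fun p => if p.1 = 7 then a 2 p.2 else a 3 p.2)
  rw [h, map_zero] at h1
  obtain ⟨c, hc0, hc⟩ := Matrix.exists_vecMul_eq_zero_iff.mpr h1.symm
  have hd : ∀ v, c 0 * (a 0 ⬝ᵥ v) + c 1 * (q ⬝ᵥ v) + c 2 * (a 2 ⬝ᵥ v) + c 3 * (a 3 ⬝ᵥ v)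
      + c 4 * (a 1 ⬝ᵥ v) = 0 := by
    intro v
    have h2 := congrArg (fun w => w ⬝ᵥ v) hc
    simp only [zero_dotProduct] at h2
    rw [← Matrix.dotProduct_mulVec, dotProduct, Fin.sum_univ_five] at h2
    exact h2
  have c1 : c 1 = 0 := by
    have := hd u
    rw [u0, u1, u2, u3] at this
    simp only [mul_zero, zero_add, add_zero] at this
    exact (mul_eq_zero.mp this).resolve_right uq
  have c0 : c 0 = 0 := by
    obtain ⟨v, hv, hv'⟩ := H {1, 2, 3} (by decide) 0 (by decide)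
    have := hd v
    rw [c1, hv' 1 (by decide), hv' 2 (by decide), hv' 3 (by decide)] at this
    simp only [mul_zero, zero_mul, add_zero] at this
    exact (mul_eq_zero.mp this).resolve_right hv
  have c2 : c 2 = 0 := by
    obtain ⟨v, hv, hv'⟩ := H {1, 3} (by decide) 2 (by decide)
    have := hd v
    rw [c0, c1, hv' 1 (by decide), hv' 3 (by decide)] at this
    simp only [mul_zero, zero_mul, add_zero, zero_add] at this
    exact (mul_eq_zero.mp this).resolve_right hv
  have c3 : c 3 = 0 := by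
    obtain ⟨v, hv, hv'⟩ := H {1} (by decide) 3 (by decide)
    have := hd v
    rw [c0, c1, c2, hv' 1 (by decide)] at this
    simp only [mul_zero, zero_mul, add_zero, zero_add] at this
    exact (mul_eq_zero.mp this).resolve_right hv
  have c4 : c 4 = 0 := by
    obtain ⟨v, hv, -⟩ := H ∅ (by decide) 1 (by decide)
    have := hd v
    rw [c0, c1, c2, c3] at this
    simp only [zero_mul, add_zero, zero_add] at this
    exact (mul_eq_zero.mp this).resolve_right hv
  apply hc0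
  funext i
  fin_cases i
  · exact c0
  · exact c1
  · exact c2
  · exact c3
  · exact c4

theorem dense (P : PP) (hP : P ≠ 0) : ∃ a : Fin 9 → Fin 5 → ℂ,
    eval (fun p : Fin 9 × Fin 5 => a p.1 p.2) P ≠ 0 ∧
    Module.finrank ℂ ↥(Submodule.restrictScalars ℂ
      (Ideal.span (Set.range (fun k => lf (a k) ^ 17))) ⊓ HH 38) ≤ 111329 := by
  obtain ⟨x, hx⟩ := exists_pt _ (mul_ne_zero hP GG_ne)
  have hx' := hx
  rw [map_mul] at hx'
  have H := gen_GG x (right_ne_zero_of_mul hx')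
  obtain ⟨α, t, hα, ht, r0, r1⟩ := setup _ H
  obtain ⟨u, u0, u1, u2, u3, uq⟩ := vec1 _ H α t hα ht r0 r1
  have n2 := q2_ne _ H _ u u0 u1 u2 u3 uq
  have n1 : fz x (P * GG) ≠ 0 := by
    intro h
    apply hx
    rw [← glue_self x, ← eval_fz, h, map_zero]
  obtain ⟨y, hy⟩ := exists_pt _ (mul_ne_zero n1 n2)
  rw [map_mul, eval_fz, eval_q2, map_mul] at hy
  have y1 := left_ne_zero_of_mul (left_ne_zero_of_mul hy)
  have H' := gen_GG _ (right_ne_zero_of_mul (left_ne_zero_of_mul hy))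
  obtain ⟨w, w1, w2⟩ := solve _ (right_ne_zero_of_mul hy) 1
  have hee : ∀ i : Fin 7, (fun j => glue x y (ee i, j)) = fun j => x (ee i, j) := by
    intro i
    funext j
    exact if_pos i.2
  have hq : qv (fun k j => glue x y (k, j)) α t = qv (fun k j => x (k, j)) α t := by
    simp only [qv, hee]
  refine ⟨fun k j => glue x y (k, j), y1, main _ H' α t hα ht ?_ ?_ w ?_ ?_ ?_ ?_⟩
  · simp only [hee]
    exact r0
  · simp only [hee]
    exact r1
  · exact w2 0 (by decide)
  · exact w2 2 (by decide)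
  · exact w2 3 (by decide)
  · rw [hq]
    intro h
    exact one_ne_zero (w1.symm.trans h)

end Pool.Agent.FI
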