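import Pool.Agent.Lib.helper14.FI5

set_option autoImplicit false

namespace Pool.Agent.FI

open MvPolynomial

noncomputable def wt (e : Fin 5 →₀ ℕ) : ℂ := ∏ i, ((e i).factorial : ℂ)

theorem wt_ne (e : Fin 5 →₀ ℕ) : wt e ≠ 0 := by
  rw [wt, Finset.prod_ne_zero_iff]
  intro i _
  exact_mod_cast (e i).factorial_ne_zero

theorem wt_add (e : Fin 5 →₀ ℕ) (i : Fin 5) :
    wt (e + Finsupp.single i 1) = wt e * ((e i : ℂ) + 1) := by
  rw [wt, wt, ← Finset.mul_prod_erase _ _ (Finset.mem_univ i),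
    ← Finset.mul_prod_erase Finset.univ (fun j => ((e j).factorial : ℂ)) (Finset.mem_univ i)]
  have : ∏ j ∈ Finset.univ.erase i, (((e + Finsupp.single i 1 : Fin 5 →₀ ℕ) j).factorial : ℂ)
      = ∏ j ∈ Finset.univ.erase i, ((e j).factorial : ℂ) := by
    apply Finset.prod_congr rfl
    intro j hj
    rw [Finsupp.add_apply, Finsupp.single_eq_of_ne (Finset.ne_of_mem_erase hj), add_zero]
  rw [this, Finsupp.add_apply, Finsupp.single_eq_same, Nat.factorial_succ]
  push_cast
  ring

noncomputable def BB : S →ₗ[ℂ] S →ₗ[ℂ] ℂ :=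
  (basisMonomials (Fin 5) ℂ).constr ℂ (fun e => wt e • lcoeff ℂ e)

theorem BB_mono (e : Fin 5 →₀ ℕ) (c : ℂ) (F : S) :
    BB (monomial e c) F = c * (wt e * coeff e F) := by
  have h : (monomial e c : S) = c • basisMonomials (Fin 5) ℂ e := by
    simp [smul_monomial]
  rw [h, map_smul, BB, Module.Basis.constr_basis]
  simp

theorem BB_X (G F : S) (i : Fin 5) : BB (G * X i) F = BB G (pderiv i F) := by
  induction G using MvPolynomial.induction_on' with
  | monomial e c =>
    rw [X, monomial_mul, mul_one, BB_mono, BB_mono, wt_add, coeff_pderiv]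
    ring
  | add p q hp hq => rw [add_mul, map_add, map_add, LinearMap.add_apply, LinearMap.add_apply, hp, hq]

theorem BB_lf (G F : S) (a : Fin 5 → ℂ) : BB (G * lf a) F = BB G (dv a F) := by
  rw [lf, dv_apply, Finset.mul_sum, map_sum, map_sum, LinearMap.sum_apply]
  apply Finset.sum_congr rfl
  intro i _
  rw [← smul_eq_C_mul, ← smul_eq_C_mul, mul_smul_comm, map_smul, map_smul, LinearMap.smul_apply,
    BB_X]

theorem BB_pow (a : Fin 5 → ℂ) (n : ℕ) :
    ∀ G F : S, BB (G * lf a ^ n) F = BB G ((dv a ^ n) F) := by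
  induction n with
  | zero =>
    intro G F
    simp
  | succ n ih =>
    intro G F
    rw [pow_succ, ← mul_assoc, BB_lf, ih, pow_succ, Module.End.mul_apply]

theorem dv_pow_hom (a : Fin 5 → ℂ) (N k : ℕ) :
    ∀ F : S, F.IsHomogeneous (N + k) → ((dv a ^ k) F).IsHomogeneous N := by
  induction k with
  | zero =>
    intro F hF
    simpa using hF
  | succ k ih =>
    intro F hF
    rw [pow_succ, Module.End.mul_apply]
    exact ih _ (dv_hom a hF)

noncomputable def EE (a : Fin 5 → ℂ) : S →ₐ[ℂ] Polynomial S :=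
  aeval (fun i => Polynomial.C (X i) + Polynomial.C (C (a i)) * Polynomial.X)

theorem EE_X (a : Fin 5 → ℂ) (i : Fin 5) :
    EE a (X i) = Polynomial.C (X i) + Polynomial.C (C (a i)) * Polynomial.X := by
  rw [EE, aeval_X]

theorem EE_C (a : Fin 5 → ℂ) (c : ℂ) : EE a (C c) = Polynomial.C (C c) := by
  rw [EE, aeval_C]
  rfl

theorem EE_der (a : Fin 5 → ℂ) (F : S) : Polynomial.derivative (EE a F) = EE a (dv a F) := by
  induction F using MvPolynomial.induction_on with
  | C c => rw [EE_C, dv_C, map_zero, Polynomial.derivative_C]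
  | add p q hp hq => rw [map_add, map_add, map_add, map_add, hp, hq]
  | mul_X p i hp =>
    rw [map_mul, Polynomial.derivative_mul, hp, dv_mul, dv_X, map_add, map_mul, map_mul, EE_C, EE_X]
    simp

theorem EE_zero (a : Fin 5 → ℂ) (F : S) : (EE a F).coeff 0 = F := by
  induction F using MvPolynomial.induction_on with
  | C c => rw [EE_C, Polynomial.coeff_C_zero]
  | add p q hp hq => rw [map_add, Polynomial.coeff_add, hp, hq]
  | mul_X p i hp =>
    rw [map_mul, Polynomial.mul_coeff_zero, hp, EE_X]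
    simp

theorem EE_coeff (a : Fin 5 → ℂ) (k : ℕ) :
    ∀ F : S, (EE a F).coeff k = C ((k.factorial : ℂ)⁻¹) * (dv a ^ k) F := by
  induction k with
  | zero =>
    intro F
    simp [EE_zero]
  | succ k ih =>
    intro F
    have h1 := ih (dv a F)
    rw [← EE_der, Polynomial.coeff_derivative] at h1
    have hk : ((k : ℂ) + 1) ≠ 0 := Nat.cast_add_one_ne_zero k
    have h2 : (C (((k : ℂ) + 1)⁻¹) : S) * ((k : S) + 1) = 1 := by
      have : ((k : S) + 1) = C ((k : ℂ) + 1) := by rw [map_add, map_natCast, map_one]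
      rw [this, ← map_mul, inv_mul_cancel₀ hk, map_one]
    rw [pow_succ, Module.End.mul_apply, Nat.factorial_succ, Nat.cast_mul, mul_inv, map_mul,
      mul_assoc, ← h1, Nat.cast_succ]
    linear_combination (-(EE a F).coeff (k + 1)) * h2

theorem aeval_mem (y : Fin 5 → S) (h : S) (N : ℕ) (hh : h.IsHomogeneous N) :
    aeval y h ∈ Ideal.span (Set.range y) ^ N := by
  rw [h.as_sum, map_sum]
  apply Ideal.sum_mem
  intro e he
  rw [aeval_monomial, Finsupp.prod_fintype _ _ (fun _ => pow_zero _)]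
  apply Ideal.mul_mem_left
  have hd : N = ∑ i, e i := by
    have := hh (mem_support_iff.mp he)
    rw [← this, Finsupp.weight_apply, Finsupp.sum_fintype _ _ (fun _ => by simp)]
    simp
  rw [hd, ← Finset.prod_pow_eq_pow_sum]
  exact Ideal.prod_mem_prod (fun i _ =>
    Ideal.pow_mem_pow (Ideal.subset_span (Set.mem_range_self i)) _)

theorem vanish0 (a : Fin 5 → ℂ) (m D : ℕ) (F : S) (hF : F.IsHomogeneous (m + D))
    (h : (dv a ^ (D + 1)) F = 0) :
    F ∈ Ideal.span (Set.range (fun j => (X j - C (a j) : S))) ^ m := by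
  let τ : S →+* S := (aeval (fun j => (X j - C (a j) : S)) : S →ₐ[ℂ] S).toRingHom
  have e : (Polynomial.eval₂RingHom τ 1).comp (EE a).toRingHom = RingHom.id S := by
    apply ringHom_ext
    · intro r
      simp [τ]
    · intro i
      simp [EE_X, τ]
  have e1 : Polynomial.eval₂ τ 1 (EE a F) = F := RingHom.congr_fun e F
  rw [← e1, Polynomial.eval₂_eq_sum_range]
  apply Ideal.sum_mem
  intro k _
  apply Ideal.mul_mem_right
  rw [EE_coeff]
  by_cases hk : k ≤ D
  · have h1 : ((dv a ^ k) F).IsHomogeneous (m + D - k) :=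
      dv_pow_hom a _ k F (by rwa [show m + D - k + k = m + D by omega])
    exact Ideal.pow_le_pow_right (by omega) (aeval_mem _ _ _ (h1.C_mul _))
  · obtain ⟨l, hl⟩ : ∃ l, k = l + (D + 1) := ⟨k - (D + 1), by omega⟩
    rw [hl, pow_add, Module.End.mul_apply, h, map_zero, mul_zero, map_zero]
    exact Ideal.zero_mem _

theorem vanish (a : Fin 5 → ℂ) (m D N E : ℕ) (hN : N = m + D) (hE : E = D + 1) (F : S)
    (hF : F.IsHomogeneous N) (h : (dv a ^ E) F = 0) :
    F ∈ Ideal.span (Set.range (fun j => (X j - C (a j) : S))) ^ m := by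
  subst hN
  subst hE
  exact vanish0 a m D F hF h

theorem dv_pow_hom' (a : Fin 5 → ℂ) (N k M : ℕ) (hM : M = N + k) (F : S)
    (hF : F.IsHomogeneous M) : ((dv a ^ k) F).IsHomogeneous N := by
  subst hM
  exact dv_pow_hom a N k F hF

theorem fat0 (a : Fin 9 → Fin 5 → ℂ) (m D N : ℕ) (hN : N = m + 1 + D) (I L : Submodule ℂ S)
    (hI : I ≤ HH N) (hL : L ≤ HH N)
    (hI' : ∀ k (g : S), g.IsHomogeneous m → g * lf (a k) ^ (D + 1) ∈ I)
    (hL' : ∀ F : S, F.IsHomogeneous N →
      (∀ k, F ∈ Ideal.span (Set.range (fun j => (X j - C (a k j) : S))) ^ (m + 1)) → F ∈ L) :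
    Module.finrank ℂ (HH N) ≤ Module.finrank ℂ I + Module.finrank ℂ L := by
  have : Module.Finite ℂ I := Submodule.finiteDimensional_of_le hI
  have : Module.Finite ℂ L := Submodule.finiteDimensional_of_le hL
  let Φ : HH N →ₗ[ℂ] Module.Dual ℂ I := BB.flip.domRestrict₁₂ (HH N) I
  have d1 := LinearMap.finrank_range_add_finrank_ker Φ
  have d2 : Module.finrank ℂ (LinearMap.range Φ) ≤ Module.finrank ℂ I := by
    refine (Submodule.finrank_le _).trans ?_
    rw [Subspace.dual_finrank_eq]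
  have hle : (LinearMap.ker Φ).map (HH N).subtype ≤ L := by
    rintro _ ⟨F, hF, rfl⟩
    rw [Submodule.subtype_apply]
    refine hL' (F : S) F.2 (fun k => ?_)
    refine vanish (a k) (m + 1) D N (D + 1) hN rfl (F : S) F.2 ?_
    have hh : ((dv (a k) ^ (D + 1)) (F : S)).IsHomogeneous m :=
      dv_pow_hom' _ m (D + 1) N (by omega) _ F.2
    apply MvPolynomial.ext
    intro e
    rw [coeff_zero]
    by_cases he : e.degree = m
    · have hm : (monomial e (1 : ℂ) : S).IsHomogeneous m := isHomogeneous_monomial _ he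
      have h0 : BB (monomial e (1 : ℂ) * lf (a k) ^ (D + 1)) (F : S) = 0 :=
        LinearMap.congr_fun (LinearMap.mem_ker.mp hF) ⟨_, hI' k _ hm⟩
      rw [BB_pow, BB_mono, one_mul] at h0
      exact (mul_eq_zero.mp h0).resolve_left (wt_ne e)
    · exact hh.coeff_eq_zero he
  have d3 := Submodule.finrank_mono hle
  rw [Submodule.finrank_map_subtype_eq] at d3
  omega

theorem fat (a : Fin 9 → Fin 5 → ℂ)
    (h : Module.finrank ℂ ↥(Submodule.restrictScalars ℂ
      (Ideal.span (Set.range (fun k => lf (a k) ^ 17))) ⊓ HH 38) ≤ 111329)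
    (L : Submodule ℂ S) (hL : L ≤ HH 38) (m : ℕ) (hm : m = 22)
    (hL' : ∀ F : S, F.IsHomogeneous 38 →
      (∀ k, F ∈ Ideal.span (Set.range (fun j => (X j - C (a k j) : S))) ^ m) → F ∈ L) :
    601 ≤ Module.finrank ℂ L := by
  obtain ⟨m', rfl⟩ : ∃ m', m = m' + 1 := ⟨21, hm⟩
  have hm' : m' = 21 := by omega
  have hLk : ∀ k, (lf (a k) ^ 17).IsHomogeneous 17 := fun k => by
    simpa using (lf_hom (a k)).pow 17
  have := fat0 a m' 16 38 (by omega) (Submodule.restrictScalars ℂ
      (Ideal.span (Set.range (fun k => lf (a k) ^ 17))) ⊓ HH 38) L inf_le_right hL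
      (fun k g hg => ⟨Ideal.mul_mem_left _ _ (Ideal.subset_span ⟨k, rfl⟩), by
        rw [hm'] at hg
        exact hg.mul (hLk k)⟩) hL'
  rw [finrank_HH] at this
  have c1 : (38 + 4).choose 4 = 111930 := by decide +kernel
  rw [c1] at this
  omega

end Pool.Agent.FI
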