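import Mathlib

set_option autoImplicit false

namespace Pool.Agent.H14Flow

open Polynomial IntermediateField

/-- Rational function field in variables indexed by `ι`. -/
abbrev KK (ι : Type) := FractionRing (MvPolynomial ι ℂ)

lemma exists_line {ι : Type} (a b : MvPolynomial ι ℂ) (hb : b ≠ 0)
    (h : ∀ c : ℂ, a ≠ MvPolynomial.C c * b) :
    ∃ e : MvPolynomial ι ℂ →ₐ[ℂ] ℂ[X], e b ≠ 0 ∧ ∀ c : ℂ, e a ≠ C c * e b := by
  obtain ⟨q, hq⟩ : ∃ q, MvPolynomial.eval q b ≠ 0 := by
    by_contra hh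
    push Not at hh
    exact hb (MvPolynomial.funext (by simpa using hh))
  obtain ⟨p, hp⟩ : ∃ p, MvPolynomial.eval p a * MvPolynomial.eval q b
      ≠ MvPolynomial.eval q a * MvPolynomial.eval p b := by
    by_contra hh
    push Not at hh
    refine h (MvPolynomial.eval q a / MvPolynomial.eval q b) (MvPolynomial.funext fun p => ?_)
    have := hh p
    simp only [map_mul, MvPolynomial.eval_C]
    field_simp
    exact this
  let e : MvPolynomial ι ℂ →ₐ[ℂ] ℂ[X] := MvPolynomial.aeval fun i => C (p i) + C (q i - p i) * X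
  have he : ∀ (t : ℂ) (g : MvPolynomial ι ℂ),
      (e g).eval t = MvPolynomial.eval (fun i => p i + (q i - p i) * t) g := by
    intro t g
    induction g using MvPolynomial.induction_on with
    | C c => simp [e]
    | add f g hf hg => simp [hf, hg]
    | mul_X f i hf => simp only [map_mul, eval_mul, hf]; simp [e]
  have h0 : ∀ g, (e g).eval 0 = MvPolynomial.eval p g := fun g => by rw [he]; simp
  have h1 : ∀ g, (e g).eval 1 = MvPolynomial.eval q g := fun g => by rw [he]; simp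
  refine ⟨e, fun h => hq (by rw [← h1, h, eval_zero]), fun c hc => hp ?_⟩
  rw [← h0, ← h0, ← h1, ← h1, hc]
  simp only [eval_mul, eval_C]; ring

lemma exists_emb {ι : Type} (M : IntermediateField ℂ (KK ι)) (hM : Algebra.trdeg ℂ M ≤ 1)
    (m : M) (hm : (m : KK ι) ∉ (algebraMap ℂ (KK ι)).range) :
    Nonempty (M →ₐ[ℂ] RatFunc ℂ) := by
  classical
  set R := MvPolynomial ι ℂ
  obtain ⟨a, b, hb, hab⟩ := IsFractionRing.div_surjective R (m : KK ι)
  have hb0 : b ≠ 0 := nonZeroDivisors.ne_zero hb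
  have hbK : algebraMap R (KK ι) b ≠ 0 := (map_ne_zero_iff _ (IsFractionRing.injective R _)).2 hb0
  have hCK : ∀ c : ℂ, algebraMap R (KK ι) (MvPolynomial.C c) = algebraMap ℂ _ c := fun c =>
    (IsScalarTower.algebraMap_apply ℂ R (KK ι) c).symm
  obtain ⟨e, heb, hea⟩ := exists_line a b hb0 (by
    rintro c rfl
    refine hm ⟨c, ?_⟩
    rw [← hab, map_mul, hCK, mul_div_assoc, div_self hbK, mul_one])
  let S : Submonoid R := (nonZeroDivisors ℂ[X]).comap e
  have hSm : ∀ s, s ∈ S ↔ e s ≠ 0 := fun s => mem_nonZeroDivisors_iff_ne_zero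
  have hS : S ≤ nonZeroDivisors R := fun s hs => mem_nonZeroDivisors_of_ne_zero (by
    rintro rfl; exact (hSm _).1 hs (map_zero _))
  let O := Localization.subalgebra.ofField (KK ι) S hS
  have hO : ∀ f, f ∈ O ↔ ∃ (a s : R) (_ : s ∈ S),
      f = algebraMap R (KK ι) a * (algebraMap R (KK ι) s)⁻¹ := fun f => Iff.rfl
  have : IsIntegrallyClosed O := isIntegrallyClosed_of_isLocalization O S hS
  let O' : Subalgebra ℂ (KK ι) := O.restrictScalars ℂ
  have hmO : (m : KK ι) ∈ O := (hO _).2 ⟨a, b, (hSm _).2 heb, by rw [← hab, div_eq_mul_inv]⟩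
  have hinv : ∀ c : ℂ, ((m : KK ι) - algebraMap ℂ _ c)⁻¹ ∈ O := by
    intro c
    refine (hO _).2 ⟨b, a - MvPolynomial.C c * b, (hSm _).2 ?_, ?_⟩
    · rw [map_sub, map_mul, sub_ne_zero]
      simpa using hea c
    · rw [← hab, map_sub, map_mul, hCK, div_sub' hbK, inv_div, div_eq_mul_inv, mul_comm (algebraMap R (KK ι) b) (algebraMap ℂ _ c)]
  have hpinv : ∀ p : ℂ[X], (aeval (m : KK ι) p)⁻¹ ∈ O' := by
    intro p
    rw [(IsAlgClosed.splits p).eq_prod_roots, map_mul, aeval_C, map_multiset_prod,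
      Multiset.map_map, mul_inv, ← map_inv₀, ← Multiset.prod_map_inv]
    refine mul_mem (O'.algebraMap_mem _) (Subalgebra.multiset_prod_mem _ ?_)
    intro z hz
    obtain ⟨l, -, rfl⟩ := Multiset.mem_map.1 hz
    have : ((m : KK ι) - algebraMap ℂ _ l)⁻¹ ∈ O' := hinv l
    simpa using this
  have htr : Transcendental ℂ m := by
    intro h
    obtain ⟨c, hc⟩ := (IsAlgClosed.algebraMap_bijective_of_isIntegral
      (k := ℂ) (K := integralClosure ℂ M)).2 ⟨m, h.isIntegral⟩
    exact hm ⟨c, by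
      have := congrArg (fun z : integralClosure ℂ M => ((z : M) : KK ι)) hc
      simpa using this⟩
  have hbas : IsTranscendenceBasis ℂ ![m] :=
    (algebraicIndependent_iff_transcendental.2 htr).isTranscendenceBasis_of_trdeg_le_of_finite
      (by simpa using hM)
  have hle : ∀ f : M, (f : KK ι) ∈ O := by
    intro f
    obtain ⟨y, hy, hint⟩ := (hbas.isAlgebraic.isAlgebraic f).exists_integral_multiple
    have hsub : ∀ z : Algebra.adjoin ℂ (Set.range ![m]), ∃ p : ℂ[X],
        ((z : M) : KK ι) = aeval (m : KK ι) p := by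
      rintro ⟨z, hz⟩
      have : Set.range ![m] = {m} := by simp
      rw [this, Algebra.adjoin_singleton_eq_range_aeval] at hz
      obtain ⟨p, rfl⟩ := hz
      exact ⟨p, (aeval_algHom_apply M.val m p).symm⟩
    have hmem : ∀ z : Algebra.adjoin ℂ (Set.range ![m]), ((z : M) : KK ι) ∈ O := by
      intro z
      obtain ⟨p, hp⟩ := hsub z
      rw [hp]
      exact Algebra.adjoin_le (S := O') (Set.singleton_subset_iff.2 hmO)
        (aeval_mem_adjoin_singleton ℂ _)
    let g : Algebra.adjoin ℂ (Set.range ![m]) →+* O :=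
      ((M.val.comp (Subalgebra.val _)).toRingHom).codRestrict O hmem
    have hint' : IsIntegral O (((y • f : M)) : KK ι) :=
      IsIntegral.map_of_comp_eq g (M.val : M →+* KK ι) (by ext; rfl) hint
    obtain ⟨w, hw⟩ := IsIntegrallyClosed.isIntegral_iff.1 hint'
    obtain ⟨p, hp⟩ := hsub y
    have hy' : ((y : M) : KK ι) ≠ 0 := by simpa using hy
    have : (f : KK ι) = ((y : M) : KK ι)⁻¹ * w := by
      have : (w : KK ι) = ((y : M) : KK ι) * f := hw
      rw [this]; field_simp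
    rw [this]
    exact mul_mem (hp ▸ hpinv p) w.2
  let E : O →ₐ[ℂ] RatFunc ℂ := IsLocalization.liftAlgHom (M := S)
    (f := (IsScalarTower.toAlgHom ℂ ℂ[X] (RatFunc ℂ)).comp e) (fun s =>
      IsUnit.mk0 _ (RatFunc.algebraMap_ne_zero ((hSm _).1 s.2)))
  let j : M →ₐ[ℂ] O := { (M.val.toRingHom.codRestrict O hle) with commutes' := fun _ => rfl }
  exact ⟨E.comp j⟩

theorem igusa {ι : Type} (M : IntermediateField ℂ (KK ι)) (hM : Algebra.trdeg ℂ M ≤ 1) :
    ∃ v ∈ M, M ≤ ℂ⟮v⟯ := by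
  by_cases h : ∀ m : M, (m : KK ι) ∈ (algebraMap ℂ (KK ι)).range
  · refine ⟨0, zero_mem _, fun f hf => ?_⟩
    obtain ⟨c, hc⟩ := h ⟨f, hf⟩
    have hc' : algebraMap ℂ (KK ι) c = f := hc
    exact hc' ▸ IntermediateField.algebraMap_mem _ c
  push Not at h
  obtain ⟨m, hm⟩ := h
  obtain ⟨j⟩ := exists_emb M hM m hm
  obtain ⟨v, hv⟩ := RatFunc.Luroth.generator_mem (E := j.fieldRange)
  refine ⟨v, v.2, fun f hf => ?_⟩
  have h1 : j ⟨f, hf⟩ ∈ j.fieldRange := ⟨_, rfl⟩
  rw [RatFunc.Luroth.eq_adjoin_generator (E := j.fieldRange), mem_adjoin_simple_iff] at h1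
  obtain ⟨r, s, hrs⟩ := h1
  have hv' : j v = RatFunc.Luroth.generator j.fieldRange := hv
  rw [← hv', aeval_algHom_apply, aeval_algHom_apply, ← map_div₀] at hrs
  have := congrArg M.val (j.toRingHom.injective hrs)
  rw [map_div₀, ← aeval_algHom_apply, ← aeval_algHom_apply] at this
  exact (mem_adjoin_simple_iff _ _).2 ⟨r, s, this⟩

end Pool.Agent.H14Flow
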