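import Mathlib

set_option autoImplicit false

namespace Pool.Agent.H14Flow

open Polynomial IntermediateField

section core
variable {K : Type*} [Field K] [Algebra ℂ K] (σ : K →ₐ[ℂ] K) (ρ : ℂˣ → K →ₐ[ℂ] K)

/-- Scalar as an element of `K`. -/
abbrev sc (K : Type*) [Field K] [Algebra ℂ K] (l : ℂˣ) : K := algebraMap ℂ K l

lemma sc_ne (l : ℂˣ) : sc K l ≠ 0 := (_root_.map_ne_zero _).2 l.ne_zero

/-- Homogeneous of degree `e`. -/
def Hg (e : ℤ) (h : K) : Prop := ∀ l, ρ l h = sc K l ^ e * h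

/-- Equivariant polynomial. -/
def Good (e : ℤ) (G : K[X]) : Prop :=
  G.map (σ : K →+* K) = G.comp (X + 1) ∧
    ∀ l, G.map (ρ l : K →+* K) = C (sc K l ^ e) * G.comp (C (sc K l) * X)

variable {σ ρ}

lemma Good.deriv {e : ℤ} {G : K[X]} (h : Good σ ρ e G) : Good σ ρ (e + 1) (derivative G) := by
  refine ⟨?_, fun l => ?_⟩
  · rw [← derivative_map, h.1, derivative_comp]; simp
  · rw [← derivative_map, h.2, derivative_C_mul, derivative_comp, zpow_add_one₀ (sc_ne l), C_mul]
    simp [mul_assoc]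

lemma Good.slice {e : ℤ} {G : K[X]} (h : Good σ ρ e G) (hd : 1 ≤ G.natDegree) :
    ∃ s : K, σ s = s + 1 ∧ Hg ρ (-1) s := by
  have : CharZero K := charZero_of_injective_algebraMap (algebraMap ℂ K).injective
  induction hn : G.natDegree generalizing e G with
  | zero => omega
  | succ n ih =>
    rcases n.eq_zero_or_pos with rfl | hpos
    · have hG := eq_X_add_C_of_natDegree_le_one (p := G) (by omega)
      have ha : G.coeff 1 ≠ 0 := by
        have : G.coeff 1 = G.leadingCoeff := by rw [leadingCoeff, hn]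
        rw [this, leadingCoeff_ne_zero]
        rintro rfl; simp at hn
      set a := G.coeff 1
      set b := G.coeff 0
      have h1 := h.1
      rw [hG] at h1
      have h10 := congrArg (coeff · 0) h1
      have h11 := congrArg (coeff · 1) h1
      simp [mul_add, coeff_C] at h10 h11
      refine ⟨b / a, by rw [map_div₀, h10, h11]; field_simp; ring, fun l => ?_⟩
      have h2 := h.2 l
      rw [hG] at h2
      have h20 := congrArg (coeff · 0) h2
      have h21 := congrArg (coeff · 1) h2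
      simp [coeff_C, ← map_zpow₀, ← mul_assoc, ← map_mul] at h20 h21
      have := sc_ne (K := K) l
      have h3 := zpow_ne_zero e this
      rw [map_div₀, h20, h21]
      simp only [map_zpow₀, zpow_neg_one]
      field_simp
    · exact ih h.deriv (by rw [natDegree_derivative]; omega)
        (by rw [natDegree_derivative]; omega)

lemma Good.eval_mem {e : ℤ} {G : K[X]} (h : Good σ ρ e G) {s : K} (hs : σ s = s + 1)
    (hs' : Hg ρ (-1) s) (E : IntermediateField ℂ K) (hsE : s ∈ E)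
    (hE : ∀ d h, σ h = h → Hg ρ d h → h ∈ E) : G.eval 0 ∈ E := by
  have e1 : G.eval 0 = (G.comp (X - C s)).eval s := by simp [eval_comp]
  rw [e1, eval_eq_sum_range]
  refine sum_mem fun k _ => mul_mem (hE (e + k) _ ?_ fun l => ?_) (pow_mem hsE _)
  · have : (G.comp (X - C s)).map (σ : K →+* K) = G.comp (X - C s) := by
      rw [map_comp, h.1, comp_assoc]
      congr 1
      simp [hs]
      ring
    simpa using congrArg (coeff · k) this
  · have h0 := sc_ne (K := K) l
    have : (G.comp (X - C s)).map (ρ l : K →+* K)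
        = C (sc K l ^ e) * (G.comp (X - C s)).comp (C (sc K l) * X) := by
      rw [map_comp, h.2, mul_comp, C_comp, comp_assoc, comp_assoc]
      congr 2
      simp only [Polynomial.map_sub, map_X, map_C, RingHom.coe_coe, hs' l, mul_comp, C_comp, X_comp,
        sub_comp, mul_sub, ← map_mul, zpow_neg_one, mul_inv_cancel_left₀ h0]
    have := congrArg (coeff · k) this
    simp only [coeff_map, RingHom.coe_coe, coeff_C_mul, comp_C_mul_X_coeff] at this
    rw [this, zpow_add₀ h0, zpow_natCast]; ring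

omit [Algebra ℂ K] in
lemma uniq {A B A' B' : K[X]} (h : IsCoprime A B) (h' : IsCoprime A' B') (hB : B.Monic)
    (hB' : B'.Monic) (e : A * B' = A' * B) : A = A' ∧ B = B' := by
  have h1 : B ∣ B' := h.symm.dvd_of_dvd_mul_left ⟨A', by rw [e, mul_comm]⟩
  have h2 : B' ∣ B := h'.symm.dvd_of_dvd_mul_left ⟨A, by rw [← e, mul_comm]⟩
  have h3 : B = B' := eq_of_monic_of_associated hB hB' (associated_of_dvd_dvd h1 h2)
  subst h3
  exact ⟨mul_right_cancel₀ hB.ne_zero e, rfl⟩

lemma reduce {A B : K[X]} (hB : B ≠ 0)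
    (h1 : A.comp (X + 1) * B.map (σ : K →+* K) = A.map (σ : K →+* K) * B.comp (X + 1))
    (h2 : ∀ l, A.map (ρ l : K →+* K) * B.comp (C (sc K l) * X)
      = C (sc K l) * A.comp (C (sc K l) * X) * B.map (ρ l : K →+* K)) :
    ∃ (A' B' : K[X]) (e e' : ℤ), IsCoprime A' B' ∧ B'.Monic ∧ A * B' = A' * B ∧
      Good σ ρ e A' ∧ Good σ ρ e' B' := by
  classical
  obtain ⟨A', B', g, hc, hm, hg, rfl, rfl⟩ : ∃ A' B' g : K[X], IsCoprime A' B' ∧ B'.Monic ∧
      g ≠ 0 ∧ A = g * A' ∧ B = g * B' := by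
    obtain ⟨A1, B1, hA, hB1, hu⟩ := extract_gcd A B
    have hg : gcd A B ≠ 0 := fun h => hB (by rw [hB1, h, zero_mul])
    have hb : B1 ≠ 0 := fun h => hB (by rw [hB1, h, mul_zero])
    have hl : B1.leadingCoeff ≠ 0 := leadingCoeff_ne_zero.2 hb
    have hU : IsUnit (C B1.leadingCoeff⁻¹) := isUnit_C.2 (IsUnit.mk0 _ (inv_ne_zero hl))
    refine ⟨A1 * C B1.leadingCoeff⁻¹, B1 * C B1.leadingCoeff⁻¹, gcd A B * C B1.leadingCoeff,
      (isCoprime_mul_unit_right hU _ _).2 ((gcd_isUnit_iff _ _).1 hu), monic_mul_leadingCoeff_inv hb,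
      mul_ne_zero hg (C_ne_zero.2 hl), ?_, ?_⟩
    · rw [mul_mul_mul_comm, ← map_mul, mul_inv_cancel₀ hl, map_one, mul_one, ← hA]
    · rw [mul_mul_mul_comm, ← map_mul, mul_inv_cancel₀ hl, map_one, mul_one, ← hB1]
  have hcomp : ∀ q : K[X], IsCoprime (A'.comp q) (B'.comp q) := fun q =>
    hc.map (compRingHom q)
  have hX1 : (X + 1 : K[X]) = X + C 1 := by simp
  have u1 : A'.map (σ : K →+* K) = A'.comp (X + 1) ∧ B'.map (σ : K →+* K) = B'.comp (X + 1) := by
    have hm' : (B'.comp (X + 1)).Monic := by rw [hX1]; exact hm.comp_X_add_C 1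
    have hc' : IsCoprime (A'.map (σ : K →+* K)) (B'.map (σ : K →+* K)) :=
      hc.map (mapRingHom (σ : K →+* K))
    refine uniq hc' (hcomp _) (hm.map _) hm' ?_
    have g1 : g.comp (X + 1) ≠ 0 := by rw [hX1]; exact mt comp_X_add_C_eq_zero_iff.1 hg
    have g2 : g.map (σ : K →+* K) ≠ 0 := Polynomial.map_ne_zero hg
    refine mul_left_cancel₀ (mul_ne_zero g1 g2) ?_
    simp only [mul_comp, Polynomial.map_mul] at h1
    linear_combination -h1
  have u2 : ∀ l, A'.map (ρ l : K →+* K)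
        = C (sc K l ^ (1 - B'.natDegree : ℤ)) * A'.comp (C (sc K l) * X) ∧
      B'.map (ρ l : K →+* K) = C (sc K l ^ (-B'.natDegree : ℤ)) * B'.comp (C (sc K l) * X) := by
    intro l
    have h0 := sc_ne (K := K) l
    have hu : ∀ z : ℤ, IsUnit (C (sc K l ^ z)) := fun z =>
      isUnit_C.2 (IsUnit.mk0 _ (zpow_ne_zero _ h0))
    have hd : (C (sc K l) * X).natDegree ≠ 0 := by rw [natDegree_C_mul_X _ h0]; norm_num
    have hc' : IsCoprime (A'.map (ρ l : K →+* K)) (B'.map (ρ l : K →+* K)) :=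
      hc.map (mapRingHom (ρ l : K →+* K))
    refine uniq hc' ?_ (hm.map _) ?_ ?_
    · exact (isCoprime_mul_unit_left_left (hu _) _ _).2
        ((isCoprime_mul_unit_left_right (hu _) _ _).2 (hcomp _))
    · rw [Monic, leadingCoeff_mul, leadingCoeff_C, leadingCoeff_comp hd, hm.leadingCoeff,
        leadingCoeff_C_mul_X, one_mul, zpow_neg, zpow_natCast, inv_mul_cancel₀ (pow_ne_zero _ h0)]
    · have g1 : g.comp (C (sc K l) * X) ≠ 0 := by
        rw [Ne, comp_eq_zero_iff]
        rintro (h | ⟨-, h⟩)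
        · exact hg h
        · rw [h] at hd; simp at hd
      have g2 : g.map (ρ l : K →+* K) ≠ 0 := Polynomial.map_ne_zero hg
      refine mul_left_cancel₀ (mul_ne_zero g1 g2) ?_
      have h3 := h2 l
      simp only [mul_comp, Polynomial.map_mul] at h3
      rw [sub_eq_add_neg, zpow_add₀ h0, zpow_one, map_mul]
      linear_combination (C (sc K l ^ (-B'.natDegree : ℤ))) * h3
  exact ⟨A', B', _, _, hc, hm, by ring, ⟨u1.1, fun l => (u2 l).1⟩, ⟨u1.2, fun l => (u2 l).2⟩⟩

lemma inf_units (y : K) (hy : y ≠ 0) (p : K[X]) (h : ∀ l : ℂˣ, p.eval (sc K l * y) = 0) :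
    p = 0 := by
  have : Infinite ℂˣ := Infinite.of_injective (fun n : ℕ => Units.mk0 ((n : ℂ) + 1)
    (Nat.cast_add_one_ne_zero n)) (fun a b h => by simpa using h)
  refine p.eq_zero_of_infinite_isRoot (Set.infinite_of_injective_forall_mem
    (f := fun l : ℂˣ => sc K l * y) (fun a b hab => ?_) h)
  exact Units.ext ((algebraMap ℂ K).injective (mul_right_cancel₀ hy hab))

lemma eval_map_fix (τ : K →ₐ[ℂ] K) (E : IntermediateField ℂ K) (hE : ∀ z ∈ E, τ z = z)
    (p : E[X]) (y : K) : τ (aeval y p) = (p.map (algebraMap E K)).eval (τ y) := by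
  induction p using Polynomial.induction_on' with
  | add p q hp hq => simp [hp, hq]
  | monomial n a => simp [aeval_monomial, hE]

lemma inv_mem_of (E : IntermediateField ℂ K) (hE : ∀ l, ∀ z ∈ E, ρ l z = z) {y : K} (hy0 : y ≠ 0)
    (hy : Hg ρ 1 y) {f : K} (hf : f ∈ (↥E)⟮y⟯) (hf' : Hg ρ 0 f) : f ∈ E := by
  obtain ⟨g, h, hgh⟩ := (mem_adjoin_simple_iff (↥E) f).1 hf
  by_cases h0 : aeval y h = 0
  · rw [hgh, h0, div_zero]; exact zero_mem _
  have hh : h ≠ 0 := by rintro rfl; simp at h0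
  have e : C f * h.map (algebraMap E K) - g.map (algebraMap E K) = 0 := by
    refine inf_units y hy0 _ fun l => ?_
    have := congrArg (ρ l) ((eq_div_iff h0).1 hgh)
    rw [map_mul, eval_map_fix _ E (hE l), eval_map_fix _ E (hE l), hy l, hf' l] at this
    simpa [sub_eq_zero] using this
  have := congrArg (coeff · h.natDegree) (sub_eq_zero.1 e)
  simp only [coeff_C_mul, coeff_map] at this
  have hl : algebraMap E K (h.coeff h.natDegree) ≠ 0 :=
    (_root_.map_ne_zero _).2 (leadingCoeff_ne_zero.2 hh)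
  rw [(eq_div_iff hl).2 this]
  exact div_mem (g.coeff _).2 (h.coeff _).2

variable (σ ρ) in
/-- Joint invariants. -/
def MM : IntermediateField ℂ K where
  carrier := {h | σ h = h ∧ ∀ l, ρ l h = h}
  mul_mem' := fun {a b} ha hb => ⟨by rw [map_mul, ha.1, hb.1], fun l => by
    rw [map_mul, ha.2, hb.2]⟩
  add_mem' := fun {a b} ha hb => ⟨by rw [map_add, ha.1, hb.1], fun l => by
    rw [map_add, ha.2, hb.2]⟩
  algebraMap_mem' := fun c => ⟨σ.commutes c, fun l => (ρ l).commutes c⟩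
  inv_mem' := fun a ha => ⟨by rw [map_inv₀, ha.1], fun l => by rw [map_inv₀, ha.2]⟩

lemma mem_MM {h : K} : h ∈ MM σ ρ ↔ σ h = h ∧ ∀ l, ρ l h = h := Iff.rfl

lemma exists_level : ∃ (N : ℕ) (a : K), a ≠ 0 ∧ σ a = a ∧ Hg ρ N a ∧
    ∀ d h, σ h = h → Hg ρ d h → ∃ k : ℤ, ∃ m ∈ MM σ ρ, h = m * a ^ k := by
  let H : AddSubgroup ℤ :=
    { carrier := {e | ∃ h : K, h ≠ 0 ∧ σ h = h ∧ Hg ρ e h}
      zero_mem' := ⟨1, one_ne_zero, map_one _, fun l => by simp⟩
      add_mem' := by
        rintro a b ⟨f, f0, f1, f2⟩ ⟨g, g0, g1, g2⟩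
        refine ⟨f * g, mul_ne_zero f0 g0, by rw [map_mul, f1, g1], fun l => ?_⟩
        rw [map_mul, f2, g2, zpow_add₀ (sc_ne l)]; ring
      neg_mem' := by
        rintro a ⟨f, f0, f1, f2⟩
        refine ⟨f⁻¹, inv_ne_zero f0, by rw [map_inv₀, f1], fun l => ?_⟩
        rw [map_inv₀, f2, zpow_neg, mul_inv] }
  obtain ⟨n, hn⟩ := Int.subgroup_cyclic H
  have h1 : (n.natAbs : ℤ) ∈ H := by
    have : n ∈ H := hn ▸ AddSubgroup.mem_closure_singleton_self n
    rcases Int.natAbs_eq n with h | h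
    · exact h ▸ this
    · have := H.neg_mem this
      rwa [h, neg_neg] at this
  obtain ⟨a, a0, a1, a2⟩ := h1
  refine ⟨n.natAbs, a, a0, a1, a2, fun d h h1 h2 => ?_⟩
  by_cases h0 : h = 0
  · exact ⟨0, 0, zero_mem _, by simp [h0]⟩
  have : d ∈ H := ⟨h, h0, h1, h2⟩
  rw [hn, AddSubgroup.mem_closure_singleton] at this
  obtain ⟨k, hk⟩ := this
  obtain ⟨j, hj⟩ : ((n.natAbs : ℕ) : ℤ) ∣ d := Int.natAbs_dvd.2 ⟨k, by rw [← hk, smul_eq_mul, mul_comm]⟩
  have := zpow_ne_zero j a0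
  refine ⟨j, h / a ^ j, ⟨by rw [map_div₀, map_zpow₀, h1, a1], fun l => ?_⟩, by field_simp⟩
  have h3 := zpow_ne_zero d (sc_ne (K := K) l)
  rw [map_div₀, map_zpow₀, h2, a2, mul_zpow, ← zpow_mul, ← hj]
  field_simp

lemma fix_adjoin (M : IntermediateField ℂ K) (hM : ∀ z ∈ M, σ z = z) {a : K} (a1 : σ a = a)
    (z : K) (hz : z ∈ (↥M)⟮a⟯) : σ z = z := by
  obtain ⟨g, h, hgh⟩ := (mem_adjoin_simple_iff (↥M) z).1 hz
  rw [hgh, map_div₀, eval_map_fix σ M hM, eval_map_fix σ M hM, a1,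
    eval_map_algebraMap, eval_map_algebraMap]

lemma trans_slice (L : IntermediateField ℂ K) (hL : ∀ z ∈ L, σ z = z) {s : K}
    (hs : σ s = s + 1) : Transcendental L s := by
  have : CharZero K := charZero_of_injective_algebraMap (algebraMap ℂ K).injective
  rintro ⟨p, hp, h⟩
  refine hp (map_injective _ (algebraMap L K).injective ?_)
  rw [Polynomial.map_zero]
  have key : ∀ n : ℕ, (p.map (algebraMap L K)).eval (s + n) = 0 := by
    intro n
    induction n with
    | zero => simpa [eval_map_algebraMap] using h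
    | succ n ih =>
      have := eval_map_fix σ L hL p (s + n)
      rw [← eval_map_algebraMap, ih, map_zero, map_add, hs, map_natCast] at this
      rw [this]; congr 1; push_cast; ring
  exact eq_zero_of_infinite_isRoot _ (Set.infinite_of_injective_forall_mem
    (f := fun n : ℕ => s + n) (fun a b hab => by simpa using hab) key)

lemma trans_hom (M : IntermediateField ℂ K) (hM : ∀ l, ∀ z ∈ M, ρ l z = z) {a : K} {N : ℕ}
    (hN : N ≠ 0) (a0 : a ≠ 0) (a2 : Hg ρ N a) : Transcendental M a := by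
  rintro ⟨p, hp, h⟩
  refine hp (map_injective _ (algebraMap M K).injective ?_)
  rw [Polynomial.map_zero]
  refine inf_units a a0 _ fun l => ?_
  obtain ⟨u, hu⟩ := IsAlgClosed.exists_pow_nat_eq (l : ℂ) (Nat.pos_of_ne_zero hN)
  have u0 : u ≠ 0 := by rintro rfl; exact l.ne_zero (by rw [← hu, zero_pow hN])
  have := eval_map_fix (ρ (Units.mk0 u u0)) M (hM _) p a
  rw [h, map_zero, a2] at this
  rw [this, sc, sc, ← hu]; simp

lemma trdeg_MM (M : IntermediateField ℂ K) (hM : ∀ z ∈ M, σ z = z) (hM' : ∀ l, ∀ z ∈ M, ρ l z = z)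
    {a s : K} {N : ℕ} (hN : N ≠ 0) (a0 : a ≠ 0) (a1 : σ a = a) (a2 : Hg ρ N a)
    (hs : σ s = s + 1) : Algebra.trdeg ℂ M + 2 ≤ Algebra.trdeg ℂ K := by
  let L : IntermediateField M K := (↥M)⟮a⟯
  have ha := trans_hom M hM' hN a0 a2
  have hsL := trans_slice (L.restrictScalars ℂ) (fun z hz => fix_adjoin M hM a1 z hz) hs
  have t1 : Algebra.Transcendental M L :=
    ⟨⟨⟨a, mem_adjoin_simple_self _ a⟩, fun h => ha (h.algHom L.val)⟩⟩
  have t2 : Algebra.Transcendental L K := ⟨⟨s, hsL⟩⟩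
  rw [← trdeg_add_eq ℂ M (A := K), ← trdeg_add_eq M L (A := K), ← one_add_one_eq_two]
  gcongr
  · exact Cardinal.one_le_iff_pos.2 (trdeg_pos _ _)
  · exact Cardinal.one_le_iff_pos.2 (trdeg_pos _ _)

end core

end Pool.Agent.H14Flow
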