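import Mathlib
import Pool.Agent.Lib.helper14.Flow1
import Pool.Agent.Lib.helper14.Flow2

set_option autoImplicit false

namespace Pool.Agent.H14Flow

open Polynomial IntermediateField

section gen
variable {ι : Type}

/-- The coordinate functions. -/
noncomputable def xx (i : ι) : KK ι := algebraMap (MvPolynomial ι ℂ) _ (MvPolynomial.X i)

lemma am_eq (p : MvPolynomial ι ℂ) : algebraMap _ (KK ι) p = MvPolynomial.aeval xx p := by
  induction p using MvPolynomial.induction_on with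
  | C c => rw [MvPolynomial.aeval_C]; exact (IsScalarTower.algebraMap_apply ℂ _ (KK ι) c).symm
  | add f g hf hg => simp [hf, hg]
  | mul_X f i hf => simp [hf, xx]

lemma hom_am (τ : KK ι →ₐ[ℂ] KK ι) (p : MvPolynomial ι ℂ) :
    τ (algebraMap _ (KK ι) p) = MvPolynomial.aeval (fun i => τ (xx i)) p := by
  rw [am_eq, MvPolynomial.comp_aeval_apply]

lemma am_ne {p : MvPolynomial ι ℂ} (hp : p ≠ 0) : algebraMap _ (KK ι) p ≠ 0 :=
  (map_ne_zero_iff _ (IsFractionRing.injective _ _)).2 hp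

lemma xx_ne (i : ι) : xx i ≠ 0 := am_ne (MvPolynomial.X_ne_zero i)

lemma aeval_mem {K : Type*} [Field K] [Algebra ℂ K] (E : IntermediateField ℂ K) (y : ι → K)
    (h : ∀ i, y i ∈ E) (p : MvPolynomial ι ℂ) : MvPolynomial.aeval y p ∈ E := by
  induction p using MvPolynomial.induction_on with
  | C c => rw [MvPolynomial.aeval_C]; exact E.algebraMap_mem c
  | add f g hf hg => rw [map_add]; exact add_mem hf hg
  | mul_X f i hf => rw [map_mul, MvPolynomial.aeval_X]; exact mul_mem hf (h i)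

lemma top_of (E : IntermediateField ℂ (KK ι)) (h : ∀ i, xx i ∈ E) : E = ⊤ := by
  refine eq_top_iff.2 fun f _ => ?_
  obtain ⟨a, b, -, rfl⟩ := IsFractionRing.div_surjective (MvPolynomial ι ℂ) f
  rw [am_eq, am_eq]
  exact div_mem (aeval_mem E _ h _) (aeval_mem E _ h _)

lemma trdeg_KK : Algebra.trdeg ℂ (KK ι) = Cardinal.mk ι := by
  have : Algebra.IsAlgebraic (MvPolynomial ι ℂ) (KK ι) :=
    IsLocalization.isAlgebraic _ (nonZeroDivisors _)
  rw [← trdeg_add_eq ℂ (MvPolynomial ι ℂ) (A := KK ι), trdeg_eq_zero (R := MvPolynomial ι ℂ),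
    MvPolynomial.trdeg_of_isDomain]
  simp

lemma mkHom [Finite ι] (y : ι → KK ι) (hy : adjoin ℂ (Set.range y) = ⊤) :
    ∃ τ : KK ι ≃ₐ[ℂ] KK ι, ∀ i, τ (xx i) = y i := by
  have h1 : Algebra.IsAlgebraic (adjoin ℂ (Set.range y)) (KK ι) :=
    ⟨fun f => isAlgebraic_algebraMap (⟨f, hy ▸ mem_top⟩ : adjoin ℂ (Set.range y))⟩
  have h2 := IntermediateField.isAlgebraic_adjoin_iff_top.1 h1
  have h3 := (Algebra.IsAlgebraic.isTranscendenceBasis_of_le_trdeg_of_finite ℂ y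
    trdeg_KK.ge).1
  let τ : KK ι →ₐ[ℂ] KK ι := IsFractionRing.liftAlgHom (g := MvPolynomial.aeval y) h3
  have hτ : ∀ i, τ (xx i) = y i := fun i => by simp [τ, xx]
  refine ⟨AlgEquiv.ofBijective τ ⟨τ.toRingHom.injective, fun f => ?_⟩, hτ⟩
  have : adjoin ℂ (Set.range y) ≤ τ.fieldRange := by
    rw [adjoin_le_iff]; rintro _ ⟨i, rfl⟩; exact ⟨_, hτ i⟩
  exact this (hy ▸ mem_top)

lemma exists_rho [Finite ι] : ∃ ρ : ℂˣ → KK ι →ₐ[ℂ] KK ι, ∀ i, Hg ρ 1 (xx i) := by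
  have : ∀ l : ℂˣ, ∃ τ : KK ι ≃ₐ[ℂ] KK ι, ∀ i, τ (xx i) = sc _ l * xx i := fun l =>
    mkHom _ (top_of _ fun i => by
      have h : sc _ l * xx i ∈ adjoin ℂ (Set.range fun i : ι => sc _ l * xx i) :=
        subset_adjoin _ _ ⟨i, rfl⟩
      have := mul_mem (inv_mem (IntermediateField.algebraMap_mem _ (l : ℂ))) h
      rwa [inv_mul_cancel_left₀ (sc_ne l)] at this)
  choose τ hτ using this
  exact ⟨fun l => τ l, fun i l => by simpa using hτ l i⟩

section Ay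
variable {K : Type*} [Field K] [Algebra ℂ K]

/-- `P(t y)` as a polynomial in `t`. -/
noncomputable def Ay (y : ι → K) (P : MvPolynomial ι ℂ) : K[X] :=
  MvPolynomial.aeval (fun j => C (y j) * X) P

lemma Ay_map {K' : Type*} [Field K'] [Algebra ℂ K'] (τ : K →ₐ[ℂ] K') (y : ι → K)
    (P : MvPolynomial ι ℂ) : (Ay y P).map (τ : K →+* K') = Ay (fun j => τ (y j)) P := by
  unfold Ay
  induction P using MvPolynomial.induction_on with
  | C c => simp
  | add f g hf hg => simp [hf, hg]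
  | mul_X f i hf => simp [hf]

lemma Ay_eval (y : ι → K) (P : MvPolynomial ι ℂ) (t : K) :
    (Ay y P).eval t = MvPolynomial.aeval (fun j => t * y j) P := by
  unfold Ay
  induction P using MvPolynomial.induction_on with
  | C c => simp
  | add f g hf hg => simp [hf, hg]
  | mul_X f i hf => simp only [map_mul, eval_mul, hf]; simp [mul_comm t]

lemma Ay_comp (y : ι → K) (P : MvPolynomial ι ℂ) (c : K) :
    (Ay y P).comp (C c * X) = Ay (fun j => c * y j) P := by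
  unfold Ay
  induction P using MvPolynomial.induction_on with
  | C c => simp
  | add f g hf hg => simp [hf, hg]
  | mul_X f i hf => simp only [map_mul, mul_comp, hf]; simp; left; ring

lemma val_mem (E : IntermediateField ℂ K) (c : E) (A B : E[X]) (hB : B ≠ 0) (A' B' : K[X])
    (hB' : B'.eval (c : K) ≠ 0)
    (h : A.map (E.val : E →+* K) * B' = A' * B.map (E.val : E →+* K)) :
    A'.eval (c : K) / B'.eval (c : K) ∈ E := by
  induction hn : B.natDegree using Nat.strong_induction_on generalizing A B with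
  | _ n ih =>
    have ev : ∀ p : E[X], (p.map (E.val : E →+* K)).eval (c : K) = (p.eval c : E) := fun p =>
      eval_map_apply (E.val : E →+* K) c
    have h1 := congrArg (eval (c : K)) h
    rw [eval_mul, eval_mul, ev, ev] at h1
    by_cases hc : B.eval c = 0
    · have hA : A.eval c = 0 := by
        rw [hc] at h1
        simpa [hB'] using h1
      obtain ⟨A1, rfl⟩ := dvd_iff_isRoot.2 hA
      obtain ⟨B1, rfl⟩ := dvd_iff_isRoot.2 hc
      have hB1 : B1 ≠ 0 := right_ne_zero_of_mul hB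
      refine ih B1.natDegree ?_ A1 B1 hB1 ?_ rfl
      · rw [← hn, natDegree_mul (X_sub_C_ne_zero _) hB1, natDegree_X_sub_C]; omega
      · refine mul_left_cancel₀ (Polynomial.map_ne_zero (f := (E.val : E →+* K))
          (X_sub_C_ne_zero c)) ?_
        simp only [Polynomial.map_mul] at h
        linear_combination h
    · have hc' : ((B.eval c : E) : K) ≠ 0 := by simpa using hc
      rw [(div_eq_div_iff hB' hc').2 h1.symm]
      exact div_mem (A.eval c).2 (B.eval c).2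

end Ay

theorem structure_thm [Finite ι] (P : ι → MvPolynomial ι ℂ) (Q : MvPolynomial ι ℂ) (hQ : Q ≠ 0)
    (y : ι → KK ι)
    (hT : ∀ i, (Ay xx (P i)).comp (X + 1) * (X * Ay y Q)
      = Ay y (P i) * (X * Ay xx Q).comp (X + 1))
    (hT' : Ay y Q ≠ 0)
    (hB : ∀ i, ∃ A1 B1 : (KK ι)[X], B1.eval 0 ≠ 0 ∧ A1.eval 0 = xx i * B1.eval 0 ∧
      Ay xx (P i) * B1 = A1 * (X * Ay xx Q))
    (hN : ¬ ∀ i, P i = MvPolynomial.X i * Q)
    (ρ : ℂˣ → KK ι →ₐ[ℂ] KK ι) (hρ : ∀ i, Hg ρ 1 (xx i)) :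
    ∃ (σ : KK ι ≃ₐ[ℂ] KK ι) (s : KK ι), (∀ i, σ (xx i) = y i) ∧ σ s = s + 1 ∧ Hg ρ (-1) s ∧
      ∀ E : IntermediateField ℂ (KK ι), s ∈ E →
        (∀ d h, σ h = h → Hg ρ d h → h ∈ E) → E = ⊤ := by
  have e1 : ∀ p, (Ay xx p).eval 1 = algebraMap _ (KK ι) p := fun p => by
    rw [Ay_eval, am_eq]; simp
  have hB0 : X * Ay (xx (ι := ι)) Q ≠ 0 :=
    mul_ne_zero X_ne_zero fun h => am_ne hQ (by rw [← e1, h, eval_zero])
  have hX1 : (X + 1 : (KK ι)[X]) = X + C 1 := by simp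
  obtain ⟨σ, hσ⟩ := mkHom y (top_of _ fun i => by
    obtain ⟨A1, B1, h1, h2, h3⟩ := hB i
    let E := adjoin ℂ (Set.range y)
    let y' : ι → E := fun j => ⟨y j, subset_adjoin _ _ ⟨j, rfl⟩⟩
    have m1 : ∀ p, (Ay y' p).map (E.val : E →+* KK ι) = Ay y p := fun p => Ay_map E.val y' p
    have := val_mem E (-1) (Ay y' (P i)) (X * Ay y' Q)
      (mul_ne_zero X_ne_zero fun h => hT' (by rw [← m1, h, Polynomial.map_zero]))
      (A1.comp (X + 1)) (B1.comp (X + 1)) (by simpa [eval_comp] using h1) (by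
        rw [Polynomial.map_mul, m1, m1, map_X]
        have g1 : (X * Ay (xx (ι := ι)) Q).comp (X + 1) ≠ 0 := by
          rw [hX1]; exact mt comp_X_add_C_eq_zero_iff.1 hB0
        refine mul_left_cancel₀ g1 ?_
        have h4 := congrArg (comp · (X + 1)) h3
        simp only [mul_comp (Ay xx (P i)), mul_comp A1] at h4
        linear_combination (X * Ay y Q) * h4 - B1.comp (X + 1) * hT i)
    simpa [eval_comp, h2, mul_div_assoc, div_self h1] using this)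
  have key : ∀ i, ∃ (A' B' : (KK ι)[X]) (e e' : ℤ), B'.Monic ∧
      Ay xx (P i) * B' = A' * (X * Ay xx Q) ∧ Good (σ : KK ι →ₐ[ℂ] KK ι) ρ e A' ∧
      Good (σ : KK ι →ₐ[ℂ] KK ι) ρ e' B' ∧ B'.eval 0 ≠ 0 ∧ A'.eval 0 = xx i * B'.eval 0 := by
    intro i
    obtain ⟨A', B', e, e', hc, hm, h1, h2, h3⟩ := reduce (σ := (σ : KK ι →ₐ[ℂ] KK ι)) (ρ := ρ)
      (A := Ay xx (P i)) hB0 (by
        rw [Polynomial.map_mul, Ay_map, Ay_map, map_X]
        simpa only [AlgEquiv.coe_toAlgHom, hσ] using hT i) (fun l => by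
        rw [Polynomial.map_mul, Ay_map, Ay_map, map_X, mul_comp, Ay_comp, Ay_comp, X_comp]
        simp only [fun j => hρ j l, zpow_one]
        ring)
    obtain ⟨A1, B1, g1, g2, g3⟩ := hB i
    have h4 : A' * B1 = A1 * B' := by
      refine mul_left_cancel₀ hB0 ?_
      linear_combination B' * g3 - B1 * h1
    have h5 : A'.eval 0 = xx i * B'.eval 0 := by
      have := congrArg (eval 0) h4
      rw [eval_mul, eval_mul, g2] at this
      refine mul_right_cancel₀ g1 ?_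
      linear_combination this
    refine ⟨A', B', e, e', hm, h1, h2, h3, fun h0 => ?_, h5⟩
    obtain ⟨u, v, huv⟩ := hc
    have := congrArg (eval 0) huv
    simp [h5, h0] at this
  obtain ⟨s, hs, hs'⟩ : ∃ s, (σ : KK ι →ₐ[ℂ] KK ι) s = s + 1 ∧ Hg ρ (-1) s := by
    push Not at hN
    obtain ⟨i, hi⟩ := hN
    obtain ⟨A', B', e, e', hm, h1, h2, h3, h4, h5⟩ := key i
    by_cases ha : 1 ≤ A'.natDegree
    · exact h2.slice ha
    by_cases hb : 1 ≤ B'.natDegree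
    · exact h3.slice hb
    exfalso
    have hb1 : B' = 1 := hm.natDegree_eq_zero.1 (by omega)
    obtain ⟨a, rfl⟩ := natDegree_eq_zero.1 (show A'.natDegree = 0 by omega)
    subst hb1
    have := congrArg (eval 1) h1
    simp only [eval_mul, eval_C, eval_one, mul_one, e1, eval_X, one_mul] at this h5
    refine hi (IsFractionRing.injective _ (KK ι) ?_)
    rw [this, h5, map_mul, xx]
  refine ⟨σ, s, hσ, hs, hs', fun E hsE hE => top_of E fun i => ?_⟩
  obtain ⟨A', B', e, e', -, -, h2, h3, h4, h5⟩ := key i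
  rw [← (div_eq_iff h4).2 h5]
  exact div_mem (h2.eval_mem hs hs' E hsE hE) (h3.eval_mem hs hs' E hsE hE)

end gen

section three

lemma hg_div {K : Type*} [Field K] [Algebra ℂ K] {ρ : ℂˣ → K →ₐ[ℂ] K} {e : ℤ} {a b : K}
    (ha : Hg ρ e a) (hb : Hg ρ e b) : Hg ρ 0 (a / b) := fun l => by
  rw [map_div₀, ha, hb, zpow_zero, one_mul, mul_div_mul_left _ _ (zpow_ne_zero _ (sc_ne l))]

lemma level_gen {K : Type*} [Field K] [Algebra ℂ K] {σ : K →ₐ[ℂ] K} {ρ : ℂˣ → K →ₐ[ℂ] K} {s : K}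
    (h : ∀ E : IntermediateField ℂ K, s ∈ E → (∀ d h, σ h = h → Hg ρ d h → h ∈ E) → E = ⊤) :
    ∃ (N : ℕ) (a : K), a ≠ 0 ∧ σ a = a ∧ Hg ρ N a ∧ (N = 0 → a = 1) ∧
      ∀ E : IntermediateField ℂ K, s ∈ E → a ∈ E → MM σ ρ ≤ E → E = ⊤ := by
  obtain ⟨N, a, a0, a1, a2, ha⟩ := exists_level (σ := σ) (ρ := ρ)
  have key : ∀ E : IntermediateField ℂ K, s ∈ E → a ∈ E → MM σ ρ ≤ E → E = ⊤ := by
    intro E h1 h2 h3
    refine h E h1 fun d f f1 f2 => ?_
    obtain ⟨k, m, hm, rfl⟩ := ha d f f1 f2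
    exact mul_mem (h3 hm) (zpow_mem h2 k)
  by_cases hN : N = 0
  · refine ⟨0, 1, one_ne_zero, map_one _, fun l => by simp, fun _ => rfl, fun E h1 _ h3 =>
      key E h1 (h3 (mem_MM.2 ⟨a1, fun l => ?_⟩)) h3⟩
    simpa [hN] using a2 l
  · exact ⟨N, a, a0, a1, a2, fun h => absurd h hN, key⟩

lemma three_gen {σ : KK (Fin 3) →ₐ[ℂ] KK (Fin 3)} {ρ : ℂˣ → KK (Fin 3) →ₐ[ℂ] KK (Fin 3)}
    (hρ : ∀ i, Hg ρ 1 (xx i)) {s : KK (Fin 3)} (hs : σ s = s + 1) (hs' : Hg ρ (-1) s)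
    (h : ∀ E : IntermediateField ℂ (KK (Fin 3)), s ∈ E →
      (∀ d h, σ h = h → Hg ρ d h → h ∈ E) → E = ⊤) :
    ∃ (N : ℕ) (a v : KK (Fin 3)), σ a = a ∧ Hg ρ N a ∧ σ v = v ∧ Hg ρ 0 v ∧
      ∀ E : IntermediateField ℂ (KK (Fin 3)), s ∈ E → a ∈ E → v ∈ E → E = ⊤ := by
  obtain ⟨N, a, a0, a1, a2, a3, ha⟩ := level_gen h
  have s0 : s ≠ 0 := by rintro rfl; simp at hs
  have hw : Hg ρ 1 s⁻¹ := fun l => by rw [map_inv₀, hs' l]; simp [mul_comm]
  by_cases hN : N = 0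
  · have hM : ∀ f, Hg ρ 0 f → σ f = f := by
      intro f hf
      have ht := ha (((↥(MM σ ρ))⟮s⁻¹⟯).restrictScalars ℂ)
        (by simpa using inv_mem (mem_adjoin_simple_self (MM σ ρ) s⁻¹))
        (by rw [a3 hN]; exact one_mem _)
        (fun z hz => IntermediateField.algebraMap_mem ((↥(MM σ ρ))⟮s⁻¹⟯) (⟨z, hz⟩ : MM σ ρ))
      have hf' : f ∈ ((↥(MM σ ρ))⟮s⁻¹⟯).restrictScalars ℂ := ht ▸ mem_top
      exact (mem_MM.1 (inv_mem_of (MM σ ρ) (fun l z hz => (mem_MM.1 hz).2 l) (inv_ne_zero s0) hw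
        hf' hf)).1
    have u0 := hg_div (hρ 0) (hρ 2)
    have u1 := hg_div (hρ 1) (hρ 2)
    refine ⟨0, _, _, hM _ u0, u0, hM _ u1, u1, fun E h1 h2 h3 => ?_⟩
    let E0 : IntermediateField ℂ (KK (Fin 3)) := adjoin ℂ {xx 0 / xx 2, xx 1 / xx 2}
    have hE0 : E0 ≤ E := by
      rw [adjoin_le_iff]; rintro _ (rfl | rfl) <;> assumption
    have hE1 : ∀ l, ∀ z ∈ E0, ρ l z = z := by
      intro l z hz
      have : E0 ≤ MM σ ρ := by
        rw [adjoin_le_iff]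
        rintro _ (rfl | rfl)
        · exact mem_MM.2 ⟨hM _ u0, fun l => by simpa using u0 l⟩
        · exact mem_MM.2 ⟨hM _ u1, fun l => by simpa using u1 l⟩
      exact (mem_MM.1 (this hz)).2 l
    have x2 := xx_ne (2 : Fin 3)
    have gen : ∀ E : IntermediateField ℂ (KK (Fin 3)), E0 ≤ E → xx 2 ∈ E → E = ⊤ := by
      intro E h1 h2
      refine top_of E fun i => ?_
      fin_cases i
      · simpa [x2] using mul_mem (h1 (subset_adjoin _ _ (Set.mem_insert _ _))) h2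
      · simpa [x2] using mul_mem (h1 (subset_adjoin _ _ (Set.mem_insert_of_mem _ rfl))) h2
      · exact h2
    have ht := gen (((↥E0)⟮xx 2⟯).restrictScalars ℂ)
      (fun z hz => IntermediateField.algebraMap_mem ((↥E0)⟮xx 2⟯) (⟨z, hz⟩ : E0))
      (mem_adjoin_simple_self E0 (xx 2))
    have hf' : xx 2 / s⁻¹ ∈ ((↥E0)⟮xx 2⟯).restrictScalars ℂ := ht ▸ mem_top
    have := hE0 (inv_mem_of E0 hE1 x2 (hρ 2) hf' (hg_div (hρ 2) hw))
    refine gen E hE0 ?_
    simpa [s0] using mul_mem this (inv_mem h1)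
  · have ht := trdeg_MM (MM σ ρ) (fun z hz => (mem_MM.1 hz).1) (fun l z hz => (mem_MM.1 hz).2 l)
      hN a0 a1 a2 hs
    rw [trdeg_KK, Cardinal.mk_fin] at ht
    obtain ⟨v, hv, hM⟩ := igusa (MM σ ρ) (by
      have : ((3 : ℕ) : Cardinal) = 1 + (2 : ℕ) := by norm_num
      rw [this] at ht
      exact (Cardinal.add_nat_le_add_nat_iff 2).1 ht)
    refine ⟨N, a, v, a1, a2, (mem_MM.1 hv).1, fun l => by simpa using (mem_MM.1 hv).2 l,
      fun E h1 h2 h3 => ha E h1 h2 (hM.trans (adjoin_simple_le_iff.2 h3))⟩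

lemma three_nf {σ : KK (Fin 3) →ₐ[ℂ] KK (Fin 3)} {ρ : ℂˣ → KK (Fin 3) →ₐ[ℂ] KK (Fin 3)}
    (hρ : ∀ i, Hg ρ 1 (xx i)) {s : KK (Fin 3)} (hs : σ s = s + 1) (hs' : Hg ρ (-1) s)
    (h : ∀ E : IntermediateField ℂ (KK (Fin 3)), s ∈ E →
      (∀ d h, σ h = h → Hg ρ d h → h ∈ E) → E = ⊤) :
    ∃ (N : ℕ) (θ : KK (Fin 3) ≃ₐ[ℂ] KK (Fin 3)), (∀ i, Hg ρ 1 (θ (xx i))) ∧ xx 2 + 1 ≠ (0 : KK (Fin 3)) ∧
      ∀ i, θ.symm (σ (θ (xx i))) =
        ![xx 0 * (xx 2 + 1) ^ ((N : ℤ) - 1), xx 1 / (xx 2 + 1), xx 2 / (xx 2 + 1)] i := by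
  obtain ⟨N, a, v, a1, a2, v1, v2, hE⟩ := three_gen hρ hs hs' h
  have s0 : s ≠ 0 := by rintro rfl; simp at hs
  have s1 : s + 1 ≠ 0 := by rw [← hs]; exact (_root_.map_ne_zero _).2 s0
  let y : Fin 3 → KK (Fin 3) := ![a * s ^ ((N : ℤ) - 1), v * s⁻¹, s⁻¹]
  obtain ⟨θ, hθ⟩ := mkHom y (by
    have h0 : a * s ^ ((N : ℤ) - 1) ∈ adjoin ℂ (Set.range y) := subset_adjoin _ _ ⟨0, rfl⟩
    have h1 : v * s⁻¹ ∈ adjoin ℂ (Set.range y) := subset_adjoin _ _ ⟨1, rfl⟩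
    have h2 : s⁻¹ ∈ adjoin ℂ (Set.range y) := subset_adjoin _ _ ⟨2, rfl⟩
    have h3 : s ∈ adjoin ℂ (Set.range y) := by simpa using inv_mem h2
    refine hE _ h3 ?_ ?_
    · simpa [zpow_ne_zero _ s0] using div_mem h0 (zpow_mem h3 ((N : ℤ) - 1))
    · simpa [s0] using mul_mem h1 h3)
  have t0 : θ (xx 0) = a * s ^ ((N : ℤ) - 1) := hθ 0
  have t1 : θ (xx 1) = v * s⁻¹ := hθ 1
  have t2 : θ (xx 2) = s⁻¹ := hθ 2
  have t3 : s⁻¹ + 1 = (s + 1) / s := by field_simp; ring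
  refine ⟨N, θ, fun i l => ?_, fun h0 => ?_, fun i => ?_⟩
  · have := sc_ne (K := KK (Fin 3)) l
    fin_cases i
    · show ρ l (θ (xx 0)) = _ * θ (xx 0)
      rw [t0, map_mul, map_zpow₀, a2, hs', mul_zpow, ← zpow_mul, mul_mul_mul_comm,
        ← zpow_add₀ this]
      congr 2; ring
    · show ρ l (θ (xx 1)) = _ * θ (xx 1)
      rw [t1, map_mul, map_inv₀, v2, hs']; simp; ring
    · show ρ l (θ (xx 2)) = _ * θ (xx 2)
      rw [t2, map_inv₀, hs']; simp; ring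
  · have := congrArg θ h0
    rw [map_add, t2, map_one, map_zero, t3] at this
    exact div_ne_zero s1 s0 this
  · rw [AlgEquiv.symm_apply_eq]
    fin_cases i
    · show σ (θ (xx 0)) = θ (xx 0 * (xx 2 + 1) ^ ((N : ℤ) - 1))
      simp only [map_mul, map_zpow₀, map_add, map_one, t0, t2, t3, a1, hs, div_zpow]
      field_simp
    · show σ (θ (xx 1)) = θ (xx 1 / (xx 2 + 1))
      simp only [map_mul, map_div₀, map_inv₀, map_add, map_one, t1, t2, t3, v1, hs]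
      field_simp
    · show σ (θ (xx 2)) = θ (xx 2 / (xx 2 + 1))
      simp only [map_div₀, map_inv₀, map_add, map_one, t2, t3, hs]
      field_simp

end three

end Pool.Agent.H14Flow
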