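import Mathlib
import Pool.Agent.Lib.helper14.Flow3

set_option autoImplicit false

namespace Pool.Agent.H14Flow

open MvPolynomial Filter Topology

section rep
variable {ι : Type}

/-- The filter of Zariski-generic points. -/
def gen (ι : Type) : Filter (ι → ℂ) where
  sets := {S | ∃ D : MvPolynomial ι ℂ, D ≠ 0 ∧ ∀ q, eval q D ≠ 0 → q ∈ S}
  univ_sets := ⟨1, one_ne_zero, fun _ _ => trivial⟩
  sets_of_superset := fun ⟨D, h, h'⟩ hh => ⟨D, h, fun q hq => hh (h' q hq)⟩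
  inter_sets := fun ⟨D, h, h'⟩ ⟨E, g, g'⟩ => ⟨D * E, mul_ne_zero h g, fun q hq => by
    rw [map_mul] at hq
    exact ⟨h' q (left_ne_zero_of_mul hq), g' q (right_ne_zero_of_mul hq)⟩⟩

lemma gen_ne {D : MvPolynomial ι ℂ} (h : D ≠ 0) : ∀ᶠ q in gen ι, eval q D ≠ 0 :=
  ⟨D, h, fun _ h => h⟩

lemma exists_ne {D : MvPolynomial ι ℂ} (h : D ≠ 0) : ∃ q, eval q D ≠ 0 := by
  by_contra hh
  push Not at hh
  exact h (MvPolynomial.funext (by simpa using hh))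

lemma gen_open {p : (ι → ℂ) → Prop} (h : ∀ᶠ q in gen ι, p q) :
    ∃ U : Set (ι → ℂ), IsOpen U ∧ U.Nonempty ∧ ∀ x ∈ U, p x := by
  obtain ⟨D, h, h'⟩ := h
  exact ⟨{q | eval q D ≠ 0}, isOpen_ne_fun (continuous_eval D) continuous_const, exists_ne h, h'⟩

lemma gen_meets [Finite ι] {p : (ι → ℂ) → Prop} (h : ∀ᶠ q in gen ι, p q) {U : Set (ι → ℂ)}
    (hU : IsOpen U) (hne : U.Nonempty) : ∃ x ∈ U, p x := by
  obtain ⟨D, h, h'⟩ := h
  by_contra hh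
  push Not at hh
  obtain ⟨x, hx⟩ := hne
  obtain ⟨u, hu, hu'⟩ := isOpen_pi_iff'.1 hU x hx
  refine h (MvPolynomial.funext_set u
    (fun i => infinite_of_mem_nhds (x i) ((hu i).1.mem_nhds (hu i).2)) fun q hq => ?_)
  by_contra h0
  exact hh q (hu' hq) (h' q (by simpa using h0))

/-- The function `g` generically represents the rational function `f`. -/
def Rep (f : KK ι) (g : (ι → ℂ) → ℂ) : Prop :=
  ∃ a b : MvPolynomial ι ℂ, b ≠ 0 ∧ f = algebraMap _ _ a / algebraMap _ _ b ∧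
    ∀ᶠ q in gen ι, g q = eval q a / eval q b

lemma Rep.am (p : MvPolynomial ι ℂ) : Rep (algebraMap _ _ p) (fun q => eval q p) :=
  ⟨p, 1, one_ne_zero, by simp, Eventually.of_forall (by simp)⟩

lemma Rep.const (c : ℂ) : Rep (algebraMap ℂ (KK ι) c) (fun _ => c) := by
  have := Rep.am (ι := ι) (C c)
  simp only [eval_C] at this
  rwa [IsScalarTower.algebraMap_apply ℂ (MvPolynomial ι ℂ) (KK ι)]

lemma Rep.one : Rep (1 : KK ι) (fun _ => 1) := by simpa using Rep.const (ι := ι) 1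

lemma Rep.x (i : ι) : Rep (xx i) (fun q => q i) := by simpa [xx] using Rep.am (ι := ι) (X i)

variable {f f' : KK ι} {g g' : (ι → ℂ) → ℂ}

lemma Rep.add (h : Rep f g) (h' : Rep f' g') : Rep (f + f') (fun q => g q + g' q) := by
  obtain ⟨a, b, hb, rfl, h⟩ := h
  obtain ⟨c, d, hd, rfl, h'⟩ := h'
  refine ⟨a * d + b * c, b * d, mul_ne_zero hb hd, ?_, ?_⟩
  · rw [div_add_div _ _ (am_ne hb) (am_ne hd)]; simp
  · filter_upwards [h, h', gen_ne hb, gen_ne hd] with q h1 h2 h3 h4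
    rw [h1, h2, div_add_div _ _ h3 h4]; simp

lemma Rep.mul (h : Rep f g) (h' : Rep f' g') : Rep (f * f') (fun q => g q * g' q) := by
  obtain ⟨a, b, hb, rfl, h⟩ := h
  obtain ⟨c, d, hd, rfl, h'⟩ := h'
  refine ⟨a * c, b * d, mul_ne_zero hb hd, ?_, ?_⟩
  · rw [div_mul_div_comm]; simp
  · filter_upwards [h, h'] with q h1 h2
    rw [h1, h2, div_mul_div_comm]; simp

lemma Rep.inv (h : Rep f g) : Rep f⁻¹ (fun q => (g q)⁻¹) := by
  obtain ⟨a, b, hb, rfl, h⟩ := h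
  by_cases ha : a = 0
  · subst ha
    refine ⟨0, 1, one_ne_zero, by simp, ?_⟩
    filter_upwards [h] with q h1
    simp [h1]
  refine ⟨b, a, ha, by rw [inv_div], ?_⟩
  filter_upwards [h] with q h1
  rw [h1, inv_div]

lemma Rep.div (h : Rep f g) (h' : Rep f' g') : Rep (f / f') (fun q => g q / g' q) := by
  simpa only [div_eq_mul_inv] using h.mul h'.inv

lemma Rep.pow (h : Rep f g) (n : ℕ) : Rep (f ^ n) (fun q => g q ^ n) := by
  induction n with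
  | zero => simpa using Rep.one
  | succ n ih => simpa only [pow_succ] using ih.mul h

lemma Rep.zpow (h : Rep f g) (n : ℤ) : Rep (f ^ n) (fun q => g q ^ n) := by
  cases n with
  | ofNat n => simpa using h.pow n
  | negSucc n => simpa only [zpow_negSucc] using (h.pow (n + 1)).inv

lemma Rep.aeval {y : ι → KK ι} {G : (ι → ℂ) → ι → ℂ} (h : ∀ i, Rep (y i) (fun q => G q i))
    (p : MvPolynomial ι ℂ) : Rep (MvPolynomial.aeval y p) (fun q => eval (G q) p) := by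
  induction p using MvPolynomial.induction_on with
  | C c => simpa using Rep.const c
  | add f g hf hg => simpa using hf.add hg
  | mul_X f i hf => simpa using hf.mul (h i)

lemma Rep.hom (τ : KK ι →ₐ[ℂ] KK ι) {G : (ι → ℂ) → ι → ℂ}
    (h : ∀ i, Rep (τ (xx i)) (fun q => G q i)) (p : MvPolynomial ι ℂ) :
    Rep (τ (algebraMap _ _ p)) (fun q => eval (G q) p) := by
  rw [hom_am]; exact Rep.aeval h p

lemma Rep.ne (h : Rep f g) (hf : f ≠ 0) : ∀ᶠ q in gen ι, g q ≠ 0 := by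
  obtain ⟨a, b, hb, rfl, h⟩ := h
  have ha : a ≠ 0 := by rintro rfl; simp at hf
  filter_upwards [h, gen_ne ha, gen_ne hb] with q h1 h2 h3
  rw [h1]; exact div_ne_zero h2 h3

lemma Rep.eq (h : Rep f g) (h' : Rep f' g') (e : f = f') : ∀ᶠ q in gen ι, g q = g' q := by
  obtain ⟨a, b, hb, rfl, h⟩ := h
  obtain ⟨c, d, hd, rfl, h'⟩ := h'
  rw [div_eq_div_iff (am_ne hb) (am_ne hd), ← map_mul, ← map_mul] at e
  have e' := IsFractionRing.injective _ _ e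
  filter_upwards [h, h', gen_ne hb, gen_ne hd] with q h1 h2 h3 h4
  rw [h1, h2, div_eq_div_iff h3 h4, ← map_mul, ← map_mul, e']

lemma Rep.eq_of_open [Finite ι] (h : Rep f g) (h' : Rep f' g') {U : Set (ι → ℂ)} (hU : IsOpen U)
    (hne : U.Nonempty) (e : ∀ q ∈ U, g q = g' q) : f = f' := by
  by_contra hh
  have := (h.add ((Rep.const (-1)).mul h')).ne (by simpa [← sub_eq_add_neg, sub_eq_zero] using hh)
  obtain ⟨x, hx, h1⟩ := gen_meets this hU hne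
  exact h1 (by rw [e x hx]; ring)

lemma Rep.ne_of_open [Finite ι] (h : Rep f g) {U : Set (ι → ℂ)} (hU : IsOpen U)
    (hne : U.Nonempty) (e : ∀ q ∈ U, g q ≠ 0) : f ≠ 0 := by
  intro hf
  obtain ⟨x, hx, h1⟩ := gen_meets (h.eq (Rep.const 0) (by simpa using hf)) hU hne
  exact e x hx h1

lemma common_denom [Finite ι] (r : ι → KK ι) : ∃ (L : ι → MvPolynomial ι ℂ) (E : MvPolynomial ι ℂ),
    E ≠ 0 ∧ ∀ i, r i = algebraMap _ _ (L i) / algebraMap _ _ E := by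
  obtain ⟨b, hb⟩ := IsLocalization.exist_integer_multiples_of_finite
    (nonZeroDivisors (MvPolynomial ι ℂ)) r
  choose L hL using hb
  have b0 := nonZeroDivisors.ne_zero b.2
  refine ⟨L, b, b0, fun i => ?_⟩
  rw [hL, Algebra.smul_def, mul_div_cancel_left₀ _ (am_ne b0)]

lemma hom_ext {τ τ' : KK ι →ₐ[ℂ] KK ι} (h : ∀ i, τ (xx i) = τ' (xx i)) (f : KK ι) :
    τ f = τ' f := by
  obtain ⟨a, b, -, rfl⟩ := IsFractionRing.div_surjective (MvPolynomial ι ℂ) f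
  simp only [map_div₀, hom_am, h]

/-- `P(t x)` with polynomial coefficients. -/
noncomputable def Ar (P : MvPolynomial ι ℂ) : Polynomial (MvPolynomial ι ℂ) :=
  MvPolynomial.aeval (fun j => Polynomial.C (X j) * Polynomial.X) P

lemma Ar_map (P : MvPolynomial ι ℂ) : (Ar P).map (algebraMap _ (KK ι)) = Ay xx P := by
  unfold Ar Ay
  induction P using MvPolynomial.induction_on with
  | C c =>
    have := (IsScalarTower.algebraMap_apply ℂ (MvPolynomial ι ℂ) (KK ι) c).symm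
    simp only [aeval_C, Polynomial.algebraMap_apply, Polynomial.map_C, this]
  | add f g hf hg => simp [hf, hg]
  | mul_X f i hf => simp [hf, xx]

lemma Ar_eval (P : MvPolynomial ι ℂ) (x : ι → ℂ) (z : ℂ) :
    ((Ar P).map (eval x)).eval z = eval (z • x) P := by
  unfold Ar
  induction P using MvPolynomial.induction_on with
  | C c => simp
  | add f g hf hg => simp only [map_add, Polynomial.map_add, Polynomial.eval_add, hf, hg]
  | mul_X f i hf =>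
    simp only [map_mul, Polynomial.map_mul, Polynomial.eval_mul, hf]; simp [mul_comm z]

lemma split_X {R : Type*} [CommRing R] {p : Polynomial R} (hp : p ≠ 0) :
    ∃ (m : ℕ) (q : Polynomial R), p = Polynomial.X ^ m * q ∧ q.eval 0 ≠ 0 := by
  obtain ⟨q, h1, h2⟩ := p.exists_eq_pow_rootMultiplicity_mul_and_not_dvd hp 0
  refine ⟨_, q, by simpa using h1, fun h => h2 (Polynomial.dvd_iff_isRoot.2 h)⟩

lemma boundary [Finite ι] (P Q : MvPolynomial ι ℂ) (hQ : Q ≠ 0) (i : ι) {U : Set (ι → ℂ)}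
    (hU : IsOpen U) (hne : U.Nonempty) (h : ∀ x ∈ U, Tendsto
      (fun z : ℂ => z⁻¹ * (eval (z • x) P / eval (z • x) Q)) (𝓝[≠] 0) (𝓝 (x i))) :
    ∃ A1 B1 : Polynomial (KK ι), B1.eval 0 ≠ 0 ∧ A1.eval 0 = xx i * B1.eval 0 ∧
      Ay xx P * B1 = A1 * (Polynomial.X * Ay xx Q) := by
  have hB : Polynomial.X * Ar Q ≠ 0 := mul_ne_zero Polynomial.X_ne_zero fun h0 => by
    obtain ⟨q, hq⟩ := exists_ne hQ
    have := Ar_eval Q q 1
    rw [h0, one_smul] at this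
    exact hq (by simpa using this.symm)
  obtain ⟨m, B1, hB1, b0⟩ := split_X hB
  obtain ⟨D2, hD2⟩ : Polynomial.X ^ (m + 1) ∣
      Ar P - Polynomial.C (X i) * (Polynomial.X * Ar Q) := by
    by_contra hh
    obtain ⟨k, D1, hD1, d0⟩ := split_X (p := Ar P - Polynomial.C (X i) * (Polynomial.X * Ar Q))
      (fun h0 => hh (by rw [h0]; exact dvd_zero _))
    have hk : k ≤ m := by
      by_contra hk
      exact hh (by rw [hD1]; exact (pow_dvd_pow _ (by omega)).mul_right _)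
    obtain ⟨j, rfl⟩ := Nat.exists_eq_add_of_le hk
    obtain ⟨x, hx, h1, h2⟩ := gen_meets ((gen_ne b0).and (gen_ne d0)) hU hne
    let b : ℂ → ℂ := fun z => (B1.map (eval x)).eval z
    let d : ℂ → ℂ := fun z => (D1.map (eval x)).eval z
    have hb : Continuous b := Polynomial.continuous _
    have hd : Continuous d := Polynomial.continuous _
    have hb0 : b 0 ≠ 0 := by simpa [b, Polynomial.eval_zero_map] using h1
    have hd0 : d 0 ≠ 0 := by simpa [d, Polynomial.eval_zero_map] using h2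
    have t1 : Tendsto d (𝓝[≠] 0) (𝓝 (d 0)) := hd.continuousAt.tendsto.mono_left nhdsWithin_le_nhds
    have t2 : Tendsto (fun z : ℂ => z ^ j * b z *
        (z⁻¹ * (eval (z • x) P / eval (z • x) Q) - x i)) (𝓝[≠] 0)
        (𝓝 (0 ^ j * b 0 * (x i - x i))) :=
      ((((continuous_pow j).mul hb).tendsto 0).mono_left nhdsWithin_le_nhds).mul
        ((h x hx).sub_const _)
    rw [sub_self, mul_zero] at t2
    refine hd0 (tendsto_nhds_unique t1 (t2.congr' ?_))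
    filter_upwards [self_mem_nhdsWithin,
      nhdsWithin_le_nhds (hb.continuousAt.eventually_ne hb0)] with z hz hbz
    have z0 : z ≠ 0 := hz
    have e1 := congrArg (fun p => (p.map (eval x)).eval z) hB1
    have e2 := congrArg (fun p => (p.map (eval x)).eval z) hD1
    simp only [Polynomial.map_mul, Polynomial.map_sub, Polynomial.map_pow, Polynomial.map_X,
      Polynomial.map_C, Polynomial.eval_mul, Polynomial.eval_sub, Polynomial.eval_pow,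
      Polynomial.eval_X, Polynomial.eval_C, Ar_eval, eval_X] at e1 e2
    have q0 : eval (z • x) Q ≠ 0 := fun h0 =>
      mul_ne_zero (pow_ne_zero (k + j) z0) hbz (by rw [← e1, h0, mul_zero])
    refine mul_left_cancel₀ (pow_ne_zero k z0) ?_
    rw [← e2, ← mul_assoc, ← mul_assoc, ← pow_add, ← e1]
    field_simp
  refine ⟨(Polynomial.C (X i) * B1 + Polynomial.X * D2).map (algebraMap _ _),
    B1.map (algebraMap _ _), ?_, ?_, ?_⟩
  · rw [Polynomial.eval_zero_map]; exact am_ne b0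
  · simp [xx]
  · have : Ar P * B1 = (Polynomial.C (X i) * B1 + Polynomial.X * D2) * (Polynomial.X * Ar Q) := by
      rw [eq_add_of_sub_eq hD2, hB1]; ring
    have := congrArg (Polynomial.map (algebraMap _ (KK ι))) this
    simpa only [Polynomial.map_mul, Ar_map, Polynomial.map_X] using this

lemma transl [Finite ι] (P : ι → MvPolynomial ι ℂ) (Q : MvPolynomial ι ℂ)
    (Φ : (ι → ℂ) → (ι → ℂ)) (hΦ : ∀ p : ι → ℂ, Φ p = fun i => eval p (P i) / eval p Q)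
    (V : Set ((ι → ℂ) × ℂ)) (hV : IsOpen V) (hne : V.Nonempty)
    (h : ∀ q ∈ V, q.2 ≠ 0 ∧ eval q.1 Q ≠ 0 ∧ eval (q.2 • q.1) Q ≠ 0 ∧
      eval (((1 - q.2) / q.2) • Φ (q.2 • q.1)) Q ≠ 0 ∧
      (1 - q.2) • Φ q.1 = Φ (((1 - q.2) / q.2) • Φ (q.2 • q.1)))
    (y : ι → KK ι) (hy : ∀ i, y i = algebraMap _ _ (P i) / algebraMap _ _ Q) :
    (∀ i, (Ay xx (P i)).comp (Polynomial.X + 1) * (Polynomial.X * Ay y Q)
      = Ay y (P i) * (Polynomial.X * Ay xx Q).comp (Polynomial.X + 1)) ∧ Ay y Q ≠ 0 := by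
  have ry : ∀ i, Rep (y i) (fun q => Φ q i) := fun i => by
    simpa only [hy, hΦ] using (Rep.am (P i)).div (Rep.am Q)
  have r1 : ∀ (t : ℂ) (p : MvPolynomial ι ℂ), Rep ((Ay y p).eval (algebraMap ℂ _ t))
      (fun q => eval (t • Φ q) p) := fun t p => by
    rw [Ay_eval]; exact Rep.aeval (fun i => (Rep.const t).mul (ry i)) p
  have r2 : ∀ (t : ℂ) (p : MvPolynomial ι ℂ), Rep ((Ay xx p).eval (algebraMap ℂ _ t))
      (fun q => eval (t • q) p) := fun t p => by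
    rw [Ay_eval]; exact Rep.aeval (fun i => (Rep.const t).mul (Rep.x i)) p
  have sl : ∀ z ∈ Prod.snd '' V, z ≠ 0 ∧ IsOpen {x : ι → ℂ | (z⁻¹ • x, z) ∈ V} ∧
      {x : ι → ℂ | (z⁻¹ • x, z) ∈ V}.Nonempty := by
    rintro _ ⟨q, hq, rfl⟩
    have z0 := (h q hq).1
    exact ⟨z0, hV.preimage (by fun_prop), q.2 • q.1, by simpa [smul_smul, z0] using hq⟩
  have hinf : (Prod.snd '' V).Infinite := by
    obtain ⟨q, hq⟩ := hne
    exact infinite_of_mem_nhds q.2 ((isOpenMap_snd V hV).mem_nhds ⟨q, hq, rfl⟩)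
  refine ⟨fun i => ?_, fun h0 => ?_⟩
  · refine Polynomial.eq_of_infinite_eval_eq _ _ ((hinf.image (f := fun z : ℂ =>
      algebraMap ℂ (KK ι) (z⁻¹ - 1)) fun a _ b _ hab => ?_).mono ?_)
    · simpa using hab
    rintro _ ⟨z, hz, rfl⟩
    obtain ⟨z0, h1, h2⟩ := sl z hz
    have e : algebraMap ℂ (KK ι) (z⁻¹ - 1) + 1 = algebraMap ℂ (KK ι) z⁻¹ := by simp
    simp only [Set.mem_ofPred_eq, Polynomial.eval_mul, Polynomial.eval_comp, Polynomial.eval_add,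
      Polynomial.eval_X, Polynomial.eval_one, e]
    refine ((r2 _ _).mul ((Rep.const _).mul (r1 _ _))).eq_of_open
      ((r1 _ _).mul ((Rep.const _).mul (r2 _ _))) h1 h2 fun x hx => ?_
    obtain ⟨-, g1, -, g3, g4⟩ := h _ hx
    have e2 : (1 - z) / z = z⁻¹ - 1 := by field_simp
    simp only [smul_smul, mul_inv_cancel₀ z0, one_smul, e2] at g1 g3 g4
    have g5 := congrFun g4 i
    rw [hΦ (z⁻¹ • x), hΦ ((z⁻¹ - 1) • Φ x)] at g5
    simp only [Pi.smul_apply, smul_eq_mul] at g5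
    rw [← mul_div_assoc, div_eq_div_iff g1 g3] at g5
    have e3 : z⁻¹ - 1 = z⁻¹ * (1 - z) := by field_simp
    linear_combination z⁻¹ * g5 + (eval (z⁻¹ • x) (P i) * eval ((z⁻¹ - 1) • Φ x) Q) * e3
  · obtain ⟨z, hz⟩ := hinf.nonempty
    obtain ⟨z0, h1, h2⟩ := sl z hz
    refine (r1 ((1 - z) / z) Q).ne_of_open h1 h2 (fun x hx => ?_) (by rw [h0]; simp)
    simpa [smul_smul, z0] using (h _ hx).2.2.2.1

theorem flow_structure [Finite ι] (P : ι → MvPolynomial ι ℂ) (Q : MvPolynomial ι ℂ)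
    (Φ : (ι → ℂ) → (ι → ℂ)) (hQ : Q ≠ 0)
    (hΦ : ∀ p : ι → ℂ, Φ p = fun i => eval p (P i) / eval p Q)
    (hN : ¬ ∀ i, P i = X i * Q)
    (hV : ∃ V : Set ((ι → ℂ) × ℂ), IsOpen V ∧ V.Nonempty ∧
      ∀ q ∈ V, q.2 ≠ 0 ∧ eval q.1 Q ≠ 0 ∧ eval (q.2 • q.1) Q ≠ 0 ∧
      eval (((1 - q.2) / q.2) • Φ (q.2 • q.1)) Q ≠ 0 ∧
      (1 - q.2) • Φ q.1 = Φ (((1 - q.2) / q.2) • Φ (q.2 • q.1)))
    (hU : ∃ U : Set (ι → ℂ), IsOpen U ∧ U.Nonempty ∧
      ∀ x ∈ U, Tendsto (fun z : ℂ => z⁻¹ • Φ (z • x)) (𝓝[≠] 0) (𝓝 x))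
    (ρ : ℂˣ → KK ι →ₐ[ℂ] KK ι) (hρ : ∀ i, Hg ρ 1 (xx i)) :
    ∃ (σ : KK ι ≃ₐ[ℂ] KK ι) (s : KK ι),
      (∀ i, σ (xx i) = algebraMap _ _ (P i) / algebraMap _ _ Q) ∧ σ s = s + 1 ∧ Hg ρ (-1) s ∧
      ∀ E : IntermediateField ℂ (KK ι), s ∈ E →
        (∀ d h, σ h = h → Hg ρ d h → h ∈ E) → E = ⊤ := by
  obtain ⟨V, v1, v2, v3⟩ := hV
  obtain ⟨U, u1, u2, u3⟩ := hU
  obtain ⟨h1, h2⟩ := transl P Q Φ hΦ V v1 v2 v3 _ fun _ => rfl
  refine structure_thm P Q hQ _ h1 h2 (fun i => boundary _ _ hQ i u1 u2 fun x hx => ?_) hN ρ hρ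
  simpa [hΦ] using tendsto_pi_nhds.1 (u3 x hx) i

lemma hom_open [Finite ι] (L : ι → MvPolynomial ι ℂ) (E : MvPolynomial ι ℂ) (hE : E ≠ 0)
    (ρ : ℂˣ → KK ι →ₐ[ℂ] KK ι) (hρ : ∀ i, Hg ρ 1 (xx i))
    (h : ∀ i, Hg ρ 1 (algebraMap _ _ (L i) / algebraMap _ _ E)) :
    ∃ V : Set ((ι → ℂ) × ℂ), IsOpen V ∧ V.Nonempty ∧ ∀ q ∈ V,
      eval q.1 E ≠ 0 ∧ eval (q.2 • q.1) E ≠ 0 ∧
      (fun i => eval (q.2 • q.1) (L i) / eval (q.2 • q.1) E)
        = q.2 • fun i => eval q.1 (L i) / eval q.1 E := by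
  refine ⟨{q | q.2 ≠ 0 ∧ eval q.1 E ≠ 0 ∧ eval (q.2 • q.1) E ≠ 0}, ?_, ?_, ?_⟩
  · exact (isOpen_ne_fun continuous_snd continuous_const).inter
      ((isOpen_ne_fun ((continuous_eval E).comp continuous_fst) continuous_const).inter
        (isOpen_ne_fun ((continuous_eval E).comp (continuous_snd.smul continuous_fst))
          continuous_const))
  · obtain ⟨x, hx⟩ := exists_ne hE
    exact ⟨(x, 1), one_ne_zero, hx, by simpa using hx⟩
  rintro ⟨x, z⟩ ⟨z0, h1, h2⟩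
  refine ⟨h1, h2, funext fun i => ?_⟩
  let l : ℂˣ := Units.mk0 z z0
  let S : MvPolynomial ι ℂ →ₐ[ℂ] MvPolynomial ι ℂ := MvPolynomial.aeval fun j => C z * X j
  have hS : ∀ p, ρ l (algebraMap _ _ p) = algebraMap _ _ (S p) := by
    intro p
    rw [hom_am, am_eq, comp_aeval_apply]
    congr 2
    funext j
    rw [hρ j l]; simp [l]
  have hS' : ∀ p, eval x (S p) = eval (z • x) p := by
    intro p
    induction p using MvPolynomial.induction_on with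
    | C c => simp [S]
    | add f g hf hg => simp only [map_add, hf, hg]
    | mul_X f i hf => simp only [map_mul, hf]; simp [S]
  have h3 := h i l
  have e0 : algebraMap _ (KK ι) (S E) ≠ 0 := by
    rw [← hS]; exact (map_ne_zero _).2 (am_ne hE)
  rw [map_div₀, hS, hS, zpow_one, ← mul_div_assoc, div_eq_div_iff e0 (am_ne hE), sc,
    IsScalarTower.algebraMap_apply ℂ (MvPolynomial ι ℂ) (KK ι), ← map_mul, ← map_mul,
    ← map_mul] at h3
  have h4 := congrArg (eval x) (IsFractionRing.injective _ _ h3)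
  simp only [map_mul, hS', algebraMap_eq, eval_C] at h4
  simp only [Pi.smul_apply, smul_eq_mul]
  rw [← mul_div_assoc, div_eq_div_iff h2 h1]
  exact h4

end rep

theorem main_three (P : Fin 3 → MvPolynomial (Fin 3) ℂ) (Q : MvPolynomial (Fin 3) ℂ)
    (Φ : (Fin 3 → ℂ) → (Fin 3 → ℂ)) (hQ : Q ≠ 0)
    (hΦ : ∀ p : Fin 3 → ℂ, Φ p = fun i => eval p (P i) / eval p Q)
    (hN : ¬ ∀ i, P i = X i * Q)
    (hV : ∃ V : Set ((Fin 3 → ℂ) × ℂ), IsOpen V ∧ V.Nonempty ∧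
      ∀ q ∈ V, q.2 ≠ 0 ∧ eval q.1 Q ≠ 0 ∧ eval (q.2 • q.1) Q ≠ 0 ∧
      eval (((1 - q.2) / q.2) • Φ (q.2 • q.1)) Q ≠ 0 ∧
      (1 - q.2) • Φ q.1 = Φ (((1 - q.2) / q.2) • Φ (q.2 • q.1)))
    (hU : ∃ U : Set (Fin 3 → ℂ), IsOpen U ∧ U.Nonempty ∧
      ∀ x ∈ U, Tendsto (fun z : ℂ => z⁻¹ • Φ (z • x)) (𝓝[≠] 0) (𝓝 x)) :
    ∃ (L : Fin 3 → MvPolynomial (Fin 3) ℂ) (E : MvPolynomial (Fin 3) ℂ)
      (M : Fin 3 → MvPolynomial (Fin 3) ℂ) (F : MvPolynomial (Fin 3) ℂ)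
      (Λ Λ' : (Fin 3 → ℂ) → (Fin 3 → ℂ)) (N : ℕ),
      E ≠ 0 ∧ F ≠ 0 ∧
      (∀ p : Fin 3 → ℂ, Λ p = fun i => eval p (L i) / eval p E) ∧
      (∀ p : Fin 3 → ℂ, Λ' p = fun i => eval p (M i) / eval p F) ∧
      (∃ U : Set (Fin 3 → ℂ), IsOpen U ∧ U.Nonempty ∧ ∀ x ∈ U,
        eval x E ≠ 0 ∧ eval (Λ x) F ≠ 0 ∧ Λ' (Λ x) = x) ∧
      (∃ U : Set (Fin 3 → ℂ), IsOpen U ∧ U.Nonempty ∧ ∀ x ∈ U,
        eval x F ≠ 0 ∧ eval (Λ' x) E ≠ 0 ∧ Λ (Λ' x) = x) ∧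
      (∃ V : Set ((Fin 3 → ℂ) × ℂ), IsOpen V ∧ V.Nonempty ∧ ∀ q ∈ V,
        eval q.1 E ≠ 0 ∧ eval (q.2 • q.1) E ≠ 0 ∧
        Λ (q.2 • q.1) = q.2 • Λ q.1) ∧
      (∃ U : Set (Fin 3 → ℂ), IsOpen U ∧ U.Nonempty ∧ ∀ x ∈ U,
        x 2 + 1 ≠ 0 ∧ eval x E ≠ 0 ∧ eval (Λ x) Q ≠ 0 ∧
        eval (![x 0 * (x 2 + 1) ^ ((N : ℤ) - 1), x 1 / (x 2 + 1), x 2 / (x 2 + 1)]) E ≠ 0 ∧
        Φ (Λ x) = Λ ![x 0 * (x 2 + 1) ^ ((N : ℤ) - 1), x 1 / (x 2 + 1), x 2 / (x 2 + 1)]) := by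
  obtain ⟨ρ, hρ⟩ := exists_rho (ι := Fin 3)
  obtain ⟨σ, s, hσ, hs, hs', hE⟩ := flow_structure P Q Φ hQ hΦ hN hV hU ρ hρ
  obtain ⟨N, θ, h1, h2, h3⟩ := three_nf (σ := (σ : KK (Fin 3) →ₐ[ℂ] KK (Fin 3))) hρ hs hs' hE
  obtain ⟨L, E, E0, hL⟩ := common_denom fun i => θ.symm (xx i)
  obtain ⟨M, F, F0, hM⟩ := common_denom fun i => θ (xx i)
  let θ1 : KK (Fin 3) →ₐ[ℂ] KK (Fin 3) := θ
  let θ2 : KK (Fin 3) →ₐ[ℂ] KK (Fin 3) := θ.symm
  let τ : KK (Fin 3) →ₐ[ℂ] KK (Fin 3) := θ2.comp ((σ : KK (Fin 3) →ₐ[ℂ] KK (Fin 3)).comp θ1)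
  have r1 : ∀ i, Rep (θ1 (xx i)) (fun q => eval q (M i) / eval q F) := fun i => by
    have := (Rep.am (M i)).div (Rep.am F)
    rwa [← hM] at this
  have r2 : ∀ i, Rep (θ2 (xx i)) (fun q => eval q (L i) / eval q E) := fun i => by
    have := (Rep.am (L i)).div (Rep.am E)
    rwa [← hL] at this
  have r0 := (Rep.x (2 : Fin 3)).add Rep.one
  have r3 : ∀ i, Rep (τ (xx i)) (fun x => ![x 0 * (x 2 + 1) ^ ((N : ℤ) - 1), x 1 / (x 2 + 1),
      x 2 / (x 2 + 1)] i) := fun i => by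
    have : τ (xx i) = _ := h3 i
    rw [this]
    fin_cases i
    · exact (Rep.x 0).mul (r0.zpow _)
    · exact (Rep.x 1).div r0
    · exact (Rep.x 2).div r0
  have ne : ∀ (τ : KK (Fin 3) →ₐ[ℂ] KK (Fin 3)) {p : MvPolynomial (Fin 3) ℂ}, p ≠ 0 →
      τ (algebraMap _ _ p) ≠ 0 := fun τ p hp => (map_ne_zero _).2 (am_ne hp)
  refine ⟨L, E, M, F, _, _, N, E0, F0, fun _ => rfl, fun _ => rfl, gen_open ?_, gen_open ?_,
    hom_open L E E0 ρ hρ fun i l => ?_, gen_open ?_⟩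
  · have : ∀ i, _ := fun i => ((Rep.hom θ2 r2 (M i)).div (Rep.hom θ2 r2 F)).eq (Rep.x i) (by
      rw [← map_div₀, ← hM]; exact θ.symm_apply_apply _)
    filter_upwards [gen_ne E0, (Rep.hom θ2 r2 F).ne (ne _ F0), eventually_all.2 this]
      with x g1 g2 g3 using ⟨g1, g2, funext g3⟩
  · have : ∀ i, _ := fun i => ((Rep.hom θ1 r1 (L i)).div (Rep.hom θ1 r1 E)).eq (Rep.x i) (by
      rw [← map_div₀, ← hL]; exact θ.apply_symm_apply _)
    filter_upwards [gen_ne F0, (Rep.hom θ1 r1 E).ne (ne _ E0), eventually_all.2 this]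
      with x g1 g2 g3 using ⟨g1, g2, funext g3⟩
  · rw [← hL]
    apply θ.injective
    have := hom_ext (τ := θ1.comp (ρ l)) (τ' := (ρ l).comp θ1) (fun j => by
      show θ (ρ l (xx j)) = ρ l (θ (xx j))
      rw [hρ j l, h1 j l, zpow_one, map_mul, sc, AlgEquiv.commutes]) (θ.symm (xx i))
    have e : θ (ρ l (θ.symm (xx i))) = ρ l (θ (θ.symm (xx i))) := this
    rw [e, map_mul, θ.apply_symm_apply, hρ i l, zpow_one, sc, AlgEquiv.commutes]
  · have : ∀ i, _ := fun i => ((Rep.hom θ2 r2 (P i)).div (Rep.hom θ2 r2 Q)).eq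
      ((Rep.hom τ r3 (L i)).div (Rep.hom τ r3 E)) (by
        rw [← map_div₀ θ2, ← map_div₀ τ, ← hL, ← hσ]
        show θ.symm (σ (xx i)) = θ.symm (σ (θ (θ.symm (xx i))))
        rw [θ.apply_symm_apply])
    filter_upwards [r0.ne h2, gen_ne E0, (Rep.hom θ2 r2 Q).ne (ne _ hQ),
      (Rep.hom τ r3 E).ne (ne _ E0), eventually_all.2 this] with x g0 g1 g2 g3 g4
    refine ⟨g0, g1, g2, g3, ?_⟩
    rw [hΦ]
    exact funext g4

end Pool.Agent.H14Flow
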