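import Mathlib
import Pool.Agent.Lib.helper14.Flow4

set_option autoImplicit false

namespace Pool.Agent.H14Flow

open Polynomial IntermediateField

section core
variable {K : Type*} [Field K] [Algebra ℂ K] {σ : K →ₐ[ℂ] K} {ρ : ℂˣ → K →ₐ[ℂ] K}

/-- Where two maps agree. -/
def EqF {K' : Type*} [Field K'] [Algebra ℂ K'] (τ τ' : K →ₐ[ℂ] K') : IntermediateField ℂ K where
  carrier := {h | τ h = τ' h}
  mul_mem' := fun {a b} ha hb => by
    simp only [Set.mem_ofPred_eq] at *; rw [map_mul, map_mul, ha, hb]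
  add_mem' := fun {a b} ha hb => by
    simp only [Set.mem_ofPred_eq] at *; rw [map_add, map_add, ha, hb]
  algebraMap_mem' := fun c => by simp
  inv_mem' := fun a ha => by
    simp only [Set.mem_ofPred_eq] at *; rw [map_inv₀, map_inv₀, ha]

lemma mem_EqF {K' : Type*} [Field K'] [Algebra ℂ K'] {τ τ' : K →ₐ[ℂ] K'} {h : K} :
    h ∈ EqF τ τ' ↔ τ h = τ' h := Iff.rfl

lemma mem_of_poly (E : IntermediateField ℂ K) {f : K} {g h : E[X]} (hh : h ≠ 0)
    (e : C f * h.map (algebraMap E K) - g.map (algebraMap E K) = 0) : f ∈ E := by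
  have := congrArg (coeff · h.natDegree) (sub_eq_zero.1 e)
  simp only [coeff_C_mul, coeff_map] at this
  have hl : algebraMap E K (h.coeff h.natDegree) ≠ 0 :=
    (_root_.map_ne_zero _).2 (leadingCoeff_ne_zero.2 hh)
  rw [(eq_div_iff hl).2 this]
  exact div_mem (g.coeff _).2 (h.coeff _).2

lemma inv_slice (E : IntermediateField ℂ K) (hE : ∀ z ∈ E, σ z = z) {s : K} (hs : σ s = s + 1)
    {f : K} (hf : f ∈ (↥E)⟮s⟯) (hf' : σ f = f) : f ∈ E := by
  have : CharZero K := charZero_of_injective_algebraMap (algebraMap ℂ K).injective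
  obtain ⟨g, h, hgh⟩ := (mem_adjoin_simple_iff (↥E) f).1 hf
  by_cases h0 : aeval s h = 0
  · rw [hgh, h0, div_zero]; exact zero_mem _
  have hh : h ≠ 0 := by rintro rfl; simp at h0
  refine mem_of_poly E hh (g := g) ?_
  have key : ∀ n : ℕ, f * aeval (s + n) h = aeval (s + n) g := by
    intro n
    induction n with
    | zero => simpa using (eq_div_iff h0).1 hgh
    | succ n ih =>
      have := congrArg σ ih
      rw [map_mul, eval_map_fix _ E hE, eval_map_fix _ E hE, hf', map_add, hs, map_natCast,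
        eval_map_algebraMap, eval_map_algebraMap] at this
      rw [Nat.cast_succ, ← add_assoc, add_right_comm, this]
  refine eq_zero_of_infinite_isRoot _ (Set.infinite_of_injective_forall_mem
    (f := fun n : ℕ => s + n) (fun a b hab => by simpa using hab) fun n => ?_)
  simpa [sub_eq_zero, eval_map_algebraMap] using key n

lemma inv_hom (E : IntermediateField ℂ K) (hE : ∀ l, ∀ z ∈ E, ρ l z = z) {y : K} (hy0 : y ≠ 0)
    {N : ℕ} (hN : N ≠ 0) (hy : Hg ρ N y) {f : K} (hf : f ∈ (↥E)⟮y⟯) (hf' : ∀ l, ρ l f = f) :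
    f ∈ E := by
  obtain ⟨g, h, hgh⟩ := (mem_adjoin_simple_iff (↥E) f).1 hf
  by_cases h0 : aeval y h = 0
  · rw [hgh, h0, div_zero]; exact zero_mem _
  have hh : h ≠ 0 := by rintro rfl; simp at h0
  refine mem_of_poly E hh (g := g) (inf_units y hy0 _ fun l => ?_)
  obtain ⟨u, hu⟩ := IsAlgClosed.exists_pow_nat_eq (l : ℂ) (Nat.pos_of_ne_zero hN)
  have u0 : u ≠ 0 := by rintro rfl; exact l.ne_zero (by rw [← hu, zero_pow hN])
  have := congrArg (ρ (Units.mk0 u u0)) ((eq_div_iff h0).1 hgh)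
  rw [map_mul, eval_map_fix _ E (hE _), eval_map_fix _ E (hE _), hy, hf'] at this
  simpa [sub_eq_zero, sc, ← hu] using this

variable (σ ρ) in
/-- Structure data of level `N`. -/
structure Dat (N : ℕ) (M : IntermediateField ℂ K) (a s : K) : Prop where
  hM : ∀ z ∈ M, σ z = z
  hM' : ∀ l, ∀ z ∈ M, ρ l z = z
  a0 : a ≠ 0
  a1 : σ a = a
  a2 : Hg ρ N a
  s1 : σ s = s + 1
  s2 : Hg ρ (-1) s
  gen : ∀ E : IntermediateField ℂ K, s ∈ E → a ∈ E → M ≤ E → E = ⊤

variable {N : ℕ} {M : IntermediateField ℂ K} {a s : K}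

lemma Dat.fixed (h : Dat σ ρ N M a s) {f : K} (hf : σ f = f) : f ∈ (↥M)⟮a⟯ := by
  let L : IntermediateField ℂ K := ((↥M)⟮a⟯).restrictScalars ℂ
  have haL : a ∈ L := mem_adjoin_simple_self M a
  have hML : M ≤ L := fun z hz => IntermediateField.algebraMap_mem ((↥M)⟮a⟯) (⟨z, hz⟩ : M)
  have hL : L ≤ ((↥L)⟮s⟯).restrictScalars ℂ :=
    fun z hz => IntermediateField.algebraMap_mem ((↥L)⟮s⟯) (⟨z, hz⟩ : L)
  have ht := h.gen (((↥L)⟮s⟯).restrictScalars ℂ) (mem_adjoin_simple_self L s) (hL haL)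
    (hML.trans hL)
  have hf' : f ∈ ((↥L)⟮s⟯).restrictScalars ℂ := ht ▸ mem_top
  exact inv_slice L (fun z hz => fix_adjoin M h.hM h.a1 z hz) h.s1 hf' hf

lemma Dat.mem (h : Dat σ ρ N M a s) (hN : N ≠ 0) {f : K} (hf : σ f = f) (hf' : ∀ l, ρ l f = f) :
    f ∈ M := inv_hom M h.hM' h.a0 hN h.a2 (h.fixed hf) hf'

lemma Dat.dvd (h : Dat σ ρ N M a s) (hN : N ≠ 0) {f : K} (f0 : f ≠ 0) (hf : σ f = f) {d : ℕ}
    (hf' : Hg ρ d f) : N ∣ d := by
  have hz := Complex.isPrimitiveRoot_exp N hN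
  set z := Complex.exp (2 * Real.pi * Complex.I / N)
  let l : ℂˣ := Units.mk0 z (hz.ne_zero hN)
  have h1 : ρ l a = a := by
    rw [h.a2 l, zpow_natCast, ← map_pow]
    simp [l, hz.pow_eq_one]
  have h2 := fix_adjoin (σ := ρ l) M (h.hM' l) h1 f (h.fixed hf)
  rw [hf' l, mul_left_eq_self₀, or_iff_left f0, zpow_natCast, ← map_pow,
    ← map_one (algebraMap ℂ K), (algebraMap ℂ K).injective.eq_iff] at h2
  exact hz.dvd_of_pow_eq_one d h2

lemma indep_two (M : IntermediateField ℂ K) {a s : K} (ha : Transcendental M a)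
    (hs : Transcendental ((↥M)⟮a⟯) s) : AlgebraicIndependent M ![a, s] := by
  have h1 : AlgebraicIndependent M ![a] := algebraicIndependent_iff_transcendental.2 ha
  have h2 : Transcendental (Algebra.adjoin M (Set.range ![a])) s := by
    have e : Set.range ![a] = {a} := by simp
    rw [e]
    exact (IntermediateField.transcendental_adjoin_iff (F := M) (s := {a})).1 hs
  have := (h1.option_iff_transcendental s).2 h2
  let e : Fin 2 → Option (Fin 1) := ![some 0, none]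
  have he : Function.Injective e := by decide
  convert this.comp e he using 1
  funext i
  fin_cases i <;> rfl

lemma Dat.indep (h : Dat σ ρ N M a s) (hN : N ≠ 0) : AlgebraicIndependent M ![a, s] :=
  indep_two M (trans_hom M h.hM' hN h.a0 h.a2)
    (trans_slice (((↥M)⟮a⟯).restrictScalars ℂ) (fun z hz => fix_adjoin M h.hM h.a1 z hz) h.s1)

lemma ext_iso {M M' : IntermediateField ℂ K} (j : M ≃ₐ[ℂ] M') {a s a' s' : K}
    (h : AlgebraicIndependent M ![a, s]) (h' : AlgebraicIndependent M' ![a', s'])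
    (g : ∀ E : IntermediateField ℂ K, s ∈ E → a ∈ E → M ≤ E → E = ⊤)
    (g' : ∀ E : IntermediateField ℂ K, s' ∈ E → a' ∈ E → M' ≤ E → E = ⊤) :
    ∃ θ : K ≃ₐ[ℂ] K, (∀ z : M, θ z = j z) ∧ θ a = a' ∧ θ s = s' := by
  let R := MvPolynomial (Fin 2) M
  let φ : R →ₐ[ℂ] K := (MvPolynomial.aeval ![a, s] : R →ₐ[M] K).restrictScalars ℂ
  let φ' : R →ₐ[ℂ] K := ((MvPolynomial.aeval ![a', s'] : MvPolynomial (Fin 2) M' →ₐ[M'] K
    ).restrictScalars ℂ).comp (MvPolynomial.mapAlgHom (j : M →ₐ[ℂ] M'))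
  have i1 : Function.Injective φ := h
  have i2 : Function.Injective φ' :=
    fun p q hpq => MvPolynomial.map_injective (j : M →+* M') j.injective (h' hpq)
  let ψ : FractionRing R →ₐ[ℂ] K := IsFractionRing.liftAlgHom i1
  let ψ' : FractionRing R →ₐ[ℂ] K := IsFractionRing.liftAlgHom i2
  have e1 : ∀ p, ψ (algebraMap R _ p) = φ p := fun p => by simp [ψ]
  have e2 : ∀ p, ψ' (algebraMap R _ p) = φ' p := fun p => by simp [ψ']
  have s1 : ψ.fieldRange = ⊤ := g _ ⟨_, (e1 (MvPolynomial.X 1)).trans (by simp [φ, R])⟩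
    ⟨_, (e1 (MvPolynomial.X 0)).trans (by simp [φ, R])⟩
    fun z hz => ⟨_, (e1 (MvPolynomial.C ⟨z, hz⟩)).trans (by simp [φ, R])⟩
  have s2 : ψ'.fieldRange = ⊤ := g' _ ⟨_, (e2 (MvPolynomial.X 1)).trans (by simp [φ', R])⟩
    ⟨_, (e2 (MvPolynomial.X 0)).trans (by simp [φ', R])⟩
    fun z hz => ⟨_, (e2 (MvPolynomial.C (j.symm ⟨z, hz⟩))).trans (by simp [φ', R])⟩
  let Ψ := AlgEquiv.ofBijective ψ ⟨ψ.toRingHom.injective, AlgHom.fieldRange_eq_top.1 s1⟩
  let Ψ' := AlgEquiv.ofBijective ψ' ⟨ψ'.toRingHom.injective, AlgHom.fieldRange_eq_top.1 s2⟩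
  have key : ∀ p, (Ψ.symm.trans Ψ') (φ p) = φ' p := fun p => by
    rw [← e1, ← e2, AlgEquiv.trans_apply]
    exact congrArg ψ' (Ψ.symm_apply_apply _)
  refine ⟨Ψ.symm.trans Ψ', fun z => ?_, ?_, ?_⟩
  · simpa [φ, φ', R] using key (MvPolynomial.C z)
  · simpa [φ, φ', R] using key (MvPolynomial.X 0)
  · simpa [φ, φ', R] using key (MvPolynomial.X 1)

theorem conj_iff {σ' : K →ₐ[ℂ] K} {N' : ℕ} {M' : IntermediateField ℂ K} {a' s' : K}
    (h : Dat σ ρ N M a s) (h' : Dat σ' ρ N' M' a' s') (hN : N ≠ 0) (hN' : N' ≠ 0) :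
    (∃ θ : K ≃ₐ[ℂ] K, (∀ l f, θ (ρ l f) = ρ l (θ f)) ∧ ∀ f, θ (σ f) = σ' (θ f)) ↔
      N = N' ∧ Nonempty (M ≃ₐ[ℂ] M') := by
  constructor
  · rintro ⟨θ, h1, h2⟩
    have h3 : ∀ l f, θ.symm (ρ l f) = ρ l (θ.symm f) := fun l f => by
      rw [θ.symm_apply_eq, h1, θ.apply_symm_apply]
    have h4 : ∀ f, θ.symm (σ' f) = σ (θ.symm f) := fun f => by
      rw [θ.symm_apply_eq, h2, θ.apply_symm_apply]
    refine ⟨Nat.dvd_antisymm
      (h.dvd hN (f := θ.symm a') (by simpa using h'.a0) (by rw [← h4, h'.a1]) fun l => ?_)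
      (h'.dvd hN' (f := θ a) (by simpa using h.a0) (by rw [← h2, h.a1]) fun l => ?_),
      ⟨(intermediateFieldMap θ M).trans (equivOfEq (le_antisymm ?_ fun z hz => ?_))⟩⟩
    · rw [← h3, h'.a2 l, map_mul, map_zpow₀, AlgEquiv.commutes]
    · rw [← h1, h.a2 l, map_mul, map_zpow₀, AlgEquiv.commutes]
    · rintro _ ⟨z, hz, rfl⟩
      exact h'.mem hN' (f := θ z) (by rw [← h2, h.hM z hz]) fun l => by rw [← h1, h.hM' l z hz]
    · exact ⟨θ.symm z, h.mem hN (by rw [← h4, h'.hM z hz]) fun l => by rw [← h3, h'.hM' l z hz],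
        θ.apply_symm_apply z⟩
  · rintro ⟨rfl, ⟨j⟩⟩
    obtain ⟨θ, t1, t2, t3⟩ := ext_iso j (h.indep hN) (h'.indep hN) h.gen h'.gen
    refine ⟨θ, fun l f => ?_, fun f => ?_⟩
    · have := h.gen (EqF ((θ : K →ₐ[ℂ] K).comp (ρ l)) ((ρ l).comp θ))
        (show θ (ρ l s) = ρ l (θ s) by
          rw [h.s2 l, t3, h'.s2 l, map_mul, map_zpow₀, AlgEquiv.commutes, t3])
        (show θ (ρ l a) = ρ l (θ a) by
          rw [h.a2 l, t2, h'.a2 l, map_mul, map_zpow₀, AlgEquiv.commutes, t2])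
        (fun z hz => show θ (ρ l z) = ρ l (θ z) by
          rw [h.hM' l z hz, t1 ⟨z, hz⟩, h'.hM' l _ (j _).2])
      exact (this ▸ mem_top : f ∈ EqF _ _)
    · have := h.gen (EqF ((θ : K →ₐ[ℂ] K).comp σ) (σ'.comp θ))
        (show θ (σ s) = σ' (θ s) by rw [h.s1, t3, h'.s1, map_add, t3, map_one])
        (show θ (σ a) = σ' (θ a) by rw [h.a1, t2, h'.a1])
        (fun z hz => show θ (σ z) = σ' (θ z) by
          rw [h.hM z hz, t1 ⟨z, hz⟩, h'.hM _ (j _).2])
      exact (this ▸ mem_top : f ∈ EqF _ _)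

end core

end Pool.Agent.H14Flow
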