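import Mathlib
import Pool.Agent.Lib.helper14.Flow5

set_option autoImplicit false

namespace Pool.Agent.H14Flow

open MvPolynomial Filter Topology

section conv
variable {ι : Type} [Finite ι] {σ : KK ι →ₐ[ℂ] KK ι} {ρ : ℂˣ → KK ι →ₐ[ℂ] KK ι}

omit [Finite ι] in
lemma rho_mul (hρ : ∀ i, Hg ρ 1 (xx i)) (l m : ℂˣ) (f : KK ι) : ρ l (ρ m f) = ρ (l * m) f :=
  hom_ext (τ := (ρ l).comp (ρ m)) (fun i => by
    show ρ l (ρ m (xx i)) = _
    rw [hρ i m, map_mul, hρ i l, hρ i, zpow_one, zpow_one, zpow_one, AlgHom.commutes]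
    simp only [sc, Units.val_mul, map_mul]; ring) f

omit [Finite ι] in
lemma rho_one (hρ : ∀ i, Hg ρ 1 (xx i)) (f : KK ι) : ρ 1 f = f :=
  hom_ext (τ' := AlgHom.id ℂ _) (fun i => by rw [hρ i]; simp [sc]) f

lemma eq_on_open {g g' : (ι → ℂ) → ℂ} (h : ∀ᶠ q in gen ι, g q = g' q) {x : ι → ℂ}
    (hg : ContinuousAt g x) (hg' : ContinuousAt g' x) : g x = g' x := by
  by_contra hh
  obtain ⟨U, h1, h2, h3⟩ := eventually_nhds_iff.1 ((hg.sub hg').eventually_ne (sub_ne_zero.2 hh))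
  obtain ⟨y, hy, h4⟩ := gen_meets h h2 ⟨x, h3⟩
  exact h1 y hy (sub_eq_zero.2 h4)

theorem transl_conv (hρ : ∀ i, Hg ρ 1 (xx i)) {s : KK ι} (hs : σ s = s + 1) (hs' : Hg ρ (-1) s)
    (hE : ∀ E : IntermediateField ℂ (KK ι), s ∈ E → (∀ d h, σ h = h → Hg ρ d h → h ∈ E) → E = ⊤)
    (P : ι → MvPolynomial ι ℂ) (Q : MvPolynomial ι ℂ) (hQ : Q ≠ 0)
    (hσ : ∀ i, σ (xx i) = algebraMap _ _ (P i) / algebraMap _ _ Q)
    (Φ : (ι → ℂ) → (ι → ℂ)) (hΦ : ∀ p : ι → ℂ, Φ p = fun i => eval p (P i) / eval p Q) :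
    ∃ V : Set ((ι → ℂ) × ℂ), IsOpen V ∧ V.Nonempty ∧
      ∀ q ∈ V, q.2 ≠ 0 ∧ eval q.1 Q ≠ 0 ∧ eval (q.2 • q.1) Q ≠ 0 ∧
      eval (((1 - q.2) / q.2) • Φ (q.2 • q.1)) Q ≠ 0 ∧
      (1 - q.2) • Φ q.1 = Φ (((1 - q.2) / q.2) • Φ (q.2 • q.1)) := by
  have cΦ : ∀ p, eval p Q ≠ 0 → ContinuousAt Φ p := fun p hp => by
    rw [show Φ = _ from funext hΦ]
    exact continuousAt_pi.2 fun i =>
      (continuous_eval _).continuousAt.div (continuous_eval _).continuousAt hp
  have rr : ∀ (z t : ℂˣ) i, Rep (((ρ z).comp (σ.comp (ρ t))) (xx i))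
      (fun x => ((t : ℂ) • Φ ((z : ℂ) • x)) i) := by
    intro z t i
    have r1 : ∀ j, Rep (ρ z (xx j)) (fun x => ((z : ℂ) • x) j) := fun j => by
      rw [hρ j z, zpow_one]; exact (Rep.const _).mul (Rep.x j)
    simp only [AlgHom.comp_apply, hρ i t, zpow_one, map_mul, AlgHom.commutes, hσ, map_div₀, hΦ]
    exact (Rep.const _).mul ((Rep.hom _ r1 _).div (Rep.hom _ r1 _))
  refine ⟨{q | q.2 ≠ 0 ∧ q.2 ≠ 1 ∧ eval q.1 Q ≠ 0 ∧ eval (q.2 • q.1) Q ≠ 0 ∧
      eval (((1 - q.2) / q.2) • Φ (q.2 • q.1)) Q ≠ 0}, ?_, ?_, ?_⟩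
  · rw [isOpen_iff_eventually]
    rintro q ⟨h1, h2, h3, h4, h5⟩
    have c1 : ContinuousAt (fun q : (ι → ℂ) × ℂ => q.2 • q.1) q := by fun_prop
    have c2 : ContinuousAt (fun q : (ι → ℂ) × ℂ => ((1 - q.2) / q.2) • Φ (q.2 • q.1)) q :=
      ((continuousAt_const.sub continuousAt_snd).div continuousAt_snd h1).smul
        (ContinuousAt.comp (f := fun q : (ι → ℂ) × ℂ => q.2 • q.1) (cΦ _ h4) c1)
    filter_upwards [continuousAt_snd.eventually_ne h1, continuousAt_snd.eventually_ne h2,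
      ((continuous_eval Q).continuousAt.comp continuousAt_fst).eventually_ne h3,
      ((continuous_eval Q).continuousAt.comp c1).eventually_ne h4,
      ((continuous_eval Q).continuousAt.comp c2).eventually_ne h5] with q g1 g2 g3 g4 g5
    exact ⟨g1, g2, g3, g4, g5⟩
  · let z : ℂˣ := Units.mk0 2 two_ne_zero
    let t : ℂˣ := Units.mk0 ((1 - 2) / 2) (by norm_num)
    have r1 : ∀ j, Rep (ρ z (xx j)) (fun x => ((2 : ℂ) • x) j) := fun j => by
      rw [hρ j z, zpow_one]; exact (Rep.const _).mul (Rep.x j)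
    obtain ⟨x, -, h1, h2, h3⟩ := gen_meets ((gen_ne hQ).and
      (((Rep.hom _ r1 Q).ne ((map_ne_zero _).2 (am_ne hQ))).and
        ((Rep.hom _ (rr z t) Q).ne ((map_ne_zero _).2 (am_ne hQ))))) isOpen_univ Set.univ_nonempty
    exact ⟨(x, 2), two_ne_zero, by norm_num, h1, h2, h3⟩
  rintro ⟨x, z⟩ ⟨h1, h2, h3, h4, h5⟩
  refine ⟨h1, h3, h4, h5, funext fun i => ?_⟩
  have h6 : 1 - z ≠ 0 := sub_ne_zero.2 (Ne.symm h2)
  let z' : ℂˣ := Units.mk0 z h1
  let t : ℂˣ := Units.mk0 ((1 - z) / z) (div_ne_zero h6 h1)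
  let w : ℂˣ := Units.mk0 (1 - z) h6
  have hzt : z' * t = w := Units.ext (by simp [z', t, w, mul_div_cancel₀ _ h1])
  have key := hE (EqF (((ρ z').comp (σ.comp (ρ t))).comp σ) (σ.comp (ρ w))) (by
      show ρ z' (σ (ρ t (σ s))) = σ (ρ w s)
      have a1 := sc_ne (K := KK ι) z'
      have a2 := sc_ne (K := KK ι) w
      have a3 : sc (KK ι) t = sc _ w / sc _ z' := by simp [sc, z', t, w]
      have a4 : sc (KK ι) w = 1 - sc _ z' := by simp [sc, z', w]
      simp only [hs, map_add, map_one, hs' _, map_mul, AlgHom.commutes, zpow_neg_one,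
        map_inv₀]
      simp only [sc] at a1 a2 a3 a4 ⊢
      rw [a3]
      field_simp
      rw [a4]; ring) (fun d h g1 g2 => by
      show ρ z' (σ (ρ t (σ h))) = σ (ρ w h)
      simp only [g1, g2 _, map_mul, map_zpow₀, AlgHom.commutes]
      rw [← mul_assoc, ← mul_zpow, ← hzt]
      simp [sc, mul_comm])
  have k2 : ((ρ z').comp (σ.comp (ρ t))) (σ (xx i)) = σ (ρ w (xx i)) :=
    mem_EqF.1 (key.ge (IntermediateField.mem_top (x := xx i)))
  rw [hρ i w, zpow_one, map_mul, AlgHom.commutes, hσ, map_div₀] at k2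
  have k3 := ((Rep.const (w : ℂ)).mul ((Rep.am (P i)).div (Rep.am Q))).eq
    ((Rep.hom _ (rr z' t) (P i)).div (Rep.hom _ (rr z' t) Q)) k2.symm
  have c2 : ContinuousAt (fun x : ι → ℂ => ((1 - z) / z) • Φ (z • x)) x :=
    (ContinuousAt.comp (f := fun x : ι → ℂ => z • x) (x := x) (cΦ _ h4)
      (by fun_prop)).fun_const_smul _
  have := eq_on_open k3 (x := x) (continuousAt_const.mul
      ((continuous_eval _).continuousAt.div (continuous_eval _).continuousAt h3))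
    (((continuous_eval _).continuousAt.comp c2).div
      ((continuous_eval _).continuousAt.comp c2) h5)
  rw [hΦ x, hΦ (_ • Φ _)]
  exact this

omit [Finite ι] in
lemma reg_all (hρ : ∀ i, Hg ρ 1 (xx i)) {s : KK ι} (hs : σ s = s + 1) (hs' : Hg ρ (-1) s)
    (hE : ∀ E : IntermediateField ℂ (KK ι), s ∈ E → (∀ d h, σ h = h → Hg ρ d h → h ∈ E) → E = ⊤)
    (f : KK ι) : ∃ G H : Polynomial (KK ι), H.eval 0 ≠ 0 ∧ G.eval 0 = f * H.eval 0 ∧
      ∀ c : ℂˣ, ρ c (σ (ρ c⁻¹ f)) * H.eval (sc _ c) = G.eval (sc _ c) := by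
  let E : IntermediateField ℂ (KK ι) :=
    { carrier := {f | ∃ G H : Polynomial (KK ι), H.eval 0 ≠ 0 ∧ G.eval 0 = f * H.eval 0 ∧
        ∀ c : ℂˣ, ρ c (σ (ρ c⁻¹ f)) * H.eval (sc _ c) = G.eval (sc _ c)}
      mul_mem' := by
        rintro a b ⟨G, H, h1, h2, h3⟩ ⟨G', H', g1, g2, g3⟩
        refine ⟨G * G', H * H', by simp [h1, g1], by simp [h2, g2]; ring, fun c => ?_⟩
        simp only [map_mul, Polynomial.eval_mul, ← h3, ← g3]; ring
      add_mem' := by
        rintro a b ⟨G, H, h1, h2, h3⟩ ⟨G', H', g1, g2, g3⟩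
        refine ⟨G * H' + G' * H, H * H', by simp [h1, g1], by simp [h2, g2]; ring, fun c => ?_⟩
        simp only [map_add, Polynomial.eval_mul, Polynomial.eval_add, ← h3, ← g3]; ring
      algebraMap_mem' := fun c => ⟨Polynomial.C (algebraMap _ _ c), 1, by simp, by simp, by simp⟩
      inv_mem' := by
        rintro a ⟨G, H, h1, h2, h3⟩
        by_cases a0 : a = 0
        · exact ⟨0, 1, by simp, by simp [a0], by simp [a0]⟩
        refine ⟨H, G, by simp [h2, h1, a0], by rw [h2]; field_simp, fun c => ?_⟩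
        have : ρ c (σ (ρ c⁻¹ a)) ≠ 0 := by simpa using a0
        simp only [map_inv₀, ← h3]; field_simp }
  have := hE E ⟨Polynomial.C s + Polynomial.X, 1, by simp, by simp, fun c => by
      have := sc_ne (K := KK ι) c
      simp only [hs' _, map_mul, map_zpow₀, AlgHom.commutes, hs, map_add, map_one]
      simp; field_simp⟩
    fun d h g1 g2 => ⟨Polynomial.C h, 1, by simp, by simp, fun c => by
      rw [g2, map_mul, map_zpow₀, AlgHom.commutes, g1, ← g2, rho_mul hρ, mul_inv_cancel,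
        rho_one hρ]
      simp⟩
  exact (this ▸ IntermediateField.mem_top : f ∈ E)

omit [Finite ι] in
theorem bound_conv (hρ : ∀ i, Hg ρ 1 (xx i)) {s : KK ι} (hs : σ s = s + 1) (hs' : Hg ρ (-1) s)
    (hE : ∀ E : IntermediateField ℂ (KK ι), s ∈ E → (∀ d h, σ h = h → Hg ρ d h → h ∈ E) → E = ⊤)
    (P : ι → MvPolynomial ι ℂ) (Q : MvPolynomial ι ℂ) (hQ : Q ≠ 0)
    (hσ : ∀ i, σ (xx i) = algebraMap _ _ (P i) / algebraMap _ _ Q)
    (Φ : (ι → ℂ) → (ι → ℂ)) (hΦ : ∀ p : ι → ℂ, Φ p = fun i => eval p (P i) / eval p Q) :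
    ∃ U : Set (ι → ℂ), IsOpen U ∧ U.Nonempty ∧
      ∀ x ∈ U, Tendsto (fun z : ℂ => z⁻¹ • Φ (z • x)) (𝓝[≠] 0) (𝓝 x) := by
  have hB : Polynomial.X * Ar Q ≠ 0 := mul_ne_zero Polynomial.X_ne_zero fun h0 => by
    obtain ⟨q, hq⟩ := exists_ne hQ
    have := Ar_eval Q q 1
    rw [h0, one_smul] at this
    exact hq (by simpa using this.symm)
  obtain ⟨m, B1, hB1, b0⟩ := split_X hB
  refine gen_open ((gen_ne b0).mono fun x hx => tendsto_pi_nhds.2 fun i => ?_)
  obtain ⟨D2, hD2⟩ : Polynomial.X ^ (m + 1) ∣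
      Ar (P i) - Polynomial.C (X i) * (Polynomial.X * Ar Q) := by
    obtain ⟨G, H, h1, h2, h3⟩ := reg_all hρ hs hs' hE (xx i)
    have e1 : Ay xx (P i) * H - G * (Polynomial.X * Ay xx Q) = 0 := by
      refine inf_units 1 one_ne_zero _ fun c => ?_
      have a1 := sc_ne (K := KK ι) c
      have a2 : ∀ p, ρ c (algebraMap _ _ p) = (Ay xx p).eval (sc _ c) := fun p => by
        rw [hom_am, Ay_eval]; simp only [fun j => hρ j c, zpow_one]
      have a3 : (Ay xx Q).eval (sc _ c) ≠ 0 := by rw [← a2]; exact (map_ne_zero _).2 (am_ne hQ)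
      have := h3 c
      rw [hρ i, zpow_one, map_mul, map_mul, AlgHom.commutes, AlgHom.commutes, hσ, map_div₀,
        a2, a2] at this
      simp only [mul_one, Polynomial.eval_sub, Polynomial.eval_mul, Polynomial.eval_X, ← this]
      simp only [Units.val_inv_eq_inv_val, map_inv₀]
      field_simp
      ring
    obtain ⟨G1, hG1⟩ : Polynomial.X ∣ G - Polynomial.C (xx i) * H := by
      rw [Polynomial.X_dvd_iff, Polynomial.coeff_zero_eq_eval_zero]; simp [h2]
    have e2 := congrArg (Polynomial.map (algebraMap _ (KK ι))) hB1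
    simp only [Polynomial.map_mul, Polynomial.map_pow, Polynomial.map_X, Ar_map] at e2
    have e3 : Polynomial.X ^ (m + 1) ∣
        H * (Ay xx (P i) - Polynomial.C (xx i) * (Polynomial.X * Ay xx Q)) :=
      ⟨G1 * B1.map (algebraMap _ _), by
        linear_combination e1 + (Polynomial.X * Ay xx Q) * hG1 + Polynomial.X * G1 * e2⟩
    have e5 := Polynomial.prime_X.pow_dvd_of_dvd_mul_left _ (by
        rwa [Polynomial.X_dvd_iff, Polynomial.coeff_zero_eq_eval_zero]) e3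
    rw [Polynomial.X_pow_dvd_iff] at e5 ⊢
    intro d hd
    apply IsFractionRing.injective _ (KK ι)
    rw [map_zero, ← e5 d hd, ← Polynomial.coeff_map]
    simp only [Polynomial.map_mul, Polynomial.map_sub, Polynomial.map_X, Polynomial.map_C, Ar_map,
      xx]
  let b : ℂ → ℂ := fun z => (B1.map (eval x)).eval z
  let d : ℂ → ℂ := fun z => (D2.map (eval x)).eval z
  have hb : Continuous b := Polynomial.continuous _
  have hd : Continuous d := Polynomial.continuous _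
  have hb0 : b 0 ≠ 0 := by simpa [b, Polynomial.eval_zero_map] using hx
  have t2 : Tendsto (fun z : ℂ => x i + z * d z / b z) (𝓝[≠] 0) (𝓝 (x i + 0 * d 0 / b 0)) :=
    (continuousAt_const.add ((continuousAt_id.mul hd.continuousAt).div hb.continuousAt
      hb0)).tendsto.mono_left nhdsWithin_le_nhds
  rw [zero_mul, zero_div, add_zero] at t2
  refine t2.congr' ?_
  filter_upwards [self_mem_nhdsWithin,
    nhdsWithin_le_nhds (hb.continuousAt.eventually_ne hb0)] with z hz hbz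
  have z0 : z ≠ 0 := hz
  have e1 := congrArg (fun p => (p.map (eval x)).eval z) hB1
  have e2 := congrArg (fun p => (p.map (eval x)).eval z) hD2
  simp only [Polynomial.map_mul, Polynomial.map_sub, Polynomial.map_pow, Polynomial.map_X,
    Polynomial.map_C, Polynomial.eval_mul, Polynomial.eval_sub, Polynomial.eval_pow,
    Polynomial.eval_X, Polynomial.eval_C, Ar_eval, eval_X] at e1 e2
  have hbz' : b z ≠ 0 := hbz
  have zm := pow_ne_zero m z0
  rw [hΦ, Pi.smul_apply, smul_eq_mul, ← mul_div_assoc, inv_mul_eq_div, div_div, e1,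
    eq_add_of_sub_eq e2, e1]
  show x i + z * d z / b z = (z ^ (m + 1) * d z + x i * (z ^ m * b z)) / (z ^ m * b z)
  field_simp
  ring

end conv

end Pool.Agent.H14Flow
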