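import Mathlib

set_option autoImplicit false

/-! Meagre plus Haar null decomposition from a one-parameter subgroup. -/

namespace Pool.Agent.H14Flow

open MeasureTheory Filter Topology Set Metric

theorem exists_inv {X : Type} [MetricSpace X] [CompactSpace X] (g : C(X, X))
    (hg : Function.Bijective g) : ∃ γ : C(X, X), (∀ x, γ (g x) = x) ∧ ∀ x, g (γ x) = x := by
  let e := Continuous.homeoOfEquivCompactToT2 (f := Equiv.ofBijective g hg) g.continuous
  exact ⟨⟨e.symm, e.symm.continuous⟩, e.symm_apply_apply, e.apply_symm_apply⟩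

theorem dyadic {t : ℝ} (h0 : 0 < t) (h1 : t ≤ 1) : ∃ k : ℕ, 2 ^ k * t ∈ Icc (1 / 2 : ℝ) 1 := by
  obtain ⟨k, a, b⟩ := exists_nat_pow_near_of_lt_one h0 h1 (y := 1 / 2) (by norm_num) (by norm_num)
  have hp : (0 : ℝ) < 2 ^ k := by positivity
  rw [one_div, inv_pow] at a b
  refine ⟨k, ?_, ?_⟩
  · rw [pow_succ, inv_lt_iff_one_lt_mul₀ (by positivity)] at a
    linarith
  · rw [← mul_inv_cancel₀ hp.ne']
    gcongr

theorem sum_fin (T : ℕ → Set ℝ) (C : ℝ)
    (hT : ∀ n, ∀ s ∈ T n, ∀ t ∈ T n, s < t → t - s ≤ C * (1 / 2) ^ n) :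
    ∑' n, volume (T n) ≠ ⊤ := by
  have key : ∀ n, volume (T n) ≤ ENNReal.ofReal (|C| * (1 / 2) ^ n) := fun n => by
    refine (Real.volume_le_diam _).trans (Metric.ediam_le_of_forall_dist_le fun s hs t ht => ?_)
    have a : C * (1 / 2) ^ n ≤ |C| * (1 / 2) ^ n := by gcongr; exact le_abs_self C
    rw [Real.dist_eq]
    rcases lt_trichotomy s t with h | h | h
    · rw [abs_sub_comm, abs_of_pos (sub_pos.2 h)]; exact (hT n s hs t ht h).trans a
    · rw [h, sub_self, abs_zero]; positivity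
    · rw [abs_of_pos (sub_pos.2 h)]; exact (hT n t ht s hs h).trans a
  refine ne_top_of_le_ne_top ?_ (ENNReal.tsum_le_tsum key)
  exact (summable_geometric_two.mul_left _).tsum_ofReal_ne_top

theorem group_dec (G : Type) [Group G] [TopologicalSpace G] [IsTopologicalGroup G]
    [SecondCountableTopology G] [T1Space G] [MeasurableSpace G] [BorelSpace G]
    (ψ : ℝ → G) (hψc : Continuous ψ) (hψm : ∀ s t, ψ (s + t) = ψ s * ψ t) (hne : ∃ t, ψ t ≠ 1) :
    ∃ M N : Set G, M ∪ N = univ ∧ IsMeagre M ∧ MeasurableSet N ∧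
      ∃ μ : Measure G, IsProbabilityMeasure μ ∧ ∀ g h : G, μ ((fun x => g * x * h) '' N) = 0 := by
  have h0 : ψ 0 = 1 := by
    have := hψm 0 0
    rw [add_zero] at this
    exact left_eq_mul.1 this
  obtain ⟨t0, ht0, hk⟩ : ∃ t0 > 0, ∀ t ∈ Ioo (0 : ℝ) t0, ψ t ≠ 1 := by
    by_contra hcon
    push Not at hcon
    let S : AddSubgroup ℝ :=
      { carrier := {t | ψ t = 1}
        add_mem' := fun {a b} ha hb => by
          simp only [mem_ofPred_eq] at ha hb ⊢
          rw [hψm, ha, hb, one_mul]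
        zero_mem' := h0
        neg_mem' := fun {a} ha => by
          simp only [mem_ofPred_eq] at ha ⊢
          have := hψm a (-a)
          rw [add_neg_cancel, h0, ha, one_mul] at this
          exact this.symm }
    have hd := S.dense_of_not_isolated_zero fun ε hε => by
      obtain ⟨t, a, b⟩ := hcon ε hε
      exact ⟨t, b, a⟩
    obtain ⟨t, ht⟩ := hne
    have hc : IsClosed (S : Set ℝ) := isClosed_singleton.preimage hψc
    have : t ∈ (S : Set ℝ) := by rw [← hc.closure_eq, hd.closure_eq]; trivial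
    exact ht this
  set φ : ℝ → G := fun t => ψ (t0 / 2 * t) with hφ
  have hc : Continuous φ := by fun_prop
  have hm : ∀ s t, φ (s + t) = φ s * φ t := fun s t => by simp only [hφ, mul_add, hψm]
  have hk' : ∀ t ∈ Icc (1 / 2 : ℝ) 1, φ t ≠ 1 := fun t ht =>
    hk _ ⟨by nlinarith [ht.1], by nlinarith [ht.2]⟩
  obtain ⟨U, hU, hUU⟩ := IsTopologicalGroup.exists_antitone_basis_nhds_one G
  set q : ℕ → G := fun n => TopologicalSpace.denseSeq G (Nat.unpair n).1 with hq
  have hV : ∀ n, ∃ V : Set G, IsOpen V ∧ q n ∈ V ∧ ∀ a ∈ V, ∀ b ∈ V, a⁻¹ * b ∈ U n := by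
    intro n
    have : (fun p : G × G => p.1⁻¹ * p.2) ⁻¹' U n ∈ 𝓝 (q n, q n) :=
      ContinuousAt.preimage_mem_nhds (by fun_prop) (by simpa using hU.mem n)
    obtain ⟨V, a, b, c⟩ := exists_nhds_square this
    exact ⟨V, a, b, fun x hx y hy => c (mk_mem_prod hx hy)⟩
  choose V hVo hVq hVU using hV
  set B : Set G := ⋂ k, ⋃ n ≥ k, V n with hB
  have hO : ∀ k, IsOpen (⋃ n ≥ k, V n) := fun k => isOpen_biUnion fun _ _ => hVo _
  have hlp : IsProbabilityMeasure (volume.restrict (Icc (0 : ℝ) 1)) := ⟨by simp⟩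
  refine ⟨Bᶜ, B, compl_union_self _, ?_,
    MeasurableSet.iInter fun k => (hO k).measurableSet, (volume.restrict (Icc (0 : ℝ) 1)).map φ,
    Measure.isProbabilityMeasure_map hc.measurable.aemeasurable, fun g h => ?_⟩
  · rw [IsMeagre, compl_compl, hB, countable_iInter_mem]
    refine fun k => residual_of_dense_open (hO k) ((TopologicalSpace.denseRange_denseSeq G).mono ?_)
    rintro _ ⟨i, rfl⟩
    refine mem_iUnion₂.2 ⟨Nat.pair i k, Nat.right_le_pair _ _, ?_⟩
    simpa [hq] using hVq (Nat.pair i k)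
  · set T : ℕ → Set G := fun n => (fun x => g⁻¹ * x * h⁻¹) ⁻¹' V n with hT
    have hTo : ∀ n, IsOpen (T n) := fun n => (hVo n).preimage (by fun_prop)
    refine measure_mono_null (t := limsup T atTop) ?_ (measure_limsup_atTop_eq_zero ?_)
    · rintro _ ⟨b, hb, rfl⟩
      rw [mem_limsup_iff_frequently_mem, frequently_atTop]
      intro k
      obtain ⟨n, hn, hbn⟩ := mem_iUnion₂.1 (mem_iInter.1 hb k)
      exact ⟨n, hn, by simpa [hT, mul_assoc] using hbn⟩
    · set χ : ℝ → G := fun t => h * φ t * h⁻¹ with hχ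
      have hK : IsCompact (χ '' Icc (1 / 2 : ℝ) 1) := isCompact_Icc.image (by fun_prop)
      obtain ⟨m, hm'⟩ : ∃ m, ∀ t ∈ Icc (1 / 2 : ℝ) 1, χ t ∉ U m := by
        have : T2Space G := inferInstance
        have h1 : (χ '' Icc (1 / 2 : ℝ) 1)ᶜ ∈ 𝓝 (1 : G) := hK.isClosed.isOpen_compl.mem_nhds (by
          rintro ⟨t, ht, e⟩
          exact hk' t ht (by simpa [hχ] using e))
        obtain ⟨m, hm'⟩ := hU.mem_iff.1 h1
        exact ⟨m, fun t ht hu => hm' hu ⟨t, ht, rfl⟩⟩
      have hdbl : ∀ k n t, χ t ∈ U (n + k) → χ (2 ^ k * t) ∈ U n := by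
        intro k
        induction k with
        | zero => simp
        | succ k ih =>
          intro n t ht
          have := ih (n + 1) t (by rwa [add_right_comm, add_assoc])
          have e : χ (2 ^ (k + 1) * t) = χ (2 ^ k * t) * χ (2 ^ k * t) := by
            rw [show (2 : ℝ) ^ (k + 1) * t = 2 ^ k * t + 2 ^ k * t by ring]
            simp only [hχ, hm]
            group
          rw [e]
          exact hUU n (mul_mem_mul this this)
      simp only [fun n => Measure.map_apply (μ := volume.restrict (Icc (0 : ℝ) 1)) hc.measurable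
        (hTo n).measurableSet, Measure.restrict_apply' measurableSet_Icc]
      refine sum_fin _ (2 ^ m) fun n s hs t ht hst => ?_
      have h1 : χ (t - s) ∈ U n := by
        have := hVU n _ hs.1 _ ht.1
        have e : φ t = φ s * φ (t - s) := by rw [← hm, add_sub_cancel]
        simpa [e, hχ, mul_assoc] using this
      obtain ⟨k, hk⟩ := dyadic (sub_pos.2 hst) (by linarith [hs.2.1, ht.2.2])
      have h2 : n < m + k := by
        by_contra h3
        exact hm' _ hk (hdbl k m _ (hU.antitone (not_lt.1 h3) h1))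
      have h3 : (2 : ℝ) ^ n ≤ 2 ^ m * 2 ^ k := by
        rw [← pow_add]; exact pow_le_pow_right₀ one_le_two h2.le
      rw [one_div, inv_pow, le_mul_inv_iff₀ (by positivity)]
      calc (t - s) * 2 ^ n ≤ (t - s) * (2 ^ m * 2 ^ k) := by gcongr
        _ = 2 ^ m * (2 ^ k * (t - s)) := by ring
        _ ≤ 2 ^ m * 1 := by gcongr; exact hk.2
        _ = _ := mul_one _

theorem maps_dec {X : Type} [MetricSpace X] [CompactSpace X] (G : Set C(X, X))
    (hG : ∀ f ∈ G, Function.Bijective f) (ρ : ℝ → C(X, X)) (hρc : Continuous ρ)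
    (hρm : ∀ z w x, ρ (z + w) x = ρ z (ρ w x)) (hρG : ∀ z, ρ z ∈ G)
    (hN : ∀ t ∈ Icc (1 / 2 : ℝ) 1, ∃ x, ρ t x ≠ x)
    (m : MeasurableSpace G) (hm : m = borel G) :
    ∃ M N : Set G, M ∪ N = univ ∧ Disjoint M N ∧ IsMeagre M ∧ MeasurableSet N ∧
      ∃ μ : Measure G, IsProbabilityMeasure μ ∧ ∀ g h : G,
        μ {x : G | ∃ b ∈ N,
          (x : C(X, X)) = (g : C(X, X)).comp ((b : C(X, X)).comp (h : C(X, X)))} = 0 := by
  have : BorelSpace G := ⟨hm⟩
  have : Nonempty G := ⟨⟨ρ 1, hρG 1⟩⟩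
  set q : ℕ → G := fun n => TopologicalSpace.denseSeq G (Nat.unpair n).1 with hq
  have hr : ∀ n, ∃ r, 0 < r ∧ ∀ u v, dist ((q n).1 u) ((q n).1 v) < 2 * r →
      dist u v ≤ (1 / 2 : ℝ) ^ n := by
    intro n
    obtain ⟨γ, h1, -⟩ := exists_inv _ (hG _ (q n).2)
    obtain ⟨δ, hδ, h⟩ := Metric.uniformContinuous_iff.1
      (CompactSpace.uniformContinuous_of_continuous γ.continuous) ((1 / 2 : ℝ) ^ n) (by positivity)
    refine ⟨δ / 2, half_pos hδ, fun u v huv => ?_⟩
    have := h (a := (q n).1 u) (b := (q n).1 v) (by linarith)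
    rw [h1, h1] at this
    exact this.le
  choose r hr0 hr using hr
  set B : Set G := ⋂ k, ⋃ n ≥ k, ball (q n) (r n) with hB
  have hO : ∀ k, IsOpen (⋃ n ≥ k, ball (q n) (r n)) := fun k =>
    isOpen_biUnion fun _ _ => isOpen_ball
  have hlp : IsProbabilityMeasure (volume.restrict (Icc (0 : ℝ) 1)) := ⟨by simp⟩
  have hc : Continuous fun z => (⟨ρ z, hρG z⟩ : G) := hρc.subtype_mk _
  refine ⟨Bᶜ, B, compl_union_self _, disjoint_compl_left, ?_,
    MeasurableSet.iInter fun k => (hO k).measurableSet,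
    (volume.restrict (Icc (0 : ℝ) 1)).map fun z => ⟨ρ z, hρG z⟩,
    Measure.isProbabilityMeasure_map hc.measurable.aemeasurable, fun g h => ?_⟩
  · rw [IsMeagre, compl_compl, hB, countable_iInter_mem]
    refine fun k => residual_of_dense_open (hO k) ((TopologicalSpace.denseRange_denseSeq G).mono ?_)
    rintro _ ⟨i, rfl⟩
    refine mem_iUnion₂.2 ⟨Nat.pair i k, Nat.right_le_pair _ _, ?_⟩
    have := mem_ball_self (x := q (Nat.pair i k)) (hr0 (Nat.pair i k))
    simpa [hq] using this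
  · obtain ⟨γ, γ1, -⟩ := exists_inv _ (hG _ g.2)
    obtain ⟨η, η1, η2⟩ := exists_inv _ (hG _ h.2)
    set T : ℕ → Set G := fun n => {x | dist (γ.comp (x.1.comp η)) (q n).1 < r n} with hT
    have hTo : ∀ n, IsOpen (T n) := fun n => isOpen_lt (by fun_prop) continuous_const
    refine measure_mono_null (t := limsup T atTop) ?_ (measure_limsup_atTop_eq_zero ?_)
    · rintro x ⟨b, hb, e⟩
      rw [mem_limsup_iff_frequently_mem, frequently_atTop]
      intro k
      obtain ⟨n, hn, hbn⟩ := mem_iUnion₂.1 (mem_iInter.1 hb k)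
      refine ⟨n, hn, ?_⟩
      have : γ.comp (x.1.comp η) = b.1 := by
        ext1 y
        simp [e, γ1, η2]
      simp only [hT, mem_ofPred_eq, this]
      exact hbn
    · set D : ℝ → ℝ := fun t => dist (h.1.comp (ρ t)) h.1 with hD
      obtain ⟨c, hc0, hcD⟩ := isCompact_Icc.exists_forall_le' (f := D) (a := 0)
        (s := Icc (1 / 2 : ℝ) 1) (Continuous.continuousOn (by fun_prop)) fun t ht => by
          obtain ⟨x, hx⟩ := hN t ht
          refine dist_pos.2 fun e => hx ((hG _ h.2).1 ?_)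
          exact congrArg (fun f : C(X, X) => f x) e
      have hdbl : ∀ (k : ℕ) t, D (2 ^ k * t) ≤ 2 ^ k * D t := by
        intro k t
        induction k with
        | zero => simp
        | succ k ih =>
          refine (ContinuousMap.dist_le (by positivity)).2 fun x => ?_
          rw [show (2 : ℝ) ^ (k + 1) * t = 2 ^ k * t + 2 ^ k * t by ring]
          have a1 : dist (h.1 (ρ (2 ^ k * t) x)) (h.1 x) ≤ D (2 ^ k * t) :=
            ContinuousMap.dist_apply_le_dist (f := h.1.comp (ρ _)) x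
          have a2 : dist (h.1 (ρ (2 ^ k * t) (ρ (2 ^ k * t) x))) (h.1 (ρ (2 ^ k * t) x)) ≤
              D (2 ^ k * t) := ContinuousMap.dist_apply_le_dist (f := h.1.comp (ρ _)) _
          have := dist_triangle (h.1 (ρ (2 ^ k * t) (ρ (2 ^ k * t) x))) (h.1 (ρ (2 ^ k * t) x))
            (h.1 x)
          simp only [ContinuousMap.comp_apply, hρm, pow_succ]
          linarith
      simp only [fun n => Measure.map_apply (μ := volume.restrict (Icc (0 : ℝ) 1)) hc.measurable
        (hTo n).measurableSet, Measure.restrict_apply' measurableSet_Icc]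
      refine sum_fin _ c⁻¹ fun n s hs t ht hst => ?_
      have d1 : D (t - s) ≤ (1 / 2) ^ n := by
        refine (ContinuousMap.dist_le (by positivity)).2 fun x => hr n _ _ ?_
        have a1 := (ContinuousMap.dist_apply_le_dist (h.1 (ρ (t - s) x))).trans_lt hs.1
        have a2 := (ContinuousMap.dist_apply_le_dist (h.1 x)).trans_lt ht.1
        simp only [ContinuousMap.comp_apply, η1, ← hρm, add_sub_cancel] at a1 a2 ⊢
        have := dist_triangle_left ((q n).1 (h.1 (ρ (t - s) x))) ((q n).1 (h.1 x)) (γ (ρ t x))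
        linarith
      obtain ⟨k, hk⟩ := dyadic (sub_pos.2 hst) (by linarith [hs.2.1, ht.2.2])
      have h2 := (hcD _ hk).trans (hdbl k _)
      rw [le_inv_mul_iff₀ hc0]
      calc c * (t - s) ≤ 2 ^ k * (1 / 2) ^ n * (t - s) := by
            gcongr
            exact h2.trans (by gcongr)
        _ = (1 / 2) ^ n * (2 ^ k * (t - s)) := by ring
        _ ≤ (1 / 2) ^ n * 1 := by gcongr; exact hk.2
        _ = _ := mul_one _

end Pool.Agent.H14Flow
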