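import Mathlib

set_option autoImplicit false

namespace Pool.Agent.Lib.helper14.Fock

open Finset MvPolynomial

variable {σ : Type} [Fintype σ] [DecidableEq σ]

/-- factorial weight -/
def wt (γ : σ →₀ ℕ) : ℕ := ∏ a, (γ a).factorial

theorem wt_pos (γ : σ →₀ ℕ) : 0 < wt γ := prod_pos fun _ _ => Nat.factorial_pos _

theorem wt_add (a : σ) (γ : σ →₀ ℕ) : wt (Finsupp.single a 1 + γ) = wt γ * (γ a + 1) := by
  unfold wt
  rw [← mul_prod_erase univ _ (mem_univ a), ← mul_prod_erase univ _ (mem_univ a)]
  have : ∏ x ∈ univ.erase a, ((Finsupp.single a 1 + γ : σ →₀ ℕ) x).factorial =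
      ∏ x ∈ univ.erase a, (γ x).factorial := by
    refine prod_congr rfl fun x hx => ?_
    have := (mem_erase.1 hx).1
    simp [Finsupp.single_apply, this.symm]
  rw [this]
  simp [add_comm 1, Nat.factorial_succ]; ring

section
variable {ι : Type} [Fintype ι] [DecidableEq ι]

noncomputable def ty (f : ι → σ) : σ →₀ ℕ := ∑ i, Finsupp.single (f i) 1

omit [Fintype σ] [DecidableEq ι] in
theorem ty_apply (f : ι → σ) (a : σ) : ty f a = Fintype.card {i // f i = a} := by
  simp [ty, Finsupp.finsetSum_apply, Finsupp.single_apply, Fintype.card_subtype]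

theorem count (f g : ι → σ) :
    (univ.filter fun π : Equiv.Perm ι => f ∘ π = g).card = if ty g = ty f then wt (ty f) else 0 := by
  split_ifs with h
  · have e : ∀ a, {i // g i = a} ≃ {i // f i = a} := fun a =>
      Fintype.equivOfCardEq (by rw [← ty_apply, ← ty_apply, h])
    let τ : Equiv.Perm ι := Equiv.ofFiberEquiv e
    have hτ : f ∘ τ = g := funext fun i => Equiv.ofFiberEquiv_map e i
    have h2 := DomMulAct.stabilizer_card f
    rw [Fintype.card_subtype] at h2
    simp only [wt, ty_apply]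
    rw [← h2]
    refine card_bij (fun π _ => π * τ⁻¹) ?_ ?_ ?_
    · intro π hπ
      simp only [mem_filter, mem_univ, true_and] at hπ ⊢
      rw [Equiv.Perm.coe_mul, ← Function.comp_assoc, hπ, ← hτ]
      ext i; simp
    · intro a _ b _ hab; simpa using hab
    · intro π hπ
      simp only [mem_filter, mem_univ, true_and] at hπ ⊢
      refine ⟨π * τ, ?_, by simp⟩
      rw [Equiv.Perm.coe_mul, ← Function.comp_assoc, hπ, hτ]
  · rw [card_eq_zero, filter_eq_empty_iff]
    rintro π - rfl
    exact h (by unfold ty; exact Equiv.sum_comp π (fun i => Finsupp.single (f i) 1))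

noncomputable def lin (u : σ → ℂ) : MvPolynomial σ ℂ := ∑ a, C (u a) * X a

omit [DecidableEq σ] in
theorem prod_lin (u : ι → σ → ℂ) :
    ∏ i, lin (u i) = ∑ f : ι → σ, monomial (ty f) (∏ i, u i (f i)) := by
  unfold lin
  rw [prod_univ_sum, Fintype.piFinset_univ]
  refine sum_congr rfl fun f _ => ?_
  rw [ty, monomial_sum_index, prod_mul_distrib, map_prod]
  rfl

theorem per_eq (u v : ι → σ → ℂ) (S : Finset (σ →₀ ℕ)) (hS : (∏ i, lin (u i)).support ⊆ S) :
    (Matrix.of fun i j => ∑ a, u i a * star (v j a)).permanent =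
      ∑ γ ∈ S, wt γ * (coeff γ (∏ i, lin (u i)) * star (coeff γ (∏ i, lin (v i)))) := by
  have h1 : ∀ f : ι → σ, ∑ π : Equiv.Perm ι, ∏ i, u (π i) (f i) =
      wt (ty f) * coeff (ty f) (∏ i, lin (u i)) := by
    intro f
    have : ∑ π : Equiv.Perm ι, ∏ i, u (π i) (f i) = ∑ π : Equiv.Perm ι, ∏ i, u i ((f ∘ π) i) := by
      refine Fintype.sum_equiv (Equiv.inv _) _ _ fun π => ?_
      rw [← Equiv.prod_comp π (fun i => u i _)]
      simp
    rw [this, ← sum_fiberwise (s := univ) (g := fun π : Equiv.Perm ι => f ∘ π), prod_lin,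
      coeff_sum, mul_sum]
    refine sum_congr rfl fun g _ => ?_
    rw [sum_congr rfl (g := fun _ => ∏ i, u i (g i))
      (fun π hπ => by rw [(mem_filter.1 hπ).2]), sum_const, count, coeff_monomial]
    split_ifs <;> simp
  simp only [Matrix.permanent, Matrix.of_apply]
  simp only [prod_univ_sum, Fintype.piFinset_univ, prod_mul_distrib]
  rw [sum_comm]
  simp only [← sum_mul, h1]
  generalize (∏ i, lin (u i)) = P at hS ⊢
  rw [prod_lin]
  simp only [coeff_sum, star_sum, mul_sum, coeff_monomial]
  rw [sum_comm]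
  refine sum_congr rfl fun f _ => ?_
  simp only [apply_ite star, star_zero, mul_ite, mul_zero, sum_ite_eq, star_prod]
  split_ifs with h
  · ring
  · rw [notMem_support_iff.1 fun h' => h (hS h')]; simp
end

end Pool.Agent.Lib.helper14.Fock
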