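import Pool.Agent.Lib.helper14.Deg3

set_option autoImplicit false

/-! Meagre plus Haar null decomposition from a circle action without small conjugates. -/

namespace Pool.Agent.H14Deg

open MeasureTheory Filter Topology Set Metric

theorem root_neg (n : ℕ) (z : Circle) (h : z ^ 2 ^ n = 1) (h1 : z ≠ 1) :
    ∃ k ≤ 2 ^ n, z ^ k = -1 := by
  induction n with
  | zero => exact absurd (by simpa using h) h1
  | succ n ih =>
    by_cases h2 : z ^ 2 ^ n = 1
    · obtain ⟨k, hk, e⟩ := ih h2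
      exact ⟨k, hk.trans (Nat.pow_le_pow_right two_pos n.le_succ), e⟩
    · refine ⟨2 ^ n, Nat.pow_le_pow_right two_pos n.le_succ, Circle.ext ?_⟩
      rw [pow_succ, pow_mul] at h
      have h3 : ((z ^ 2 ^ n : Circle) : ℂ) ^ 2 = 1 := by
        rw [← Circle.coe_pow, h, Circle.coe_one]
      rcases sq_eq_one_iff.1 h3 with h4 | h4
      · exact absurd (Circle.ext h4) h2
      · exact h4

theorem exists_root (N : ℕ) (hN : N ≠ 0) : ∃ ζ : Circle, ζ ^ N = 1 ∧
    ∀ a b, a < N → b < N → ζ ^ a = ζ ^ b → a = b := by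
  have h := Complex.isPrimitiveRoot_exp N hN
  have hn : ‖Complex.exp (2 * Real.pi * Complex.I / N)‖ = 1 := h.norm'_eq_one hN
  refine ⟨⟨_, mem_sphere_zero_iff_norm.2 hn⟩, Circle.ext ?_, fun a b ha hb e => ?_⟩
  · rw [Circle.coe_pow]; exact h.pow_eq_one
  · have := congrArg (fun z : Circle => (z : ℂ)) e
    simp only [Circle.coe_pow] at this
    exact h.pow_inj ha hb this

theorem exists_inv {X : Type} [MetricSpace X] [CompactSpace X] (g : C(X, X))
    (hg : Function.Bijective g) : ∃ γ : C(X, X), (∀ x, γ (g x) = x) ∧ ∀ x, g (γ x) = x := by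
  let e := Continuous.homeoOfEquivCompactToT2 (f := Equiv.ofBijective g hg) g.continuous
  exact ⟨⟨e.symm, e.symm.continuous⟩, e.symm_apply_apply, e.apply_symm_apply⟩

theorem haar_dec {X : Type} [MetricSpace X] [CompactSpace X] (G : Set C(X, X))
    (hG : ∀ f ∈ G, Function.Bijective f) (ρ : Circle → C(X, X)) (hρc : Continuous ρ)
    (hρm : ∀ z w x, ρ (z * w) x = ρ z (ρ w x)) (hρ1 : ∀ x, ρ 1 x = x) (hρG : ∀ z, ρ z ∈ G)
    (hN : ∀ h ∈ G, ∃ x, 2 ≤ dist (h (ρ (-1) x)) (h x))
    (m : MeasurableSpace G) (hm : m = borel G) :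
    ∃ M N : Set G, M ∪ N = univ ∧ Disjoint M N ∧ IsMeagre M ∧ MeasurableSet N ∧
      ∃ μ : Measure G, IsProbabilityMeasure μ ∧ ∀ g h : G,
        μ {x : G | ∃ b ∈ N,
          (x : C(X, X)) = (g : C(X, X)).comp ((b : C(X, X)).comp (h : C(X, X)))} = 0 := by
  have : BorelSpace G := ⟨hm⟩
  have : Nonempty G := ⟨⟨ρ 1, hρG 1⟩⟩
  set q : ℕ → G := fun n => TopologicalSpace.denseSeq G (Nat.unpair n).1 with hq
  have hr : ∀ n, ∃ r, 0 < r ∧ ∀ u v, dist ((q n).1 u) ((q n).1 v) < 2 * r →
      dist u v ≤ (2 ^ n : ℝ)⁻¹ := by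
    intro n
    obtain ⟨γ, h1, -⟩ := exists_inv _ (hG _ (q n).2)
    obtain ⟨δ, hδ, h⟩ := Metric.uniformContinuous_iff.1
      (CompactSpace.uniformContinuous_of_continuous γ.continuous) (2 ^ n : ℝ)⁻¹ (by positivity)
    refine ⟨δ / 2, half_pos hδ, fun u v huv => ?_⟩
    have := h (a := (q n).1 u) (b := (q n).1 v) (by linarith)
    rw [h1, h1] at this
    exact this.le
  choose r hr0 hr using hr
  set B : Set G := ⋂ k, ⋃ n ≥ k, ball (q n) (r n) with hB
  have hO : ∀ k, IsOpen (⋃ n ≥ k, ball (q n) (r n)) := fun k =>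
    isOpen_biUnion fun _ _ => isOpen_ball
  borelize Circle
  set lam : Measure Circle := Measure.haarMeasure ⊤ with hlam
  have hlp : IsProbabilityMeasure lam := ⟨Measure.haarMeasure_self (K₀ := ⊤)⟩
  have hc : Continuous fun z => (⟨ρ z, hρG z⟩ : G) := hρc.subtype_mk _
  refine ⟨Bᶜ, B, compl_union_self _, disjoint_compl_left, ?_,
    MeasurableSet.iInter fun k => (hO k).measurableSet, lam.map fun z => ⟨ρ z, hρG z⟩,
    Measure.isProbabilityMeasure_map hc.measurable.aemeasurable, fun g h => ?_⟩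
  · rw [IsMeagre, compl_compl, hB, countable_iInter_mem]
    refine fun k => residual_of_dense_open (hO k) ((TopologicalSpace.denseRange_denseSeq G).mono ?_)
    rintro _ ⟨i, rfl⟩
    refine mem_iUnion₂.2 ⟨Nat.pair i k, Nat.right_le_pair _ _, ?_⟩
    have := mem_ball_self (x := q (Nat.pair i k)) (hr0 (Nat.pair i k))
    simpa [hq] using this
  · obtain ⟨γ, γ1, -⟩ := exists_inv _ (hG _ g.2)
    obtain ⟨η, η1, η2⟩ := exists_inv _ (hG _ h.2)
    set T : ℕ → Set G := fun n => {x | dist (γ.comp (x.1.comp η)) (q n).1 < r n} with hT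
    have hTo : ∀ n, IsOpen (T n) := fun n => isOpen_lt (by fun_prop) continuous_const
    refine measure_mono_null (t := limsup T atTop) ?_ (measure_limsup_atTop_eq_zero ?_)
    · rintro x ⟨b, hb, e⟩
      rw [mem_limsup_iff_frequently_mem, frequently_atTop]
      intro k
      obtain ⟨n, hn, hbn⟩ := mem_iUnion₂.1 (mem_iInter.1 hb k)
      refine ⟨n, hn, ?_⟩
      have : γ.comp (x.1.comp η) = b.1 := by
        ext1 y
        simp [e, γ1, η2]
      simp only [hT, mem_ofPred_eq, this]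
      exact hbn
    · have key : ∀ n, (lam.map fun z => (⟨ρ z, hρG z⟩ : G)) (T n) ≤ (2⁻¹ : ENNReal) ^ n := by
        intro n
        rw [Measure.map_apply hc.measurable (hTo n).measurableSet]
        set A : Set Circle := (fun z => (⟨ρ z, hρG z⟩ : G)) ⁻¹' T n with hA
        have hAm : MeasurableSet A := ((hTo n).preimage hc).measurableSet
        have hd : ∀ z w, w ^ 2 ^ n = 1 → z ∈ A → z * w ∈ A → w = 1 := by
          intro z w hw h1 h2
          by_contra hw1
          obtain ⟨k, hk, e⟩ := root_neg n w hw hw1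
          have d1 : ∀ x, dist (h.1 (ρ w x)) (h.1 x) ≤ (2 ^ n : ℝ)⁻¹ := by
            intro x
            apply hr n
            have a1 := (ContinuousMap.dist_apply_le_dist (h.1 (ρ w x))).trans_lt h1
            have a2 := (ContinuousMap.dist_apply_le_dist (h.1 x)).trans_lt h2
            simp only [ContinuousMap.comp_apply, η1, hρm] at a1 a2
            have := dist_triangle_left ((q n).1 (h.1 (ρ w x))) ((q n).1 (h.1 x))
              (γ (ρ z (ρ w x)))
            linarith
          have d2 : ∀ (j : ℕ) x, dist (h.1 (ρ (w ^ j) x)) (h.1 x) ≤ j * (2 ^ n : ℝ)⁻¹ := by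
            intro j x
            induction j with
            | zero => simp [hρ1]
            | succ j ih =>
              rw [pow_succ', hρm]
              have := dist_triangle (h.1 (ρ w (ρ (w ^ j) x))) (h.1 (ρ (w ^ j) x)) (h.1 x)
              have := d1 (ρ (w ^ j) x)
              push_cast
              linarith
          obtain ⟨x, hx⟩ := hN _ h.2
          have d3 := d2 k x
          rw [e] at d3
          have : (k : ℝ) * (2 ^ n : ℝ)⁻¹ ≤ 1 := by
            rw [mul_inv_le_iff₀ (by positivity), one_mul]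
            exact_mod_cast hk
          linarith
        obtain ⟨ζ, hζ, hζi⟩ := exists_root (2 ^ n) (by positivity)
        have hs := sum_measure_le_measure_univ (μ := lam) (s := Finset.range (2 ^ n))
          (t := fun a => (fun z => ζ ^ a * z) ⁻¹' A)
          (fun a _ => (hAm.preimage (by fun_prop)).nullMeasurableSet) (by
            intro a ha b hb hab
            refine Disjoint.aedisjoint (disjoint_left.2 fun z h1 h2 => hab ?_)
            have := hd (ζ ^ a * z) (ζ ^ b / ζ ^ a) (by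
              rw [div_pow, ← pow_mul, ← pow_mul, mul_comm a, mul_comm b, pow_mul, pow_mul, hζ]
              simp) h1 (by
              rw [show ζ ^ a * z * (ζ ^ b / ζ ^ a) = ζ ^ b * z by
                rw [mul_comm (ζ ^ a), mul_assoc, mul_div_cancel, mul_comm]]
              exact h2)
            exact hζi _ _ (by simpa using ha) (by simpa using hb) (div_eq_one.1 this).symm)
        simp only [measure_preimage_mul, Finset.sum_const, Finset.card_range, measure_univ,
          nsmul_eq_mul] at hs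
        rw [← ENNReal.inv_pow, ENNReal.le_inv_iff_mul_le, mul_comm]
        exact_mod_cast hs
      refine ne_top_of_le_ne_top ?_ (ENNReal.tsum_le_tsum key)
      simp

theorem exists_rot (k : ℕ) : ∃ ρ : Circle → (EuclideanSpace ℝ (Fin (k + 2)) ≃ₗᵢ[ℝ]
    EuclideanSpace ℝ (Fin (k + 2))),
    Continuous (fun p : Circle × EuclideanSpace ℝ (Fin (k + 2)) => ρ p.1 p.2) ∧
    (∀ z w x, ρ (z * w) x = ρ z (ρ w x)) ∧ (∀ x, ρ 1 x = x) ∧ ∀ x, ρ (-1) x 0 = -x 0 := by
  let f : Circle → EuclideanSpace ℝ (Fin (k + 2)) → EuclideanSpace ℝ (Fin (k + 2)) :=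
    fun z x => WithLp.toLp 2 fun i => if i = 0 then (z : ℂ).re * x 0 - (z : ℂ).im * x 1
      else if i = 1 then (z : ℂ).im * x 0 + (z : ℂ).re * x 1 else x i
  have h01 : (1 : Fin (k + 2)) ≠ 0 := by simp
  have hn : ∀ z x, ‖f z x‖ = ‖x‖ := by
    intro z x
    have hz : (z : ℂ).re ^ 2 + (z : ℂ).im ^ 2 = 1 := by
      have := Circle.normSq_coe z
      rw [Complex.normSq_apply] at this
      linarith
    rw [EuclideanSpace.norm_eq, EuclideanSpace.norm_eq]
    congr 1
    simp only [Fin.sum_univ_succ, f, Real.norm_eq_abs, sq_abs, Fin.succ_zero_eq_one,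
      Fin.succ_ne_zero, Fin.succ_succ_ne_one, if_true, if_false]
    linear_combination (x 0 ^ 2 + x 1 ^ 2) * hz
  let L : Circle → (EuclideanSpace ℝ (Fin (k + 2)) →ₗᵢ[ℝ] EuclideanSpace ℝ (Fin (k + 2))) :=
    fun z =>
    { toFun := f z
      map_add' := fun x y => by
        ext i
        simp only [f, PiLp.add_apply]
        split_ifs <;> ring
      map_smul' := fun c x => by
        ext i
        simp only [f, PiLp.smul_apply, smul_eq_mul, RingHom.id_apply]
        split_ifs <;> ring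
      norm_map' := hn z }
  refine ⟨fun z => (L z).toLinearIsometryEquiv rfl, ?_, fun z w x => ?_, fun x => ?_, fun x => ?_⟩
  · show Continuous fun p : Circle × EuclideanSpace ℝ (Fin (k + 2)) => f p.1 p.2
    refine (PiLp.continuous_toLp 2 _).comp (continuous_pi fun i => ?_)
    split_ifs <;> fun_prop
  · show f (z * w) x = f z (f w x)
    ext i
    simp only [f, Circle.coe_mul, Complex.mul_re, Complex.mul_im, h01, if_true, if_false]
    split_ifs <;> ring
  · show f 1 x = x
    ext i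
    simp only [f, Circle.coe_one, Complex.one_re, Complex.one_im]
    split_ifs with h1 h2
    · simp [h1]
    · simp [h2]
    · rfl
  · show f (-1) x 0 = _
    simp [f]

/-- Newman type lemma for the rotation by `π`. -/
theorem newman_rot {k : ℕ} (ρ : Circle → (EuclideanSpace ℝ (Fin (k + 2)) ≃ₗᵢ[ℝ]
    EuclideanSpace ℝ (Fin (k + 2)))) (hm : ∀ z w x, ρ (z * w) x = ρ z (ρ w x))
    (h1 : ∀ x, ρ 1 x = x) (h0 : ∀ x, ρ (-1) x 0 = -x 0)
    (H : unitInterval × sphere (0 : EuclideanSpace ℝ (Fin (k + 2))) 1 →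
      EuclideanSpace ℝ (Fin (k + 2))) (hH : Continuous H) (hn : ∀ p, ‖H p‖ = 1)
    (hH1 : ∀ x, H (1, x) = x) :
    ∃ x y : sphere (0 : EuclideanSpace ℝ (Fin (k + 2))) 1, (y : EuclideanSpace ℝ (Fin (k + 2))) =
      ρ (-1) x ∧ 2 ≤ dist (H (0, y)) (H (0, x)) := by
  have hd : ∀ z w, LinearMap.det (ρ (z * w)).toLinearEquiv.toLinearMap =
      LinearMap.det (ρ z).toLinearEquiv.toLinearMap *
        LinearMap.det (ρ w).toLinearEquiv.toLinearMap := fun z w => by
    rw [← LinearMap.det_comp]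
    congr 1
    exact LinearMap.ext (hm z w)
  have hd1 : LinearMap.det (ρ 1).toLinearEquiv.toLinearMap = 1 := by
    rw [show (ρ 1).toLinearEquiv.toLinearMap = LinearMap.id from LinearMap.ext h1,
      LinearMap.det_id]
  set i : Circle := ⟨Complex.I, by simp [Submonoid.unitSphere]⟩ with hi
  have hii : i * i = -1 := Circle.ext (by simp [hi])
  have a1 := hd i i
  have a2 := hd (-1) (-1)
  rw [hii] at a1
  rw [neg_mul_neg, one_mul, hd1] at a2
  have a3 : LinearMap.det (ρ (-1)).toLinearEquiv.toLinearMap = 1 := by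
    nlinarith [mul_self_nonneg (LinearMap.det (ρ i).toLinearEquiv.toLinearMap)]
  obtain ⟨x, y, e1, e2⟩ := newman (ρ (-1)) a3
    (fun x => by rw [← hm, neg_mul_neg, one_mul, h1]) (EuclideanSpace.proj 0)
    (fun h => by
      have := congrArg (fun l : EuclideanSpace ℝ (Fin (k + 2)) →L[ℝ] ℝ =>
        l (EuclideanSpace.single 0 1)) h
      simp at this) h0 H hH hn hH1
  refine ⟨x, y, e1, le_of_eq ?_⟩
  rw [e2, dist_eq_norm, ← neg_add', norm_neg, ← two_smul ℝ, norm_smul, hn]
  simp

theorem sphere_dec (n : ℕ) (hn : 1 ≤ n) (S : Set (EuclideanSpace ℝ (Fin (n + 1))))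
    (hS : S = sphere 0 1) (G : Set C(S, S)) (hG : G = {f : C(S, S) | Function.Bijective (f : S → S) ∧
      ContinuousMap.Homotopic f (ContinuousMap.id (↥S))})
    (m : MeasurableSpace G) (hm : m = borel G) :
    ∃ M N : Set G, M ∪ N = univ ∧ Disjoint M N ∧ IsMeagre M ∧ MeasurableSet N ∧
      ∃ μ : Measure G, IsProbabilityMeasure μ ∧ ∀ g h : G,
        μ {x : G | ∃ b ∈ N,
          (x : C(S, S)) = (g : C(S, S)).comp ((b : C(S, S)).comp (h : C(S, S)))} = 0 := by
  obtain ⟨k, rfl⟩ : ∃ k, n = k + 1 := ⟨n - 1, by omega⟩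
  subst hS
  obtain ⟨ρ, hc, hmul, h1, h0⟩ := exists_rot k
  let R : C(Circle × sphere (0 : EuclideanSpace ℝ (Fin (k + 2))) 1,
      sphere (0 : EuclideanSpace ℝ (Fin (k + 2))) 1) :=
    ⟨fun p => ⟨ρ p.1 p.2, by simp⟩, continuous_induced_rng.2
      (hc.comp (continuous_fst.prodMk (continuous_subtype_val.comp continuous_snd)))⟩
  have hR : ∀ z w x, R.curry (z * w) x = R.curry z (R.curry w x) := fun z w x =>
    Subtype.ext (hmul z w x)
  have hR1 : ∀ x, R.curry 1 x = x := fun x => Subtype.ext (h1 x)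
  refine haar_dec G (fun f hf => (hG ▸ hf).1) R.curry R.curry.continuous hR hR1 (fun z => ?_)
    (fun h hh => ?_) m hm
  · rw [hG]
    refine ⟨Function.bijective_iff_has_inverse.2 ⟨R.curry z⁻¹, fun x => ?_, fun x => ?_⟩, ?_⟩
    · rw [← hR, inv_mul_cancel, hR1]
    · rw [← hR, mul_inv_cancel, hR1]
    · obtain ⟨θ, rfl⟩ := Circle.exp_surjective z
      exact ⟨⟨⟨fun p => R (Circle.exp ((1 - p.1) * θ), p.2), by fun_prop⟩,
        fun x => by simp, fun x => by simpa using hR1 x⟩⟩
  · rw [hG] at hh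
    obtain ⟨H⟩ := hh.2
    obtain ⟨x, y, e1, e2⟩ := newman_rot ρ hmul h1 h0 (fun p => H p) (by fun_prop)
      (fun p => by simp) fun x => by simp
    refine ⟨x, ?_⟩
    rw [show R.curry (-1) x = y from Subtype.ext e1.symm]
    simpa [Subtype.dist_eq] using e2

theorem ball_dec (n : ℕ) (hn : 2 ≤ n) (D : Set (EuclideanSpace ℝ (Fin n)))
    (hD : D = closedBall 0 1) (G : Set C(D, D))
    (hG : G = {f : C(D, D) | Function.Bijective (f : D → D) ∧
      ContinuousMap.HomotopicWith f (ContinuousMap.id (↥D))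
        fun g => ∀ x : D, ‖(x : EuclideanSpace ℝ (Fin n))‖ = 1 →
          ‖(g x : EuclideanSpace ℝ (Fin n))‖ = 1})
    (m : MeasurableSpace G) (hm : m = borel G) :
    ∃ M N : Set G, M ∪ N = univ ∧ Disjoint M N ∧ IsMeagre M ∧ MeasurableSet N ∧
      ∃ μ : Measure G, IsProbabilityMeasure μ ∧ ∀ g h : G,
        μ {x : G | ∃ b ∈ N,
          (x : C(D, D)) = (g : C(D, D)).comp ((b : C(D, D)).comp (h : C(D, D)))} = 0 := by
  obtain ⟨k, rfl⟩ : ∃ k, n = k + 2 := ⟨n - 2, by omega⟩
  subst hD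
  have : CompactSpace (closedBall (0 : EuclideanSpace ℝ (Fin (k + 2))) 1) :=
    isCompact_iff_compactSpace.1 (isCompact_closedBall _ _)
  obtain ⟨ρ, hc, hmul, h1, h0⟩ := exists_rot k
  let R : C(Circle × closedBall (0 : EuclideanSpace ℝ (Fin (k + 2))) 1,
      closedBall (0 : EuclideanSpace ℝ (Fin (k + 2))) 1) :=
    ⟨fun p => ⟨ρ p.1 p.2, mem_closedBall_zero_iff.2 (((ρ _).norm_map _).le.trans
      (mem_closedBall_zero_iff.1 p.2.2))⟩, continuous_induced_rng.2
      (hc.comp (continuous_fst.prodMk (continuous_subtype_val.comp continuous_snd)))⟩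
  have hR : ∀ z w x, R.curry (z * w) x = R.curry z (R.curry w x) := fun z w x =>
    Subtype.ext (hmul z w x)
  have hR1 : ∀ x, R.curry 1 x = x := fun x => Subtype.ext (h1 x)
  refine haar_dec G (fun f hf => (hG ▸ hf).1) R.curry R.curry.continuous hR hR1 (fun z => ?_)
    (fun h hh => ?_) m hm
  · rw [hG]
    refine ⟨Function.bijective_iff_has_inverse.2 ⟨R.curry z⁻¹, fun x => ?_, fun x => ?_⟩, ?_⟩
    · rw [← hR, inv_mul_cancel, hR1]
    · rw [← hR, mul_inv_cancel, hR1]
    · obtain ⟨θ, rfl⟩ := Circle.exp_surjective z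
      exact ⟨⟨⟨⟨fun p => R (Circle.exp ((1 - p.1) * θ), p.2), by fun_prop⟩,
        fun x => by simp, fun x => by simpa using hR1 x⟩,
        fun t x hx => ((ρ _).norm_map _).trans hx⟩⟩
  · rw [hG] at hh
    obtain ⟨H⟩ := hh.2
    let ι : sphere (0 : EuclideanSpace ℝ (Fin (k + 2))) 1 →
      closedBall (0 : EuclideanSpace ℝ (Fin (k + 2))) 1 := inclusion sphere_subset_closedBall
    have hι : Continuous ι := continuous_inclusion _
    obtain ⟨x, y, e1, e2⟩ := newman_rot ρ hmul h1 h0 (fun p => H (p.1, ι p.2)) (by fun_prop)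
      (fun p => H.prop p.1 (ι p.2) (by simp [ι])) fun x => by simp [ι]
    refine ⟨ι x, ?_⟩
    rw [show R.curry (-1) (ι x) = ι y from Subtype.ext e1.symm]
    simpa [Subtype.dist_eq] using e2

end Pool.Agent.H14Deg
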