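import Mathlib

set_option autoImplicit false

namespace Pool.Agent.Lib.H14Hausd

open Filter Topology MeasureTheory Set Real
open scoped ENNReal Nat

/-- The completed graph: the points between the lower and upper limits of `f` at `x`
(the value at `x` itself is included). -/
def graph (f : ℝ → ℝ) : Set (ℝ × ℝ) :=
  {A | liminf f (𝓝 A.1) ≤ A.2 ∧ A.2 ≤ limsup f (𝓝 A.1)}

/-- The metric with parameter `α` on the plane. -/
noncomputable def rho (α : ℝ) (A B : ℝ × ℝ) : ℝ := max (α⁻¹ * |A.1 - B.1|) |A.2 - B.2|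

/-- The Hausdorff distance with parameter `α` of the completed graphs. -/
noncomputable def hd (α : ℝ) (f g : ℝ → ℝ) : ℝ≥0∞ :=
  max (⨆ A ∈ graph f, ⨅ B ∈ graph g, ENNReal.ofReal (rho α A B))
    (⨆ A ∈ graph g, ⨅ B ∈ graph f, ENNReal.ofReal (rho α A B))

/-- `f` is bounded and Lebesgue measurable. -/
def Adm (f : ℝ → ℝ) : Prop := AEMeasurable f volume ∧ ∃ M, ∀ x, |f x| ≤ M

/-- The Gauss–Weierstrass operator. -/
noncomputable def opW (n : ℕ) (f : ℝ → ℝ) (x : ℝ) : ℝ :=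
  √(n / π) * ∫ s, f (x + s) * exp (-n * s ^ 2)

/-- The Abel–Poisson operator. -/
noncomputable def opP (ρ : ℝ) (f : ℝ → ℝ) (x : ℝ) : ℝ :=
  1 / (2 * π) * ∫ s in (-π)..π, f (x + s) * ((1 - ρ ^ 2) / (1 + ρ ^ 2 - 2 * ρ * cos s))

/-- The de la Vallée-Poussin operator. -/
noncomputable def opV (n : ℕ) (f : ℝ → ℝ) (x : ℝ) : ℝ :=
  (n ! : ℝ) ^ 2 / (2 * n)! * (1 / (2 * π)) *
    ∫ s in (-π)..π, f (x + s) * (2 * cos (s / 2)) ^ (2 * n)

theorem int_mul {u K : ℝ → ℝ} {B : ℝ} (hu : AEMeasurable u volume) (hB : ∀ x, |u x| ≤ B)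
    (hK : Integrable K) (x : ℝ) : Integrable fun s => u (x + s) * K s :=
  hK.bdd_mul (c := B) (hu.comp_quasiMeasurePreserving
    (measurePreserving_add_left volume x).quasiMeasurePreserving).aestronglyMeasurable
    (Eventually.of_forall fun _ => hB _)

theorem half {u K H : ℝ → ℝ} {B c e C δ η x₀ x₁ : ℝ} (hu : AEMeasurable u volume)
    (hB : ∀ x, |u x| ≤ B) (hK : Integrable K) (hH : Integrable H) (K0 : ∀ s, 0 ≤ K s)
    (H0 : ∀ s, 0 ≤ H s) (hη : 0 ≤ η) (hx : |x₁ - x₀| ≤ C * e) (he : 0 < e) (hδ : (C + 1) * e < δ)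
    (hp : ∀ t, |t - x₀| < 2 * δ → 0 ≤ u t) (h1 : ∀ s, |s| ≤ (C + 1) * e → c ≤ e * K s)
    (h2 : ∀ s, δ ≤ |s| → K s ≤ η * H s) :
    c * ∫ t in Icc x₀ (x₀ + e), u t ≤ e * ((∫ s, u (x₁ + s) * K s) + B * η * ∫ s, H s) := by
  have hi : Integrable ((Icc x₀ (x₀ + e)).indicator u) :=
    (integrable_indicator_iff measurableSet_Icc).2 (Measure.integrableOn_of_bounded
      (M := B) measure_Icc_lt_top.ne hu.aestronglyMeasurable (Eventually.of_forall hB))
  have hB0 : 0 ≤ B := (abs_nonneg _).trans (hB 0)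
  rw [← integral_indicator measurableSet_Icc, ← integral_add_left_eq_self _ x₁,
    ← integral_const_mul, ← integral_const_mul, ← integral_add (int_mul hu hB hK _)
      (hH.const_mul _), ← integral_const_mul]
  refine integral_mono ((hi.comp_add_left x₁).const_mul _)
    (((int_mul hu hB hK _).add (hH.const_mul _)).const_mul _) fun s => ?_
  rw [abs_le] at hx
  have h3 := mul_nonneg (mul_nonneg hB0 hη) (H0 s)
  have h4 := K0 s
  by_cases hs : x₁ + s ∈ Icc x₀ (x₀ + e)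
  · have h5 := h1 s (abs_le.2 ⟨by linarith [hs.1], by linarith [hs.2]⟩)
    have h6 := hp (x₁ + s) (abs_lt.2 ⟨by linarith [hs.1], by linarith [hs.2]⟩)
    simp only [indicator_of_mem hs]
    nlinarith [mul_le_mul_of_nonneg_right h5 h6, mul_nonneg he.le h3]
  · simp only [indicator_of_notMem hs, mul_zero]
    refine mul_nonneg he.le ?_
    rcases le_or_gt δ |s| with h | h
    · nlinarith [mul_le_mul_of_nonneg_left (h2 s h) hB0,
        mul_le_mul_of_nonneg_right (abs_le.1 (hB (x₁ + s))).1 h4]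
    · rw [abs_lt] at h
      exact add_nonneg (mul_nonneg (hp _ (abs_lt.2 ⟨by linarith, by linarith⟩)) h4) h3

theorem core {ι : Type} {l : Filter ι} [l.NeBot] {α κ : ℝ} (hα : 0 < α) (hκ : 0 < κ) {f : ℝ → ℝ}
    (hf : Adm f) (w : ι → ℝ) (K g : ι → ℝ → ℝ) (H : ℝ → ℝ) (hH : Integrable H) (H0 : ∀ s, 0 ≤ H s)
    (hw : Tendsto w l atTop)
    (hK : ∀ᶠ i in l, (∀ s, 0 ≤ K i s) ∧ Integrable (K i) ∧ ∫ s, K i s = 1)
    (hg : ∀ i x, g i x = ∫ s, f (x + s) * K i s)
    (h1 : ∀ C > 0, ∃ c > 0, ∀ᶠ i in l, ∀ s, |s| ≤ C * (w i)⁻¹ → c ≤ (w i)⁻¹ * K i s)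
    (h2 : ∀ δ > 0, ∀ η > 0, ∀ᶠ i in l, ∀ s, δ ≤ |s| → K i s ≤ η * H s)
    (h : limsup (fun i => ENNReal.ofReal (κ * w i) * hd α f (g i)) l < ⊤) : Continuous f := by
  obtain ⟨hm, M, hM⟩ := hf
  obtain ⟨D, hD0, hD, -⟩ := ENNReal.lt_iff_exists_real_btwn.1 h
  have bd : ∀ {u : ℝ → ℝ} (x : ℝ), (∀ t, |u t| ≤ M) → IsBoundedUnder (· ≤ ·) (𝓝 x) u ∧
      IsBoundedUnder (· ≥ ·) (𝓝 x) u := fun x hu =>
    ⟨isBoundedUnder_of ⟨M, fun t => (abs_le.1 (hu t)).2⟩,
      isBoundedUnder_of ⟨-M, fun t => (abs_le.1 (hu t)).1⟩⟩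
  refine continuous_iff_continuousAt.2 fun x₀ => ?_
  obtain ⟨b1, b2⟩ := bd x₀ hM
  set U := limsup f (𝓝 x₀)
  set L := liminf f (𝓝 x₀)
  have hLU : L ≤ U := liminf_le_limsup b1 b2
  suffices hh : U ≤ L by
    have := tendsto_of_liminf_eq_limsup rfl (le_antisymm hh hLU) b1 b2
    rwa [ContinuousAt, tendsto_nhds_unique (tendsto_pure_nhds f x₀)
      (this.mono_left (pure_le_nhds x₀))]
  by_contra hc
  have hUL : 0 < U - L := sub_pos.2 (not_le.1 hc)
  set C := (α + 1) * (D / κ) + 1 with hC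
  have hC0 : 0 < C := by positivity
  obtain ⟨c, hc0, h1⟩ := h1 (C + 1) (by positivity)
  set η := c * (U - L) / 8 with hη
  have hη0 : 0 < η := by positivity
  obtain ⟨δ, hδ, hball⟩ := Metric.eventually_nhds_iff.1
    ((eventually_lt_of_limsup_lt (show U < U + η by linarith) b1).and
      (eventually_lt_of_lt_liminf (show L - η < L by linarith) b2))
  set B := M + |U| + |L| + η with hB
  have hM0 : 0 ≤ M := (abs_nonneg _).trans (hM 0)
  have hI : 0 ≤ ∫ s, H s := integral_nonneg H0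
  have he0 : Tendsto (fun i => (w i)⁻¹) l (𝓝 0) := hw.inv_tendsto_atTop
  obtain ⟨i, ⟨K0, Ki, K1⟩, i1, i2, i3, i4, i5, i6⟩ := (hK.and (h1.and
    ((h2 (δ / 2) (by positivity) (η / (B * (∫ s, H s) + 1)) (by positivity)).and
    ((eventually_lt_of_limsup_lt hD).and ((hw.eventually_gt_atTop 0).and
    (((he0.const_mul (C + 1)).eventually (gt_mem_nhds (show (C + 1) * 0 < δ / 2 by linarith))).and
    ((he0.const_mul C).eventually (gt_mem_nhds (show C * 0 < η by linarith))))))))).exists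
  set e := (w i)⁻¹ with he
  have he0 : 0 < e := inv_pos.2 i4
  have gb : ∀ x, |g i x| ≤ M := fun x => by
    rw [hg, ← mul_one M, ← K1, ← integral_const_mul, ← Real.norm_eq_abs]
    refine norm_integral_le_of_norm_le (Ki.const_mul M) (Eventually.of_forall fun s => ?_)
    rw [norm_mul, Real.norm_of_nonneg (K0 s)]
    exact mul_le_mul_of_nonneg_right (hM _) (K0 s)
  have near : ∀ y, L ≤ y → y ≤ U → ∃ Q ∈ graph (g i),
      |x₀ - Q.1| ≤ α * (D / κ * e) ∧ |y - Q.2| ≤ D / κ * e := fun y y1 y2 => by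
    have : hd α f (g i) < ENNReal.ofReal (D / κ * e) := by
      refine lt_of_not_ge fun h => i3.not_ge (le_trans (le_of_eq ?_) (mul_le_mul_right h _))
      rw [← ENNReal.ofReal_mul (by positivity), he]
      congr 1
      field_simp
    obtain ⟨Q, hQ⟩ := iInf_lt_iff.1 ((le_iSup₂ (f := fun A (_ : A ∈ graph f) =>
      ⨅ B ∈ graph (g i), ENNReal.ofReal (rho α A B)) (x₀, y) ⟨y1, y2⟩).trans_lt
      ((le_max_left _ _).trans_lt this))
    obtain ⟨hQ, hQ'⟩ := iInf_lt_iff.1 hQ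
    have := max_le_iff.1 ((ENNReal.ofReal_lt_ofReal_iff'.1 hQ').1.le)
    exact ⟨Q, hQ, (inv_mul_le_iff₀ hα).1 this.1, this.2⟩
  have hDe : 0 ≤ D / κ * e := by positivity
  have hCe : C * e = α * (D / κ * e) + D / κ * e + e := by rw [hC]; ring
  have hαe : 0 ≤ α * (D / κ * e) := by positivity
  obtain ⟨Q, hQ, q1, q2⟩ := near U hLU le_rfl
  obtain ⟨R, hR, r1, r2⟩ := near L le_rfl hLU
  obtain ⟨x₁, a1, a2⟩ := ((frequently_lt_of_lt_limsup (bd Q.1 gb).2.isCoboundedUnder_le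
    (show Q.2 - e < _ from (sub_lt_self _ he0).trans_le hQ.2)).and_eventually
    (Metric.ball_mem_nhds Q.1 he0)).exists
  obtain ⟨x₂, c1, c2⟩ := ((frequently_lt_of_liminf_lt (bd R.1 gb).1.isCoboundedUnder_ge
    (show _ < R.2 + e from hR.1.trans_lt (lt_add_of_pos_right _ he0))).and_eventually
    (Metric.ball_mem_nhds R.1 he0)).exists
  rw [Real.dist_eq, abs_lt] at a2 c2
  rw [abs_le] at q1 q2 r1 r2
  have hU := abs_le.1 (le_refl |U|)
  have hL := abs_le.1 (le_refl |L|)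
  have k1 := half (u := fun t => U + η - f t) (B := B) (x₀ := x₀) (x₁ := x₁) (hm.const_sub _)
    (fun t => abs_le.2 ⟨by linarith [abs_le.1 (hM t)], by linarith [abs_le.1 (hM t)]⟩) Ki hH K0 H0
    (by positivity) (abs_le.2 ⟨by linarith, by linarith⟩) he0 i5
    (fun t ht => sub_nonneg.2 (hball (by rw [Real.dist_eq]; linarith)).1.le) i1 i2
  have k2 := half (u := fun t => f t - (L - η)) (B := B) (x₀ := x₀) (x₁ := x₂) (hm.sub_const _)
    (fun t => abs_le.2 ⟨by linarith [abs_le.1 (hM t)], by linarith [abs_le.1 (hM t)]⟩) Ki hH K0 H0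
    (by positivity) (abs_le.2 ⟨by linarith, by linarith⟩) he0 i5
    (fun t ht => sub_nonneg.2 (hball (by rw [Real.dist_eq]; linarith)).2.le) i1 i2
  have fi : IntegrableOn f (Icc x₀ (x₀ + e)) := Measure.integrableOn_of_bounded
    (M := M) measure_Icc_lt_top.ne hm.aestronglyMeasurable (Eventually.of_forall hM)
  have ci : ∀ a : ℝ, IntegrableOn (fun _ : ℝ => a) (Icc x₀ (x₀ + e)) := fun a =>
    continuous_const.integrableOn_Icc
  simp only [sub_mul (U + η)] at k1
  simp only [sub_mul _ (L - η)] at k2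
  rw [integral_sub (ci _) fi, integral_sub (Ki.const_mul _) (int_mul hm hM Ki _),
    integral_const_mul, K1, ← hg] at k1
  rw [integral_sub fi (ci _), integral_sub (int_mul hm hM Ki _) (Ki.const_mul _),
    integral_const_mul, K1, ← hg] at k2
  simp only [integral_const, MeasurableSet.univ, measureReal_restrict_apply, univ_inter,
    volume_real_Icc, add_sub_cancel_left, max_eq_left he0.le, smul_eq_mul] at k1 k2
  have k3 : B * (η / (B * (∫ s, H s) + 1)) * ∫ s, H s ≤ η := by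
    rw [mul_right_comm, ← mul_div_assoc, div_le_iff₀ (by positivity)]
    nlinarith
  have k5 : (U + η) * 1 - g i x₁ + (g i x₂ - (L - η) * 1) ≤ 4 * η := by linarith
  have k4 : e * (c * (U - L + 2 * η)) ≤ e * (6 * η) := by
    linarith [mul_le_mul_of_nonneg_left k5 he0.le, mul_le_mul_of_nonneg_left k3 he0.le]
  have := le_of_mul_le_mul_left k4 he0
  nlinarith [mul_pos hc0 hη0]

theorem sqrt_top : Tendsto (fun n : ℕ => √n) atTop atTop :=
  tendsto_sqrt_atTop.comp tendsto_natCast_atTop_atTop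

theorem contW {α κ : ℝ} (hα : 0 < α) (hκ : 0 < κ) {f : ℝ → ℝ} (hf : Adm f)
    (h : limsup (fun n : ℕ => ENNReal.ofReal (κ * √n) * hd α f (opW n f)) atTop < ⊤) :
    Continuous f := by
  have hp := pi_pos
  refine core hα hκ hf (fun n : ℕ => √n) (fun n s => √(n / π) * exp (-n * s ^ 2)) _ (fun s => exp (-1 * s ^ 2))
    (integrable_exp_neg_mul_sq one_pos) (fun _ => (exp_pos _).le) sqrt_top ?_ (fun n x => ?_)
    (fun C hC => ⟨exp (-C ^ 2) / √π, by positivity, ?_⟩) (fun δ hδ η hη => ?_) h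
  · filter_upwards [eventually_gt_atTop 0] with n hn
    have hn : (0 : ℝ) < n := by exact_mod_cast hn
    refine ⟨fun s => by positivity, (integrable_exp_neg_mul_sq hn).const_mul _, ?_⟩
    rw [integral_const_mul, integral_gaussian, ← sqrt_mul (by positivity), sqrt_eq_one]
    field_simp
  · rw [opW, ← integral_const_mul]
    simp only [mul_left_comm]
  · filter_upwards [eventually_gt_atTop 0] with n hn s hs
    have hn : (0 : ℝ) < n := by exact_mod_cast hn
    have h1 : 0 < √n := sqrt_pos.2 hn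
    rw [sqrt_div hn.le, ← mul_assoc, ← mul_div_assoc, inv_mul_cancel₀ h1.ne', one_div_mul_eq_div]
    gcongr
    rw [← div_eq_mul_inv, le_div_iff₀ h1] at hs
    have := pow_le_pow_left₀ (by positivity) hs 2
    rw [mul_pow, sq_abs, sq_sqrt hn.le] at this
    linarith
  · have := ((tendsto_rpow_mul_exp_neg_mul_atTop_nhds_zero (1 / 2) _ (pow_pos hδ 2)).comp
      tendsto_natCast_atTop_atTop).mul_const (exp (δ ^ 2))
    rw [zero_mul] at this
    filter_upwards [this.eventually (gt_mem_nhds hη), eventually_ge_atTop 1] with n hn h1 s hs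
    have h1 : (1 : ℝ) ≤ n := by exact_mod_cast h1
    refine le_trans ?_ (mul_le_mul_of_nonneg_right hn.le (exp_pos _).le)
    simp only [Function.comp, ← sqrt_eq_rpow, mul_assoc, ← exp_add]
    have h2 := pow_le_pow_left₀ hδ.le hs 2
    rw [sq_abs] at h2
    refine mul_le_mul (sqrt_le_sqrt (div_le_self (by positivity) (by linarith [two_le_pi])))
      (exp_le_exp.2 (by nlinarith)) (exp_pos _).le (sqrt_nonneg _)

theorem cos_tail {δ s : ℝ} (hδ : 0 < δ) (h1 : δ ≤ |s|) (h2 : s ∈ Ioc (-π) π) :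
    cos s ≤ cos (min δ π) := by
  rw [← cos_abs]
  exact cos_le_cos_of_nonneg_of_le_pi (le_min hδ.le pi_pos.le) (abs_le.2 ⟨h2.1.le, h2.2⟩)
    ((min_le_left _ _).trans h1)

theorem cos_lt {δ : ℝ} (hδ : 0 < δ) : cos (min δ π) < 1 := by
  rw [← cos_zero]
  exact cos_lt_cos_of_nonneg_of_le_pi le_rfl (min_le_right _ _) (lt_min hδ pi_pos)

theorem core' {ι : Type} {l : Filter ι} [l.NeBot] {α κ : ℝ} (hα : 0 < α) (hκ : 0 < κ) {f : ℝ → ℝ}
    (hf : Adm f) (w : ι → ℝ) (K g : ι → ℝ → ℝ) (hw : Tendsto w l atTop)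
    (hK : ∀ᶠ i in l, (∀ s, 0 ≤ K i s) ∧ Continuous (K i) ∧ ∫ s in (-π)..π, K i s = 1)
    (hg : ∀ i x, g i x = ∫ s in (-π)..π, f (x + s) * K i s)
    (h1 : ∀ C > 0, ∃ c > 0, ∀ᶠ i in l, ∀ s, |s| ≤ C * (w i)⁻¹ → c ≤ (w i)⁻¹ * K i s)
    (h2 : ∀ δ > 0, ∀ η > 0, ∀ᶠ i in l, ∀ s, cos s ≤ cos (min δ π) → K i s ≤ η)
    (h : limsup (fun i => ENNReal.ofReal (κ * w i) * hd α f (g i)) l < ⊤) : Continuous f := by
  have hp := pi_pos
  have hle : -π ≤ π := by linarith
  refine core hα hκ hf w (fun i => (Ioc (-π) π).indicator (K i)) g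
    ((Ioc (-π) π).indicator fun _ => 1) ((integrable_indicator_iff measurableSet_Ioc).2
      (continuous_const.integrableOn_Ioc)) (fun _ => indicator_nonneg (fun _ _ => zero_le_one) _)
    hw ?_ (fun i x => ?_) (fun C hC => ?_) (fun δ hδ η hη => ?_) h
  · filter_upwards [hK] with i ⟨a, b, c⟩
    refine ⟨fun _ => indicator_nonneg (fun s _ => a s) _,
      (integrable_indicator_iff measurableSet_Ioc).2 b.integrableOn_Ioc, ?_⟩
    rw [integral_indicator measurableSet_Ioc, ← intervalIntegral.integral_of_le hle, c]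
  · rw [hg, intervalIntegral.integral_of_le hle, ← integral_indicator measurableSet_Ioc]
    simp only [indicator_mul_right]
  · obtain ⟨c, hc, h1⟩ := h1 C hC
    refine ⟨c, hc, ?_⟩
    filter_upwards [h1, (hw.inv_tendsto_atTop.const_mul C).eventually
      (gt_mem_nhds (show C * 0 < π by linarith))] with i a b s hs
    have := abs_lt.1 (hs.trans_lt b)
    rw [indicator_of_mem (show s ∈ Ioc (-π) π from ⟨this.1, this.2.le⟩)]
    exact a s hs
  · filter_upwards [h2 δ hδ η hη] with i a s hs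
    by_cases hm : s ∈ Ioc (-π) π
    · simpa [hm] using a s (cos_tail hδ hs hm)
    · simp [hm]

theorem contP {α κ : ℝ} (hα : 0 < α) (hκ : 0 < κ) {f : ℝ → ℝ} (hf : Adm f)
    (h : limsup (fun ρ : ℝ => ENNReal.ofReal (κ * (1 - ρ)⁻¹) * hd α f (opP ρ f)) (𝓝[<] 1) < ⊤) :
    Continuous f := by
  have hp := pi_pos
  have ev : ∀ᶠ ρ : ℝ in 𝓝[<] 1, ρ ∈ Ioo (1 / 2 : ℝ) 1 := Ioo_mem_nhdsLT (by norm_num)
  have den : ∀ ρ ∈ Ioo (1 / 2 : ℝ) 1, ∀ s, 0 < 1 + ρ ^ 2 - 2 * ρ * cos s := fun ρ h s => by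
    nlinarith [cos_le_one s, h.1, h.2, sq_pos_of_pos (sub_pos.2 h.2)]
  have t0 : Tendsto (fun ρ : ℝ => 1 - ρ) (𝓝[<] 1) (𝓝 0) := by
    have : Tendsto (fun ρ : ℝ => 1 - ρ) (𝓝 1) (𝓝 (1 - 1)) := tendsto_const_nhds.sub tendsto_id
    rw [sub_self] at this
    exact this.mono_left nhdsWithin_le_nhds
  refine core' hα hκ hf (fun ρ => (1 - ρ)⁻¹)
    (fun ρ s => 1 / (2 * π) * ((1 - ρ ^ 2) / (1 + ρ ^ 2 - 2 * ρ * cos s))) _
    (tendsto_inv_nhdsGT_zero.comp (tendsto_nhdsWithin_iff.2 ⟨t0, ev.mono fun ρ h =>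
      sub_pos.2 h.2⟩)) ?_ (fun n x => ?_)
    (fun C hC => ⟨1 / (2 * π) * (1 / (1 + C ^ 2)), by positivity, ?_⟩) (fun δ hδ η hη => ?_) h
  · filter_upwards [ev] with ρ hρ
    have h1 : 0 < 1 - ρ ^ 2 := by nlinarith [hρ.1, hρ.2]
    have hc : Continuous fun s => (1 - ρ ^ 2) / (1 + ρ ^ 2 - 2 * ρ * cos s) :=
      continuous_const.div (by fun_prop) fun s => (den ρ hρ s).ne'
    refine ⟨fun s => by have := den ρ hρ s; positivity, hc.const_mul _, ?_⟩
    rw [intervalIntegral.integral_const_mul, intervalIntegral.integral_eq_sub_of_hasDerivAt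
      (f := fun s => s + 2 * arctan (ρ * sin s / (1 - ρ * cos s))) (fun s _ => ?_)
      (hc.intervalIntegrable _ _)]
    · simp only [sin_pi, sin_neg, neg_zero, mul_zero, zero_div, arctan_zero]
      field_simp
      ring
    · have h2 : 1 - ρ * cos s ≠ 0 := by nlinarith [cos_le_one s, hρ.1, hρ.2]
      have h3 := (den ρ hρ s).ne'
      have h4 := sin_sq_add_cos_sq s
      convert (hasDerivAt_id' s).add ((((hasDerivAt_sin s).const_mul ρ).div
        (((hasDerivAt_cos s).const_mul ρ).const_sub 1) h2).arctan.const_mul 2) using 1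
      · rfl
      have h5 : 1 + (ρ * sin s / (1 - ρ * cos s)) ^ 2 =
          (1 + ρ ^ 2 - 2 * ρ * cos s) / (1 - ρ * cos s) ^ 2 := by
        field_simp
        linear_combination ρ ^ 2 * h4
      simp only [Pi.div_apply, h5]
      rw [one_div_div, div_mul_div_comm, mul_comm ((1 - ρ * cos s) ^ 2),
        mul_div_mul_right _ _ (pow_ne_zero 2 h2), ← mul_div_assoc, one_add_div h3]
      congr 1
      linear_combination (2 * ρ ^ 2) * h4
  · rw [opP, ← intervalIntegral.integral_const_mul]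
    simp only [mul_left_comm]
  · filter_upwards [ev] with ρ hρ s hs
    rw [inv_inv] at hs ⊢
    rw [mul_left_comm (1 - ρ), ← mul_div_assoc (1 - ρ)]
    refine mul_le_mul_of_nonneg_left ?_ (by positivity)
    rw [div_le_div_iff₀ (show 0 < 1 + C ^ 2 by positivity) (den ρ hρ s)]
    have h1 := pow_le_pow_left₀ (abs_nonneg _) hs 2
    rw [sq_abs, mul_pow] at h1
    have h2 := one_sub_sq_div_two_le_cos (x := s)
    have h3 : 0 ≤ (1 - ρ) ^ 2 * (1 + C ^ 2) * ρ := by have := hρ.1; positivity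
    nlinarith [mul_nonneg (sub_nonneg.2 hρ.2.le) (sub_nonneg.2 (cos_le_one s))]
  · have h0 := sub_pos.2 (cos_lt hδ)
    filter_upwards [ev, t0.eventually (gt_mem_nhds (mul_pos hη h0))] with ρ hρ h1 s hs
    rw [one_div_mul_eq_div, div_le_iff₀ (by positivity), div_le_iff₀ (den ρ hρ s)]
    have h2 : 1 - cos (min δ π) ≤ 1 + ρ ^ 2 - 2 * ρ * cos s := by
      nlinarith [cos_le_one s, hρ.1, sq_nonneg (1 - ρ)]
    have h3 := mul_le_mul_of_nonneg_left h2 hη.le
    have h4 := mul_pos hη (den ρ hρ s)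
    nlinarith [two_le_pi, sq_nonneg (1 - ρ)]

/-- The Wallis product. -/
noncomputable def wal (n : ℕ) : ℝ := ∏ i ∈ Finset.range n, (2 * (i : ℝ) + 1) / (2 * i + 2)

theorem wal_spec (n : ℕ) : 0 < wal n ∧ wal n ^ 2 * (2 * n + 1) ≤ 1 ∧ 1 ≤ wal n * (2 * n + 1) ∧
    (n ! : ℝ) ^ 2 / (2 * n)! * 2 ^ (2 * n) * wal n = 1 := by
  induction n with
  | zero => simp [wal]
  | succ n ih =>
    obtain ⟨a, b, c, d⟩ := ih
    have e : wal (n + 1) = wal n * ((2 * n + 1) / (2 * n + 2)) := Finset.prod_range_succ _ _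
    have hn : (0 : ℝ) ≤ n := n.cast_nonneg
    rw [e]
    refine ⟨by positivity, le_trans ?_ b, c.trans ?_, ?_⟩
    · rw [mul_pow, mul_assoc]
      refine mul_le_mul_of_nonneg_left ?_ (by positivity)
      rw [div_pow, div_mul_eq_mul_div, div_le_iff₀ (by positivity)]
      push_cast
      nlinarith
    · rw [mul_assoc]
      refine mul_le_mul_of_nonneg_left ?_ a.le
      rw [div_mul_eq_mul_div, le_div_iff₀ (by positivity)]
      push_cast
      nlinarith
    · refine Eq.trans ?_ d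
      rw [mul_add, mul_one, Nat.factorial_succ, Nat.factorial_succ (2 * n + 1),
        Nat.factorial_succ (2 * n)]
      push_cast
      field_simp
      ring

theorem contV {α κ : ℝ} (hα : 0 < α) (hκ : 0 < κ) {f : ℝ → ℝ} (hf : Adm f)
    (h : limsup (fun n : ℕ => ENNReal.ofReal (κ * √n) * hd α f (opV n f)) atTop < ⊤) :
    Continuous f := by
  have hp := pi_pos
  refine core' hα hκ hf (fun n : ℕ => √n)
    (fun n s => 1 / (2 * π) / wal n * (cos (s / 2) ^ 2) ^ n) _
    sqrt_top (Eventually.of_forall fun n => ?_) (fun n x => ?_)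
    (fun C hC => ⟨1 / (2 * π) * (exp (-C ^ 2) / 2), by positivity, ?_⟩) (fun δ hδ η hη => ?_) h
  · have := (wal_spec n).1
    refine ⟨fun s => by positivity, by fun_prop, ?_⟩
    have h1 := intervalIntegral.integral_comp_div_add (a := -π) (b := π)
      (fun x => sin x ^ (2 * n)) two_ne_zero (π / 2)
    simp only [sin_add_pi_div_two] at h1
    rw [show -π / 2 + π / 2 = 0 by ring, add_halves, integral_sin_pow_even] at h1
    simp only [← pow_mul]
    rw [intervalIntegral.integral_const_mul, h1, smul_eq_mul, ← wal]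
    field_simp
  · obtain ⟨a, -, -, d⟩ := wal_spec n
    rw [opV, ← intervalIntegral.integral_const_mul]
    refine intervalIntegral.integral_congr fun s _ => ?_
    simp only [mul_pow, ← pow_mul]
    rw [div_eq_mul_inv _ (wal n), ← eq_inv_of_mul_eq_one_left d]
    ring
  · have h1 := (tendsto_one_add_div_pow_exp (-C ^ 2)).eventually
      (lt_mem_nhds (half_lt_self (exp_pos _)))
    filter_upwards [h1, eventually_gt_atTop 0, tendsto_natCast_atTop_atTop.eventually_ge_atTop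
      (C ^ 2)] with n h1 hn h2 s hs
    have hn : (0 : ℝ) < n := by exact_mod_cast hn
    have h3 : 0 < √n := sqrt_pos.2 hn
    obtain ⟨a, b, -⟩ := wal_spec n
    have h4 : √n * wal n ≤ 1 := by
      refine (sq_le_one_iff₀ (by positivity)).1 ?_
      rw [mul_pow, sq_sqrt hn.le]
      nlinarith [sq_nonneg (wal n)]
    have h5 := pow_le_pow_left₀ (abs_nonneg _) hs 2
    rw [sq_abs, mul_pow, inv_pow, sq_sqrt hn.le, ← div_eq_mul_inv] at h5
    have h6 : (1 + -C ^ 2 / n) ^ n ≤ (cos (s / 2) ^ 2) ^ n := by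
      refine pow_le_pow_left₀ ?_ ?_ n
      · rw [neg_div, ← sub_eq_add_neg, sub_nonneg, div_le_one hn]
        exact h2
      · rw [neg_div, cos_sq']
        nlinarith [sin_sq_le_sq (x := s / 2), sq_nonneg s]
    rw [← mul_assoc, show (√n)⁻¹ * (1 / (2 * π) / wal n) = 1 / (2 * π) * (1 / (√n * wal n)) by
      field_simp, mul_assoc]
    refine mul_le_mul_of_nonneg_left ?_ (by positivity)
    exact (h1.le.trans h6).trans (le_mul_of_one_le_left (by positivity)
      (one_le_one_div (by positivity) h4))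
  · set q := (1 + cos (min δ π)) / 2 with hq
    have q0 : 0 ≤ q := by linarith [neg_one_le_cos (min δ π)]
    have q1 : q < 1 := by linarith [cos_lt hδ]
    have h1 := ((tendsto_self_mul_const_pow_of_lt_one q0 q1).const_mul 2).add
      (tendsto_pow_atTop_nhds_zero_of_lt_one q0 q1)
    rw [mul_zero, zero_add] at h1
    filter_upwards [h1.eventually (gt_mem_nhds hη)] with n h1 s hs
    obtain ⟨a, -, c, -⟩ := wal_spec n
    have h2 : (cos (s / 2) ^ 2) ^ n ≤ q ^ n :=
      pow_le_pow_left₀ (sq_nonneg _) (by rw [cos_sq, mul_div_cancel₀ s two_ne_zero]; linarith) n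
    have h3 : 1 / (2 * π) / wal n ≤ 2 * n + 1 := by
      rw [div_le_iff₀ a, mul_comm _ (wal n)]
      exact le_trans (div_le_one_of_le₀ (by linarith [two_le_pi]) (by positivity)) c
    have := mul_le_mul h3 h2 (by positivity) (by positivity)
    linarith

end Pool.Agent.Lib.H14Hausd
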