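import Mathlib

set_option autoImplicit false

namespace Pool.Agent.Lib.H14KDim

open Finset

/-- The `k`-dimension: the least `n` such that `P` order-embeds in the product of `n` chains with
`k` elements. -/
noncomputable def dimk (k : ℕ) (P : Type) [PartialOrder P] : ℕ :=
  sInf {n | Nonempty (P ↪o (Fin n → Fin k))}

/-- `Q` is `k`-irreducible: deleting any point lowers the `k`-dimension. -/
def Irr (k : ℕ) (Q : Type) [PartialOrder Q] : Prop :=
  ∀ x : Q, dimk k {y : Q // y ≠ x} < dimk k Q

theorem dim_le {k : ℕ} {P J : Type} [PartialOrder P] [Fintype J] (f : P → J → ℕ)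
    (hf : ∀ x j, f x j < k) (h : ∀ x y, f x ≤ f y ↔ x ≤ y) :
    Nonempty (P ↪o (Fin (Fintype.card J) → Fin k)) :=
  ⟨OrderEmbedding.ofMapLEIff (fun x i => ⟨f x ((Fintype.equivFin J).symm i), hf _ _⟩) fun x y => by
    rw [← h]
    exact ⟨fun H j => by simpa using H (Fintype.equivFin J j), fun H i => H _⟩⟩

theorem dim_spec {k : ℕ} (hk : 2 ≤ k) (P : Type) [PartialOrder P] [Finite P] :
    Nonempty (P ↪o (Fin (dimk k P) → Fin k)) := by
  classical
  have := Fintype.ofFinite P
  refine Nat.sInf_mem (s := {n | Nonempty (P ↪o (Fin n → Fin k))}) ⟨_, dim_le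
    (fun x y : P => if y ≤ x then 1 else 0) (fun x j => by split_ifs <;> omega) fun x y =>
      ⟨fun H => ?_, fun H j => ?_⟩⟩
  · have := H x
    by_contra h
    simp [h] at this
  · by_cases h : j ≤ x <;> simp [h, fun h : j ≤ x => h.trans H]

theorem dim_mono {k : ℕ} (hk : 2 ≤ k) {P Q : Type} [PartialOrder P] [PartialOrder Q] [Finite Q]
    (e : P ↪o Q) : dimk k P ≤ dimk k Q :=
  Nat.sInf_le ⟨e.trans (dim_spec hk Q).some⟩

theorem clique {k n : ℕ} {P I : Type} [PartialOrder P] [Fintype I] (f : P ↪o (Fin n → Fin k))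
    (x y : I → P) (h1 : ∀ i, ¬ x i ≤ y i) (h2 : ∀ i j, i ≠ j → x i ≤ y j ∨ x j ≤ y i) :
    Fintype.card I ≤ n * (k - 1) := by
  have : ∀ i, ∃ c, f (y i) c < f (x i) c := fun i => by
    by_contra hc
    push Not at hc
    exact h1 i (f.le_iff_le.1 hc)
  choose c hc using this
  have := Fintype.card_le_of_injective (fun i => ((c i, ⟨f (y i) (c i), by
    have := hc i; have := (f (x i) (c i)).2; rw [Fin.lt_def] at *; omega⟩) : Fin n × Fin (k - 1)))
    fun i j e => by
      by_contra hij
      simp only [Prod.mk.injEq, Fin.mk.injEq] at e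
      have h3 := hc i
      have h4 := hc j
      rw [← e.1] at h4
      have h5 := e.2
      rw [← e.1] at h5
      rcases h2 i j hij with h | h
      · have := f.monotone h (c i)
        rw [Fin.lt_def, Fin.le_def] at *
        omega
      · have := f.monotone h (c i)
        rw [Fin.lt_def, Fin.le_def] at *
        omega
  simpa using this

theorem chain {J : Type} [Fintype J] (K M : ℕ) : ∀ u : J → ℕ, (∀ j, u j ≤ K) →
    M ≤ ∑ j, (K - u j) → ∃ g : Fin (M + 1) → J → ℕ, g 0 = u ∧ StrictMono g ∧ ∀ i j, g i j ≤ K := by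
  classical
  induction M with
  | zero => exact fun u hu _ => ⟨fun _ => u, rfl, Subsingleton.strictMono (α := Fin 1) _,
      fun _ => hu⟩
  | succ M ih =>
    intro u hu hM
    obtain ⟨j, -, hj⟩ := exists_ne_zero_of_sum_ne_zero (s := univ) (f := fun j => K - u j)
      (by omega)
    obtain ⟨g, g0, g1, g2⟩ := ih (Function.update u j (u j + 1))
      (fun i => by
        by_cases h : i = j
        · subst h; simp; omega
        · simp [h, hu]) (by
        rw [← add_sum_erase _ _ (mem_univ j)] at hM ⊢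
        rw [sum_congr rfl (g := fun i => K - u i) fun i hi => by
          rw [Function.update_of_ne (ne_of_mem_erase hi)]]
        simp only [Function.update_self]
        omega)
    refine ⟨Fin.cons u g, rfl, Fin.strictMono_iff_lt_succ.2 fun i => ?_, fun i => ?_⟩
    · refine Fin.cases ?_ (fun i => ?_) i
      · simp [g0]
      · exact g1 (Fin.castSucc_lt_succ (i := i))
    · exact Fin.cases hu g2 i

theorem ext_emb {k M : ℕ} {T J : Type} [PartialOrder T] [Fintype J] (X : T → Prop)
    (φ : T → J → ℕ) (u : J → ℕ) (hu : ∀ j, u j ≤ k - 1) (hk : 2 ≤ k)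
    (h1 : ∀ x y, X x → X y → (φ x ≤ φ y ↔ x ≤ y)) (h2 : ∀ x, φ x < u)
    (hM : M ≤ ∑ j, (k - 1 - u j)) (S : Finset (T ⊕ₗ Fin (M + 1)))
    (hS : ∀ x, toLex (Sum.inl x) ∈ S → X x) : dimk k S ≤ Fintype.card J := by
  obtain ⟨g, g0, g1, g2⟩ := chain (k - 1) M u hu hM
  have h3 : ∀ x i, φ x < g i := fun x i => (h2 x).trans_le (g0 ▸ g1.monotone (Fin.zero_le i))
  refine Nat.sInf_le (dim_le (fun x => Sum.elim φ g (ofLex x.1)) ?_ ?_)
  · rintro ⟨x | i, hx⟩ j
    · have : φ x j ≤ u j := (h2 x).le j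
      have := hu j
      change φ x j < k
      omega
    · have := g2 i j
      change g i j < k
      omega
  · rintro ⟨x | i, hx⟩ ⟨y | j, hy⟩
    · exact (h1 x y (hS x hx) (hS y hy)).trans Sum.Lex.inl_le_inl_iff.symm
    · exact iff_of_true (h3 x j).le (Sum.Lex.inl_le_inr x j)
    · exact iff_of_false (h3 y i).not_ge Sum.Lex.not_inr_le_inl
    · exact g1.le_iff_le.trans Sum.Lex.inr_le_inr_iff.symm

/-- Three copies of `R`. -/
def Tri (R : Type) : Type := R ⊕ R ⊕ R

instance (R : Type) [Fintype R] : Fintype (Tri R) := instFintypeSum R (R ⊕ R)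

variable {R : Type} [PartialOrder R]

/-- The set representing a point of `Tri R`. -/
def mem : R ⊕ R ⊕ R → R × Bool → Prop
  | .inl p, (q, false) => q ≤ p
  | .inl _, (_, true) => False
  | .inr (.inl p), (q, false) => ¬ p ≤ q
  | .inr (.inl p), (q, true) => q = p
  | .inr (.inr _), (_, false) => True
  | .inr (.inr p), (q, true) => q ≠ p

theorem sep (h3 : ∀ a b : R, ∃ s, s ≠ a ∧ s ≠ b) (x y : R ⊕ R ⊕ R)
    (h : ∀ c, mem x c → (∀ p, c = (p, false) → x = .inl p) → mem y c) :
    (∀ c, mem x c → mem y c) ∧ ((∀ c, mem y c → mem x c) → x = y) := by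
  rcases x with p | p | p <;> rcases y with q | q | q
  · have := h (p, false) le_rfl (by simp)
    exact ⟨by rintro ⟨r, _ | _⟩ h; exacts [le_trans h this, h],
      fun H => congrArg _ (le_antisymm this (H (q, false) le_rfl))⟩
  · have := h (p, false) le_rfl (by simp)
    exact ⟨by rintro ⟨r, _ | _⟩ h; exacts [fun h' => this (le_trans h' h), h.elim],
      fun H => (H (q, true) rfl).elim⟩
  · obtain ⟨s, hs, -⟩ := h3 q q
    exact ⟨by rintro ⟨r, _ | _⟩ h; exacts [trivial, h.elim], fun H => (H (s, true) hs).elim⟩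
  · exact (h (p, true) rfl (by simp)).elim
  · obtain rfl : p = q := h (p, true) rfl (by simp)
    exact ⟨fun _ h => h, fun _ => rfl⟩
  · have : p ≠ q := h (p, true) rfl (by simp)
    obtain ⟨s, hs, hs'⟩ := h3 p q
    exact ⟨by rintro ⟨r, _ | _⟩ h; exacts [trivial, fun e => this (h.symm.trans e)],
      fun H => (hs (H (s, true) hs')).elim⟩
  · obtain ⟨s, hs, -⟩ := h3 p p
    exact (h (s, true) hs (by simp)).elim
  · obtain ⟨s, hs, hs'⟩ := h3 p q
    exact (hs' (h (s, true) hs (by simp))).elim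
  · obtain rfl : q = p := by
      by_contra e
      exact h (q, true) e (by simp) rfl
    exact ⟨fun _ h => h, fun _ => rfl⟩

theorem top (h3 : ∀ a b : R, ∃ s, s ≠ a ∧ s ≠ b) (x : R ⊕ R ⊕ R) : ∃ s, ¬ mem x (s, true) := by
  rcases x with p | p | p
  · exact ⟨p, id⟩
  · obtain ⟨s, hs, -⟩ := h3 p p
    exact ⟨s, hs⟩
  · exact ⟨p, fun h => h rfl⟩

/-- The inclusion order on `Tri R`. -/
@[reducible] def ord (h3 : ∀ a b : R, ∃ s, s ≠ a ∧ s ≠ b) : PartialOrder (Tri R) where
  le x y := ∀ c, mem x c → mem y c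
  le_refl _ _ h := h
  le_trans _ _ _ h h' c hc := h' c (h c hc)
  le_antisymm x y h h' := (sep h3 x y fun c hc _ => h c hc).2 h'

theorem main {k : ℕ} (hk : 2 ≤ k) [Fintype R] (h3 : ∀ a b : R, ∃ s, s ≠ a ∧ s ≠ b) :
    ∃ (Q : Type) (_ : PartialOrder Q) (_ : Fintype Q), Irr k Q ∧ Nonempty (R ↪o Q) ∧
      dimk k Q = 2 * Fintype.card R + 1 ∧ Fintype.card Q ≤ 2 * k * Fintype.card R + 2 := by
  classical
  let := ord h3
  obtain ⟨l, rfl⟩ : ∃ l, k = l + 2 := ⟨k - 2, by omega⟩
  set N := 2 * Fintype.card R with hN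
  let T := Tri R ⊕ₗ Fin (N * l + 1 + 1)
  have hU : N < dimk (l + 2) (univ : Finset T) := by
    have := clique (I := R ⊕ R ⊕ Fin (N * l + 1)) (dim_spec hk (univ : Finset T)).some
      (fun i => ⟨Sum.elim (fun p => toLex (.inl (.inl p))) (Sum.elim
        (fun p => toLex (.inl (.inr (.inl p)))) fun i => toLex (.inr i.succ)) i, mem_univ _⟩)
      (fun i => ⟨Sum.elim (fun p => toLex (.inl (.inr (.inl p)))) (Sum.elim
        (fun p => toLex (.inl (.inr (.inr p)))) fun i => toLex (.inr i.castSucc)) i, mem_univ _⟩)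
      (by
        rintro (p | p | i) h
        · exact Sum.Lex.inl_le_inl_iff.1 h (p, false) le_rfl le_rfl
        · exact Sum.Lex.inl_le_inl_iff.1 h (p, true) rfl rfl
        · exact (Fin.castSucc_lt_succ (i := i)).not_ge (Sum.Lex.inr_le_inr_iff.1 h))
      (by
        have a1 : ∀ p q : R, ¬ q ≤ p → ∀ c, mem (.inl p) c → mem (.inr (.inl q)) c := by
          rintro p q H ⟨r, _ | _⟩ h
          exacts [fun h' => H (le_trans h' h), h.elim]
        have a2 : ∀ p q : R, ∀ c, mem (.inl p) c → mem (.inr (.inr q)) c := by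
          rintro p q ⟨r, _ | _⟩ h
          exacts [trivial, h.elim]
        rintro (p | p | i) (q | q | j) h
        · by_cases H : q ≤ p
          · exact .inr (Sum.Lex.inl_le_inl_iff.2 (a1 q p fun H' =>
              h (congrArg _ (le_antisymm H' H))))
          · exact .inl (Sum.Lex.inl_le_inl_iff.2 (a1 p q H))
        · exact .inl (Sum.Lex.inl_le_inl_iff.2 (a2 p q))
        · exact .inl (Sum.Lex.inl_le_inr _ _)
        · exact .inr (Sum.Lex.inl_le_inl_iff.2 (a2 q p))
        · refine .inl (Sum.Lex.inl_le_inl_iff.2 ?_)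
          rintro ⟨r, _ | _⟩ H
          exacts [trivial, fun e => h (by rw [← show r = p from H, e])]
        · exact .inl (Sum.Lex.inl_le_inr _ _)
        · exact .inr (Sum.Lex.inl_le_inr _ _)
        · exact .inr (Sum.Lex.inl_le_inr _ _)
        · have : (i : ℕ) ≠ j := fun e => h (by rw [Fin.ext e])
          rcases lt_or_gt_of_ne this with H | H
          · exact .inl (Sum.Lex.inr_le_inr_iff.2 H)
          · exact .inr (Sum.Lex.inr_le_inr_iff.2 H))
    simp only [Fintype.card_sum, Fintype.card_fin, show l + 2 - 1 = l + 1 from rfl] at this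
    by_contra hc
    have := Nat.mul_le_mul_right (l + 1) (not_lt.1 hc)
    nlinarith
  obtain ⟨S, hS, hmin⟩ := exists_min_image (univ.filter fun S : Finset T => N < dimk (l + 2) S)
    card ⟨univ, by simpa using hU⟩
  have hS : N < dimk (l + 2) S := (mem_filter.1 hS).2
  have hm : ∀ p : R, toLex (.inl (.inl p)) ∈ S := fun p => by
    by_contra hp
    refine hS.not_ge ((ext_emb (T := Tri R) (J := R × Bool) (fun x => x ≠ .inl p)
      (fun x c => if c ≠ (p, false) ∧ mem x c then 1 else 0)
      (fun c => if c = (p, false) then 0 else 1) (fun j => by split_ifs <;> omega) hk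
      (fun x y hx _ => ⟨fun H => (sep h3 x y fun c hc hc' => ?_).1, fun H c => ?_⟩)
      (fun x => ?_) ?_ S fun x hx e => hp (e ▸ hx)).trans (by simp [hN, mul_comm]))
    · have h1 : c ≠ (p, false) := fun e => hx (hc' p e)
      have := H c
      by_contra h
      simp [h, h1, hc] at this
    · by_cases h : c ≠ (p, false) ∧ mem x c
      · simp [h, H c h.2]
      · simp only [h, if_false, zero_le]
    · obtain ⟨s, hs⟩ := top h3 x
      refine Pi.lt_def.2 ⟨fun c => ?_, (s, true), by simp [hs]⟩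
      by_cases h : c = (p, false) <;> simp [h]
      split_ifs <;> omega
    · rw [← add_sum_erase _ _ (mem_univ (p, false)), sum_congr rfl (g := fun _ => l)
        fun c hc => by simp [ne_of_mem_erase hc]]
      have : 0 < Fintype.card R := Fintype.card_pos_iff.2 ⟨p⟩
      simp only [if_true, sum_const, card_erase_of_mem (mem_univ _), card_univ, Fintype.card_prod,
        Fintype.card_bool, smul_eq_mul, mul_comm _ 2, ← hN]
      obtain ⟨n, hn⟩ : ∃ n, N = n + 1 := ⟨N - 1, by omega⟩
      rw [hn]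
      simp only [Nat.add_sub_cancel]
      nlinarith [show l + 2 - 1 - 0 = l + 1 from rfl]
  refine ⟨S, inferInstance, inferInstance, fun x => ?_, ⟨OrderEmbedding.ofMapLEIff
    (fun p => ⟨_, hm p⟩) fun p q => Sum.Lex.inl_le_inl_iff.trans ⟨fun H => H (p, false) le_rfl,
      fun H => ?_⟩⟩, le_antisymm ?_ hS, ?_⟩
  · refine lt_of_le_of_lt ?_ hS
    by_contra hc
    have h1 : dimk (l + 2) {y : S // y ≠ x} ≤ dimk (l + 2) (S.erase x) :=
      dim_mono hk (OrderEmbedding.ofMapLEIff (fun y => ⟨y.1.1, mem_erase.2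
        ⟨fun e => y.2 (Subtype.ext e), y.1.2⟩⟩) fun _ _ => Iff.rfl)
    have := hmin (S.erase x) (mem_filter.2 ⟨mem_univ _, by omega⟩)
    have := card_erase_lt_of_mem x.2
    omega
  · rintro ⟨r, _ | _⟩ h
    exacts [le_trans h H, h]
  · refine (ext_emb (T := Tri R) (J := Option (R × Bool)) (fun _ => True)
      (fun x c => if ∃ d, c = some d ∧ mem x d then 1 else 0)
      (fun c => if c = none then 0 else 1) (fun j => by split_ifs <;> omega) hk
      (fun x y _ _ => ⟨fun H c hc => ?_, fun H c => ?_⟩)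
      (fun x => ?_) ?_ S fun _ _ => trivial).trans (by simp [hN, mul_comm])
    · have := H (some c)
      by_contra h
      simp [h, hc] at this
    · rcases c with _ | c
      · simp
      · by_cases h : mem x c <;> simp [h, H c]
    · obtain ⟨s, hs⟩ := top h3 x
      refine Pi.lt_def.2 ⟨fun c => ?_, some (s, true), by simp [hs]⟩
      rcases c with _ | c <;> simp
      split_ifs <;> omega
    · simp [Fintype.sum_option, hN, mul_comm]
  · refine (Fintype.card_coe S).trans_le ((card_le_univ S).trans ?_)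
    change Fintype.card ((R ⊕ R ⊕ R) ⊕ Fin (N * l + 1 + 1)) ≤ _
    simp only [Fintype.card_sum, Fintype.card_fin, hN]
    nlinarith

end Pool.Agent.Lib.H14KDim
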