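import Mathlib

set_option autoImplicit false

namespace Pool.Agent.MH

open MvPolynomial

/-- The graded piece (T[x1,x2,x3])_a / I_a, as a T-module. -/
abbrev Piece {A : Type} [AddCommGroup A] (w : Fin 3 → A) (T : Type) [CommRing T]
    (I : Ideal (MvPolynomial (Fin 3) T)) (a : A) : Type :=
  ↥(weightedHomogeneousSubmodule T w a) ⧸
    (I.restrictScalars T).submoduleOf (weightedHomogeneousSubmodule T w a)

/-- I is a T-point of the multigraded Hilbert functor: I is homogeneous for the grading with
deg x_i = w i, and every graded piece of the quotient is locally free of rank h a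
(finitely generated, projective, of rank h a at every prime of T). -/
def IsPt {A : Type} [AddCommGroup A] (w : Fin 3 → A) (h : A → ℕ) (T : Type) [CommRing T]
    (I : Ideal (MvPolynomial (Fin 3) T)) : Prop :=
  (∀ f ∈ I, ∀ a, weightedHomogeneousComponent w a f ∈ I) ∧
  ∀ a, Module.Finite T (Piece w T I a) ∧ Module.Projective T (Piece w T I a) ∧
    ∀ p : PrimeSpectrum T, Module.rankAtStalk (Piece w T I a) p = h a

section general

variable {A : Type} [AddCommGroup A] {w : Fin 3 → A} {h : A → ℕ} {K : Type} [Field K]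

theorem IsPt.finrank {I : Ideal (MvPolynomial (Fin 3) K)} (hI : IsPt w h K I) (a : A) :
    Module.finrank K (Piece w K I a) = h a := by
  have := (hI.2 a).2.2 ⟨⊥, Ideal.isPrime_bot⟩
  rw [Module.rankAtStalk_eq_finrank_of_free] at this
  exact this

theorem mk_zero {I : Ideal (MvPolynomial (Fin 3) K)} {a : A}
    (u : weightedHomogeneousSubmodule K w a) :
    (Submodule.Quotient.mk u : Piece w K I a) = 0 ↔ (u : MvPolynomial (Fin 3) K) ∈ I :=
  Submodule.Quotient.mk_eq_zero _

theorem IsPt.zero {I : Ideal (MvPolynomial (Fin 3) K)} (hI : IsPt w h K I) {a : A} (ha : h a = 0)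
    {u : MvPolynomial (Fin 3) K} (hu : IsWeightedHomogeneous w u a) : u ∈ I := by
  have := (hI.2 a).1
  have h1 := hI.finrank a
  rw [ha] at h1
  have := Module.finrank_zero_iff.mp h1
  exact (mk_zero (I := I) ⟨u, hu⟩).mp (Subsingleton.elim _ _)

theorem IsPt.dep {I : Ideal (MvPolynomial (Fin 3) K)} (hI : IsPt w h K I) {a : A} (ha : h a = 1)
    {u v : MvPolynomial (Fin 3) K} (hu : IsWeightedHomogeneous w u a)
    (hv : IsWeightedHomogeneous w v a) :
    ∃ c d : K, ¬ (c = 0 ∧ d = 0) ∧ C c * u + C d * v ∈ I := by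
  have := (hI.2 a).1
  by_contra hc
  have hl : LinearIndependent K ![(Submodule.Quotient.mk ⟨u, hu⟩ : Piece w K I a),
      Submodule.Quotient.mk ⟨v, hv⟩] := by
    rw [LinearIndependent.pair_iff]
    intro c d hcd
    by_contra hne
    apply hc
    refine ⟨c, d, hne, ?_⟩
    rw [← Submodule.Quotient.mk_smul, ← Submodule.Quotient.mk_smul, ← Submodule.Quotient.mk_add,
      mk_zero] at hcd
    rw [← smul_eq_C_mul, ← smul_eq_C_mul]
    exact hcd
  have h2 := hl.fintype_card_le_finrank
  rw [hI.finrank a, ha] at h2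
  simp at h2

theorem IsPt.not_one {I : Ideal (MvPolynomial (Fin 3) K)} (hI : IsPt w h K I) {a : A}
    (ha : h a = 2) {u : MvPolynomial (Fin 3) K} (hu : IsWeightedHomogeneous w u a)
    (H : ∀ e : Fin 3 →₀ ℕ, Finsupp.weight w e = a → ∃ c : K, monomial e 1 - C c * u ∈ I) :
    False := by
  have h1 : Module.finrank K (Piece w K I a) ≤ 1 := by
    apply finrank_le_one (Submodule.Quotient.mk ⟨u, hu⟩)
    intro q
    obtain ⟨⟨f, hf⟩, rfl⟩ := Submodule.Quotient.mk_surjective _ q
    have h2 : f ∈ (I.restrictScalars K) ⊔ Submodule.span K {u} := by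
      rw [f.as_sum]
      apply Submodule.sum_mem
      intro e he
      obtain ⟨c, hc⟩ := H e (hf (mem_support_iff.mp he))
      have e1 : (monomial e (coeff e f) : MvPolynomial (Fin 3) K)
          = coeff e f • ((monomial e 1 - C c * u) + c • u) := by
        rw [smul_eq_C_mul u c, sub_add_cancel, smul_monomial, smul_eq_mul, mul_one]
      rw [e1]
      exact Submodule.smul_mem _ _ (Submodule.add_mem_sup hc
        (Submodule.smul_mem _ _ (Submodule.mem_span_singleton_self u)))
    obtain ⟨y, hy, z, hz, hyz⟩ := Submodule.mem_sup.mp h2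
    obtain ⟨c, rfl⟩ := Submodule.mem_span_singleton.mp hz
    refine ⟨c, ?_⟩
    rw [← Submodule.Quotient.mk_smul, eq_comm, Submodule.Quotient.eq]
    show f - c • u ∈ I
    rw [← hyz, add_sub_cancel_right]
    exact hy
  rw [hI.finrank a, ha] at h1
  omega

theorem IsPt.eq_of_le {I J : Ideal (MvPolynomial (Fin 3) K)} (hI : IsPt w h K I)
    (hJ : IsPt w h K J) (hle : J ≤ I) : I = J := by
  classical
  refine le_antisymm (fun f hf => ?_) hle
  have key : ∀ a, weightedHomogeneousComponent w a f ∈ J := by
    intro a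
    have := (hI.2 a).1
    have := (hJ.2 a).1
    let φ : Piece w K J a →ₗ[K] Piece w K I a :=
      Submodule.mapQ _ _ LinearMap.id (fun x hx => hle hx)
    have hs : Function.Surjective φ := by
      intro q
      obtain ⟨x, rfl⟩ := Submodule.Quotient.mk_surjective _ q
      exact ⟨Submodule.Quotient.mk x, rfl⟩
    have hi : Function.Injective φ :=
      (LinearMap.injective_iff_surjective_of_finrank_eq_finrank
        (by rw [hI.finrank a, hJ.finrank a])).mpr hs
    have h0 : φ (Submodule.Quotient.mk ⟨_, weightedHomogeneousComponent_mem w f a⟩) = 0 :=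
      (mk_zero (I := I) ⟨_, weightedHomogeneousComponent_mem w f a⟩).mpr (hI.1 f hf a)
    exact (mk_zero (I := J) _).mp (hi (h0.trans (map_zero φ).symm))
  rw [← sum_weightedHomogeneousComponent (w := w) f,
    finsum_eq_sum _ (weightedHomogeneousComponent_finsupp f)]
  exact Ideal.sum_mem _ (fun a _ => key a)

/-- The ideal spanned by the monomials outside the range of st. -/
noncomputable def monI (T : Type) [CommRing T] {n : ℕ} (st : Fin n → Fin 3 →₀ ℕ) :
    Ideal (MvPolynomial (Fin 3) T) :=
  Ideal.span ((fun e => monomial e (1 : T)) '' {e | e ∉ Set.range st})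

theorem map_monI {T T' : Type} [CommRing T] [CommRing T'] (φ : T →+* T') {n : ℕ}
    (st : Fin n → Fin 3 →₀ ℕ) : (monI T st).map (MvPolynomial.map φ) = monI T' st := by
  rw [monI, monI, Ideal.map_span, Set.image_image]
  simp only [map_monomial, map_one]

theorem mem_monI {T : Type} [CommRing T] {n : ℕ} (st : Fin n → Fin 3 →₀ ℕ)
    (hs : ∀ i g, g ≤ st i → g ∈ Set.range st) (f : MvPolynomial (Fin 3) T) :
    f ∈ monI T st ↔ ∀ i, coeff (st i) f = 0 := by
  rw [monI, mem_ideal_span_monomial_image]
  constructor
  · intro H i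
    by_contra hne
    obtain ⟨g, hg, hle⟩ := H _ (mem_support_iff.mpr hne)
    exact hg (hs i g hle)
  · intro H e he
    refine ⟨e, ?_, le_rfl⟩
    rintro ⟨i, rfl⟩
    exact mem_support_iff.mp he (H i)

theorem monI_pt [DecidableEq A] {n : ℕ} (st : Fin n → Fin 3 →₀ ℕ) (hi : Function.Injective st)
    (hs : ∀ i g, g ≤ st i → g ∈ Set.range st) (hl : Fin n → A)
    (hw : ∀ i, Finsupp.weight w (st i) = hl i)
    (hh : ∀ a, h a = (Finset.univ.filter (fun i => hl i = a)).card) :
    IsPt w h K (monI K st) := by
  classical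
  refine ⟨fun f hf a => ?_, fun a => ?_⟩
  · rw [mem_monI st hs] at hf ⊢
    intro i
    rw [coeff_weightedHomogeneousComponent, hf i, ite_self]
  · let ψ : weightedHomogeneousSubmodule K w a →ₗ[K] ({i // hl i = a} → K) :=
      LinearMap.pi (fun i => (lcoeff K (st i.1)).comp (weightedHomogeneousSubmodule K w a).subtype)
    have hψ : ∀ u i, ψ u i = coeff (st i.1) (u : MvPolynomial (Fin 3) K) := fun u i => rfl
    have hker : ((monI K st).restrictScalars K).submoduleOf (weightedHomogeneousSubmodule K w a)
        = LinearMap.ker ψ := by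
      ext u
      rw [LinearMap.mem_ker]
      show (u : MvPolynomial (Fin 3) K) ∈ monI K st ↔ _
      rw [mem_monI st hs]
      constructor
      · intro H
        funext i
        exact H i.1
      · intro H i
        by_cases hia : hl i = a
        · exact congrFun H ⟨i, hia⟩
        · exact u.2.coeff_eq_zero _ (by rw [hw]; exact hia)
    have hsur : Function.Surjective ψ := by
      intro c
      refine ⟨∑ i : {i // hl i = a}, ⟨monomial (st i.1) (c i),
        isWeightedHomogeneous_monomial w _ _ ((hw i.1).trans i.2)⟩, ?_⟩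
      funext j
      rw [map_sum, Finset.sum_apply, Finset.sum_eq_single j]
      · rw [hψ]
        simp
      · intro i _ hij
        rw [hψ]
        exact (coeff_monomial _ _ _).trans (if_neg (fun e => hij (Subtype.ext (hi e))))
      · simp
    let E : Piece w K (monI K st) a ≃ₗ[K] ({i // hl i = a} → K) :=
      (Submodule.quotEquivOfEq _ _ hker).trans (ψ.quotKerEquivOfSurjective hsur)
    refine ⟨Module.Finite.equiv E.symm, inferInstance, fun p => ?_⟩
    rw [Module.rankAtStalk_eq_finrank_of_free]
    show Module.finrank K _ = h a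
    rw [E.finrank_eq, Module.finrank_fintype_fun_eq_card, hh, Fintype.card_subtype]

end general

end Pool.Agent.MH
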