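import Pool.Agent.Lib.helper14.MH1

set_option autoImplicit false

namespace Pool.Agent.MH

open MvPolynomial

/-- deg x = (1,0), deg y = (1,1), deg z = (2,1) in Z x Z/2. -/
def ww : Fin 3 → ℤ × ZMod 2 := ![(1, 0), (1, 1), (2, 1)]

/-- The list of degrees, with multiplicity, of the Hilbert function. -/
def hl : Fin 9 → ℤ × ZMod 2 :=
  ![(0, 0), (1, 0), (1, 1), (2, 0), (2, 1), (3, 0), (3, 1), (4, 0), (4, 0)]

/-- h a is the number of times a occurs in the list hl. -/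
def hh (a : ℤ × ZMod 2) : ℕ := (Finset.univ.filter (fun i => hl i = a)).card

noncomputable def mo (v : Fin 3 → ℕ) : Fin 3 →₀ ℕ := Finsupp.equivFunOnFinite.symm v

theorem mo_apply (v : Fin 3 → ℕ) (i : Fin 3) : mo v i = v i := rfl

def vP : Fin 9 → Fin 3 → ℕ :=
  ![![0, 0, 0], ![1, 0, 0], ![0, 1, 0], ![2, 0, 0], ![0, 0, 1], ![3, 0, 0], ![1, 0, 1], ![4, 0, 0],
    ![0, 0, 2]]

def vQ : Fin 9 → Fin 3 → ℕ :=
  ![![0, 0, 0], ![1, 0, 0], ![0, 1, 0], ![0, 2, 0], ![0, 0, 1], ![0, 1, 1], ![0, 3, 0], ![0, 4, 0],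
    ![0, 0, 2]]

theorem weight_eq (e : Fin 3 →₀ ℕ) :
    Finsupp.weight ww e = (((e 0 + e 1 + 2 * e 2 : ℕ) : ℤ), ((e 1 + e 2 : ℕ) : ZMod 2)) := by
  rw [Finsupp.weight_apply, Finsupp.sum_fintype _ _ (fun _ => by simp), Fin.sum_univ_three]
  ext
  · simp [ww]
    ring
  · simp [ww]

theorem mem_range (v : Fin 9 → Fin 3 → ℕ) (e : Fin 3 →₀ ℕ) :
    e ∈ Set.range (fun i => mo (v i)) ↔ ∃ i, v i 0 = e 0 ∧ v i 1 = e 1 ∧ v i 2 = e 2 := by
  constructor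
  · rintro ⟨i, rfl⟩
    exact ⟨i, rfl, rfl, rfl⟩
  · rintro ⟨i, h0, h1, h2⟩
    refine ⟨i, ?_⟩
    ext j
    fin_cases j
    · exact h0
    · exact h1
    · exact h2

theorem rangeP (e : Fin 3 →₀ ℕ) : e ∈ Set.range (fun i => mo (vP i)) ↔
    ¬ (3 ≤ e 2 ∨ (1 ≤ e 1 ∧ 1 ≤ e 2) ∨ 2 ≤ e 1 ∨ (1 ≤ e 0 ∧ 2 ≤ e 2) ∨ (1 ≤ e 0 ∧ 1 ≤ e 1)
      ∨ (2 ≤ e 0 ∧ 1 ≤ e 2) ∨ 5 ≤ e 0) := by
  rw [mem_range]
  simp only [Fin.exists_fin_succ, vP, Matrix.cons_val_zero, Matrix.cons_val_succ,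
    Matrix.cons_val_one, Matrix.cons_val, IsEmpty.exists_iff, or_false]
  omega

theorem rangeQ (e : Fin 3 →₀ ℕ) : e ∈ Set.range (fun i => mo (vQ i)) ↔
    ¬ (3 ≤ e 2 ∨ (1 ≤ e 1 ∧ 2 ≤ e 2) ∨ (2 ≤ e 1 ∧ 1 ≤ e 2) ∨ 5 ≤ e 1 ∨ (1 ≤ e 0 ∧ 1 ≤ e 2)
      ∨ (1 ≤ e 0 ∧ 1 ≤ e 1) ∨ 2 ≤ e 0) := by
  rw [mem_range]
  simp only [Fin.exists_fin_succ, vQ, Matrix.cons_val_zero, Matrix.cons_val_succ,
    Matrix.cons_val_one, Matrix.cons_val, IsEmpty.exists_iff, or_false]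
  omega

theorem mo_inj (v : Fin 9 → Fin 3 → ℕ) (hv : Function.Injective v) :
    Function.Injective (fun i => mo (v i)) :=
  fun _ _ h => hv (Finsupp.equivFunOnFinite.symm.injective h)

noncomputable abbrev IP (T : Type) [CommRing T] := monI T (fun i => mo (vP i))

noncomputable abbrev IQ (T : Type) [CommRing T] := monI T (fun i => mo (vQ i))

theorem downP (i : Fin 9) (g : Fin 3 →₀ ℕ) (h : g ≤ mo (vP i)) :
    g ∈ Set.range (fun i => mo (vP i)) := by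
  have h1 := (rangeP (mo (vP i))).mp ⟨i, rfl⟩
  rw [rangeP]
  have a0 := h 0
  have a1 := h 1
  have a2 := h 2
  omega

theorem downQ (i : Fin 9) (g : Fin 3 →₀ ℕ) (h : g ≤ mo (vQ i)) :
    g ∈ Set.range (fun i => mo (vQ i)) := by
  have h1 := (rangeQ (mo (vQ i))).mp ⟨i, rfl⟩
  rw [rangeQ]
  have a0 := h 0
  have a1 := h 1
  have a2 := h 2
  omega

variable {K : Type} [Field K]

theorem IP_pt : IsPt ww hh K (IP K) := by
  refine monI_pt _ (mo_inj vP (by decide)) downP hl (fun i => ?_) (fun _ => rfl)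
  rw [weight_eq]
  simp only [mo_apply]
  revert i
  decide

theorem IQ_pt : IsPt ww hh K (IQ K) := by
  refine monI_pt _ (mo_inj vQ (by decide)) downQ hl (fun i => ?_) (fun _ => rfl)
  rw [weight_eq]
  simp only [mo_apply]
  revert i
  decide

theorem IP_ne : IP K ≠ IQ K := by
  intro h
  have h1 : (monomial (mo ![2, 0, 0]) 1 : MvPolynomial (Fin 3) K) ∈ IQ K := by
    refine Ideal.subset_span ⟨mo ![2, 0, 0], ?_, rfl⟩
    show ¬ _
    rw [rangeQ]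
    simp [mo_apply]
  rw [← h, mem_monI _ downP] at h1
  have h2 := h1 3
  have e : vP 3 = ![2, 0, 0] := rfl
  simp [e] at h2

theorem mon_eq (e : Fin 3 →₀ ℕ) :
    (monomial e 1 : MvPolynomial (Fin 3) K) = X 0 ^ e 0 * X 1 ^ e 1 * X 2 ^ e 2 := by
  rw [monomial_eq, Finsupp.prod_fintype _ _ (fun _ => pow_zero _), Fin.prod_univ_three, C_1,
    one_mul]

theorem hom (a b c : ℕ) (d : ℤ × ZMod 2)
    (hd : (((a + b + 2 * c : ℕ) : ℤ), ((b + c : ℕ) : ZMod 2)) = d) :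
    IsWeightedHomogeneous ww (X 0 ^ a * X 1 ^ b * X 2 ^ c : MvPolynomial (Fin 3) K) d := by
  have := isWeightedHomogeneous_monomial ww (mo ![a, b, c]) (1 : K)
    ((weight_eq _).trans hd)
  rw [mon_eq] at this
  exact this

theorem up {I : Ideal (MvPolynomial (Fin 3) K)} (a b c : ℕ)
    (h : (X 0 ^ a * X 1 ^ b * X 2 ^ c : MvPolynomial (Fin 3) K) ∈ I) (e : Fin 3 →₀ ℕ)
    (h0 : a ≤ e 0) (h1 : b ≤ e 1) (h2 : c ≤ e 2) : (monomial e 1 : MvPolynomial (Fin 3) K) ∈ I := by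
  rw [mon_eq]
  exact I.mem_of_dvd (mul_dvd_mul (mul_dvd_mul (pow_dvd_pow _ h0) (pow_dvd_pow _ h1))
    (pow_dvd_pow _ h2)) h

theorem deg40 (e : Fin 3 →₀ ℕ) (he : Finsupp.weight ww e = (4, 0)) :
    (e 0 = 4 ∧ e 1 = 0 ∧ e 2 = 0) ∨ (e 0 = 2 ∧ e 1 = 2 ∧ e 2 = 0) ∨ (e 0 = 0 ∧ e 1 = 4 ∧ e 2 = 0)
      ∨ (e 0 = 1 ∧ e 1 = 1 ∧ e 2 = 1) ∨ (e 0 = 0 ∧ e 1 = 0 ∧ e 2 = 2) := by
  rw [weight_eq] at he
  have h1 : ((e 0 + e 1 + 2 * e 2 : ℕ) : ℤ) = 4 := congrArg Prod.fst he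
  have h2 : ((e 1 + e 2 : ℕ) : ZMod 2) = 0 := congrArg Prod.snd he
  rw [ZMod.natCast_eq_zero_iff] at h2
  omega

theorem not_one' {I : Ideal (MvPolynomial (Fin 3) K)} (hI : IsPt ww hh K I)
    {u : MvPolynomial (Fin 3) K} (hu : IsWeightedHomogeneous ww u (4, 0))
    (h1 : ∃ c : K, X 0 ^ 4 - C c * u ∈ I) (h2 : ∃ c : K, X 0 ^ 2 * X 1 ^ 2 - C c * u ∈ I)
    (h3 : ∃ c : K, X 1 ^ 4 - C c * u ∈ I) (h4 : ∃ c : K, X 0 * X 1 * X 2 - C c * u ∈ I)
    (h5 : ∃ c : K, X 2 ^ 2 - C c * u ∈ I) : False := by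
  refine hI.not_one (by decide) hu (fun e he => ?_)
  rw [mon_eq]
  rcases deg40 e he with ⟨a, b, c⟩ | ⟨a, b, c⟩ | ⟨a, b, c⟩ | ⟨a, b, c⟩ | ⟨a, b, c⟩ <;>
    rw [a, b, c] <;> simp only [pow_zero, pow_one, mul_one, one_mul] <;> assumption

theorem unit_mem {I : Ideal (MvPolynomial (Fin 3) K)} {c : K} (hc : c ≠ 0)
    {u : MvPolynomial (Fin 3) K} (h : C c * u ∈ I) : u ∈ I := by
  have := I.mul_mem_left (C c⁻¹) h
  rwa [← mul_assoc, ← map_mul, inv_mul_cancel₀ hc, map_one, one_mul] at this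

theorem solve {I : Ideal (MvPolynomial (Fin 3) K)} {c d : K} (hc : c ≠ 0)
    {u v : MvPolynomial (Fin 3) K} (h : C c * u + C d * v ∈ I) : ∃ l : K, u - C l * v ∈ I := by
  refine ⟨-(d / c), unit_mem hc ?_⟩
  have e : (C c : MvPolynomial (Fin 3) K) * C (-(d / c)) = - C d := by
    rw [← map_mul, ← map_neg]
    congr 1
    field_simp
  rw [mul_sub, ← mul_assoc, e]
  simpa using h

theorem classify {I : Ideal (MvPolynomial (Fin 3) K)} (hI : IsPt ww hh K I) :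
    I = IP K ∨ I = IQ K := by
  have z3 := hI.zero (by decide) (hom (K := K) 0 0 3 (6, 1) (by decide))
  have xz2 := hI.zero (by decide) (hom (K := K) 1 0 2 (5, 0) (by decide))
  have yz2 := hI.zero (by decide) (hom (K := K) 0 1 2 (5, 1) (by decide))
  have x2z := hI.zero (by decide) (hom (K := K) 2 0 1 (4, 1) (by decide))
  have y2z := hI.zero (by decide) (hom (K := K) 0 2 1 (4, 1) (by decide))
  have x5 := hI.zero (by decide) (hom (K := K) 5 0 0 (5, 0) (by decide))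
  have y5 := hI.zero (by decide) (hom (K := K) 0 5 0 (5, 1) (by decide))
  obtain ⟨a, b, hab, r1⟩ := hI.dep (by decide) (hom (K := K) 2 0 0 (2, 0) (by decide))
    (hom (K := K) 0 2 0 (2, 0) (by decide))
  obtain ⟨d, c, hcd, r2⟩ := hI.dep (by decide) (hom (K := K) 0 0 1 (2, 1) (by decide))
    (hom (K := K) 1 1 0 (2, 1) (by decide))
  obtain ⟨p, q, hpq, r3⟩ := hI.dep (by decide) (hom (K := K) 3 0 0 (3, 0) (by decide))
    (hom (K := K) 0 1 1 (3, 0) (by decide))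
  obtain ⟨s, t, hst, r4⟩ := hI.dep (by decide) (hom (K := K) 0 3 0 (3, 1) (by decide))
    (hom (K := K) 1 0 1 (3, 1) (by decide))
  have hx4 := hom (K := K) 4 0 0 (4, 0) (by decide)
  have hy4 := hom (K := K) 0 4 0 (4, 0) (by decide)
  have hz2 := hom (K := K) 0 0 2 (4, 0) (by decide)
  have x2z' := x2z
  have y2z' := y2z
  simp only [pow_zero, pow_one, mul_one, one_mul] at r1 r2 r3 r4 hx4 hy4 hz2 x2z' y2z'
  have m : ∀ {u v : MvPolynomial (Fin 3) K} (g : MvPolynomial (Fin 3) K), u ∈ I → v = g * u →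
      v ∈ I := fun g hu e => e ▸ I.mul_mem_left g hu
  have m2 : ∀ {u u' v : MvPolynomial (Fin 3) K} (g g' : MvPolynomial (Fin 3) K), u ∈ I → u' ∈ I →
      v = g * u + g' * u' → v ∈ I :=
    fun g g' hu hu' e => e ▸ I.add_mem (I.mul_mem_left g hu) (I.mul_mem_left g' hu')
  have xy : (X 0 * X 1 : MvPolynomial (Fin 3) K) ∈ I := by
    by_cases hd : d = 0
    · rw [hd, map_zero, zero_mul, zero_add] at r2
      exact unit_mem (fun h => hcd ⟨hd, h⟩) r2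
    · exfalso
      obtain ⟨l, hl⟩ := solve hd r2
      by_cases ha : a = 0
      · have y2 : (X 1 ^ 2 : MvPolynomial (Fin 3) K) ∈ I := by
          rw [ha, map_zero, zero_mul, zero_add] at r1
          exact unit_mem (fun h => hab ⟨ha, h⟩) r1
        refine not_one' hI hx4 ⟨1, by simp⟩ ⟨0, m (X 0 ^ 2) y2 (by simp)⟩
          ⟨0, m (X 1 ^ 2) y2 (by rw [map_zero]; ring)⟩
          ⟨0, m2 (X 0 * X 1) (C l * X 0 ^ 2) hl y2 (by rw [map_zero]; ring)⟩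
          ⟨0, m2 (X 2 + C l * (X 0 * X 1)) (C l ^ 2 * X 0 ^ 2) hl y2 (by rw [map_zero]; ring)⟩
      · obtain ⟨n, hn⟩ := solve ha r1
        refine not_one' hI hy4 ⟨n ^ 2, m (X 0 ^ 2 + C n * X 1 ^ 2) hn (by rw [map_pow]; ring)⟩
          ⟨n, m (X 1 ^ 2) hn (by ring)⟩ ⟨1, by simp⟩
          ⟨l * n, m2 (X 0 * X 1) (C l * X 1 ^ 2) hl hn (by rw [map_mul]; ring)⟩
          ⟨l ^ 2 * n, m2 (X 2 + C l * (X 0 * X 1)) (C l ^ 2 * X 1 ^ 2) hl hn
            (by rw [map_mul, map_pow]; ring)⟩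
  have key : (X 0 ^ 4 : MvPolynomial (Fin 3) K) ∈ I → (X 1 ^ 4 : MvPolynomial (Fin 3) K) ∈ I →
      False := fun h1 h2 =>
    not_one' hI hz2 ⟨0, by simpa using h1⟩ ⟨0, m (X 0 * X 1) xy (by rw [map_zero]; ring)⟩
      ⟨0, by simpa using h2⟩ ⟨0, m (X 2) xy (by rw [map_zero]; ring)⟩ ⟨1, by simp⟩
  have xy' : (X 0 ^ 1 * X 1 ^ 1 * X 2 ^ 0 : MvPolynomial (Fin 3) K) ∈ I := by simpa using xy
  by_cases ha : a = 0
  · left
    have y2 : (X 1 ^ 2 : MvPolynomial (Fin 3) K) ∈ I := by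
      rw [ha, map_zero, zero_mul, zero_add] at r1
      exact unit_mem (fun h => hab ⟨ha, h⟩) r1
    have hp : p = 0 := by
      by_contra hp
      obtain ⟨l, hl⟩ := solve hp r3
      exact key (m2 (X 0) (C l * X 2) hl xy (by ring)) (m (X 1 ^ 2) y2 (by ring))
    have yz : (X 1 * X 2 : MvPolynomial (Fin 3) K) ∈ I := by
      rw [hp, map_zero, zero_mul, zero_add] at r3
      exact unit_mem (fun h => hpq ⟨hp, h⟩) r3
    refine hI.eq_of_le IP_pt (Ideal.span_le.mpr ?_)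
    rintro _ ⟨e, he, rfl⟩
    have he' := not_not.mp (fun h => he ((rangeP e).mpr h))
    rcases he' with h | h | h | h | h | h | h
    · exact up 0 0 3 z3 e (by omega) (by omega) (by omega)
    · exact up 0 1 1 (by simpa using yz) e (by omega) (by omega) (by omega)
    · exact up 0 2 0 (by simpa using y2) e (by omega) (by omega) (by omega)
    · exact up 1 0 2 xz2 e (by omega) (by omega) (by omega)
    · exact up 1 1 0 xy' e (by omega) (by omega) (by omega)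
    · exact up 2 0 1 x2z e (by omega) (by omega) (by omega)
    · exact up 5 0 0 x5 e (by omega) (by omega) (by omega)
  · right
    obtain ⟨n, hn⟩ := solve ha r1
    have x4 : (X 0 ^ 4 : MvPolynomial (Fin 3) K) ∈ I :=
      m2 (X 0 ^ 2) (C n * X 0 * X 1) hn xy (by ring)
    have hn0 : n = 0 := by
      by_contra hn0
      exact key x4 (unit_mem hn0 (m2 (- X 1 ^ 2) (X 0 * X 1) hn xy (by ring)))
    have x2 : (X 0 ^ 2 : MvPolynomial (Fin 3) K) ∈ I := by simpa [hn0] using hn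
    have hs : s = 0 := by
      by_contra hs
      obtain ⟨l, hl⟩ := solve hs r4
      exact key x4 (m2 (X 1) (C l * X 2) hl xy (by ring))
    have xz : (X 0 * X 2 : MvPolynomial (Fin 3) K) ∈ I := by
      rw [hs, map_zero, zero_mul, zero_add] at r4
      exact unit_mem (fun h => hst ⟨hs, h⟩) r4
    refine hI.eq_of_le IQ_pt (Ideal.span_le.mpr ?_)
    rintro _ ⟨e, he, rfl⟩
    have he' := not_not.mp (fun h => he ((rangeQ e).mpr h))
    rcases he' with h | h | h | h | h | h | h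
    · exact up 0 0 3 z3 e (by omega) (by omega) (by omega)
    · exact up 0 1 2 yz2 e (by omega) (by omega) (by omega)
    · exact up 0 2 1 y2z e (by omega) (by omega) (by omega)
    · exact up 0 5 0 y5 e (by omega) (by omega) (by omega)
    · exact up 1 0 1 (by simpa using xz) e (by omega) (by omega) (by omega)
    · exact up 1 1 0 xy' e (by omega) (by omega) (by omega)
    · exact up 2 0 0 (by simpa using x2) e (by omega) (by omega) (by omega)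

end Pool.Agent.MH
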