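import Mathlib

set_option autoImplicit false

namespace Pool.Agent.H14NF

open MeasureTheory Filter Topology Set ProbabilityTheory

/-- Null-finite subsets of an abelian topological group. -/
def NullFinite {X : Type} [AddCommGroup X] [TopologicalSpace X] (B : Set X) : Prop :=
  ∃ x : ℕ → X, Tendsto x atTop (𝓝 0) ∧ ∀ y : X, {k : ℕ | y + x k ∈ B}.Finite

/-- Contained in a Borel Haar-null set. -/
def HaarNull {X : Type} [AddCommGroup X] [MeasurableSpace X] (A : Set X) : Prop :=
  ∃ B : Set X, MeasurableSet B ∧ A ⊆ B ∧ ∃ μ : Measure X, IsProbabilityMeasure μ ∧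
    ∀ x : X, μ ((fun b => b + x) '' B) = 0

/-- Contained in a Borel Haar-meager set. -/
def HaarMeager {X : Type} [AddCommGroup X] [TopologicalSpace X] [MeasurableSpace X]
    (A : Set X) : Prop :=
  ∃ B : Set X, MeasurableSet B ∧ A ⊆ B ∧ ∃ (K : Type) (_ : TopologicalSpace K),
    CompactSpace K ∧ TopologicalSpace.MetrizableSpace K ∧ Nonempty K ∧
    ∃ f : K → X, Continuous f ∧ ∀ x : X, IsMeagre (f ⁻¹' ((fun b => b + x) '' B))

abbrev X : Type := ∀ n : ℕ, ZMod (n + 2)

/-- The same set with a finer topology. -/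
def Y : Type := ∀ n : ℕ, ZMod (n + 2)

abbrev Sl : Type := ∀ n : ℕ, Finset (ZMod (n + 2))

def Small (F : Sl) : Prop := ∃ c, ∀ i, (F i).card ≤ c

def Bas (y : X) (n : ℕ) (F : Sl) : Set X := {z | (∀ i < n, z i = y i) ∧ ∀ i ≥ n, z i ∉ F i}

theorem Bas_sub {y y' : X} {n n' : ℕ} {F F' : Sl} (hy : y' ∈ Bas y n F) (hn : n ≤ n')
    (hF : ∀ i, F i ⊆ F' i) : Bas y' n' F' ⊆ Bas y n F := by
  intro z hz
  refine ⟨fun i hi => (hz.1 i (by omega)).trans (hy.1 i hi), fun i hi => ?_⟩
  by_cases h : i < n'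
  · rw [hz.1 i h]; exact hy.2 i hi
  · exact fun e => hz.2 i (by omega) (hF i e)

def Op (U : Set X) : Prop := ∀ y ∈ U, ∃ n F, Small F ∧ y ∈ Bas y n F ∧ Bas y n F ⊆ U

theorem small_union {F F' : Sl} (h : Small F) (h' : Small F') : Small fun i => F i ∪ F' i := by
  obtain ⟨c, hc⟩ := h
  obtain ⟨c', hc'⟩ := h'
  exact ⟨c + c', fun i => (Finset.card_union_le _ _).trans (add_le_add (hc i) (hc' i))⟩

instance : TopologicalSpace Y where
  IsOpen := Op
  isOpen_univ := fun y _ => ⟨0, fun _ => ∅, ⟨0, by simp⟩, by simp [Bas], subset_univ _⟩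
  isOpen_inter := by
    intro s t hs ht y hy
    obtain ⟨n, F, h1, h2, h3⟩ := hs y hy.1
    obtain ⟨n', F', h1', h2', h3'⟩ := ht y hy.2
    refine ⟨max n n', fun i => F i ∪ F' i, small_union h1 h1', ⟨fun _ _ => rfl, fun i hi => ?_⟩,
      subset_inter ((Bas_sub h2 (le_max_left _ _) fun i => Finset.subset_union_left).trans h3)
        ((Bas_sub h2' (le_max_right _ _) fun i => Finset.subset_union_right).trans h3')⟩
    rw [Finset.mem_union, not_or]
    exact ⟨h2.2 i (by omega), h2'.2 i (by omega)⟩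
  isOpen_sUnion := by
    rintro S hS y ⟨t, ht, hy⟩
    obtain ⟨n, F, h1, h2, h3⟩ := hS t ht y hy
    exact ⟨n, F, h1, h2, h3.trans (subset_sUnion_of_mem ht)⟩

theorem isOpen_iff {U : Set Y} : IsOpen U ↔ Op U := Iff.rfl

theorem op_Bas (y : X) (n : ℕ) {F : Sl} (hF : Small F) : Op (Bas y n F) := fun _ hz =>
  ⟨n, F, hF, ⟨fun _ _ => rfl, hz.2⟩, Bas_sub hz le_rfl fun _ => subset_rfl⟩

instance : BaireSpace Y where
  baire_property := by
    intro D hDo hDd
    rw [dense_iff_inter_open]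
    rintro U hU ⟨y0, hy0⟩
    obtain ⟨n0, F0, h1, h2, h3⟩ := hU y0 hy0
    let St := {p : X × ℕ × Sl // Small p.2.2 ∧ p.1 ∈ Bas p.1 p.2.1 p.2.2}
    have step : ∀ (j : ℕ) (p : St), ∃ q : St, j < q.1.2.1 ∧
        Bas q.1.1 q.1.2.1 q.1.2.2 ⊆ Bas p.1.1 p.1.2.1 p.1.2.2 ∩ D j := by
      intro j p
      have ho : IsOpen (X := Y) (Bas p.1.1 p.1.2.1 p.1.2.2) := op_Bas _ _ p.2.1
      obtain ⟨z, hz⟩ := (hDd j).inter_open_nonempty _ ho ⟨p.1.1, p.2.2⟩
      obtain ⟨n, F, a, b, c⟩ := (ho.inter (hDo j)) z hz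
      refine ⟨⟨(z, max n (j + 1), F), a, fun _ _ => rfl, fun i hi => b.2 i ?_⟩, ?_,
        (Bas_sub b (le_max_left _ _) fun _ => subset_rfl).trans c⟩
      · exact le_trans (le_max_left _ _) hi
      · exact lt_of_lt_of_le (Nat.lt_succ_self j) (le_max_right _ _)
    choose nx hnx1 hnx2 using step
    let s : ℕ → St := fun j => Nat.rec ⟨(y0, n0, F0), h1, h2⟩ (fun j p => nx j p) j
    let b : ℕ → Set X := fun j => Bas (s j).1.1 (s j).1.2.1 (s j).1.2.2
    have hb : Antitone b := antitone_nat_of_succ_le fun j =>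
      (hnx2 j (s j)).trans inter_subset_left
    let y : X := fun i => (s (i + 1)).1.1 i
    have hy : ∀ j, y ∈ b j := by
      intro j
      have key : ∀ i, ∃ z ∈ b j, z i = y i := by
        intro i
        have hz : (s (max j (i + 1))).1.1 ∈ b (max j (i + 1)) := (s _).2.2
        exact ⟨_, hb (le_max_left _ _) hz, (hb (le_max_right _ _) hz).1 i (hnx1 i (s i))⟩
      constructor
      · intro i hi
        obtain ⟨z, hz, e⟩ := key i
        rw [← e]; exact hz.1 i hi
      · intro i hi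
        obtain ⟨z, hz, e⟩ := key i
        rw [← e]; exact hz.2 i hi
    exact ⟨y, h3 (hy 0), mem_iInter.2 fun j => ((hnx2 j (s j)) (hy (j + 1))).2⟩

def sh (x : X) (F : Sl) : Sl := fun i => (F i).image fun a => a - x i

theorem small_sh (x : X) {F : Sl} (h : Small F) : Small (sh x F) := by
  obtain ⟨c, hc⟩ := h
  exact ⟨c, fun i => Finset.card_image_le.trans (hc i)⟩

theorem mem_sh (x : X) (F : Sl) (i : ℕ) (a : ZMod (i + 2)) : a ∈ sh x F i ↔ a + x i ∈ F i := by
  simp only [sh, Finset.mem_image]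
  constructor
  · rintro ⟨b, hb, rfl⟩; simpa using hb
  · intro h; exact ⟨_, h, by simp⟩

theorem op_tr (x : X) {U : Set X} (hU : Op U) : Op {y | y + x ∈ U} := by
  intro y hy
  obtain ⟨n, F, a, b, c⟩ := hU _ hy
  refine ⟨n, sh x F, small_sh x a, ⟨fun _ _ => rfl, fun i hi => ?_⟩, fun z hz => c ⟨?_, ?_⟩⟩
  · rw [mem_sh]; exact b.2 i hi
  · intro i hi
    simp [hz.1 i hi]
  · intro i hi
    have := hz.2 i hi
    rwa [mem_sh] at this

theorem dense_tr (x : X) {D : Set Y} (hD : Dense D) : Dense (X := Y) {y : X | y + x ∈ D} := by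
  rw [dense_iff_inter_open] at hD ⊢
  rintro U hU ⟨y, hy⟩
  obtain ⟨z, hz⟩ := hD {w : X | w + -x ∈ U} (op_tr (-x) hU) ⟨(id y : X) + x, by
    show (id y : X) + x + -x ∈ U
    rw [add_neg_cancel_right]; exact hy⟩
  refine ⟨(id z : X) + -x, hz.1, ?_⟩
  show (id z : X) + -x + x ∈ D
  rw [neg_add_cancel_right]; exact hz.2

theorem recur {x : ℕ → X} (hx : Tendsto x atTop (𝓝 0)) {V : Set X} (hV : Op V) (hne : V.Nonempty)
    (m : ℕ) : ∃ k ≥ m, ∃ z ∈ V, z + x k ∈ V := by
  classical
  obtain ⟨y, hy⟩ := hne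
  obtain ⟨n, F, ⟨c, hc⟩, b, hsub⟩ := hV y hy
  set N := max n (2 * c) with hN
  have h1 : ∀ᶠ k in atTop, ∀ i ∈ Finset.range N, x k i = 0 := by
    rw [Filter.eventually_all_finset]
    intro i _
    have := (tendsto_pi_nhds.1 hx) i
    rw [nhds_discrete, tendsto_pure] at this
    exact this
  obtain ⟨k, hk, hkm⟩ := (h1.and (eventually_ge_atTop m)).exists
  have h2 : ∀ i, N ≤ i → ∃ a : ZMod (i + 2), a ∉ F i ∪ sh (x k) F i := by
    intro i hi
    have : (F i ∪ sh (x k) F i).card ≤ c + c :=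
      (Finset.card_union_le _ _).trans (add_le_add (hc i) (Finset.card_image_le.trans (hc i)))
    obtain ⟨a, -, ha⟩ := Finset.exists_mem_notMem_of_card_lt_card (s := F i ∪ sh (x k) F i)
      (t := Finset.univ) (by rw [Finset.card_univ, ZMod.card]; omega)
    exact ⟨a, ha⟩
  choose a ha using h2
  let z : X := fun i => if h : N ≤ i then a i h else y i
  refine ⟨k, hkm, z, hsub ⟨fun i hi => ?_, fun i hi => ?_⟩, hsub ⟨fun i hi => ?_, fun i hi => ?_⟩⟩
  · have : ¬ N ≤ i := by omega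
    simp [z, this]
  · by_cases h : N ≤ i
    · simp only [z, h, dif_pos]
      exact fun e => ha i h (Finset.mem_union_left _ e)
    · simp only [z, h, dif_neg, not_false_eq_true]
      exact b.2 i hi
  · have : ¬ N ≤ i := by omega
    simp [z, this, hk i (Finset.mem_range.2 (by omega))]
  · by_cases h : N ≤ i
    · simp only [z, h, dif_pos, Pi.add_apply]
      exact fun e => ha i h (Finset.mem_union_right _ ((mem_sh _ _ _ _).2 e))
    · simp only [z, h, dif_neg, not_false_eq_true, Pi.add_apply,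
        hk i (Finset.mem_range.2 (by omega)), add_zero]
      exact b.2 i hi

theorem main {x : ℕ → X} (hx : Tendsto x atTop (𝓝 0)) {U : Set Y} (hU : IsOpen U)
    (hne : U.Nonempty) {R : Set Y} (hR : R ∈ residual Y) :
    ∃ y : X, {k : ℕ | y + x k ∈ U ∩ R}.Infinite := by
  obtain ⟨S, hSo, hSd, hSc, hSR⟩ := mem_residual_iff.1 hR
  have h1 : (⋂ m : ℕ, ((⋃ k ≥ m, {y : X | y + x k ∈ U}) ∪ (closure U)ᶜ : Set Y)) ∈ residual Y := by
    rw [countable_iInter_mem]
    intro m
    refine residual_of_dense_open (IsOpen.union (isOpen_biUnion fun k _ => op_tr _ hU)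
      isClosed_closure.isOpen_compl) ?_
    rw [dense_iff_inter_open]
    intro V hV hVn
    by_cases h : (V ∩ U).Nonempty
    · obtain ⟨k, hk, z, hz, hz'⟩ := recur hx (hV.inter hU) h m
      exact ⟨z, hz.1, Or.inl (mem_iUnion₂.2 ⟨k, hk, hz'.2⟩)⟩
    · obtain ⟨v, hv⟩ := hVn
      exact ⟨v, hv, Or.inr fun hc => h (mem_closure_iff.1 hc V hV hv)⟩
  have h2 : (⋂ k : ℕ, ⋂ t ∈ S, ({y : X | y + x k ∈ t} : Set Y)) ∈ residual Y := by
    rw [countable_iInter_mem]
    intro k
    rw [countable_bInter_mem hSc]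
    intro t ht
    exact residual_of_dense_open (op_tr _ (hSo t ht)) (dense_tr _ (hSd t ht))
  obtain ⟨y, hyU, hy1, hy2⟩ := (dense_of_mem_residual (inter_mem h1 h2)).inter_open_nonempty _ hU hne
  refine ⟨y, infinite_of_forall_exists_gt fun m => ?_⟩
  rcases mem_iInter.1 hy1 (m + 1) with h | h
  · obtain ⟨k, hk, h⟩ := mem_iUnion₂.1 h
    exact ⟨k, ⟨h, hSR fun t ht => mem_iInter₂.1 (mem_iInter.1 hy2 k) t ht⟩, hk⟩
  · exact absurd (subset_closure hyU) h

theorem op_of_isOpen {U : Set X} (hU : IsOpen U) : Op U := by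
  intro y hy
  obtain ⟨_, ⟨w, n, rfl⟩, hw, hsub⟩ :=
    (PiNat.isTopologicalBasis_cylinders (fun n => ZMod (n + 2))).exists_subset_of_mem_open hy hU
  refine ⟨n, fun _ => ∅, ⟨0, by simp⟩, by simp [Bas], fun z hz => hsub ?_⟩
  rw [PiNat.mem_cylinder_iff] at hw ⊢
  exact fun i hi => (hz.1 i hi).trans (hw i hi)

theorem baire {B : Set X} (hB : MeasurableSet B) : BaireMeasurableSet (α := Y) B := by
  have hc : Continuous (X := Y) (Y := X) id := ⟨fun U hU => op_of_isOpen hU⟩
  borelize Y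
  exact (hc.measurable hB).baireMeasurableSet

def A : Set X := {x | ∀ n, x n ≠ 0}

theorem op_A : Op A := by
  have : A = Bas 0 0 fun _ => {0} := by ext; simp [A, Bas]
  rw [this]
  exact op_Bas _ _ ⟨1, by simp⟩

theorem not_cover (B : ℕ → Set X) (hB : ∀ k, MeasurableSet (B k)) (hN : ∀ k, NullFinite (B k)) :
    ¬ A ⊆ ⋃ k, B k := by
  intro hA
  have hm : ∀ k, (B k)ᶜ ∈ residual Y := by
    intro k
    obtain ⟨U, hU, he⟩ := (baire (hB k)).residualEq_isOpen
    rcases U.eq_empty_or_nonempty with rfl | hne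
    · filter_upwards [he] with y hy h
      exact (hy.mp h).elim
    · exfalso
      obtain ⟨x, hx, hf⟩ := hN k
      obtain ⟨y, hy⟩ := main hx hU hne he
      exact hy ((hf y).subset fun j hj => hj.2.mpr hj.1)
  have hne : A.Nonempty := ⟨fun _ => 1, fun n => by
    have : Fact (1 < n + 2) := ⟨by omega⟩
    exact one_ne_zero⟩
  obtain ⟨y, hy⟩ := main (x := fun _ => 0) tendsto_const_nhds (U := A) op_A hne
    (countable_iInter_mem.2 hm)
  obtain ⟨k, hk⟩ := hy.nonempty
  obtain ⟨j, hj⟩ := mem_iUnion.1 (hA hk.1)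
  exact mem_iInter.1 hk.2 j hj

theorem A_closed : IsClosed A := by
  have : A = ⋂ n, (fun x : X => x n) ⁻¹' {0}ᶜ := by ext; simp [A]
  rw [this]
  exact isClosed_iInter fun n => (isClosed_discrete _).preimage (continuous_apply n)

theorem A_null : HaarNull A := by
  classical
  refine ⟨A, A_closed.measurableSet, subset_rfl,
    Measure.infinitePi fun n => uniformOn (univ : Set (ZMod (n + 2))), inferInstance, fun g => ?_⟩
  have h2 : ∀ n : ℕ, (Measure.infinitePi fun n => uniformOn (univ : Set (ZMod (n + 2))))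
      ((fun b => b + g) '' A) ≤ ((n + 1 : ℕ) : ENNReal)⁻¹ := by
    intro n
    refine le_trans (measure_mono (t := Set.pi (Finset.range n) fun i => {g i}ᶜ) ?_) ?_
    · rintro _ ⟨x, hx, rfl⟩ i _
      simpa using hx i
    · rw [Measure.infinitePi_pi _ fun _ _ => MeasurableSet.of_discrete]
      have : ∀ i, uniformOn (univ : Set (ZMod (i + 2))) {g i}ᶜ =
          ((i + 1 : ℕ) : ENNReal) / ((i + 2 : ℕ) : ENNReal) := by
        intro i
        rw [uniformOn_univ, ZMod.card, ← Finset.coe_singleton, ← Finset.coe_compl,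
          Measure.count_apply_finset, Finset.card_compl, ZMod.card]
        simp
      simp only [this]
      apply le_of_eq
      induction n with
      | zero => simp
      | succ n ih =>
        rw [Finset.prod_range_succ, ih, div_eq_mul_inv, ← mul_assoc,
          ENNReal.inv_mul_cancel (by simp) (by simp), one_mul]
  refine le_antisymm (ge_of_tendsto' (x := atTop) ?_ h2) zero_le
  exact ENNReal.tendsto_inv_nat_nhds_zero.comp (tendsto_add_atTop_nat 1)

theorem A_meager : HaarMeager A := by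
  refine ⟨A, A_closed.measurableSet, subset_rfl, X, inferInstance, inferInstance, inferInstance,
    inferInstance, id, continuous_id, fun g => ?_⟩
  have hc : IsClosed ((fun b => b + g) '' A) := (Homeomorph.addRight g).isClosedMap _ A_closed
  apply IsNowhereDense.isMeagre
  rw [preimage_id, hc.isNowhereDense_iff, eq_empty_iff_forall_notMem]
  intro y hy
  obtain ⟨_, ⟨w, n, rfl⟩, hw, hsub⟩ :=
    (PiNat.isTopologicalBasis_cylinders (fun n => ZMod (n + 2))).exists_subset_of_mem_open hy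
      isOpen_interior
  have : Function.update y n (g n) ∈ PiNat.cylinder w n := by
    rw [PiNat.mem_cylinder_iff] at hw ⊢
    intro i hi
    rw [Function.update_of_ne hi.ne]; exact hw i hi
  obtain ⟨a, ha, e⟩ := interior_subset (hsub this)
  have := congrFun e n
  simp at this
  exact ha n this

instance : PolishSpace X := PolishSpace.mk

end Pool.Agent.H14NF
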