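import Pool.Agent.Lib.helper14.Fock

set_option autoImplicit false

namespace Pool.Agent.Lib.helper14.Pate

open Finset MvPolynomial Pool.Agent.Lib.helper14.Fock

theorem amgm {p q m a b : ℝ} (hp : 0 ≤ p) (hq : 0 ≤ q) (h : m ^ 2 ≤ p * q) :
    2 * m * a * b ≤ p * a ^ 2 + q * b ^ 2 := by
  refine (abs_le_of_sq_le_sq' ?_ (by positivity)).2
  nlinarith [sq_nonneg (p * a ^ 2 - q * b ^ 2), mul_le_mul_of_nonneg_right h (sq_nonneg (a * b))]

noncomputable def g (s t J K : ℝ) : ℝ :=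
  if (s * (J - 1) - t * (K + 1)) * (s * (J - 1) - t * (K + 1) + (s - t)) < 0 then (s - t) ^ 2 / 4 else 0

theorem g_nonneg (s t J K : ℝ) : 0 ≤ g s t J K := by unfold g; split_ifs <;> positivity

theorem g_le {s t J K : ℝ} (ht : 0 ≤ t) (hs : t ≤ s) (hJ : 2 ≤ J) (hK : 0 ≤ K) :
    4 * g s t J K ≤ s * t * (J - 1) * K := by
  have h0 : 0 ≤ s := ht.trans hs
  have hJ1 : 0 ≤ J - 1 := by linarith
  unfold g; split_ifs with h
  · have hD : s * (J - 1) - t * (K + 1) < 0 := by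
      by_contra hD
      push Not at hD
      exact absurd h (not_lt.2 (mul_nonneg hD (by linarith)))
    have h1 : s - t ≤ t * K := by nlinarith
    have h2 : (s - t) ^ 2 ≤ s * (t * K) := by nlinarith
    have h3 : 0 ≤ s * (t * K) * (J - 2) := by have : 0 ≤ J - 2 := by linarith
                                              positivity
    nlinarith
  · have : 0 ≤ s * t * (J - 1) * K := by positivity
    linarith

theorem fin_ineq {s t j k : ℝ} (ht : 0 ≤ t) (hs : t ≤ s) :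
    2 * s * t * ((j + 1) + (k + 1)) ≤
      ((j + 1) * (j + 2) * s ^ 2 - (s * t * (j + 1) * k - g s t (j + 2) k)) +
      ((k + 1) * (k + 2) * t ^ 2 - (s * t * j * (k + 1) + 8 * g s t j (k + 2))) := by
  have h1 := g_nonneg s t (j + 2) k
  obtain ⟨D, hD⟩ : ∃ D, D = s * (j + 1) - t * (k + 1) := ⟨_, rfl⟩
  suffices 8 * g s t j (k + 2) ≤ D * (D + (s - t)) + g s t (j + 2) k by
    rw [hD] at this; linarith
  by_cases h : (s * (j - 1) - t * (k + 2 + 1)) * (s * (j - 1) - t * (k + 2 + 1) + (s - t)) < 0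
  · rw [show g s t j (k + 2) = (s - t) ^ 2 / 4 from if_pos h]
    have h2 : 0 < s * (j - 1) - t * (k + 2 + 1) + (s - t) := by
      by_contra h2
      push Not at h2
      exact absurd h (not_lt.2 (mul_nonneg_of_nonpos_of_nonpos (by linarith) h2))
    have h3 : s - t ≤ D := by linarith
    nlinarith
  · rw [show g s t j (k + 2) = 0 from if_neg h]
    unfold g
    rw [show s * (j + 2 - 1) - t * (k + 1) = D by rw [hD]; ring]
    split_ifs with h2
    · nlinarith [sq_nonneg (D + (s - t) / 2)]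
    · linarith

noncomputable def pp (s t J K : ℝ) : ℝ := (s * t * (J - 1) * K - g s t J K) / ((J - 1) * J)
noncomputable def qq (s t J K : ℝ) : ℝ := (s * t * J * (K - 1) + 8 * g s t J K) / ((K - 1) * K)

theorem pair {s t J K : ℝ} (ht : 0 ≤ t) (hs : t ≤ s) (hJ : 0 ≤ J) (hK : 0 ≤ K) (F G : ℂ)
    (hF : J < 2 → F = 0) (hG : K < 2 → G = 0) :
    (s ^ 2 - pp s t J K) * ‖F‖ ^ 2 + (t ^ 2 - qq s t J K) * ‖G‖ ^ 2 ≤ ‖s * F - t * G‖ ^ 2 := by
  have h0 : 0 ≤ s := ht.trans hs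
  have hg := g_nonneg s t J K
  have h1 : (s * ‖F‖ - t * ‖G‖) ^ 2 ≤ ‖s * F - t * G‖ ^ 2 := by
    have := abs_norm_sub_norm_le (s * F) (t * G)
    rw [norm_mul, norm_mul, Complex.norm_real, Complex.norm_real, Real.norm_of_nonneg h0,
      Real.norm_of_nonneg ht] at this
    exact sq_le_sq' (abs_le.1 this).1 (abs_le.1 this).2
  suffices 2 * (s * t) * ‖F‖ * ‖G‖ ≤ pp s t J K * ‖F‖ ^ 2 + qq s t J K * ‖G‖ ^ 2 by linarith
  have hp : 2 ≤ J → 0 ≤ pp s t J K := fun h => by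
    have := g_le ht hs h hK
    exact div_nonneg (by linarith) (mul_nonneg (by linarith) hJ)
  have hq : 2 ≤ K → 0 ≤ qq s t J K := fun h => by
    have : 0 ≤ K - 1 := by linarith
    unfold qq; positivity
  rcases lt_or_ge J 2 with h2 | h2 <;> rcases lt_or_ge K 2 with h3 | h3
  · simp [hF h2, hG h3]
  · rw [hF h2, norm_zero]; nlinarith [mul_nonneg (hq h3) (sq_nonneg ‖G‖)]
  · rw [hG h3, norm_zero]; nlinarith [mul_nonneg (hp h2) (sq_nonneg ‖F‖)]
  · refine amgm (hp h2) (hq h3) ?_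
    have h4 := g_le ht hs h2 hK
    have hJ1 : 0 < J - 1 := by linarith
    have hK1 : 0 < K - 1 := by linarith
    have hJ0 : 0 < J := by linarith
    have hK0 : 0 < K := by linarith
    unfold pp qq
    rw [div_mul_div_comm, le_div_iff₀ (by positivity)]
    have h5 : s * t * (J * (K - 1)) ≤ s * t * (6 * ((J - 1) * K)) :=
      mul_le_mul_of_nonneg_left (by nlinarith) (by positivity)
    have h6 : 0 ≤ g s t J K * (8 * (s * t) * (J - 1) * K - s * t * (J * (K - 1)) - 8 * g s t J K) :=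
      mul_nonneg hg (by linarith)
    linarith

variable {σ : Type} [Fintype σ] [DecidableEq σ]

noncomputable def N (φ : (σ →₀ ℕ) → ℝ) (f : MvPolynomial σ ℂ) : ℝ :=
  ∑ γ ∈ f.support, φ γ * ‖coeff γ f‖ ^ 2

omit [Fintype σ] [DecidableEq σ] in
theorem N_eq (φ : (σ →₀ ℕ) → ℝ) (f : MvPolynomial σ ℂ) (S : Finset (σ →₀ ℕ)) (h : f.support ⊆ S) :
    N φ f = ∑ γ ∈ S, φ γ * ‖coeff γ f‖ ^ 2 :=
  sum_subset h fun γ _ hγ => by simp [notMem_support_iff.1 hγ]

omit [Fintype σ] [DecidableEq σ] in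
theorem N_X (φ : (σ →₀ ℕ) → ℝ) (f : MvPolynomial σ ℂ) (a : σ) :
    N φ (X a * f) = N (fun γ => φ (Finsupp.single a 1 + γ)) f := by
  unfold N
  rw [support_X_mul, sum_map]
  simp [coeff_X_mul]

omit [Fintype σ] in
theorem coeff_XX (f : MvPolynomial σ ℂ) (a : σ) (γ : σ →₀ ℕ) (h : (γ a : ℝ) < 2) :
    coeff γ (X a * (X a * f)) = 0 := by
  have h : γ a < 2 := by exact_mod_cast h
  rw [coeff_X_mul', coeff_X_mul']
  split_ifs with h1 h2
  · simp at h2; omega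
  all_goals rfl

theorem main {s t : ℝ} (ht : 0 ≤ t) (hs : t ≤ s) (x y : σ) (hxy : x ≠ y) (R : MvPolynomial σ ℂ) :
    2 * s * t * (N (fun γ => wt γ) (X x * R) + N (fun γ => wt γ) (X y * R)) ≤
      N (fun γ => wt γ) (C (s : ℂ) * (X x * (X x * R)) - C (t : ℂ) * (X y * (X y * R))) := by
  calc _ ≤ N (fun γ => wt γ * (s ^ 2 - pp s t (γ x) (γ y))) (X x * (X x * R)) +
        N (fun γ => wt γ * (t ^ 2 - qq s t (γ x) (γ y))) (X y * (X y * R)) := by
        simp only [N_X]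
        unfold N
        rw [← sum_add_distrib, ← sum_add_distrib, mul_sum]
        refine sum_le_sum fun γ _ => ?_
        simp only [wt_add, Finsupp.add_apply, Finsupp.single_eq_same, Finsupp.single_eq_of_ne hxy,
          Finsupp.single_eq_of_ne hxy.symm, zero_add]
        push_cast
        have := fin_ineq (j := γ x) (k := γ y) ht hs
        have h2 : 0 ≤ (wt γ : ℝ) * ‖coeff γ R‖ ^ 2 := by positivity
        have h3 := mul_le_mul_of_nonneg_left this h2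
        have e1 : (1 + (1 + (γ x : ℝ))) = γ x + 2 := by ring
        have e2 : (1 + (1 + (γ y : ℝ))) = γ y + 2 := by ring
        rw [e1, e2]
        unfold pp qq
        have e3 : (γ x : ℝ) + 2 - 1 = γ x + 1 := by ring
        have e4 : (γ y : ℝ) + 2 - 1 = γ y + 1 := by ring
        rw [e3, e4]
        convert h3 using 1
        · ring
        · field_simp
          ring
    _ ≤ _ := by
        have hF := coeff_XX R x
        have hG := coeff_XX R y
        generalize X x * (X x * R) = F at hF ⊢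
        generalize X y * (X y * R) = G at hG ⊢
        rw [N_eq _ F (F.support ∪ G.support) subset_union_left,
          N_eq _ G (F.support ∪ G.support) subset_union_right,
          N_eq _ _ (F.support ∪ G.support), ← sum_add_distrib]
        · refine sum_le_sum fun γ _ => ?_
          have := pair ht hs (Nat.cast_nonneg (γ x)) (Nat.cast_nonneg (γ y)) _ _ (hF γ) (hG γ)
          have h3 := mul_le_mul_of_nonneg_left this (Nat.cast_nonneg (α := ℝ) (wt γ))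
          rw [coeff_sub, coeff_C_mul, coeff_C_mul]
          linarith
        · intro γ hγ
          by_contra h
          simp only [mem_union, not_or, notMem_support_iff] at h
          simp [coeff_C_mul, h.1, h.2] at hγ

open scoped InnerProductSpace in
theorem unit {E : Type} [NormedAddCommGroup E] [InnerProductSpace ℂ E] (z : E) :
    ∃ x : E, (∀ v, ⟪x, x⟫_ℂ * ⟪x, v⟫_ℂ = ⟪x, v⟫_ℂ) ∧ z = (‖z‖ : ℂ) • x ∧
      (‖z‖ : ℂ) * ⟪x, x⟫_ℂ = ‖z‖ ∧ ∃ c : ℝ, x = (c : ℂ) • z := by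
  by_cases h : z = 0
  · exact ⟨0, by simp, by simp [h], by simp [h], 0, by simp⟩
  · have hn : (‖z‖ : ℂ) ≠ 0 := by simpa using h
    have : ⟪((‖z‖⁻¹ : ℝ) : ℂ) • z, ((‖z‖⁻¹ : ℝ) : ℂ) • z⟫_ℂ = 1 := by
      rw [inner_smul_left, inner_smul_right, inner_self_eq_norm_sq_to_K]
      simp; field_simp
    refine ⟨((‖z‖⁻¹ : ℝ) : ℂ) • z, fun v => by rw [this, one_mul], ?_, by rw [this, mul_one], _, rfl⟩
    rw [smul_smul]; simp [hn]

open scoped InnerProductSpace in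
theorem norml {E : Type} [NormedAddCommGroup E] [InnerProductSpace ℂ E] (v0 v1 : E) :
    ∃ (u0 u1 : E) (p q : ℂ) (c : ℝ), v0 = p • u0 ∧ v1 = q • u1 ∧ ‖u0‖ = ‖u1‖ ∧ 0 ≤ c ∧
      ⟪u0, u1⟫_ℂ = c := by
  by_cases h0 : v0 = 0
  · exact ⟨v1, v1, 0, 1, ‖v1‖ ^ 2, by simp [h0], by simp, rfl, by positivity,
      by rw [inner_self_eq_norm_sq_to_K]; simp⟩
  by_cases h1 : v1 = 0
  · exact ⟨v0, v0, 1, 0, ‖v0‖ ^ 2, by simp, by simp [h1], rfl, by positivity,
      by rw [inner_self_eq_norm_sq_to_K]; simp⟩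
  obtain ⟨ω, hω, h⟩ := Complex.exists_norm_eq_mul_self ⟪v0, v1⟫_ℂ
  have n0 : (‖v0‖ : ℂ) ≠ 0 := by simpa using h0
  have n1 : (‖v1‖ : ℂ) ≠ 0 := by simpa using h1
  have n2 : ω ≠ 0 := by rintro rfl; simp at hω
  refine ⟨(‖v1‖ : ℂ) • v0, (ω * ‖v0‖) • v1, (‖v1‖ : ℂ)⁻¹, (ω * ‖v0‖)⁻¹,
    ‖v1‖ * ‖v0‖ * ‖⟪v0, v1⟫_ℂ‖, ?_, ?_, ?_, by positivity, ?_⟩
  · rw [smul_smul, inv_mul_cancel₀ n1, one_smul]
  · rw [smul_smul, inv_mul_cancel₀ (mul_ne_zero n2 n0), one_smul]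
  · simp [norm_smul, hω, mul_comm]
  · rw [inner_smul_left, inner_smul_right]
    push_cast
    rw [h]; simp; ring

open scoped InnerProductSpace in
theorem frame {E : Type} [NormedAddCommGroup E] [InnerProductSpace ℂ E] (v0 v1 : E) :
    ∃ (x y : E) (p q : ℂ) (α β : ℝ), β ^ 2 ≤ α ^ 2 ∧ (∀ v, ⟪x, x⟫_ℂ * ⟪x, v⟫_ℂ = ⟪x, v⟫_ℂ) ∧
      (∀ v, ⟪y, y⟫_ℂ * ⟪y, v⟫_ℂ = ⟪y, v⟫_ℂ) ∧ ⟪x, y⟫_ℂ = 0 ∧ α * ⟪x, x⟫_ℂ = α ∧ β * ⟪y, y⟫_ℂ = β ∧
      v0 = (p * α) • x + (p * β) • y ∧ v1 = (q * α) • x + (-(q * β)) • y := by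
  obtain ⟨u0, u1, p, q, c, rfl, rfl, hn, hc, hi⟩ := norml v0 v1
  obtain ⟨x, hx1, hx2, hx3, cx, hx4⟩ := unit (u0 + u1)
  obtain ⟨y, hy1, hy2, hy3, cy, hy4⟩ := unit (u0 - u1)
  refine ⟨x, y, p / 2, q / 2, ‖u0 + u1‖, ‖u0 - u1‖, ?_, hx1, hy1, ?_, hx3, hy3, ?_, ?_⟩
  · rw [@norm_add_sq ℂ, @norm_sub_sq ℂ, hi]; simp; linarith
  · have hi' : ⟪u1, u0⟫_ℂ = c := by rw [← inner_conj_symm, hi]; simp
    rw [hx4, hy4, inner_smul_left, inner_smul_right, inner_add_left, inner_sub_right,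
      inner_sub_right, hi, hi', inner_self_eq_norm_sq_to_K, inner_self_eq_norm_sq_to_K, hn]
    ring
  · rw [mul_smul, mul_smul, ← hx2, ← hy2]; module
  · rw [neg_smul, mul_smul, mul_smul, ← hx2, ← hy2]; module

open scoped InnerProductSpace in
theorem coords {ι κ : Type} [Fintype ι] [DecidableEq ι] (v : κ → EuclideanSpace ℂ ι) (i0 i1 : κ) :
    ∃ (u : κ → (Fin 2 ⊕ ι) → ℂ) (p q : ℂ) (α β : ℝ), β ^ 2 ≤ α ^ 2 ∧
      (∀ i j, ⟪v i, v j⟫_ℂ = ∑ a, u i a * star (u j a)) ∧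
      u i0 = Sum.elim ![p * α, p * β] 0 ∧ u i1 = Sum.elim ![q * α, -(q * β)] 0 := by
  obtain ⟨x, y, p, q, α, β, h, hx, hy, hxy, ha, hb, h0, h1⟩ := frame (v i0) (v i1)
  have hyx : ⟪y, x⟫_ℂ = 0 := by rw [← inner_conj_symm, hxy]; simp
  have key : ∀ (i : κ) (a b : ℂ), v i = (a * α) • x + (b * β) • y →
      (fun a => star (Sum.elim ![⟪x, v i⟫_ℂ, ⟪y, v i⟫_ℂ]
        (v i - ⟪x, v i⟫_ℂ • x - ⟪y, v i⟫_ℂ • y : EuclideanSpace ℂ ι) a)) =
        Sum.elim ![star a * α, star b * β] (0 : ι → ℂ) := by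
    intro i a b hi
    have e1 : ⟪x, v i⟫_ℂ = a * α := by
      rw [hi, inner_add_right, inner_smul_right, inner_smul_right, hxy, mul_assoc, ha]; simp
    have e2 : ⟪y, v i⟫_ℂ = b * β := by
      rw [hi, inner_add_right, inner_smul_right, inner_smul_right, hyx, mul_assoc b, hb]; simp
    rw [e1, e2, hi, add_sub_cancel_left, sub_self]
    ext (a | a)
    · fin_cases a <;> simp
    · simp
  refine ⟨fun i a => star (Sum.elim ![⟪x, v i⟫_ℂ, ⟪y, v i⟫_ℂ]
    (v i - ⟪x, v i⟫_ℂ • x - ⟪y, v i⟫_ℂ • y : EuclideanSpace ℂ ι) a), star p, star q, α, β, h,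
    fun i j => ?_, key i0 p p h0, ?_⟩
  · have e : ∀ a b : EuclideanSpace ℂ ι, ∑ k, star (a k) * b k = ⟪a, b⟫_ℂ := fun a b => by
      simp [PiLp.inner_apply, mul_comm]
    rw [Fintype.sum_sum_type, Fin.sum_univ_two]
    simp only [Sum.elim_inl, Sum.elim_inr, star_star, e, Matrix.cons_val_zero, Matrix.cons_val_one,
      inner_sub_left, inner_sub_right, inner_smul_left, inner_smul_right, hxy, hyx]
    have e1 := hx (v j)
    have e2 := hy (v j)
    simp only [Complex.star_def, inner_conj_symm]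
    linear_combination (-⟪v i, x⟫_ℂ) * e1 - ⟪v i, y⟫_ℂ * e2
  · exact (key i1 q (-q) (by rw [h1, neg_mul])).trans (by simp)

end Pool.Agent.Lib.helper14.Pate
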