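import Mathlib

set_option autoImplicit false

namespace Pool.Agent.H14QDix

section torus
variable {A : Type*} [Ring A] [Algebra ℂ A] (x y : Aˣ) (q : ℂ)

/-- Normal-ordered monomial. -/
noncomputable def mo (a b : ℤ) : A := ((x ^ a * y ^ b : Aˣ) : A)

variable {x y q}

lemma swap1 (hq : q ≠ 0) (h : (x : A) * y = q • ((y : A) * x)) (c : ℤ) :
    (y : A) * ((x ^ c : Aˣ) : A) = q ^ (-c) • (((x ^ c : Aˣ) : A) * y) := by
  have h1 : (y : A) * x = q⁻¹ • ((x : A) * y) := by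
    rw [h, smul_smul, inv_mul_cancel₀ hq, one_smul]
  have h2 : (y : A) * ((x⁻¹ : Aˣ) : A) = q • (((x⁻¹ : Aˣ) : A) * y) := by
    have := congrArg (fun t => ((x⁻¹ : Aˣ) : A) * t * ((x⁻¹ : Aˣ) : A)) h
    simp only [mul_smul_comm, smul_mul_assoc, ← mul_assoc, Units.inv_mul, one_mul] at this
    rw [this, mul_assoc (((x⁻¹ : Aˣ) : A) * y), Units.mul_inv, mul_one]
  induction c using Int.induction_on with
  | zero => simp
  | succ n ih =>
    rw [zpow_add_one, Units.val_mul, ← mul_assoc, ih, smul_mul_assoc, mul_assoc, h1,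
      mul_smul_comm, smul_smul, mul_assoc, neg_add, zpow_add₀ hq, zpow_neg_one]
  | pred n ih =>
    rw [zpow_sub_one, Units.val_mul, ← mul_assoc, ih, smul_mul_assoc, mul_assoc, h2,
      mul_smul_comm, smul_smul, mul_assoc, neg_sub, sub_eq_add_neg (1 : ℤ), zpow_add₀ hq,
      zpow_one, mul_comm q]

lemma swap2 (hq : q ≠ 0) (h : (x : A) * y = q • ((y : A) * x)) (b c : ℤ) :
    ((y ^ b : Aˣ) : A) * ((x ^ c : Aˣ) : A)
      = q ^ (-(b * c)) • (((x ^ c : Aˣ) : A) * ((y ^ b : Aˣ) : A)) := by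
  have h1 := swap1 hq h c
  have h2 : ((y⁻¹ : Aˣ) : A) * ((x ^ c : Aˣ) : A)
      = q ^ c • (((x ^ c : Aˣ) : A) * ((y⁻¹ : Aˣ) : A)) := by
    have := congrArg (fun t => q ^ c • (((y⁻¹ : Aˣ) : A) * t * ((y⁻¹ : Aˣ) : A))) h1
    simp only [mul_smul_comm, smul_mul_assoc, ← mul_assoc, Units.inv_mul, one_mul,
      smul_smul] at this
    rw [this, ← zpow_add₀ hq, add_neg_cancel, zpow_zero, one_smul,
      mul_assoc (((y⁻¹ : Aˣ) : A) * _), Units.mul_inv, mul_one]
  induction b using Int.induction_on with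
  | zero => simp
  | succ n ih =>
    rw [zpow_add_one, Units.val_mul, mul_assoc, h1, mul_smul_comm, ← mul_assoc, ih,
      smul_mul_assoc, smul_smul, mul_assoc, ← zpow_add₀ hq]
    congr 2; ring
  | pred n ih =>
    rw [zpow_sub_one, Units.val_mul, mul_assoc, h2, mul_smul_comm, ← mul_assoc, ih,
      smul_mul_assoc, smul_smul, mul_assoc, ← zpow_add₀ hq]
    congr 2; ring

lemma mo_mul (hq : q ≠ 0) (h : (x : A) * y = q • ((y : A) * x)) (a b c d : ℤ) :
    mo x y a b * mo x y c d = q ^ (-(b * c)) • mo x y (a + c) (b + d) := by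
  simp only [mo, Units.val_mul, zpow_add]
  rw [mul_assoc, ← mul_assoc ((y ^ b : Aˣ) : A), swap2 hq h, smul_mul_assoc, mul_smul_comm]
  simp only [mul_assoc]

omit [Algebra ℂ A] in
lemma mo_zero : mo x y 0 0 = 1 := by simp [mo]

variable (x y q)

/-- The element of weight two. -/
noncomputable def PP : A :=
  mo x y 2 0 + mo x y 0 2 + q⁻¹ • mo x y (-2) (-2) + ((q ^ 3 + 1) / q ^ 2) • mo x y 1 1
    + (1 + q) • mo x y 0 (-1) + (1 + q) • mo x y (-1) 0

/-- The element of weight three. -/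
noncomputable def QQ : A :=
  mo x y 3 0 + mo x y 0 3 + (1 / q ^ 3) • mo x y (-3) (-3)
    + ((q ^ 4 + q ^ 2 + 1) / q ^ 3) • mo x y 2 1 + ((q ^ 4 + q ^ 2 + 1) / q ^ 3) • mo x y 1 2
    + (1 + q + q ^ 2) • mo x y 1 (-1) + (1 + q + q ^ 2) • mo x y (-1) 1
    + ((1 + q + q ^ 2) / q) • mo x y (-1) (-2) + ((1 + q + q ^ 2) / q) • mo x y (-2) (-1)
    + ((q ^ 3 + 3 * q ^ 2 + 2) / q) • mo x y 0 0

variable {x y q}

lemma PQ_comm (hq : q ≠ 0) (h : (x : A) * y = q • ((y : A) * x)) :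
    PP x y q * QQ x y q = QQ x y q * PP x y q := by
  simp only [PP, QQ, mul_add, add_mul, smul_mul_assoc, mul_smul_comm, mo_mul hq h, smul_smul]
  norm_num
  match_scalars <;> field_simp <;> ring

lemma PQ_rel (hq : q ≠ 0) (h : (x : A) * y = q • ((y : A) * x)) :
    QQ x y q * QQ x y q + ((q - 1) ^ 3 / q) • QQ x y q = PP x y q * PP x y q * PP x y q := by
  simp only [PP, QQ, mul_add, add_mul, smul_mul_assoc, mul_smul_comm, mo_mul hq h, smul_smul,
    smul_add]
  norm_num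
  match_scalars <;> field_simp <;> ring

end torus

end Pool.Agent.H14QDix
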