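import Mathlib
import Pool.Agent.Lib.helper14.QDix1

set_option autoImplicit false

namespace Pool.Agent.H14QDix

open Polynomial

section units
variable {A : Type*} [Ring A] [Algebra ℂ A] {R : Type*} [CommRing R] [Algebra ℂ R] [Algebra R A]
  [IsScalarTower ℂ R A]

/-- Span of the monomials of degree at least `k`. -/
noncomputable def JJ (R : Type*) [CommRing R] [Algebra R A] (x y : Aˣ) (k : ℕ) : Submodule R A :=
  Submodule.span R {t | ∃ i j : ℕ, k ≤ i + j ∧ t = mo x y i j}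

variable {x y : Aˣ} {q : ℂ}

lemma csmul_mem (M : Submodule R A) (c : ℂ) {t : A} (ht : t ∈ M) : c • t ∈ M := by
  rw [← algebraMap_smul R c t]; exact M.smul_mem _ ht

omit [Algebra ℂ A] [Algebra ℂ R] [IsScalarTower ℂ R A] in
lemma mo_mem {k : ℕ} (i j : ℕ) (h : k ≤ i + j) : mo x y i j ∈ JJ R x y k :=
  Submodule.subset_span ⟨i, j, h, rfl⟩

lemma JJ_mul (hq : q ≠ 0) (h : (x : A) * y = q • ((y : A) * x)) {k l : ℕ} {s t : A}
    (hs : s ∈ JJ R x y k) (ht : t ∈ JJ R x y l) : s * t ∈ JJ R x y (k + l) := by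
  have : JJ R x y k * JJ R x y l ≤ JJ R x y (k + l) := by
    rw [JJ, JJ, Submodule.span_mul_span, Submodule.span_le]
    rintro _ ⟨_, ⟨i, j, hij, rfl⟩, _, ⟨a, b, hab, rfl⟩, rfl⟩
    show mo x y i j * mo x y a b ∈ JJ R x y (k + l)
    rw [mo_mul hq h]
    refine csmul_mem _ _ ?_
    have := mo_mem (R := R) (x := x) (y := y) (k := k + l) (i + a) (j + b) (by omega)
    push_cast at this
    exact this
  exact this (Submodule.mul_mem_mul hs ht)

omit [Algebra ℂ A] [Algebra ℂ R] [IsScalarTower ℂ R A] in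
lemma JJ_mono {k l : ℕ} (h : k ≤ l) : JJ R x y l ≤ JJ R x y k :=
  Submodule.span_mono (by rintro _ ⟨i, j, hij, rfl⟩; exact ⟨i, j, h.trans hij, rfl⟩)

omit [Algebra ℂ A] [Algebra ℂ R] [IsScalarTower ℂ R A] in
lemma mo_left {n : ℕ} {u : R} (hx : (x : A) ^ n = algebraMap R A u) (i j : ℕ) :
    mo x y ((n + i : ℕ) : ℤ) j = u • mo x y i j := by
  simp only [mo, zpow_natCast, Units.val_mul, Units.val_pow_eq_pow_val, pow_add, hx,
    Algebra.smul_def, mul_assoc]

omit [Algebra ℂ A] [Algebra ℂ R] [IsScalarTower ℂ R A] in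
lemma mo_right {n : ℕ} {v : R} (hy : (y : A) ^ n = algebraMap R A v) (i j : ℕ) :
    mo x y i ((n + j : ℕ) : ℤ) = v • mo x y i j := by
  simp only [mo, zpow_natCast, Units.val_mul, Units.val_pow_eq_pow_val, pow_add, hy]
  rw [← Algebra.smul_def, mul_smul_comm]

omit [Algebra ℂ A] [Algebra ℂ R] [IsScalarTower ℂ R A] in
lemma JJ_fg {n : ℕ} (hn : 0 < n) {u v : R} (hx : (x : A) ^ n = algebraMap R A u)
    (hy : (y : A) ^ n = algebraMap R A v) : (JJ R x y 0).FG := by
  classical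
  refine ⟨(Finset.range n ×ˢ Finset.range n).image fun p => mo x y p.1 p.2, le_antisymm ?_ ?_⟩
  · rw [Submodule.span_le]
    intro t ht
    simp only [Finset.coe_image, Set.mem_image] at ht
    obtain ⟨p, -, rfl⟩ := ht
    exact mo_mem _ _ (Nat.zero_le _)
  · rw [JJ, Submodule.span_le]
    rintro _ ⟨i, j, -, rfl⟩
    induction hm : i + j using Nat.strong_induction_on generalizing i j with
    | _ m ih =>
      by_cases hi : n ≤ i
      · obtain ⟨a, rfl⟩ := Nat.exists_eq_add_of_le hi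
        rw [mo_left hx]
        exact Submodule.smul_mem _ _ (ih (a + j) (by omega) a j rfl)
      by_cases hj : n ≤ j
      · obtain ⟨a, rfl⟩ := Nat.exists_eq_add_of_le hj
        rw [mo_right hy]
        exact Submodule.smul_mem _ _ (ih (i + a) (by omega) i a rfl)
      refine Submodule.subset_span ?_
      simp only [Finset.coe_image, Set.mem_image]
      exact ⟨(i, j), by simp; omega, rfl⟩

omit [Algebra ℂ A] [Algebra ℂ R] [IsScalarTower ℂ R A] in
lemma JJ_le {n : ℕ} {u v : R} (hx : (x : A) ^ n = algebraMap R A u)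
    (hy : (y : A) ^ n = algebraMap R A v) {I : Ideal R} (hu : u ∈ I) (hv : v ∈ I) :
    JJ R x y (2 * n) ≤ I • JJ R x y 0 := by
  rw [JJ, Submodule.span_le]
  rintro _ ⟨i, j, hij, rfl⟩
  by_cases hi : n ≤ i
  · obtain ⟨a, rfl⟩ := Nat.exists_eq_add_of_le hi
    rw [mo_left hx]
    exact Submodule.smul_mem_smul hu (mo_mem _ _ (Nat.zero_le _))
  · obtain ⟨a, rfl⟩ := Nat.exists_eq_add_of_le (show n ≤ j by omega)
    rw [mo_right hy]
    exact Submodule.smul_mem_smul hv (mo_mem _ _ (Nat.zero_le _))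

lemma one_sub_unit (hq : q ≠ 0) (h : (x : A) * y = q • ((y : A) * x))
    {n : ℕ} (hn : 0 < n) {u v : R} (hx : (x : A) ^ n = algebraMap R A u)
    (hy : (y : A) ^ n = algebraMap R A v) {I : Ideal R} (hu : u ∈ I) (hv : v ∈ I)
    (hI : ∀ r : R, r - 1 ∈ I → IsUnit (algebraMap R A r)) {N : A} (hN : N ∈ JJ R x y 1) :
    IsUnit (1 - N) := by
  have h1 : (1 : A) ∈ JJ R x y 0 := by
    have := mo_mem (R := R) (x := x) (y := y) (k := 0) 0 0 le_rfl
    rwa [Nat.cast_zero, mo_zero] at this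
  have hp : ∀ k, N ^ k ∈ JJ R x y k := by
    intro k
    induction k with
    | zero => simpa using h1
    | succ k ih => rw [pow_succ]; exact JJ_mul hq h ih hN
  have hg : (∑ i ∈ Finset.range (2 * n), N ^ i) ∈ JJ R x y 0 :=
    Submodule.sum_mem _ fun i _ => JJ_mono (Nat.zero_le _) (hp i)
  have key : ∀ T : A →ₗ[R] A, (∀ t ∈ JJ R x y 0, ∃ s ∈ JJ R x y 0, t - T s ∈ JJ R x y (2 * n)) →
      ∃ r s, IsUnit (algebraMap R A r) ∧ T s = algebraMap R A r := by
    intro T hT
    obtain ⟨r, hr, hle⟩ := Submodule.exists_sub_one_mem_and_smul_le_of_fg_of_le_sup (I := I)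
      (N := LinearMap.range T) (JJ_fg hn hx hy) le_rfl (by
        intro t ht
        obtain ⟨s, -, hs⟩ := hT t ht
        have : t = T s + (t - T s) := by abel
        rw [this]
        exact Submodule.add_mem_sup ⟨s, rfl⟩ (JJ_le hx hy hu hv hs))
    obtain ⟨s, hs⟩ := hle (Submodule.smul_mem_pointwise_smul _ r _ h1)
    exact ⟨r, s, hI r hr, by rw [hs, Algebra.algebraMap_eq_smul_one]⟩
  obtain ⟨r, s, hr, hs⟩ := key (LinearMap.mulLeft R (1 - N)) (by
    intro t ht
    refine ⟨(∑ i ∈ Finset.range (2 * n), N ^ i) * t, by simpa using JJ_mul hq h hg ht, ?_⟩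
    rw [LinearMap.mulLeft_apply, ← mul_assoc, mul_neg_geom_sum, sub_mul, one_mul, sub_sub_cancel]
    simpa using JJ_mul hq h (hp (2 * n)) ht)
  obtain ⟨r', s', hr', hs'⟩ := key (LinearMap.mulRight R (1 - N)) (by
    intro t ht
    refine ⟨t * (∑ i ∈ Finset.range (2 * n), N ^ i), by simpa using JJ_mul hq h ht hg, ?_⟩
    rw [LinearMap.mulRight_apply, mul_assoc, geom_sum_mul_neg, mul_sub, mul_one, sub_sub_cancel]
    simpa using JJ_mul hq h ht (hp (2 * n)))
  rw [LinearMap.mulLeft_apply] at hs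
  rw [LinearMap.mulRight_apply] at hs'
  obtain ⟨w, hw⟩ := hr
  obtain ⟨w', hw'⟩ := hr'
  have e1 : (1 - N) * (s * ↑w⁻¹) = 1 := by rw [← mul_assoc, hs, ← hw, Units.mul_inv]
  have e2 : (↑w'⁻¹ * s') * (1 - N) = 1 := by rw [mul_assoc, hs', ← hw', Units.inv_mul]
  exact ⟨⟨1 - N, s * ↑w⁻¹, e1, by rw [← left_inv_eq_right_inv e2 e1, e2]⟩, rfl⟩

lemma P_sub_unit (hq : q ≠ 0) (h : (x : A) * y = q • ((y : A) * x))
    {n : ℕ} (hn : 0 < n) {u v : R} (hx : (x : A) ^ n = algebraMap R A u)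
    (hy : (y : A) ^ n = algebraMap R A v) {I : Ideal R} (hu : u ∈ I) (hv : v ∈ I)
    (hI : ∀ r : R, r - 1 ∈ I → IsUnit (algebraMap R A r)) (l : ℂ) :
    IsUnit (PP x y q - algebraMap ℂ A l) := by
  have hm : ∀ i j : ℕ, 1 ≤ i + j → mo x y i j ∈ JJ R x y 1 := fun i j => mo_mem i j
  have e : (q ^ (-3 : ℤ) • mo x y 2 2) * (PP x y q - algebraMap ℂ A l) =
      1 - (-(q ^ (-7 : ℤ)) • mo x y 4 2 - q ^ (-3 : ℤ) • mo x y 2 4
        - ((q ^ 3 + 1) / q ^ 7) • mo x y 3 3 - ((1 + q) / q ^ 3) • mo x y 2 1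
        - ((1 + q) / q) • mo x y 1 2 + (l / q ^ 3) • mo x y 2 2) := by
    rw [Algebra.algebraMap_eq_smul_one, ← mo_zero (x := x) (y := y)]
    simp only [PP, mul_add, mul_sub, smul_mul_assoc, mul_smul_comm, mo_mul hq h, smul_smul]
    norm_num
    match_scalars <;> field_simp
  have hU : IsUnit ((q ^ (-3 : ℤ) • mo x y 2 2) * (PP x y q - algebraMap ℂ A l)) := by
    rw [e]
    refine one_sub_unit hq h hn hx hy hu hv hI ?_
    refine add_mem (sub_mem (sub_mem (sub_mem (sub_mem ?_ ?_) ?_) ?_) ?_) ?_ <;>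
      refine csmul_mem _ _ ?_
    · exact hm 4 2 (by norm_num)
    · exact hm 2 4 (by norm_num)
    · exact hm 3 3 (by norm_num)
    · exact hm 2 1 (by norm_num)
    · exact hm 1 2 (by norm_num)
    · exact hm 2 2 (by norm_num)
  have hV : IsUnit (q ^ (-3 : ℤ) • mo x y 2 2) := by
    rw [Algebra.smul_def]
    exact ((IsUnit.mk0 _ (zpow_ne_zero _ hq)).map (algebraMap ℂ A)).mul (Units.isUnit _)
  obtain ⟨w, hw⟩ := hV
  rw [← hw] at hU
  exact (Units.isUnit_units_mul w _).1 hU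

end units

section curve

/-- The defining quadratic of the elliptic function field. -/
noncomputable def ff (d : ℂ) : (RatFunc ℂ)[X] :=
  X ^ 2 + C (algebraMap ℂ (RatFunc ℂ) d) * X - C (RatFunc.X ^ 3)

lemma ff_monic (d : ℂ) : (ff d).Monic := by
  unfold ff; monicity!

lemma ff_deg (d : ℂ) : (ff d).natDegree = 2 := by
  unfold ff; compute_degree!

lemma const_of (d : ℂ) (hd : d ≠ 0) (s t : RatFunc ℂ)
    (h : t ^ 2 + algebraMap ℂ _ d * t = s ^ 3) : ∃ c : ℂ, s ^ 3 = algebraMap ℂ _ c := by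
  classical
  set a := t.num
  set b := t.denom
  have hb : b ≠ 0 := t.denom_ne_zero
  have hb' : algebraMap ℂ[X] (RatFunc ℂ) b ≠ 0 := RatFunc.algebraMap_ne_zero hb
  have ht : t = algebraMap ℂ[X] _ a / algebraMap ℂ[X] _ b := (RatFunc.num_div_denom t).symm
  have hab : IsCoprime a b := t.isCoprime_num_denom
  have hC : ∀ c : ℂ, algebraMap ℂ[X] (RatFunc ℂ) (C c) = algebraMap ℂ _ c := fun c => by
    rw [IsScalarTower.algebraMap_apply ℂ ℂ[X] (RatFunc ℂ)]; rfl
  have fin : ∀ c : ℂ, t = algebraMap ℂ _ c → ∃ c : ℂ, s ^ 3 = algebraMap ℂ _ c := by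
    rintro c hc
    exact ⟨c ^ 2 + d * c, by rw [← h, hc]; simp⟩
  by_cases ha : a = 0
  · exact fin 0 (by rw [ht, ha]; simp)
  by_cases ha' : a + C d * b = 0
  · refine fin (-d) ?_
    rw [ht, eq_neg_of_add_eq_zero_left ha', map_neg, map_mul, hC, map_neg]
    field_simp
  have e : (s * algebraMap ℂ[X] _ b) ^ 3 = algebraMap ℂ[X] _ (a * (a + C d * b) * b) := by
    rw [mul_pow, ← h, ht]
    simp only [map_mul, map_add, hC]
    field_simp
  obtain ⟨m, hm⟩ : ∃ m : ℂ[X], algebraMap ℂ[X] (RatFunc ℂ) m = s * algebraMap ℂ[X] _ b := by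
    refine IsIntegrallyClosed.isIntegral_iff.1 (IsIntegral.of_pow (n := 3) (by norm_num) ?_)
    rw [e]; exact isIntegral_algebraMap
  have e' : m ^ 3 = a * (a + C d * b) * b := by
    apply IsFractionRing.injective ℂ[X] (RatFunc ℂ)
    rw [map_pow, hm, e]
  have hm0 : m ≠ 0 := by
    rintro rfl
    exact mul_ne_zero (mul_ne_zero ha ha') hb (by rw [← e']; simp)
  have hdb : C d * b ≠ 0 := mul_ne_zero (C_ne_zero.2 hd) hb
  have hcop : IsCoprime a (C d * b) :=
    (isCoprime_mul_unit_left_right (isUnit_C.2 (IsUnit.mk0 d hd)) _ _).2 hab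
  rcases Polynomial.abc ha hdb (neg_ne_zero.2 ha') hcop (by ring) with ⟨h1, h2, h3⟩ | ⟨h1, h2, -⟩
  · exfalso
    have e2 : a * (C d * b) * -(a + C d * b) = C (-d) * m ^ 3 := by rw [e', map_neg]; ring
    rw [e2, UniqueFactorizationMonoid.radical_mul_of_isUnit_left
      (isUnit_C.2 (IsUnit.mk0 _ (neg_ne_zero.2 hd))),
      UniqueFactorizationMonoid.radical_pow _ (by norm_num)] at h1 h2 h3
    have hr := natDegree_le_of_dvd (UniqueFactorizationMonoid.radical_dvd_self (a := m)) hm0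
    have hdeg := congrArg natDegree e'
    rw [natDegree_pow, natDegree_mul (mul_ne_zero ha ha') hb, natDegree_mul ha ha'] at hdeg
    rw [natDegree_C_mul hd] at h2
    rw [natDegree_neg] at h3
    omega
  · rw [derivative_C_mul, mul_eq_zero_iff_left (C_ne_zero.2 hd)] at h2
    obtain ⟨a0, ha0⟩ := natDegree_eq_zero.1 (derivative_eq_zero.1 h1)
    obtain ⟨b0, hb0⟩ := natDegree_eq_zero.1 (derivative_eq_zero.1 h2)
    exact fin (a0 / b0) (by rw [ht, ← ha0, ← hb0, hC, hC, map_div₀])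

lemma ff_irr (d : ℂ) (hd : d ≠ 0) : Irreducible (ff d) := by
  refine (Polynomial.irreducible_iff_roots_eq_zero_of_degree_le_three (by rw [ff_deg])
    (by rw [ff_deg]; norm_num)).2 ?_
  rw [Multiset.eq_zero_iff_forall_notMem]
  intro t ht
  have h0 := (mem_roots (ff_monic d).ne_zero).1 ht
  simp only [ff, IsRoot, eval_sub, eval_add, eval_pow, eval_X, eval_mul, eval_C] at h0
  obtain ⟨c, hc⟩ := const_of d hd RatFunc.X t (sub_eq_zero.1 h0)
  have : (X ^ 3 : ℂ[X]) = C c := by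
    apply IsFractionRing.injective ℂ[X] (RatFunc ℂ)
    rw [map_pow, RatFunc.algebraMap_X, hc, IsScalarTower.algebraMap_apply ℂ ℂ[X] (RatFunc ℂ)]
    rfl
  have := congrArg natDegree this
  simp at this

lemma trdeg_one (d : ℂ) [Fact (Irreducible (ff d))] : Algebra.trdeg ℂ (AdjoinRoot (ff d)) = 1 := by
  have : Module.Finite (RatFunc ℂ) (AdjoinRoot (ff d)) := (ff_monic d).finite_adjoinRoot
  have h1 := trdeg_add_eq ℂ (RatFunc ℂ) (A := AdjoinRoot (ff d))
  have h2 := trdeg_add_eq ℂ ℂ[X] (A := RatFunc ℂ)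
  have : Algebra.IsAlgebraic ℂ[X] (RatFunc ℂ) := IsLocalization.isAlgebraic _ (nonZeroDivisors _)
  rw [trdeg_eq_zero (R := ℂ[X]), Polynomial.trdeg_of_isDomain, add_zero] at h2
  rw [trdeg_eq_zero (R := RatFunc ℂ), ← h2, add_zero] at h1
  exact h1.symm

lemma root_eq (d : ℂ) : (AdjoinRoot.root (ff d)) ^ 2 + algebraMap ℂ _ d * AdjoinRoot.root (ff d)
    = (algebraMap (RatFunc ℂ) _ RatFunc.X) ^ 3 := by
  have := AdjoinRoot.eval₂_root (ff d)
  conv at this => lhs; arg 3; unfold ff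
  simp only [eval₂_sub, eval₂_add, eval₂_mul, eval₂_C, eval₂_X, eval₂_pow] at this
  rw [sub_eq_zero] at this
  rw [IsScalarTower.algebraMap_apply ℂ (RatFunc ℂ) (AdjoinRoot (ff d)), ← map_pow]
  simpa using this

lemma not_rat (d : ℂ) (hd : d ≠ 0) [Fact (Irreducible (ff d))] :
    IsEmpty (AdjoinRoot (ff d) ≃ₐ[ℂ] RatFunc ℂ) := by
  refine ⟨fun e => ?_⟩
  have h := congrArg e (root_eq d)
  simp only [map_add, map_mul, map_pow, AlgEquiv.commutes] at h
  obtain ⟨c, hc⟩ := const_of d hd _ _ h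
  rw [← map_pow, ← e.commutes, e.injective.eq_iff,
    IsScalarTower.algebraMap_apply ℂ (RatFunc ℂ) (AdjoinRoot (ff d)), ← map_pow] at hc
  have hc' := (algebraMap (RatFunc ℂ) (AdjoinRoot (ff d))).injective hc
  have : (X ^ 3 : ℂ[X]) = C c := by
    apply IsFractionRing.injective ℂ[X] (RatFunc ℂ)
    rw [map_pow, RatFunc.algebraMap_X, hc', IsScalarTower.algebraMap_apply ℂ ℂ[X] (RatFunc ℂ)]
    rfl
  have := congrArg natDegree this
  simp at this

lemma exists_hom_comm {B : Type*} [CommRing B] [Algebra ℂ B] (d : ℂ) (P Q : B)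
    (hu : ∀ l : ℂ, IsUnit (P - algebraMap ℂ B l)) (hr : Q * Q + d • Q = P * P * P) :
    Nonempty (AdjoinRoot (ff d) →ₐ[ℂ] B) := by
  have hp : ∀ p : nonZeroDivisors ℂ[X], IsUnit (aeval P (p : ℂ[X])) := by
    rintro ⟨p, hp⟩
    have hp0 : p ≠ 0 := nonZeroDivisors.ne_zero hp
    have hs := (IsAlgClosed.splits p).eq_prod_roots
    show IsUnit (aeval P p)
    rw [hs, map_mul, aeval_C, map_multiset_prod, Multiset.map_map]
    refine ((IsUnit.mk0 _ (leadingCoeff_ne_zero.2 hp0)).map _).mul ?_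
    refine Multiset.prod_induction _ _ (fun _ _ => IsUnit.mul) isUnit_one ?_
    intro z hz
    obtain ⟨l, -, rfl⟩ := Multiset.mem_map.1 hz
    simpa using hu l
  let g : RatFunc ℂ →ₐ[ℂ] B := IsLocalization.liftAlgHom (M := nonZeroDivisors ℂ[X]) hp
  have gX : g RatFunc.X = P := by
    rw [← RatFunc.algebraMap_X]
    simp only [g, IsLocalization.liftAlgHom_apply, IsLocalization.lift_eq]
    simp
  refine ⟨AdjoinRoot.liftAlgHom (ff d) g Q ?_⟩
  simp only [ff, eval₂_sub, eval₂_add, eval₂_mul, eval₂_C, eval₂_X, eval₂_pow]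
  simp only [RingHom.coe_coe, AlgHom.commutes, map_pow, gX]
  rw [← Algebra.smul_def, sq, hr]; ring

lemma exists_hom {A : Type*} [Ring A] [Algebra ℂ A] (d : ℂ) (P Q : A) (hc : P * Q = Q * P)
    (hu : ∀ l : ℂ, IsUnit (P - algebraMap ℂ A l)) (hr : Q * Q + d • Q = P * P * P) :
    Nonempty (AdjoinRoot (ff d) →ₐ[ℂ] A) := by
  let S : Set A := {P, Q}
  let B : Subalgebra ℂ A := Subalgebra.centralizer ℂ (Set.centralizer S)
  have hS : S ⊆ Set.centralizer S := by
    rintro a (rfl | rfl) b (rfl | rfl) <;> simp [hc]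
  have hP : P ∈ B := Set.subset_centralizer_centralizer (S := S) (by simp [S])
  have hQ : Q ∈ B := Set.subset_centralizer_centralizer (S := S) (by simp [S])
  have hB : ∀ a ∈ B, a ∈ Set.centralizer S := fun a ha m hm => ha m (hS hm)
  let _ : CommRing B := { (inferInstance : Ring B) with
    mul_comm := fun a b => Subtype.ext (b.2 a (hB a a.2)) }
  obtain ⟨g⟩ := exists_hom_comm (B := B) d ⟨P, hP⟩ ⟨Q, hQ⟩ (by
    intro l
    obtain ⟨w, hw⟩ := hu l
    have hw1 : (w : A) ∈ B := hw ▸ sub_mem hP (B.algebraMap_mem l)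
    have hw2 : ((w⁻¹ : Aˣ) : A) ∈ B := fun m hm =>
      (Commute.units_inv_right (show Commute m w from hw1 m hm)).eq
    exact IsUnit.of_mul_eq_one ⟨_, hw2⟩ (Subtype.ext (by simp [← hw]))) (Subtype.ext hr)
  exact ⟨B.val.comp g⟩

end curve

section rep

lemma exists_rep {K : Type*} [Field K] (n : ℕ) [NeZero n] (z s t : K) (hz : z ^ n = 1) :
    ∃ a b : Module.End K (ZMod n → K), a ^ n = algebraMap K _ (s ^ n) ∧
      b ^ n = algebraMap K _ (t ^ n) ∧ a * b = algebraMap K _ z * (b * a) := by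
  let a : Module.End K (ZMod n → K) :=
    { toFun := fun f i => s * z ^ i.val * f i
      map_add' := fun f g => by ext i; simp [mul_add]
      map_smul' := fun c f => by ext i; simp; ring }
  let b : Module.End K (ZMod n → K) :=
    { toFun := fun f i => t * f (i - 1)
      map_add' := fun f g => by ext i; simp [mul_add]
      map_smul' := fun c f => by ext i; simp; ring }
  have ha : ∀ (k : ℕ) f i, (a ^ k) f i = (s * z ^ i.val) ^ k * f i := by
    intro k
    induction k with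
    | zero => simp
    | succ k ih => intro f i; rw [pow_succ, Module.End.mul_apply, ih]; simp [a]; ring
  have hb : ∀ (k : ℕ) f i, (b ^ k) f i = t ^ k * f (i - k) := by
    intro k
    induction k with
    | zero => simp
    | succ k ih =>
      intro f i; rw [pow_succ, Module.End.mul_apply, ih]
      simp only [b, LinearMap.coe_mk, AddHom.coe_mk, Nat.cast_add, Nat.cast_one, sub_sub]; ring
  refine ⟨a, b, ?_, ?_, ?_⟩
  · refine LinearMap.ext fun f => funext fun i => ?_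
    rw [ha, mul_pow, ← pow_mul, mul_comm i.val, pow_mul, hz, Module.algebraMap_end_apply]
    simp
  · refine LinearMap.ext fun f => funext fun i => ?_
    rw [hb, Module.algebraMap_end_apply]
    simp
  · refine LinearMap.ext fun f => funext fun i => ?_
    have : z ^ i.val = z * z ^ (i - 1).val := by
      rw [← pow_succ', pow_eq_pow_mod _ hz, pow_eq_pow_mod ((i - 1).val + 1) hz]
      congr 1
      rw [← ZMod.natCast_eq_natCast_iff']
      simp
    simp [a, b, this]; ring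

end rep

end Pool.Agent.H14QDix
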