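import Mathlib
import Pool.Agent.Lib.helper14.QDix2

set_option autoImplicit false

namespace Pool.Agent.H14QDix

/-- The polynomial ring in two variables. -/
abbrev R := MvPolynomial (Fin 2) ℂ
/-- Its fraction field. -/
abbrev F := FractionRing R

theorem main (n : ℕ) (hn : 2 ≤ n) (ζ : ℂ) (hζ : IsPrimitiveRoot ζ n)
    (r : FreeAlgebra F (Fin 2) → FreeAlgebra F (Fin 2) → Prop)
    (hr : ∀ a b, r a b ↔
      (a = FreeAlgebra.ι F (0 : Fin 2) ^ n ∧
        b = algebraMap F (FreeAlgebra F (Fin 2)) (algebraMap R F (MvPolynomial.X (0 : Fin 2)))) ∨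
      (a = FreeAlgebra.ι F (1 : Fin 2) ^ n ∧
        b = algebraMap F (FreeAlgebra F (Fin 2)) (algebraMap R F (MvPolynomial.X (1 : Fin 2)))) ∨
      (a = FreeAlgebra.ι F (0 : Fin 2) * FreeAlgebra.ι F (1 : Fin 2) ∧
        b = algebraMap ℂ (FreeAlgebra F (Fin 2)) ζ *
          (FreeAlgebra.ι F (1 : Fin 2) * FreeAlgebra.ι F (0 : Fin 2)))) :
    ∃ (L : Type) (_ : Field L) (_ : Algebra ℂ L) (f : L →ₐ[ℂ] RingQuot r),
      Function.Injective f ∧ Algebra.trdeg ℂ L = 1 ∧ IsEmpty (L ≃ₐ[ℂ] RatFunc ℂ) := by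
  have hn0 : 0 < n := by omega
  have : NeZero n := ⟨by omega⟩
  have hq : ζ ≠ 0 := hζ.ne_zero (by omega)
  have hq1 : ζ ≠ 1 := hζ.ne_one (by omega)
  have hd : (ζ - 1) ^ 3 / ζ ≠ 0 := div_ne_zero (pow_ne_zero _ (sub_ne_zero.2 hq1)) hq
  have : Fact (Irreducible (ff ((ζ - 1) ^ 3 / ζ))) := ⟨ff_irr _ hd⟩
  refine ⟨AdjoinRoot (ff ((ζ - 1) ^ 3 / ζ)), inferInstance, inferInstance, ?_⟩
  let x : RingQuot r := RingQuot.mkAlgHom F r (FreeAlgebra.ι F 0)
  let y : RingQuot r := RingQuot.mkAlgHom F r (FreeAlgebra.ι F 1)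
  have hRF : ∀ p : R, algebraMap R (RingQuot r) p = algebraMap F _ (algebraMap R F p) :=
    fun p => IsScalarTower.algebraMap_apply R F (RingQuot r) p
  have hx : x ^ n = algebraMap R _ (MvPolynomial.X 0) := by
    rw [hRF, ← map_pow, ← (RingQuot.mkAlgHom F r).commutes]
    exact RingQuot.mkAlgHom_rel F ((hr _ _).2 (Or.inl ⟨rfl, rfl⟩))
  have hy : y ^ n = algebraMap R _ (MvPolynomial.X 1) := by
    rw [hRF, ← map_pow, ← (RingQuot.mkAlgHom F r).commutes]
    exact RingQuot.mkAlgHom_rel F ((hr _ _).2 (Or.inr (Or.inl ⟨rfl, rfl⟩)))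
  have hxy : x * y = ζ • (y * x) := by
    have := RingQuot.mkAlgHom_rel F (s := r) ((hr _ _).2 (Or.inr (Or.inr ⟨rfl, rfl⟩)))
    rw [map_mul, map_mul, map_mul, IsScalarTower.algebraMap_apply ℂ F (FreeAlgebra F (Fin 2)),
      AlgHom.commutes, ← IsScalarTower.algebraMap_apply, ← Algebra.smul_def] at this
    exact this
  have hU : ∀ p : R, p ≠ 0 → IsUnit (algebraMap R (RingQuot r) p) := fun p hp => by
    rw [hRF]
    exact (IsUnit.mk0 _ ((map_ne_zero_iff _ (IsFractionRing.injective R F)).2 hp)).map _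
  obtain ⟨x', hx'⟩ : IsUnit x :=
    (isUnit_pow_iff (by omega : n ≠ 0)).1 (hx ▸ hU _ (MvPolynomial.X_ne_zero _))
  obtain ⟨y', hy'⟩ : IsUnit y :=
    (isUnit_pow_iff (by omega : n ≠ 0)).1 (hy ▸ hU _ (MvPolynomial.X_ne_zero _))
  rw [← hx'] at hx hxy
  rw [← hy'] at hy hxy
  have hP := P_sub_unit (A := RingQuot r) (R := R) hq hxy hn0 hx hy
    (I := RingHom.ker (MvPolynomial.constantCoeff : R →+* ℂ)) (by simp) (by simp) (by
      intro p hp
      refine hU p ?_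
      rintro rfl
      simp at hp)
  obtain ⟨f⟩ := exists_hom _ _ _ (PQ_comm hq hxy) hP (PQ_rel hq hxy)
  have : Nontrivial (RingQuot r) := by
    let K := AlgebraicClosure F
    obtain ⟨s, hs⟩ := IsAlgClosed.exists_pow_nat_eq
      (algebraMap F K (algebraMap R F (MvPolynomial.X 0))) hn0
    obtain ⟨t, ht⟩ := IsAlgClosed.exists_pow_nat_eq
      (algebraMap F K (algebraMap R F (MvPolynomial.X 1))) hn0
    obtain ⟨a, b, ha, hb, hab⟩ := exists_rep n (algebraMap F K (algebraMap ℂ F ζ)) s t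
      (by rw [← map_pow, ← map_pow, hζ.pow_eq_one, map_one, map_one])
    let g : FreeAlgebra F (Fin 2) →ₐ[F] Module.End K (ZMod n → K) := FreeAlgebra.lift F ![a, b]
    let G : RingQuot r →ₐ[F] Module.End K (ZMod n → K) := RingQuot.liftAlgHom F ⟨g, by
      intro _ _ h
      obtain (⟨rfl, rfl⟩ | ⟨rfl, rfl⟩ | ⟨rfl, rfl⟩) := (hr _ _).1 h
      · rw [map_pow, AlgHom.commutes, IsScalarTower.algebraMap_apply F K, ← hs, ← ha]
        simp [g]
      · rw [map_pow, AlgHom.commutes, IsScalarTower.algebraMap_apply F K, ← ht, ← hb]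
        simp [g]
      · rw [map_mul, map_mul, map_mul, IsScalarTower.algebraMap_apply ℂ F (FreeAlgebra F (Fin 2)),
          AlgHom.commutes, IsScalarTower.algebraMap_apply F K]
        simpa [g] using hab⟩
    exact G.toRingHom.domain_nontrivial
  exact ⟨f, f.toRingHom.injective, trdeg_one _, not_rat _ hd⟩

end Pool.Agent.H14QDix
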