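import Mathlib

namespace Pool.Agent.Lib.helper14.QH

open MvPolynomial Topology

/-- the surface `x z (z - 1) = y ^ 2` -/
noncomputable def p : MvPolynomial (Fin 3) ℂ := X 0 * X 2 * (X 2 - 1) - X 1 ^ 2

lemma eval_p (x : Fin 3 → ℂ) : eval x p = x 0 * x 2 * (x 2 - 1) - x 1 ^ 2 := by simp [p]

lemma p_irred : Irreducible p := by
  have h1 : Irreducible (finSuccEquiv ℂ 2 p) := by
    have e : finSuccEquiv ℂ 2 p = Polynomial.C (X 1 * (X 1 - 1)) * Polynomial.X +
        Polynomial.C (-(X 0 ^ 2)) := by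
      have a0 := finSuccEquiv_X_zero (R := ℂ) (n := 2)
      have a1 : finSuccEquiv ℂ 2 (X 1) = Polynomial.C (X 0) := finSuccEquiv_X_succ (j := 0)
      have a2 : finSuccEquiv ℂ 2 (X 2) = Polynomial.C (X 1) := finSuccEquiv_X_succ (j := 1)
      simp only [p, map_sub, map_mul, map_pow, map_one, map_neg, a0, a1, a2]
      ring
    rw [e]
    have hnd : ¬ (X 0 : MvPolynomial (Fin 2) ℂ) ∣ X 1 * (X 1 - 1) := by
      rintro ⟨c, hc⟩
      have := congrArg (eval ![0, 2]) hc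
      norm_num at this
    apply Polynomial.irreducible_C_mul_X_add_C
    · intro h; exact hnd (h ▸ dvd_zero _)
    · have h2 : IsRelPrime (X 0 : MvPolynomial (Fin 2) ℂ) (X 1 * (X 1 - 1)) :=
        (X_prime.irreducible.isRelPrime_iff_not_dvd).2 hnd
      have h3 : IsRelPrime (X 1 * (X 1 - 1)) ((X 0 : MvPolynomial (Fin 2) ℂ) ^ 2) :=
        h2.symm.pow_right
      intro d hd1 hd2
      exact h3 hd1 ((dvd_neg).1 hd2)
  exact (MulEquiv.irreducible_iff (finSuccEquiv ℂ 2)).1 h1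

lemma dvd_of_vanish (f : MvPolynomial (Fin 3) ℂ) (hf : ∀ x, eval x p = 0 → eval x f = 0) :
    p ∣ f := by
  have h1 : f ∈ vanishingIdeal ℂ (zeroLocus ℂ (Ideal.span {p})) := by
    rw [mem_vanishingIdeal_iff]
    intro x hx
    rw [mem_zeroLocus_iff] at hx
    have := hx p (Ideal.subset_span rfl)
    exact hf x this
  rw [vanishingIdeal_zeroLocus_eq_radical,
    ((Ideal.span_singleton_prime p_irred.ne_zero).2 p_irred.prime).radical] at h1
  exact Ideal.mem_span_singleton.1 h1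

lemma sing_iff (a : Fin 3 → ℂ) : (eval a p = 0 ∧ ∀ f : MvPolynomial (Fin 3) ℂ,
    (∀ x, eval x p = 0 → eval x f = 0) → ∀ i, eval a (pderiv i f) = 0) ↔
    a = ![0, 0, 0] ∨ a = ![0, 0, 1] := by
  have d0 : eval a (pderiv 0 p) = a 2 * (a 2 - 1) := by simp [p, pderiv_X]; ring
  have d1 : eval a (pderiv 1 p) = - (2 * a 1) := by simp [p, pderiv_X]
  have d2 : eval a (pderiv 2 p) = a 0 * (2 * a 2 - 1) := by simp [p, pderiv_X]; ring
  constructor
  · rintro ⟨-, h⟩
    have h0 := h p (fun _ h => h) 0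
    have h1 := h p (fun _ h => h) 1
    have h2 := h p (fun _ h => h) 2
    rw [d0] at h0; rw [d1] at h1; rw [d2] at h2
    have e1 : a 1 = 0 := by linear_combination (-1 / 2 : ℂ) * h1
    have e0 : a 0 = 0 := by linear_combination (2 * a 2 - 1) * h2 - 4 * a 0 * h0
    rcases mul_eq_zero.1 h0 with e2 | e2
    · left; ext i; fin_cases i <;> simp [e0, e1, e2]
    · right; ext i; fin_cases i <;> simp [e0, e1, sub_eq_zero.1 e2]
  · intro h
    have hp : eval a p = 0 := by rcases h with rfl | rfl <;> simp [eval_p]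
    have hd : ∀ i, eval a (pderiv i p) = 0 := by
      intro i
      fin_cases i
      · refine d0.trans ?_; rcases h with rfl | rfl <;> simp
      · refine d1.trans ?_; rcases h with rfl | rfl <;> simp
      · refine d2.trans ?_; rcases h with rfl | rfl <;> simp
    refine ⟨hp, fun f hf i => ?_⟩
    obtain ⟨g, rfl⟩ := dvd_of_vanish f hf
    simp [hp, hd]

lemma cont3 {Y : Type*} [TopologicalSpace Y] {f g h : Y → ℂ} (hf : Continuous f)
    (hg : Continuous g) (hh : Continuous h) : Continuous (fun y => ![f y, g y, h y]) := by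
  refine continuous_pi (fun i => ?_)
  fin_cases i
  · exact hf
  · exact hg
  · exact hh

lemma contc (i : Fin 3) : Continuous (fun x : {x : Fin 3 → ℂ // eval x p = 0} => x.1 i) :=
  (continuous_apply i).comp continuous_subtype_val

lemma contt : Continuous (fun q : unitInterval × {x : Fin 3 → ℂ // eval x p = 0} =>
    ((1 - q.1.1 : ℝ) : ℂ)) :=
  Complex.continuous_ofReal.comp
    (continuous_const.sub (continuous_subtype_val.comp continuous_fst))

lemma contr : ContractibleSpace {x : Fin 3 → ℂ // eval x p = 0} := by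
  let r : C({x : Fin 3 → ℂ // eval x p = 0}, {x : Fin 3 → ℂ // eval x p = 0}) :=
    ⟨fun x => ⟨![0, 0, x.1 2], by simp [eval_p]⟩,
      by exact Continuous.subtype_mk (cont3 continuous_const continuous_const (contc 2)) _⟩
  have h1 : (ContinuousMap.id _).Homotopic r := by
    refine ⟨⟨⟨fun q => ⟨![((1 - q.1.1 : ℝ) : ℂ) ^ 2 * q.2.1 0, ((1 - q.1.1 : ℝ) : ℂ) * q.2.1 1,
      q.2.1 2], ?_⟩, ?_⟩, fun x => ?_, fun x => ?_⟩⟩
    · have := q.2.2
      rw [eval_p] at this ⊢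
      simp only [Matrix.cons_val_zero, Matrix.cons_val_one, Matrix.cons_val]
      linear_combination ((1 - q.1.1 : ℝ) : ℂ) ^ 2 * this
    · exact Continuous.subtype_mk (cont3 ((contt.pow 2).mul ((contc 0).comp continuous_snd))
        (contt.mul ((contc 1).comp continuous_snd)) ((contc 2).comp continuous_snd)) _
    · ext i; fin_cases i <;> simp
    · ext i; fin_cases i <;> simp [r]
  have h2 : r.Homotopic (ContinuousMap.const _ ⟨![0, 0, 0], by simp [eval_p]⟩) := by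
    refine ⟨⟨⟨fun q => ⟨![0, 0, ((1 - q.1.1 : ℝ) : ℂ) * q.2.1 2], by simp [eval_p]⟩, ?_⟩,
      fun x => ?_, fun x => ?_⟩⟩
    · exact Continuous.subtype_mk (cont3 continuous_const continuous_const
        (contt.mul ((contc 2).comp continuous_snd))) _
    · ext i; fin_cases i <;> simp [r]
    · ext i; fin_cases i <;> simp
  exact (contractible_iff_id_nullhomotopic _).2 ⟨_, h1.trans h2⟩

lemma crit_comp {g : (Fin 3 → ℂ) → ℂ} {F : (Fin 3 → ℂ) → (Fin 3 → ℂ)} {x : Fin 3 → ℂ}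
    (hF : DifferentiableAt ℂ F x) (c : ℂ) (h : HasFDerivAt g (0 : (Fin 3 → ℂ) →L[ℂ] ℂ) (F x)) :
    HasFDerivAt (fun y => c * g (F y)) (0 : (Fin 3 → ℂ) →L[ℂ] ℂ) x := by
  exact ((h.comp x hF.hasFDerivAt).const_mul c).congr_fderiv (by ext v; simp)

lemma crit_p (a : Fin 3 → ℂ) :
    HasFDerivAt (fun x => eval x p) (0 : (Fin 3 → ℂ) →L[ℂ] ℂ) a ↔
      a = ![0, 0, 0] ∨ a = ![0, 0, 1] := by
  have h0 := hasFDerivAt_apply (𝕜 := ℂ) (0 : Fin 3) a
  have h1 := hasFDerivAt_apply (𝕜 := ℂ) (1 : Fin 3) a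
  have h2 := hasFDerivAt_apply (𝕜 := ℂ) (2 : Fin 3) a
  have hL := ((h0.mul h2).mul (h2.sub_const 1)).sub (h1.mul h1)
  have hf : (fun x : Fin 3 → ℂ => eval x p) =
      ((fun f : Fin 3 → ℂ => f 0) * fun f => f 2) * (fun f => f 2 - 1) -
        (fun f => f 1) * fun f => f 1 := by
    ext x; simp [eval_p]; ring
  rw [hf]
  constructor
  · intro h
    have hz := hL.unique h
    have k0 := congrArg (fun L : (Fin 3 → ℂ) →L[ℂ] ℂ => L ![1, 0, 0]) hz
    have k1 := congrArg (fun L : (Fin 3 → ℂ) →L[ℂ] ℂ => L ![0, 1, 0]) hz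
    have k2 := congrArg (fun L : (Fin 3 → ℂ) →L[ℂ] ℂ => L ![0, 0, 1]) hz
    simp at k0 k1 k2
    have e0 : a 0 = 0 := by
      rcases k0 with e | e
      · have e' : a 2 = 1 := sub_eq_zero.1 e
        simpa [e'] using k2
      · simpa [e] using k2
    rcases k0 with e2 | e2
    · right; ext i; fin_cases i <;> simp [e0, k1, sub_eq_zero.1 e2]
    · left; ext i; fin_cases i <;> simp [e0, k1, e2]
  · intro h
    refine hL.congr_fderiv ?_
    rcases h with rfl | rfl <;> (ext v; simp)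

lemma eval_alg (φ : MvPolynomial (Fin 3) ℂ →ₐ[ℂ] MvPolynomial (Fin 3) ℂ) (x : Fin 3 → ℂ)
    (f : MvPolynomial (Fin 3) ℂ) : eval x (φ f) = eval (fun i => eval x (φ (X i))) f := by
  induction f using MvPolynomial.induction_on with
  | C a => simp [algHom_C]
  | add f g hf hg => simp [hf, hg]
  | mul_X f i hf => simp [hf]

lemma diff_eval (f : Fin 3 → MvPolynomial (Fin 3) ℂ) (x : Fin 3 → ℂ) :
    DifferentiableAt ℂ (fun y : Fin 3 → ℂ => fun i => eval y (f i)) x :=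
  differentiableAt_pi.2 (fun i =>
    (AnalyticOnNhd.eval_mvPolynomial (f i) x trivial).differentiableAt)

lemma not_qh (φ : MvPolynomial (Fin 3) ℂ ≃ₐ[ℂ] MvPolynomial (Fin 3) ℂ) (w : Fin 3 → ℕ)
    (hw : ∀ i, 0 < w i) (d : ℤ) : ¬ ∀ t : ℂ, t ≠ 0 → ∀ x : Fin 3 → ℂ,
      eval (fun i => t ^ w i * x i) (φ p) = t ^ d * eval x (φ p) := by
  intro h
  let F : (Fin 3 → ℂ) → (Fin 3 → ℂ) := fun x i => eval x (φ (X i))
  let G : (Fin 3 → ℂ) → (Fin 3 → ℂ) := fun x i => eval x (φ.symm (X i))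
  have hF : ∀ x f, eval x (φ f) = eval (F x) f := fun x f => eval_alg φ.toAlgHom x f
  have hG : ∀ x f, eval x (φ.symm f) = eval (G x) f := fun x f => eval_alg φ.symm.toAlgHom x f
  have hFG : ∀ x, F (G x) = x := by
    intro x; ext i
    show eval (G x) (φ (X i)) = x i
    rw [← hG]; simp
  have hGF : ∀ x, G (F x) = x := by
    intro x; ext i
    show eval (F x) (φ.symm (X i)) = x i
    rw [← hF]; simp
  have c1 : ∀ x, HasFDerivAt (fun y => eval y (φ p)) (0 : (Fin 3 → ℂ) →L[ℂ] ℂ) x ↔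
      x = G ![0, 0, 0] ∨ x = G ![0, 0, 1] := by
    intro x
    constructor
    · intro hx
      have h1 : HasFDerivAt (fun y => eval y (φ p)) (0 : (Fin 3 → ℂ) →L[ℂ] ℂ) (G (F x)) := by
        rwa [hGF]
      have h2 := crit_comp (F := G) (diff_eval _ _) 1 h1
      simp only [one_mul, ← hG, AlgEquiv.symm_apply_apply] at h2
      rcases (crit_p _).1 h2 with e | e
      · left; rw [← e, hGF]
      · right; rw [← e, hGF]
    · intro hx
      have h1 : HasFDerivAt (fun y => eval y p) (0 : (Fin 3 → ℂ) →L[ℂ] ℂ) (F x) := by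
        rw [crit_p]
        rcases hx with rfl | rfl <;> simp [hFG]
      have h2 := crit_comp (F := F) (diff_eval _ _) 1 h1
      simpa only [one_mul, ← hF] using h2
  have c2 : ∀ (t : ℂ) (x : Fin 3 → ℂ), t ≠ 0 →
      HasFDerivAt (fun y => eval y (φ p)) (0 : (Fin 3 → ℂ) →L[ℂ] ℂ) x →
      HasFDerivAt (fun y => eval y (φ p)) (0 : (Fin 3 → ℂ) →L[ℂ] ℂ) (fun i => t ^ w i * x i) := by
    intro t x ht hx
    have e : (fun i => t⁻¹ ^ w i * (t ^ w i * x i)) = x := by
      ext i; rw [← mul_assoc, ← mul_pow, inv_mul_cancel₀ ht, one_pow, one_mul]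
    have h1 := crit_comp (g := fun y => eval y (φ p))
      (F := fun y : Fin 3 → ℂ => fun i => t⁻¹ ^ w i * y i) (x := fun i => t ^ w i * x i)
      (by fun_prop) (t ^ d) (by simpa only [e] using hx)
    have e2 : ∀ y : Fin 3 → ℂ, t ^ d * eval (fun i => t⁻¹ ^ w i * y i) (φ p) = eval y (φ p) := by
      intro y
      rw [h _ (inv_ne_zero ht), ← mul_assoc, ← mul_zpow, mul_inv_cancel₀ ht, one_zpow, one_mul]
    simpa only [e2] using h1
  obtain ⟨b, i, hb, hi⟩ : ∃ (b : Fin 3 → ℂ) (i : Fin 3),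
      (b = G ![0, 0, 0] ∨ b = G ![0, 0, 1]) ∧ b i ≠ 0 := by
    by_contra hc
    push Not at hc
    have e : G ![0, 0, 0] = G ![0, 0, 1] := by
      ext i; rw [hc _ i (Or.inl rfl), hc _ i (Or.inr rfl)]
    have := congrFun (congrArg F e) 2
    simp [hFG] at this
  have key : ∀ s t : ℕ, 0 < s → s < t →
      (fun i => (s : ℂ) ^ w i * b i) ≠ (fun i => (t : ℂ) ^ w i * b i) := by
    intro s t _ hst e
    have h1 := mul_right_cancel₀ hi (congrFun e i)
    have h2 : s ^ w i = t ^ w i := by exact_mod_cast h1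
    exact absurd h2 (Nat.pow_lt_pow_left hst (hw i).ne').ne
  have m : ∀ s : ℕ, 0 < s → (fun i => (s : ℂ) ^ w i * b i) = G ![0, 0, 0] ∨
      (fun i => (s : ℂ) ^ w i * b i) = G ![0, 0, 1] := fun s hs =>
    (c1 _).1 (c2 _ _ (by exact_mod_cast hs.ne') ((c1 _).2 hb))
  have k12 := key 1 2 (by norm_num) (by norm_num)
  have k13 := key 1 3 (by norm_num) (by norm_num)
  have k23 := key 2 3 (by norm_num) (by norm_num)
  rcases m 1 (by norm_num) with e1 | e1 <;> rcases m 2 (by norm_num) with e2 | e2 <;>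
    rcases m 3 (by norm_num) with e3 | e3 <;>
    first
      | exact k12 (e1.trans e2.symm)
      | exact k13 (e1.trans e3.symm)
      | exact k23 (e2.trans e3.symm)

theorem main : ∃ p : MvPolynomial (Fin 3) ℂ, Irreducible p ∧
    ContractibleSpace {x : Fin 3 → ℂ // eval x p = 0} ∧
    (∃ S : Set (Fin 3 → ℂ), (∀ a, a ∈ S ↔ eval a p = 0 ∧ ∀ f : MvPolynomial (Fin 3) ℂ,
        (∀ x, eval x p = 0 → eval x f = 0) → ∀ i, eval a (pderiv i f) = 0) ∧
      S.Nonempty ∧ S.Finite ∧ ∀ a ∈ S, ∀ᶠ b in nhds a, b ∈ S → b = a) ∧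
    ∀ φ : MvPolynomial (Fin 3) ℂ ≃ₐ[ℂ] MvPolynomial (Fin 3) ℂ,
      ¬ ∃ (w : Fin 3 → ℕ) (d : ℤ), (∀ i, 0 < w i) ∧ ∀ t : ℂ, t ≠ 0 → ∀ x : Fin 3 → ℂ,
        eval (fun i => t ^ w i * x i) (φ p) = t ^ d * eval x (φ p) := by
  refine ⟨p, p_irred, contr, ⟨{![0, 0, 0], ![0, 0, 1]}, fun a => ?_, by simp, by simp,
    fun a _ => ?_⟩, fun φ ⟨w, d, hw, h⟩ => not_qh φ w hw d h⟩
  · rw [sing_iff]; simp
  · have hfin : (({![0, 0, 0], ![0, 0, 1]} : Set (Fin 3 → ℂ)) \ {a}).Finite := Set.toFinite _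
    filter_upwards [hfin.isClosed.isOpen_compl.mem_nhds (show a ∈ _ by simp)] with b hb hbS
    by_contra hne
    exact hb ⟨hbS, hne⟩

end Pool.Agent.Lib.helper14.QH
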