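import Mathlib

set_option autoImplicit false

/-! A criterion for a unitary operator to be a bilateral shift of infinite multiplicity. -/

namespace Pool.Agent.H14Shift

open Filter Topology Set
open scoped InnerProductSpace

variable {H : Type} [NormedAddCommGroup H] [InnerProductSpace ℂ H] [CompleteSpace H]

/-- Bilateral shift of infinite multiplicity. -/
def Sh (T : H ≃ₗᵢ[ℂ] H) : Prop :=
  ∃ b : HilbertBasis (ℤ × ℕ) ℂ H, ∀ k i, T (b (k, i)) = b (k + 1, i)

omit [CompleteSpace H] in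
theorem mul_app (S T : H ≃ₗᵢ[ℂ] H) (x : H) : (S * T) x = S (T x) := rfl

omit [CompleteSpace H] in
theorem Sh.isConj {S T : H ≃ₗᵢ[ℂ] H} (hS : Sh S) (hT : Sh T) : IsConj S T := by
  classical
  obtain ⟨a, ha⟩ := hS
  obtain ⟨b, hb⟩ := hT
  set U : H ≃ₗᵢ[ℂ] H := a.repr.trans b.repr.symm with hU
  have hUa : ∀ p, U (a p) = b p := fun p => by
    simp [hU, a.repr_self, b.repr_symm_single]
  rw [isConj_iff]
  refine ⟨U, ?_⟩
  rw [mul_inv_eq_iff_eq_mul]
  have : ((U * S).toContinuousLinearEquiv : H →L[ℂ] H) = (T * U).toContinuousLinearEquiv := by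
    refine ContinuousLinearMap.ext_on (s := range a)
      (Submodule.dense_iff_topologicalClosure_eq_top.2 a.dense_span) ?_
    rintro _ ⟨⟨k, i⟩, rfl⟩
    show U (S (a (k, i))) = T (U (a (k, i)))
    rw [ha, hUa, hUa, hb]
  exact LinearIsometryEquiv.ext fun x => congrArg (fun f : H →L[ℂ] H => f x) this

omit [CompleteSpace H] in
theorem count_on (e : HilbertBasis ℕ ℂ H) {ι : Type} {v : ι → H} (hv : Orthonormal ℂ v) :
    Countable ι := by
  rw [← countable_univ_iff]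
  refine (countable_iUnion fun n => (hv.inner_products_summable (x := e n)).countable_support).mono
    fun i _ => ?_
  by_contra h
  simp only [mem_iUnion, Function.mem_support, not_exists, not_not] at h
  have h0 : e.repr (v i) = 0 := by
    ext n
    have := h n
    rw [sq_eq_zero_iff, norm_eq_zero, inner_eq_zero_symm] at this
    rw [e.repr_apply_apply, this]
    rfl
  exact hv.ne_zero i (by simpa using h0)

theorem sh_of_chain (e : HilbertBasis ℕ ℂ H) (T : H ≃ₗᵢ[ℂ] H) (E : ℤ → Submodule ℂ H)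
    (hc : ∀ j, IsClosed (E j : Set H)) (hT : ∀ j x, T x ∈ E (j + 1) ↔ x ∈ E j)
    (ha : Antitone E) (h0 : ∀ x, (∀ j, x ∈ E j) → x = 0) (h1 : ∀ x, (∀ j, x ∈ (E j)ᗮ) → x = 0)
    (hi : ¬ FiniteDimensional ℂ (E 0 ⊓ (E 1)ᗮ : Submodule ℂ H)) : Sh T := by
  have hcs : ∀ j, CompleteSpace (E j) := fun j => (hc j).completeSpace_coe
  have hz : ∀ (k j : ℤ) x, (T ^ k) x ∈ E (j + k) ↔ x ∈ E j := by
    intro k
    induction k with
    | zero => simp
    | succ k ih =>
      intro j x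
      rw [add_comm (k : ℤ) 1, zpow_add, zpow_one, add_comm 1, ← add_assoc]
      exact (hT _ _).trans (ih j x)
    | pred k ih =>
      intro j x
      rw [← ih j x, ← hT, show j + (-k - 1) + 1 = j + -k by ring]
      have : T ((T ^ (-k - 1 : ℤ)) x) = (T ^ (-k : ℤ)) x := by
        rw [← mul_app, ← zpow_one_add]
        congr 2
        ring
      rw [this]
  have hzz : ∀ (k : ℤ) x, (T ^ k) ((T ^ (-k)) x) = x := fun k x => by
    rw [← mul_app, ← zpow_add]; simp
  have hzo : ∀ (k j : ℤ) x, x ∈ (E j)ᗮ → (T ^ k) x ∈ (E (j + k))ᗮ := by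
    intro k j x hx u hu
    rw [← hzz k u, LinearIsometryEquiv.inner_map_map]
    exact hx _ ((hz k j _).1 (by rwa [hzz]))
  set W : Submodule ℂ H := E 0 ⊓ (E 1)ᗮ with hW
  have : CompleteSpace W := ((hc 0).inter (Submodule.isClosed_orthogonal _)).completeSpace_coe
  obtain ⟨w, bw, -⟩ := exists_hilbertBasis ℂ W
  have hon : Orthonormal ℂ fun i => (bw i : H) := bw.orthonormal.comp_linearIsometry W.subtypeₗᵢ
  have : Countable w := count_on e hon
  have : Infinite w := by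
    by_contra h
    rw [not_infinite_iff_finite] at h
    have := Fintype.ofFinite w
    exact hi (Module.Finite.of_basis bw.toOrthonormalBasis.toBasis)
  obtain ⟨φ⟩ : Nonempty (ℕ ≃ w) := nonempty_equiv_of_countable
  set v : ℤ × ℕ → H := fun p => (T ^ p.1) (bw (φ p.2) : H) with hv
  have hv1 : ∀ p, v p ∈ E p.1 := fun p => by
    simpa using (hz p.1 0 _).2 (bw (φ p.2)).2.1
  have hv2 : ∀ p, v p ∈ (E (1 + p.1))ᗮ := fun p => hzo p.1 1 _ (bw (φ p.2)).2.2
  have hvo : Orthonormal ℂ v := by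
    refine ⟨fun p => by simp only [hv, LinearIsometryEquiv.norm_map]; exact hon.1 _, ?_⟩
    rintro ⟨k, i⟩ ⟨l, j⟩ hne
    rcases lt_trichotomy k l with h | h | h
    · exact inner_eq_zero_symm.1 (hv2 (k, i) _ (ha (by simp only; omega) (hv1 (l, j))))
    · subst h
      simp only [hv, LinearIsometryEquiv.inner_map_map]
      exact hon.2 fun h => hne (by rw [φ.injective h])
    · exact hv2 (l, j) _ (ha (by simp only; omega) (hv1 (k, i)))
  have hsp : (Submodule.span ℂ (range v))ᗮ = ⊥ := by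
    rw [Submodule.eq_bot_iff]
    intro x hx
    have hx1 : ∀ p, ⟪v p, x⟫_ℂ = 0 := fun p => hx _ (Submodule.subset_span ⟨p, rfl⟩)
    have hx2 : ∀ k y, y ∈ E k → y ∈ (E (k + 1))ᗮ → ⟪y, x⟫_ℂ = 0 := by
      intro k y hy1 hy2
      have hm : (T ^ (-k)) y ∈ W := ⟨by simpa using (hz (-k) k y).2 hy1,
        by simpa using hzo (-k) (k + 1) y hy2⟩
      have h3 : W.orthogonalProjectionOnto ((T ^ (-k)) x) = 0 := by
        apply bw.repr.injective
        ext i
        obtain ⟨i, rfl⟩ := φ.surjective i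
        rw [bw.repr_apply_apply, Submodule.inner_orthogonalProjectionOnto_eq_of_mem_left, map_zero,
          ← (T ^ k).inner_map_map, hzz]
        exact hx1 (k, i)
      rw [← (T ^ (-k)).inner_map_map]
      exact Submodule.orthogonalProjectionOnto_eq_zero_iff.1 h3 _ hm
    have hp : ∀ k, (E k).starProjection x = (E (k + 1)).starProjection x := by
      intro k
      set y := (E k).starProjection x - (E (k + 1)).starProjection x with hy
      have a1 : y ∈ E k := sub_mem (Submodule.starProjection_apply_mem _ _)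
        (ha (by omega) (Submodule.starProjection_apply_mem _ _))
      have b1 := (E k).sub_starProjection_mem_orthogonal x
      have b2 := (E (k + 1)).sub_starProjection_mem_orthogonal x
      have a2 : y ∈ (E (k + 1))ᗮ := by
        have := sub_mem b2 (Submodule.orthogonal_le (ha (by omega : k ≤ k + 1)) b1)
        rwa [sub_sub_sub_cancel_left] at this
      have a3 := hx2 k y a1 a2
      have a4 : ⟪y, x - (E k).starProjection x⟫_ℂ = 0 := b1 y a1
      have a5 : ⟪y, (E (k + 1)).starProjection x⟫_ℂ = 0 :=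
        inner_eq_zero_symm.1 (a2 _ (Submodule.starProjection_apply_mem _ _))
      rw [inner_sub_right] at a4
      have : ⟪y, y⟫_ℂ = 0 := by
        nth_rewrite 2 [hy]
        rw [inner_sub_right]
        linear_combination a3 - a4 - a5
      exact sub_eq_zero.1 (inner_self_eq_zero.1 this)
    have hq : ∀ k, (E k).starProjection x = (E 0).starProjection x := by
      intro k
      induction k with
      | zero => rfl
      | succ k ih => rw [← hp, ih]
      | pred k ih => rw [hp, sub_add_cancel, ih]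
    have hz0 := h0 ((E 0).starProjection x) fun j => hq j ▸ Submodule.starProjection_apply_mem _ _
    refine h1 x fun j => ?_
    have := (E j).sub_starProjection_mem_orthogonal x
    rwa [hq, hz0, sub_zero] at this
  refine ⟨HilbertBasis.mkOfOrthogonalEqBot hvo hsp, fun k i => ?_⟩
  rw [HilbertBasis.coe_mkOfOrthogonalEqBot]
  simp only [hv]
  rw [← mul_app, ← zpow_one_add, add_comm]

omit [CompleteSpace H] in
theorem approx (T : H ≃ₗᵢ[ℂ] H) (C : ℤ → Submodule ℂ H) (Φ : ℤ → ℝ) (hΦ : Antitone Φ)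
    (h0 : ∀ j, 0 ≤ Φ j)
    (hC : ∀ h, ∀ v ∈ C h, ∃ w ∈ C (h + 1), ‖T v - w‖ ≤ (Φ h - Φ (h + 1)) * ‖v‖ ∧ ‖w‖ ≤ ‖v‖)
    (j : ℤ) (y : H) (hy : y ∈ C j) : ∃ c : ℕ → H, c 0 = y ∧ (∀ t : ℕ, (T ^ t) (c t) ∈ C (j + t)) ∧
      (∀ t, ‖c t‖ ≤ ‖y‖) ∧ ∀ s t : ℕ, s ≤ t → dist (c s) (c t) ≤ Φ (j + s) * ‖y‖ := by
  choose! f hf1 hf2 hf3 using hC
  let d : ℕ → H := fun t => Nat.rec y (fun t v => f (j + t) v) t
  have hd : ∀ t, d (t + 1) = f (j + t) (d t) := fun t => rfl
  have h1 : ∀ t : ℕ, d t ∈ C (j + t) ∧ ‖d t‖ ≤ ‖y‖ := by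
    intro t
    induction t with
    | zero => exact ⟨by simpa [d] using hy, le_rfl⟩
    | succ t ih =>
      rw [hd]
      exact ⟨by push_cast; rw [← add_assoc]; exact hf1 _ _ ih.1, (hf3 _ _ ih.1).trans ih.2⟩
  refine ⟨fun t => (T ^ t).symm (d t), rfl, fun t => by simpa using (h1 t).1,
    fun t => by simpa using (h1 t).2, fun s t hst => ?_⟩
  have h2 : ∀ t : ℕ, dist ((T ^ t).symm (d t)) ((T ^ (t + 1)).symm (d (t + 1))) ≤
      (Φ (j + t) - Φ (j + t + 1)) * ‖y‖ := by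
    intro t
    rw [← (T ^ (t + 1)).dist_map, LinearIsometryEquiv.apply_symm_apply, pow_succ',
      mul_app, LinearIsometryEquiv.apply_symm_apply, dist_eq_norm, hd]
    refine (hf2 _ _ (h1 t).1).trans ?_
    exact mul_le_mul_of_nonneg_left (h1 t).2 (sub_nonneg.2 (hΦ (by omega)))
  have h3 : dist ((T ^ s).symm (d s)) ((T ^ t).symm (d t)) ≤ (Φ (j + s) - Φ (j + t)) * ‖y‖ := by
    induction t, hst using Nat.le_induction with
    | base => simp
    | succ t _ ih =>
      refine (dist_triangle _ ((T ^ t).symm (d t)) _).trans ?_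
      have := h2 t
      push_cast
      rw [← add_assoc]
      linarith
  refine h3.trans ?_
  have := h0 (j + t)
  have := norm_nonneg y
  nlinarith

theorem sh_of_approx (e : HilbertBasis ℕ ℂ H) (T : H ≃ₗᵢ[ℂ] H) (A B : ℤ → Submodule ℂ H)
    (Φ : ℤ → ℝ) (hΦ : Antitone Φ) (h0 : ∀ j, 0 ≤ Φ j) (h4 : ∀ j, Φ j ≤ 1 / 4)
    (hl : Tendsto Φ atTop (𝓝 0))
    (hA : ∀ h, ∀ v ∈ A h, ∃ w ∈ A (h + 1), ‖T v - w‖ ≤ (Φ h - Φ (h + 1)) * ‖v‖ ∧ ‖w‖ ≤ ‖v‖)
    (hB : ∀ h, ∀ v ∈ B h, ∃ w ∈ B (h + 1), ‖T v - w‖ ≤ (Φ h - Φ (h + 1)) * ‖v‖ ∧ ‖w‖ ≤ ‖v‖)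
    (hAB : ∀ h, ∀ a ∈ A h, ∀ b ∈ B h, ⟪a, b⟫_ℂ = 0) (ha : Antitone A)
    (hdA : ∀ x, ∀ ε > 0, ∃ j, ∃ a ∈ A j, ‖x - a‖ < ε) (hdB : ∀ n, ∀ᶠ j in atTop, e n ∈ B j)
    (hi : ¬ FiniteDimensional ℂ (A 0 ⊓ B 1 : Submodule ℂ H)) : Sh T := by
  let E : ℤ → Submodule ℂ H := fun j =>
    { carrier := {x | ∀ ε > 0, ∀ᶠ t : ℕ in atTop, ∃ a ∈ A (j + t), ‖(T ^ t) x - a‖ < ε}
      add_mem' := fun {x y} hx hy ε hε => by
        filter_upwards [hx _ (half_pos hε), hy _ (half_pos hε)] with t ⟨a, ha, ha'⟩ ⟨b, hb, hb'⟩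
        refine ⟨a + b, add_mem ha hb, ?_⟩
        rw [map_add, add_sub_add_comm]
        linarith [norm_add_le ((T ^ t) x - a) ((T ^ t) y - b)]
      zero_mem' := fun ε hε => Eventually.of_forall fun t => ⟨0, zero_mem _, by simpa using hε⟩
      smul_mem' := fun c x hx ε hε => by
        have hc : 0 < ‖c‖ + 1 := by positivity
        filter_upwards [hx _ (div_pos hε hc)] with t ⟨a, ha, ha'⟩
        refine ⟨c • a, Submodule.smul_mem _ _ ha, ?_⟩
        rw [map_smul, ← smul_sub, norm_smul]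
        rw [lt_div_iff₀ hc] at ha'
        nlinarith [norm_nonneg ((T ^ t) x - a), norm_nonneg c] }
  have hE : ∀ j x, x ∈ E j ↔
      ∀ ε > 0, ∀ᶠ t : ℕ in atTop, ∃ a ∈ A (j + t), ‖(T ^ t) x - a‖ < ε := fun j x => Iff.rfl
  have hc : ∀ j, IsClosed (E j : Set H) := fun j => by
    refine isClosed_of_closure_subset fun x hx ε hε => ?_
    obtain ⟨y, hy, hxy⟩ := Metric.mem_closure_iff.1 hx _ (half_pos hε)
    filter_upwards [hy _ (half_pos hε)] with t ⟨a, ha, ha'⟩
    refine ⟨a, ha, ?_⟩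
    rw [← (T ^ t).dist_map, dist_eq_norm] at hxy
    linarith [norm_sub_le_norm_sub_add_norm_sub ((T ^ t) x) ((T ^ t) y) a]
  have k1 : ∀ j, ∀ x ∈ E j, ∀ y ∈ B j, ‖⟪x, y⟫_ℂ‖ ≤ Φ j * ‖x‖ * ‖y‖ := by
    intro j x hx y hy
    obtain ⟨c, c0, c1, c2, c3⟩ := approx T B Φ hΦ h0 hB j y hy
    refine le_of_forall_pos_le_add fun ε hε => ?_
    have hy1 : 0 < ‖y‖ + 1 := by positivity
    obtain ⟨t, a, ha, ha'⟩ := (hx _ (div_pos hε hy1)).exists
    have e1 : ⟪x, y⟫_ℂ = ⟪(T ^ t) x - a, (T ^ t) (c t)⟫_ℂ + ⟪x, y - c t⟫_ℂ := by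
      rw [inner_sub_left, hAB _ a ha _ (c1 t), LinearIsometryEquiv.inner_map_map, inner_sub_right]
      ring
    have e2 := c3 0 t (Nat.zero_le _)
    rw [c0, dist_eq_norm, Nat.cast_zero, add_zero] at e2
    have e3 := norm_inner_le_norm (𝕜 := ℂ) ((T ^ t) x - a) ((T ^ t) (c t))
    have e4 := norm_inner_le_norm (𝕜 := ℂ) x (y - c t)
    rw [LinearIsometryEquiv.norm_map] at e3
    rw [lt_div_iff₀ hy1] at ha'
    rw [e1]
    refine (norm_add_le _ _).trans ?_
    have e5 := mul_le_mul_of_nonneg_left (c2 t) (norm_nonneg ((T ^ t) x - a))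
    have e6 := mul_le_mul_of_nonneg_left e2 (norm_nonneg x)
    nlinarith [norm_nonneg ((T ^ t) x - a)]
  have k2 : ∀ j, ∀ y ∈ A j, ∃ z ∈ E j, ‖y - z‖ ≤ 1 / 4 * ‖y‖ ∧ ‖z‖ ≤ ‖y‖ := by
    intro j y hy
    obtain ⟨c, c0, c1, c2, c3⟩ := approx T A Φ hΦ h0 hA j y hy
    have hl' : Tendsto (fun s : ℕ => Φ (j + s) * ‖y‖) atTop (𝓝 0) := by
      simpa using (hl.comp (tendsto_atTop_add_const_left _ j
        tendsto_natCast_atTop_atTop)).mul_const ‖y‖
    obtain ⟨z, hz⟩ := cauchySeq_tendsto_of_complete (cauchySeq_of_le_tendsto_0' _ c3 hl')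
    refine ⟨z, fun ε hε => ?_, ?_, le_of_tendsto' hz.norm c2⟩
    · filter_upwards [Metric.tendsto_nhds.1 hz ε hε] with t ht
      refine ⟨_, c1 t, ?_⟩
      rwa [← dist_eq_norm, LinearIsometryEquiv.dist_map, dist_comm]
    · refine le_of_tendsto' (tendsto_const_nhds.sub hz).norm fun t => ?_
      have e2 := c3 0 t (Nat.zero_le _)
      rw [c0, dist_eq_norm] at e2
      exact e2.trans (mul_le_mul_of_nonneg_right (h4 _) (norm_nonneg _))
  refine sh_of_chain e T E hc (fun j x => ?_) (antitone_int_of_succ_le fun j x hx ε hε => ?_)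
    (fun x hx => ?_) (fun x hx => ?_) fun hfin => hi ?_
  · refine forall₂_congr fun ε _ => ?_
    conv_rhs => rw [← map_add_atTop_eq_nat 1, eventually_map]
    simp only [pow_succ, mul_app, Nat.cast_add,
      Nat.cast_one, add_assoc, add_comm (1 : ℤ)]
  · filter_upwards [hx ε hε] with t ⟨a, ha1, ha2⟩
    exact ⟨a, ha (by omega) ha1, ha2⟩
  · apply e.repr.injective
    ext n
    rw [e.repr_apply_apply, map_zero, inner_eq_zero_symm.2]
    · rfl
    rw [← norm_le_zero_iff]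
    have : Tendsto (fun j => Φ j * ‖x‖ * ‖e n‖) atTop (𝓝 0) := by
      simpa using (hl.mul_const ‖x‖).mul_const ‖e n‖
    refine ge_of_tendsto this ?_
    filter_upwards [hdB n] with j hj using k1 j x (hx j) _ hj
  · by_contra hx0
    have hp := norm_pos_iff.2 hx0
    obtain ⟨j, a, ha1, ha2⟩ := hdA x (‖x‖ / 4) (by positivity)
    obtain ⟨z, hz1, hz2, -⟩ := k2 j a ha1
    have e1 : ⟪x - z, x⟫_ℂ = ⟪x, x⟫_ℂ := by rw [inner_sub_left, hx j z hz1, sub_zero]
    have e2 := norm_inner_le_norm (𝕜 := ℂ) (x - z) x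
    rw [e1, inner_self_eq_norm_sq_to_K, norm_pow, RCLike.norm_ofReal, abs_norm] at e2
    have e3 := norm_sub_le_norm_sub_add_norm_sub x a z
    have e4 := norm_sub_norm_le a x
    rw [norm_sub_rev] at e4
    nlinarith
  · set W : Submodule ℂ H := E 0 ⊓ (E 1)ᗮ with hW
    refine FiniteDimensional.of_injective
      (W.orthogonalProjectionOnto.toLinearMap.comp (A 0 ⊓ B 1 : Submodule ℂ H).subtype)
      ((injective_iff_map_eq_zero _).2 fun y hy => ?_)
    have hy' : (y : H) ∈ Wᗮ := Submodule.orthogonalProjectionOnto_eq_zero_iff.1 hy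
    obtain ⟨z, hz1, hz2, hz3⟩ := k2 0 y y.2.1
    have : CompleteSpace (E 1) := (hc 1).completeSpace_coe
    set x := (E 1).starProjection z with hx
    have hx1 : x ∈ E 1 := Submodule.starProjection_apply_mem _ _
    have hx0 : x ∈ E 0 := fun ε hε => by
      filter_upwards [hx1 ε hε] with t ⟨a, ha1, ha2⟩
      exact ⟨a, ha (by omega) ha1, ha2⟩
    have hw : z - x ∈ W := ⟨sub_mem hz1 hx0, (E 1).sub_starProjection_mem_orthogonal z⟩
    have e1 : ⟪(y : H), y⟫_ℂ = ⟪y - z, (y : H)⟫_ℂ + ⟪x, (y : H)⟫_ℂ := by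
      have := hy' _ hw
      rw [inner_sub_left] at this ⊢
      linear_combination this
    have e2 := norm_inner_le_norm (𝕜 := ℂ) (y - z) (y : H)
    have e3 := k1 1 x hx1 y y.2.2
    have e4 : ‖x‖ ≤ ‖z‖ := (E 1).norm_starProjection_apply_le z
    have e5 := norm_add_le ⟪y - z, (y : H)⟫_ℂ ⟪x, (y : H)⟫_ℂ
    rw [← e1, inner_self_eq_norm_sq_to_K, norm_pow, RCLike.norm_ofReal, abs_norm] at e5
    have e6 : Φ 1 * ‖x‖ ≤ 1 / 4 * ‖(y : H)‖ :=
      mul_le_mul (h4 1) (e4.trans hz3) (norm_nonneg _) (by norm_num)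
    have e7 := mul_le_mul_of_nonneg_right e6 (norm_nonneg (y : H))
    have e8 := mul_le_mul_of_nonneg_right hz2 (norm_nonneg (y : H))
    have : ‖(y : H)‖ ^ 2 ≤ 0 := by nlinarith
    exact Subtype.ext (norm_eq_zero.1 (pow_eq_zero_iff two_ne_zero |>.1
      (le_antisymm this (sq_nonneg _))))

end Pool.Agent.H14Shift
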