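import Pool.Agent.Lib.helper14.Shift1

set_option autoImplicit false

/-! Approximately banded unitaries times a permutation are shifts. -/

namespace Pool.Agent.H14Shift

open Filter Topology Set MeasureTheory
open scoped InnerProductSpace ENNReal

abbrev L : Type := lp (fun _ : ℕ => ℂ) 2

noncomputable def e : HilbertBasis ℕ ℂ L := HilbertBasis.ofRepr (LinearIsometryEquiv.refl ℂ L)

theorem e_eq (n : ℕ) : e n = lp.single 2 n (1 : ℂ) := (e.repr_symm_single n).symm

theorem inner_e (n : ℕ) (x : L) : ⟪e n, x⟫_ℂ = x n := (e.repr_apply_apply x n).symm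

theorem esq (v : L) : ‖v‖ₑ ^ 2 = ∑' i, ‖v i‖ₑ ^ 2 := by
  have h := lp.hasSum_norm (p := 2) (by norm_num) v
  simp only [ENNReal.toReal_ofNat, Real.rpow_ofNat] at h
  simp only [← ofReal_norm, ← ENNReal.ofReal_pow (norm_nonneg _)]
  rw [← h.tsum_eq, ENNReal.ofReal_tsum_of_nonneg (fun _ => by positivity) h.summable]

def K (S : Set ℕ) : Submodule ℂ L where
  carrier := {v | ∀ i ∉ S, v i = 0}
  add_mem' := fun {a b} ha hb i hi => by simp [ha i hi, hb i hi]
  zero_mem' := fun i _ => rfl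
  smul_mem' := fun c a ha i hi => by simp [ha i hi]

noncomputable def cut (S : Set ℕ) (v : L) : L :=
  ⟨S.indicator v, (lp.memℓp v).mono' fun _ => norm_indicator_le_norm_self _ _⟩

theorem cut_apply (S : Set ℕ) (v : L) (i : ℕ) : cut S v i = S.indicator v i := rfl

theorem cut_mem (S : Set ℕ) (v : L) : cut S v ∈ K S := fun i hi => indicator_of_notMem hi _

theorem norm_cut (S : Set ℕ) (v : L) : ‖cut S v‖ ≤ ‖v‖ :=
  lp.norm_mono (by norm_num) fun _ => norm_indicator_le_norm_self _ _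

theorem e_mem {S : Set ℕ} {n : ℕ} (h : n ∈ S) : e n ∈ K S := fun i hi => by
  rw [e_eq]
  exact lp.single_apply_ne _ _ _ (by rintro rfl; exact hi h)

/-- squared matrix entries -/
noncomputable def r (D : L ≃ₗᵢ[ℂ] L) (p : ℕ × ℕ) : ℝ≥0∞ := ‖D (e p.2) p.1‖ₑ ^ 2

theorem r_symm (D : L ≃ₗᵢ[ℂ] L) (a b : ℕ) : r D (a, b) = ‖D.symm (e a) b‖ₑ ^ 2 := by
  rw [r, ← inner_e, ← inner_e b, ← D.inner_map_map (e b), D.apply_symm_apply, ← inner_conj_symm,
    ← ofReal_norm, ← ofReal_norm, RCLike.norm_conj]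

open Classical in
theorem hs (D : L ≃ₗᵢ[ℂ] L) (X Y : Set ℕ) (v : L) (hv : v ∈ K X) {δ : ℝ} (hδ : 0 ≤ δ)
    (h : ∑' p : ℕ × ℕ, (if p.1 ∉ Y ∧ p.2 ∈ X then r D p else 0) ≤ ENNReal.ofReal δ ^ 2) :
    ‖D v - cut Y (D v)‖ ≤ δ * ‖v‖ := by
  have h1 : ∀ a, ‖D v a‖ₑ ^ 2 ≤ (∑' b, if b ∈ X then r D (a, b) else 0) * ‖v‖ₑ ^ 2 := by
    intro a
    have e1 : D v a = ⟪cut X (D.symm (e a)), v⟫_ℂ := by
      rw [← inner_e, ← D.symm.inner_map_map, D.symm_apply_apply, lp.inner_eq_tsum,
        lp.inner_eq_tsum]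
      refine tsum_congr fun i => ?_
      by_cases hi : i ∈ X
      · rw [cut_apply, indicator_of_mem hi]
      · simp [hv i hi]
    have e2 : ‖cut X (D.symm (e a))‖ₑ ^ 2 = ∑' b, if b ∈ X then r D (a, b) else 0 := by
      rw [esq]
      refine tsum_congr fun i => ?_
      rw [cut_apply, r_symm]
      by_cases hi : i ∈ X <;> simp [hi]
    rw [e1, ← e2, ← mul_pow]
    gcongr
    simp only [← ofReal_norm]
    rw [← ENNReal.ofReal_mul (norm_nonneg _)]
    exact ENNReal.ofReal_le_ofReal (norm_inner_le_norm _ _)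
  have h2 : ‖D v - cut Y (D v)‖ₑ ^ 2 ≤ (ENNReal.ofReal δ * ‖v‖ₑ) ^ 2 := by
    rw [mul_pow]
    refine le_trans ?_ (mul_le_mul_left h _)
    rw [esq, ENNReal.tsum_prod', ← ENNReal.tsum_mul_right]
    refine ENNReal.tsum_le_tsum fun a => ?_
    by_cases ha : a ∈ Y
    · simp [cut_apply, ha]
    · simpa [cut_apply, ha] using h1 a
  rw [ENNReal.pow_le_pow_left_iff two_ne_zero, ← ofReal_norm, ← ofReal_norm,
    ← ENNReal.ofReal_mul hδ] at h2
  exact (ENNReal.ofReal_le_ofReal_iff (by positivity)).1 h2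

theorem exists_perm (σ : ℕ ≃ ℕ) : ∃ V : L ≃ₗᵢ[ℂ] L, ∀ v i, V v (σ i) = v i := by
  have ho : Orthonormal ℂ (e ∘ σ) := e.orthonormal.comp _ σ.injective
  let b := HilbertBasis.mk ho (by rw [σ.surjective.range_comp, e.dense_span])
  refine ⟨b.repr.symm, fun v i => ?_⟩
  have : e (σ i) = b.repr.symm (e i) := by
    rw [e_eq i, b.repr_symm_single, HilbertBasis.coe_mk]; rfl
  rw [← inner_e, this, LinearIsometryEquiv.inner_map_map, inner_e]

theorem exists_walk : ∃ w : ℕ → ℤ, (∀ k, |w (k + 1) - w k| ≤ 1) ∧ (∀ k, |w k| ≤ k) ∧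
    ∀ z, {k | w k = z}.Infinite := by
  let w : ℕ → ℤ := fun k => (if k.sqrt % 2 = 0 then 1 else -1) *
    min ((k : ℤ) - (k.sqrt * k.sqrt : ℕ)) ((k.sqrt * k.sqrt : ℕ) + 2 * k.sqrt - k)
  have h1 : ∀ k, |w (k + 1) - w k| ≤ 1 := by
    intro k
    have a1 := Nat.sqrt_le k
    have a2 := Nat.sqrt_le_add k
    have a3 := Nat.sqrt_le (k + 1)
    have a4 : (k + 1).sqrt ≤ k.sqrt + 1 := Nat.sqrt_succ_le_succ_sqrt k
    have a5 : k.sqrt ≤ (k + 1).sqrt := Nat.sqrt_le_sqrt k.le_succ
    simp only [w]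
    rcases a5.eq_or_lt with h | h
    · rw [← h, abs_le]
      generalize k.sqrt * k.sqrt = s at *
      split_ifs <;> omega
    · have e1 : (k + 1).sqrt = k.sqrt + 1 := by omega
      have e2 : (k.sqrt + 1) * (k.sqrt + 1) = k.sqrt * k.sqrt + 2 * k.sqrt + 1 := by ring
      rw [e1, e2] at a3 ⊢
      rw [abs_le]
      generalize k.sqrt * k.sqrt = s at *
      split_ifs <;> omega
  refine ⟨w, h1, fun k => ?_, fun z => ?_⟩
  · induction k with
    | zero => simp [w]
    | succ k ih =>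
      have := h1 k
      rw [abs_le] at *
      omega
  · refine infinite_of_forall_exists_gt fun n => ?_
    obtain ⟨q, h1, h2, h3⟩ : ∃ q : ℕ, n < q ∧ z.natAbs ≤ q ∧ (q % 2 = 0 ↔ 0 ≤ z) := by
      by_cases h : 0 ≤ z
      · exact ⟨2 * (n + 1 + z.natAbs), by omega, by omega, by omega⟩
      · exact ⟨2 * (n + 1 + z.natAbs) + 1, by omega, by omega, by omega⟩
    refine ⟨q * q + z.natAbs, ?_, by have := Nat.le_mul_self q; omega⟩
    simp only [w, mem_ofPred_eq, Nat.sqrt_add_eq q (show z.natAbs ≤ q + q by omega)]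
    generalize q * q = s
    split_ifs <;> omega

open Classical in
theorem sh_of_band (pos : ℕ → ℤ) (hp : ∀ z, {i | pos i = z}.Infinite) :
    ∃ V : L ≃ₗᵢ[ℂ] L, ∀ D : L ≃ₗᵢ[ℂ] L, (∀ m : ℕ, ∑' p : ℕ × ℕ,
      (if 2 ≤ |pos p.1 - pos p.2| ∧ ((m : ℤ) ≤ |pos p.1| ∨ (m : ℤ) ≤ |pos p.2|) then r D p else 0) ≤
        ENNReal.ofReal (1 / 16 * (1 / 2) ^ m) ^ 2) → Sh (D * V) := by
  let c : ℕ → ℤ × Bool := fun i => (pos i / 6, decide (pos i % 6 = 3))
  let c' : ℕ → ℤ × Bool := fun i => (pos i / 6 - 1, decide (pos i % 6 ≠ 1))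
  have hc : ∀ x, Nonempty ({i // c i = x} ≃ {i // c' i = x}) := by
    rintro ⟨t, b⟩
    have : Infinite {i // c i = (t, b)} := by
      refine ((hp (6 * t + if b then 3 else 0)).mono fun i hi => ?_).to_subtype
      simp only [mem_ofPred_eq] at hi
      show c i = (t, b)
      cases b <;> simp [c, hi] <;> omega
    have : Infinite {i // c' i = (t, b)} := by
      refine ((hp (6 * (t + 1) + if b then 0 else 1)).mono fun i hi => ?_).to_subtype
      simp only [mem_ofPred_eq] at hi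
      show c' i = (t, b)
      cases b <;> simp [c', hi] <;> omega
    exact nonempty_equiv_of_countable
  let σ : ℕ ≃ ℕ := Equiv.ofFiberEquiv fun x => (hc x).some
  have hσ : ∀ i, pos (σ i) / 6 - 1 = pos i / 6 ∧ (pos (σ i) % 6 ≠ 1 ↔ pos i % 6 = 3) := by
    intro i
    have : c' (σ i) = c i := Equiv.ofFiberEquiv_map _ i
    exact ⟨congrArg Prod.fst this, decide_eq_decide.1 (congrArg Prod.snd this)⟩
  obtain ⟨V, hV⟩ := exists_perm σ
  refine ⟨V, fun D hD => ?_⟩
  let Φ : ℤ → ℝ := fun h => if 0 ≤ h then 1 / 8 * (1 / 2) ^ h.natAbs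
    else 1 / 4 - 1 / 8 * (1 / 2) ^ h.natAbs
  have hpw : ∀ n : ℕ, (0 : ℝ) < (1 / 2) ^ n ∧ (1 / 2 : ℝ) ^ n ≤ 1 := fun n =>
    ⟨by positivity, pow_le_one₀ (by norm_num) (by norm_num)⟩
  have hΦ : ∀ h, 1 / 16 * (1 / 2) ^ h.natAbs ≤ Φ h - Φ (h + 1) := by
    intro h
    simp only [Φ]
    rcases lt_trichotomy h (-1) with a | a | a
    · rw [if_neg (by omega), if_neg (by omega), show h.natAbs = (h + 1).natAbs + 1 by omega,
        pow_succ]
      linarith [hpw (h + 1).natAbs]
    · subst a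
      norm_num
    · rw [if_pos (by omega), if_pos (by omega), show (h + 1).natAbs = h.natAbs + 1 by omega,
        pow_succ]
      linarith
  have key : ∀ (S : ℤ → Set ℕ), (∀ h i j, i ∈ S h → j ∉ S (h + 1) → 2 ≤ |pos j - pos (σ i)| ∧
      (|h| ≤ |pos j| ∨ |h| ≤ |pos (σ i)|)) → ∀ h, ∀ v ∈ K (S h), ∃ w ∈ K (S (h + 1)),
        ‖(D * V) v - w‖ ≤ (Φ h - Φ (h + 1)) * ‖v‖ ∧ ‖w‖ ≤ ‖v‖ := by
    intro S hS h v hv
    refine ⟨cut _ ((D * V) v), cut_mem _ _, ?_, (norm_cut _ _).trans_eq ((D * V).norm_map v)⟩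
    have h1 : V v ∈ K (σ '' S h) := fun i hi => by
      obtain ⟨i, rfl⟩ := σ.surjective i
      rw [hV]
      exact hv i fun h => hi ⟨i, h, rfl⟩
    refine (hs D _ _ _ h1 (δ := 1 / 16 * (1 / 2) ^ h.natAbs) (by positivity)
      (le_trans (ENNReal.tsum_le_tsum fun p => ?_) (hD h.natAbs))).trans ?_
    · split_ifs with a b
      · exact le_rfl
      · obtain ⟨i, hi, e⟩ := a.2
        exact absurd (by simpa [← e] using hS h i p.1 hi a.1) b
      · exact zero_le
      · exact le_rfl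
    · rw [V.norm_map]
      exact mul_le_mul_of_nonneg_right (hΦ h) (norm_nonneg _)
  let SA : ℤ → Set ℕ := fun h => {i | h + 1 ≤ pos i / 6 ∨ (pos i / 6 = h ∧ pos i % 6 ≠ 3)}
  let SB : ℤ → Set ℕ := fun h => {i | pos i / 6 ≤ h - 2 ∨ (pos i / 6 = h - 1 ∧ pos i % 6 ≠ 3)}
  refine sh_of_approx e (D * V) (fun h => K (SA h)) (fun h => K (SB h)) Φ
    (antitone_int_of_succ_le fun h => by linarith [hΦ h, hpw h.natAbs]) (fun h => ?_) (fun h => ?_)
    ?_ (key SA fun h i j hi hj => ?_) (key SB fun h i j hi hj => ?_) (fun h a ha b hb => ?_)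
    (antitone_int_of_succ_le fun h v hv i hi => hv i fun a => hi ?_) (fun x ε hε => ?_)
    (fun n => ?_) fun hfin => ?_
  · simp only [Φ]
    split_ifs <;> linarith [hpw h.natAbs]
  · simp only [Φ]
    split_ifs <;> linarith [hpw h.natAbs]
  · have : Tendsto (fun h : ℤ => 1 / 8 * (1 / 2 : ℝ) ^ h.toNat) atTop (𝓝 0) := by
      rw [← mul_zero (1 / 8 : ℝ)]
      exact ((tendsto_pow_atTop_nhds_zero_of_lt_one (r := (1 / 2 : ℝ)) (by norm_num)
        (by norm_num)).comp (tendsto_atTop_atTop.2 fun b => ⟨(b : ℤ), fun a ha =>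
          (by omega : b ≤ a.toNat)⟩)).const_mul (1 / 8)
    refine this.congr' ?_
    filter_upwards [eventually_ge_atTop 0] with h hh
    simp only [Φ, if_pos hh, show h.toNat = h.natAbs by omega]
  · have := hσ i
    simp only [SA, mem_ofPred_eq, abs_eq_max_neg] at hi hj ⊢
    omega
  · have := hσ i
    simp only [SB, mem_ofPred_eq, abs_eq_max_neg] at hi hj ⊢
    omega
  · rw [lp.inner_eq_tsum]
    refine (tsum_congr fun i => ?_).trans tsum_zero
    by_cases hi : i ∈ SA h
    · rw [hb i (by simp only [SA, SB, mem_ofPred_eq] at hi ⊢; omega), inner_zero_right]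
    · rw [ha i hi, inner_zero_left]
  · simp only [SA, mem_ofPred_eq] at a ⊢
    omega
  · obtain ⟨s, hs⟩ := (Metric.tendsto_nhds.1 (e.hasSum_repr x) ε hε).exists
    obtain ⟨j, hj⟩ := (s.finite_toSet.image fun i => pos i / 6).bddBelow
    refine ⟨j - 1, _, Submodule.sum_mem _ fun i hi => Submodule.smul_mem _ _ (e_mem (Or.inl ?_)),
      by rwa [dist_comm, dist_eq_norm] at hs⟩
    have := hj ⟨i, hi, rfl⟩
    simp only at this
    omega
  · filter_upwards [eventually_ge_atTop (pos n / 6 + 2)] with j hj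
    exact e_mem (Or.inl (by omega))
  · have : Infinite {i | pos i = 0} := (hp 0).to_subtype
    let f : {i | pos i = 0} → (K (SA 0) ⊓ K (SB 1) : Submodule ℂ L) := fun i =>
      ⟨e i, e_mem (Or.inr (by rw [show pos i = 0 from i.2]; simp)),
        e_mem (Or.inr (by rw [show pos i = 0 from i.2]; simp))⟩
    have hl : LinearIndependent ℂ f := LinearIndependent.of_comp (Submodule.subtype _)
      (e.orthonormal.comp _ Subtype.val_injective).linearIndependent
    exact Module.Finite.not_linearIndependent_of_infinite f hl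

open Classical in
/-- mass of the matrix entries linking the first `N` coordinates with those beyond `n` -/
noncomputable def S (N n : ℕ) (D : L ≃ₗᵢ[ℂ] L) : ℝ≥0∞ :=
  ∑' p : ℕ × ℕ, if (p.2 < N ∧ n ≤ p.1) ∨ (p.1 < N ∧ n ≤ p.2) then r D p else 0

theorem S_tendsto (N : ℕ) (D : L ≃ₗᵢ[ℂ] L) : Tendsto (fun n => S N n D) atTop (𝓝 0) := by
  have h1 : ∀ b, ∑' a, r D (a, b) = 1 := fun b => by
    simp only [r]
    rw [← esq, ← ofReal_norm, D.norm_map, e.orthonormal.1]
    simp
  have h2 : ∀ a, ∑' b, r D (a, b) = 1 := fun a => by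
    simp only [r_symm]
    rw [← esq, ← ofReal_norm, D.symm.norm_map, e.orthonormal.1]
    simp
  have h3 : ∑' a : ℕ, (if a < N then (1 : ℝ≥0∞) else 0) ≠ ⊤ := by
    rw [tsum_eq_sum (s := Finset.range N) (fun b hb => if_neg (by simpa using hb))]
    exact ENNReal.sum_ne_top.2 fun a _ => by split_ifs <;> simp
  have := tendsto_lintegral_of_dominated_convergence (μ := Measure.count) (f := fun _ => 0)
    (F := fun n (p : ℕ × ℕ) => if (p.2 < N ∧ n ≤ p.1) ∨ (p.1 < N ∧ n ≤ p.2) then r D p else 0)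
    (fun p => (if p.2 < N then r D p else 0) + if p.1 < N then r D p else 0)
    (fun _ => Measurable.of_discrete) (fun n => Eventually.of_forall fun p => by
      by_cases a : p.2 < N <;> by_cases b : p.1 < N <;> simp only [a, b, if_true, if_false] <;>
        split_ifs <;> simp_all) (by
      rw [lintegral_count, ENNReal.tsum_add]
      refine ENNReal.add_ne_top.2 ⟨?_, ?_⟩
      · rw [ENNReal.tsum_prod', ENNReal.tsum_comm]
        refine ne_of_eq_of_ne (tsum_congr fun b => ?_) h3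
        split_ifs <;> simp [h1]
      · rw [ENNReal.tsum_prod']
        refine ne_of_eq_of_ne (tsum_congr fun b => ?_) h3
        split_ifs <;> simp [h2]) (Eventually.of_forall fun p => by
      refine tendsto_const_nhds.congr' ?_
      filter_upwards [eventually_gt_atTop (p.1 + p.2)] with n hn
      rw [if_neg (by omega)])
  simpa only [lintegral_count, tsum_zero, S] using this

theorem exists_good {Ω : Type} [MeasurableSpace Ω] (μ : Measure Ω) [IsProbabilityMeasure μ]
    (D : Ω → L ≃ₗᵢ[ℂ] L) (hD : ∀ p, Measurable fun x => r (D x) p) :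
    ∃ V : L ≃ₗᵢ[ℂ] L, μ {x | Sh (D x * V)} ≠ 0 := by
  classical
  let ε : ℕ → ℝ≥0∞ := fun k => ENNReal.ofReal (1 / 16 * (1 / 2) ^ (k + 1)) ^ 2 * 2⁻¹ ^ (k + 1)
  have hε : ∀ k, 0 < ε k := fun k => ENNReal.mul_pos (pow_ne_zero _ (by simp)) (by simp)
  have h1 : ∀ N k : ℕ, ∃ n, N < n ∧ μ {x | ε k < S N n (D x)} ≤ 2⁻¹ ^ (k + 2) := by
    intro N k
    have := tendsto_measure_iInter_atTop (μ := μ) (s := fun n => {x | ε k < S N n (D x)})
      (fun n => (measurableSet_lt measurable_const (Measurable.tsum fun p => by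
        split_ifs
        exacts [hD p, measurable_const])).nullMeasurableSet)
      (fun a b hab x hx => lt_of_lt_of_le hx (ENNReal.tsum_le_tsum fun p => by
        split_ifs with h h'
        exacts [le_rfl, absurd (by omega) h', zero_le, le_rfl])) ⟨0, measure_ne_top _ _⟩
    rw [show ⋂ n, {x | ε k < S N n (D x)} = ∅ from eq_empty_of_forall_notMem fun x hx => by
      obtain ⟨n, hn⟩ := ((S_tendsto N (D x)).eventually (gt_mem_nhds (hε k))).exists
      exact lt_asymm hn (mem_iInter.1 hx n), measure_empty] at this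
    exact ((eventually_gt_atTop N).and (this.eventually (ge_mem_nhds
      (ENNReal.pow_pos (by simp) (k + 2))))).exists
  choose f hf1 hf2 using h1
  obtain ⟨n, hn⟩ : ∃ n : ℕ → ℕ, ∀ k, n (k + 1) = f (n k) k :=
    ⟨fun k => Nat.rec 0 (fun k N => f N k) k, fun k => rfl⟩
  have hnm : StrictMono n := strictMono_nat_of_lt_succ fun k => hn k ▸ hf1 _ _
  have hex : ∀ i, ∃ k, i < n (k + 1) := fun i => ⟨i, hnm.id_le (i + 1)⟩
  let blk : ℕ → ℕ := fun i => Nat.find (hex i)
  have b1 : ∀ i, i < n (blk i + 1) := fun i => Nat.find_spec (hex i)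
  have b2 : ∀ i k, k < blk i → n (k + 1) ≤ i := fun i k h => not_lt.1 (Nat.find_min (hex i) h)
  have b3 : ∀ k, blk (n k) = k := fun k => by
    have a1 : k < blk (n k) + 1 := hnm.lt_iff_lt.1 (b1 (n k))
    by_contra h
    have : k + 1 ≤ k := hnm.le_iff_le.1 (b2 (n k) k (by omega))
    omega
  obtain ⟨w, w1, w2, w3⟩ := exists_walk
  obtain ⟨V, hV⟩ := sh_of_band (fun i => w (blk i)) fun z =>
    ((w3 z).image hnm.injective.injOn).mono (by
      rintro _ ⟨k, hk, rfl⟩
      simpa [b3] using hk)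
  refine ⟨V, fun h0 => ?_⟩
  have hb : μ (⋃ k, {x | ε k < S (n k) (n (k + 1)) (D x)}) ≤ 2⁻¹ := by
    refine (measure_iUnion_le _).trans ((ENNReal.tsum_le_tsum fun k => hn k ▸ hf2 (n k) k).trans ?_)
    simp only [pow_add, ENNReal.tsum_mul_right, ENNReal.tsum_geometric, ENNReal.one_sub_inv_two,
      inv_inv, sq]
    rw [← mul_assoc, ENNReal.mul_inv_cancel (by simp) (by simp), one_mul]
  have hu : (univ : Set Ω) ⊆ {x | Sh (D x * V)} ∪
      ⋃ k, {x | ε k < S (n k) (n (k + 1)) (D x)} := by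
    intro x _
    refine or_iff_not_imp_right.2 fun hx => hV _ fun m => ?_
    simp only [mem_iUnion, mem_ofPred_eq, not_exists, not_lt] at hx
    let c : ℕ → ℕ × ℕ → ℝ≥0∞ := fun k p =>
      if (p.2 < n k ∧ n (k + 1) ≤ p.1) ∨ (p.1 < n k ∧ n (k + 1) ≤ p.2) then r (D x) p else 0
    calc _ ≤ ∑' p : ℕ × ℕ, ∑' k : ℕ, (if m ≤ k + 1 then (1 : ℝ≥0∞) else 0) * c k p := by
          refine ENNReal.tsum_le_tsum fun p => ?_
          split_ifs with h
          swap
          · exact zero_le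
          have hw : ∀ a b, |w a - w b| ≤ 1 ∨ a + 2 ≤ b ∨ b + 2 ≤ a := by
            intro a b
            by_cases h1 : a = b
            · simp [h1]
            by_cases h2 : a = b + 1
            · exact Or.inl (h2 ▸ w1 b)
            by_cases h3 : b = a + 1
            · exact Or.inl (by rw [abs_sub_comm]; exact h3 ▸ w1 a)
            omega
          have a1 := w2 (blk p.1)
          have a2 := w2 (blk p.2)
          rcases hw (blk p.1) (blk p.2) with a | a | a
          · omega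
          · refine le_trans (le_of_eq ?_) (ENNReal.le_tsum (blk p.2 - 1))
            simp only [c]
            rw [if_pos (by omega), if_pos (Or.inr ⟨(b1 _).trans_le (hnm.monotone
              (show blk p.1 + 1 ≤ blk p.2 - 1 by omega)),
              b2 _ _ (by omega)⟩), one_mul]
          · refine le_trans (le_of_eq ?_) (ENNReal.le_tsum (blk p.1 - 1))
            simp only [c]
            rw [if_pos (by omega), if_pos (Or.inl ⟨(b1 _).trans_le (hnm.monotone
              (show blk p.2 + 1 ≤ blk p.1 - 1 by omega)),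
              b2 _ _ (by omega)⟩), one_mul]
      _ ≤ ∑' k : ℕ, ENNReal.ofReal (1 / 16 * (1 / 2) ^ m) ^ 2 * 2⁻¹ ^ (k + 1) := by
          rw [ENNReal.tsum_comm]
          refine ENNReal.tsum_le_tsum fun k => ?_
          rw [ENNReal.tsum_mul_left]
          split_ifs with h
          · rw [one_mul]
            refine (hx k).trans ?_
            simp only [ε]
            gcongr ENNReal.ofReal (_ * ?_) ^ 2 * _
            exact pow_le_pow_of_le_one (by norm_num) (by norm_num) h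
          · simp
      _ = _ := by
          simp only [pow_succ, ENNReal.tsum_mul_left, ENNReal.tsum_mul_right,
            ENNReal.tsum_geometric, ENNReal.one_sub_inv_two, inv_inv]
          rw [ENNReal.mul_inv_cancel (by simp) (by simp), mul_one]
  have := (measure_mono hu).trans (measure_union_le (μ := μ) _ _)
  rw [measure_univ, h0, zero_add] at this
  exact absurd (this.trans hb) (by simp)

end Pool.Agent.H14Shift
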